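import Pool.Agent.H.MP_7783b9_co.W.Greedy

/-!
# Embedding the last vertices
-/

set_option autoImplicit false

open Finset

namespace Pool.MP7783b9

/-- the vertices which are embedded in the first two steps: those with `d x ≤ 3 p` and those
outside of `S₁` with `d x = 3 p + 3` -/
def Early {V : Type*} (p : ℕ) (d : V → ℕ) (S₁ : Finset V) (x : V) : Prop :=
  d x ≤ 3 * p ∨ (x ∉ S₁ ∧ d x = 3 * p + 3)

/-- The vertices with `d x = 3 p + 1, 3 p + 2` and the vertices of `S₁` with `d x = 3 p + 3` are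
embedded at the end; `q k` is the cluster of the label `k`. -/
theorem join_c {V : Type*} {α : Type} [Fintype V] [DecidableEq V] [DecidableEq α]
    (E : Finset (Finset V)) (Δ : ℕ) (hH : Hyp Finset.univ E Δ) (R : Finset α → Prop)
    (U : Finset α) (p : ℕ) (hp : 0 < p) (d c : V → ℕ) (S₁ : Finset V)
    (hdD : ∀ x, d x ≤ 3 * p + 3)
    (hd : ∀ f ∈ E, ∀ x ∈ f, ∀ y ∈ f, d y ≤ d x + 1)
    (hc : ∀ f ∈ E, ∀ x ∈ f, ∀ y ∈ f, 0 < d x → 0 < d y → c x = c y)
    (q : ℕ → Finset α) (N : ℕ) (ε η : ℝ) (hε : 0 < ε) (hη : 0 < η)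
    (hq : ∀ k, q k ⊆ U ∧ (q k).card = N ∧ dense R (q k) ε = ∅)
    (hqd : ∀ k k', q k ≠ q k' → Disjoint (q k) (q k'))
    (Z : Finset α) (β : ℝ) (hβ0 : 0 ≤ β) (hβ1 : ε / η * (N : ℝ) ≤ β) (hβ2 : η * (N : ℝ) ≤ β)
    (hZ : ∀ k, ((Finset.univ.filter fun x => d x < 3 * p + 3).card : ℝ) + 3 * Δ * β <
      ((Z ∩ q k).card : ℝ))
    (Fr : Finset α → Finset α) (hFr1 : ∀ k, Fr (q k) ⊆ q k) (hFr2 : ∀ k, Disjoint (Fr (q k)) Z)
    (hFr3 : ∀ k, ((S₁.filter fun x => d x = 3 * p + 3 ∧ q (c x) = q k).card : ℝ) +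
      3 * Δ * β < ((Fr (q k)).card : ℝ))
    -- the embedding of the early vertices
    (φ₀ : V → α) (hinj : Set.InjOn φ₀ {x | Early p d S₁ x})
    (hφ1 : ∀ f ∈ E, (∃ x ∈ f, ¬ Early p d S₁ x) → ∀ y ∈ f, Early p d S₁ y → φ₀ y ∈ q (c y))
    (hφ2 : ∀ f ∈ E, (∃ x ∈ f, ¬ Early p d S₁ x) → ∀ y ∈ f, Early p d S₁ y →
      ∀ y' ∈ f, Early p d S₁ y' → y ≠ y' →
      ((cod R (q (c y)) (φ₀ y) (φ₀ y')).card : ℝ) < η * (N : ℝ))
    (hφ3 : ∀ y, Early p d S₁ y → φ₀ y ∉ Z ∧ ∀ k, φ₀ y ∉ Fr (q k)) :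
    ∃ φ : V → α, Function.Injective φ ∧ (∀ x, Early p d S₁ x → φ x = φ₀ x) ∧
      (∀ x, ¬ Early p d S₁ x → φ x ∈ U) ∧
      ∀ f ∈ E, (∃ x ∈ f, ¬ Early p d S₁ x) → R (f.image φ) := by
  classical
  set S : Finset V := Finset.univ.filter fun x => ¬ Early p d S₁ x with hS
  have memS : ∀ x, x ∈ S ↔ ¬ Early p d S₁ x := by
    intro x
    rw [hS, Finset.mem_filter]
    exact ⟨fun h => h.2, fun h => ⟨Finset.mem_univ x, h⟩⟩
  have notS : ∀ x, x ∉ S → Early p d S₁ x := by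
    intro x hx
    by_contra hcon
    exact hx ((memS x).2 hcon)
  have late : ∀ x, ¬ Early p d S₁ x → 3 * p + 1 ≤ d x ∧ (d x = 3 * p + 3 → x ∈ S₁) := by
    intro x hx
    unfold Early at hx
    push Not at hx
    refine ⟨hx.1, fun h => ?_⟩
    by_contra hcon
    exact hx.2 hcon h
  let T : V → Finset α := fun x =>
    if d x = 3 * p + 3 then Fr (q (c x)) else Z ∩ q (c x)
  have hTF : ∀ x, d x = 3 * p + 3 → T x = Fr (q (c x)) := fun x hx => if_pos hx
  have hTZ : ∀ x, d x ≠ 3 * p + 3 → T x = Z ∩ q (c x) := fun x hx => if_neg hx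
  clear_value T
  have hTq : ∀ x, T x ⊆ q (c x) := by
    intro x
    by_cases h1 : d x = 3 * p + 3
    · rw [hTF x h1]
      exact hFr1 (c x)
    · rw [hTZ x h1]
      exact Finset.inter_subset_right
  have hTZ' : ∀ x, d x ≠ 3 * p + 3 → T x ⊆ Z := by
    intro x hx
    rw [hTZ x hx]
    exact Finset.inter_subset_left
  have hφ : ∀ x ∉ S, ∀ s ∈ S, φ₀ x ∉ T s := by
    intro x hx s _ hxs
    obtain ⟨h3, h4⟩ := hφ3 x (notS x hx)
    by_cases h5 : d s = 3 * p + 3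
    · rw [hTF s h5] at hxs
      exact h4 _ hxs
    · exact h3 (hTZ' s h5 hxs)
  have hf : ∀ f ∈ E, (f ∩ S).Nonempty → ∃ (W : Finset α) (ε η : ℝ), 0 < ε ∧ 0 < η ∧
      dense R W ε = ∅ ∧
      (∀ s ∈ f, s ∈ S → T s ⊆ W ∧ ε / η * (W.card : ℝ) ≤ β ∧ η * (W.card : ℝ) ≤ β) ∧
      (∀ y ∈ f, y ∉ S → φ₀ y ∈ W) ∧
      (∀ y ∈ f, y ∉ S → ∀ y' ∈ f, y' ∉ S → y ≠ y' →
        ((cod R W (φ₀ y) (φ₀ y')).card : ℝ) < η * (W.card : ℝ)) := by
    intro f hfE hne
    obtain ⟨x, hx⟩ := hne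
    rw [Finset.mem_inter] at hx
    have hxE : ¬ Early p d S₁ x := (memS x).1 hx.2
    have hex : ∃ x ∈ f, ¬ Early p d S₁ x := ⟨x, hx.1, hxE⟩
    have hx1 := (late x hxE).1
    have hsame : ∀ y ∈ f, c y = c x := by
      intro y hy
      have h1 := hd f hfE y hy x hx.1
      exact hc f hfE y hy x hx.1 (by omega) (by omega)
    obtain ⟨g1, g2, g3⟩ := hq (c x)
    refine ⟨q (c x), ε, η, hε, hη, g3, ?_, ?_, ?_⟩
    · intro z hz _
      rw [g2]
      refine ⟨?_, hβ1, hβ2⟩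
      rw [← hsame z hz]
      exact hTq z
    · intro y hy hyS
      rw [← hsame y hy]
      exact hφ1 f hfE hex y hy (notS y hyS)
    · intro y hy hyS y' hy' hyS' hyy
      rw [g2, ← hsame y hy]
      exact hφ2 f hfE hex y hy (notS y hyS) y' hy' (notS y' hyS') hyy
  have hinj' : Set.InjOn φ₀ {x | x ∉ S} := by
    refine hinj.mono ?_
    intro x hx
    exact notS x hx
  have hT : ∀ s ∈ S, ((S.filter fun s' => ¬ Disjoint (T s) (T s')).card : ℝ) + 3 * Δ * β
      < ((T s).card : ℝ) := by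
    intro s hs
    by_cases h1 : d s = 3 * p + 3
    · have h2 := hTF s h1
      have hsub : (S.filter fun s' => ¬ Disjoint (T s) (T s')) ⊆
          S₁.filter fun x => d x = 3 * p + 3 ∧ q (c x) = q (c s) := by
        intro s' hs'
        rw [Finset.mem_filter] at hs' ⊢
        obtain ⟨hs1, hs2⟩ := hs'
        have h4 : d s' = 3 * p + 3 := by
          by_contra hcon
          apply hs2
          rw [h2]
          exact Finset.disjoint_of_subset_right (hTZ' s' hcon) (hFr2 (c s))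
        have h5 : s' ∈ S₁ := (late s' ((memS s').1 hs1)).2 h4
        refine ⟨h5, h4, ?_⟩
        by_contra hcon
        apply hs2
        exact Finset.disjoint_of_subset_left (hTq s)
          (Finset.disjoint_of_subset_right (hTq s') (hqd _ _ (fun h => hcon h.symm)))
      have hcard : ((S.filter fun s' => ¬ Disjoint (T s) (T s')).card : ℝ) ≤
          ((S₁.filter fun x => d x = 3 * p + 3 ∧ q (c x) = q (c s)).card : ℝ) := by
        exact_mod_cast Finset.card_le_card hsub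
      have h4 := hFr3 (c s)
      rw [h2] at hcard
      rw [h2]
      linarith only [hcard, h4]
    · have hsub : (S.filter fun s' => ¬ Disjoint (T s) (T s')) ⊆
          Finset.univ.filter fun x => d x < 3 * p + 3 := by
        intro s' hs'
        rw [Finset.mem_filter] at hs' ⊢
        refine ⟨Finset.mem_univ _, ?_⟩
        by_contra hcon
        have h4 : d s' = 3 * p + 3 := by
          have := hdD s'
          omega
        apply hs'.2
        rw [hTF s' h4]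
        exact (Finset.disjoint_of_subset_right (hTZ' s h1) (hFr2 (c s'))).symm
      have hcard : ((S.filter fun s' => ¬ Disjoint (T s) (T s')).card : ℝ) ≤
          ((Finset.univ.filter fun x => d x < 3 * p + 3).card : ℝ) := by
        exact_mod_cast Finset.card_le_card hsub
      have hz := hZ (c s)
      rw [hTZ s h1] at hcard
      rw [hTZ s h1]
      linarith only [hz, hcard]
  obtain ⟨φ, p1, p2, p3, p4⟩ := greedy_sep E Δ hH.three hH.deg R S T φ₀ (fun _ => β)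
    (fun _ => hβ0) hφ hf hinj' hT
  refine ⟨φ, p3, ?_, ?_, ?_⟩
  · intro x hx
    apply p1
    rw [memS]
    exact fun h => h hx
  · intro x hx
    exact (hq _).1 (hTq x (p2 x ((memS x).2 hx)))
  · rintro f hfE ⟨x, hx, hx'⟩
    exact p4 f hfE ⟨x, Finset.mem_inter.2 ⟨hx, (memS x).2 hx'⟩⟩

end Pool.MP7783b9
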