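import Pool.Agent.H.MP_7783b9_co.X.JoinA
import Pool.Agent.H.MP_7783b9_co.X.JoinC
import Pool.Agent.H.MP_7783b9_co.W.Assem

/-!
# The red copy when the structure of the colouring and the cut of the hypergraph are given,
with paths of modes
-/

set_option autoImplicit false

open Finset

namespace Pool.MP7783b9

theorem assemble_x (t : ℕ) :
    ∃ r : ℕ, ∀ {V : Type*} {α : Type} [Fintype V] [Nonempty V] [DecidableEq V] [DecidableEq α]
    (E : Finset (Finset V)) (Δ : ℕ) (_ : Hyp Finset.univ E Δ) (R : Finset α → Prop)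
    (U : Finset α) (_ : ¬ BlueFano R U) (D₀ : ℝ)
    (_ : ∀ D ⊆ U, RedClique R D → (D.card : ℝ) < D₀)
    -- the cut of the hypergraph
    (p : ℕ) (_ : 2 ≤ p) (d c₁ c₂ : V → ℕ) (S₁ : Finset V) (_ : ∀ x, d x ≤ 3 * p + 3)
    (_ : ∀ f ∈ E, ∀ x ∈ f, ∀ y ∈ f, d y ≤ d x + 1)
    (_ : ∀ f ∈ E, ∀ x ∈ f, ∀ y ∈ f, x ∉ S₁ → y ∉ S₁ → c₁ x = c₁ y)
    (_ : ∀ i, (Finset.univ.filter fun x => x ∉ S₁ ∧ c₁ x = i).card ≤ t)
    (_ : ∀ f ∈ E, ∀ x ∈ f, ∀ y ∈ f, 0 < d x → 0 < d y → c₂ x = c₂ y) (K₂ : ℕ)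
    (_ : ∀ i, (Finset.univ.filter fun x => 0 < d x ∧ c₂ x = i).card ≤ K₂)
    (col : V → Fin 3)
    (_ : ∀ f ∈ E, (∃ x ∈ f, d x ≤ 3 * p) → ∀ x ∈ f, ∀ y ∈ f, x ≠ y → col x ≠ col y)
    (I : Finset V) (_ : ∀ f ∈ E, (f ∩ I).card ≤ 1)
    (_ : ∀ x ∈ I, x ∉ S₁ ∧ d x = 3 * p + 3 ∧ ∀ f ∈ E, x ∈ f → ∀ y ∈ f, y ∉ S₁ ∧
      d y = 3 * p + 3)
    -- the clusters
    (N : ℕ) (ε η : ℝ) (_ : 0 < ε) (_ : 0 < η) (J : Finset (Finset α)) (_ : J.Nonempty)
    (C₀ C₁ : Finset α) (mk : Finset α → Prop) (q : Finset α → ℕ → Finset α)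
    (_ : ∀ C ∈ J, q C 0 = C₀ ∧ (∀ i, p ≤ i → q C i = C) ∧ (mk C → q C 1 = C₀ ∧ q C 2 = C₁) ∧
      ∀ i, q C i ⊆ U ∧ (q C i).card = N ∧ dense R (q C i) ε = ∅)
    (_ : ∀ C ∈ J, ∀ C' ∈ J, C ≠ C' → Disjoint C C')
    (LA LA' : Finset α → Finset α → Finset α) (εl ηl m : ℝ) (_ : 0 < εl) (_ : 0 < ηl)
    (_ : m ≤ (N : ℝ))
    (_ : ∀ C ∈ J, ∀ i, (mk C → 2 ≤ i) → q C i ≠ q C (i + 1) →
      LA (q C i) (q C (i + 1)) ⊆ q C i ∧ LA' (q C i) (q C (i + 1)) ⊆ q C (i + 1) ∧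
      (LA (q C i) (q C (i + 1))).card = (LA' (q C i) (q C (i + 1))).card ∧
      m ≤ ((LA (q C i) (q C (i + 1))).card : ℝ) ∧
      dense R (LA (q C i) (q C (i + 1)) ∪ LA' (q C i) (q C (i + 1))) εl = ∅)
    (M : ℕ → Fin 3 → Finset α) (l : ℝ) (_ : m ≤ l)
    (_ : (∃ C ∈ J, mk C) → (∀ j ≤ 4, ∀ i, M j i ⊆ U) ∧ ModePath R εl l C₀ C₁ M)
    (β βl : ℝ) (_ : ε / η * (N : ℝ) ≤ β) (_ : η * (N : ℝ) ≤ β)
    (_ : εl / ηl ≤ βl) (_ : ηl ≤ βl) (_ : 48 * ((Δ : ℝ) + 1) * βl ≤ 1)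
    -- the number of vertices near the second separator
    (sa : ℕ) (_ : (Finset.univ.filter fun x => d x < 3 * p + 3).card ≤ sa)
    (_ : (sa : ℝ) + 3 * Δ * β < m / 2)
    -- the reserved set
    (Z : Finset α) (_ : ∀ C ∈ J, 2 * (sa : ℝ) + 3 * Δ * β < ((Z ∩ C).card : ℝ))
    -- the regions for the base vertices and for the inserted vertices
    (Xs O : Finset α) (_ : Disjoint Xs Z) (_ : O ⊆ U) (_ : Disjoint O Xs) (_ : Disjoint O Z)
    (z : ℕ) (_ : 3 * Δ * β < (z : ℝ))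
    (_ : r * (ε / η) * (N : ℝ) + (r : ℝ) ^ 2 * η * (N : ℝ) + 17 * r < (z : ℝ))
    (_ : ∀ C ∈ J, 2 * z + sa ≤ (C ∩ Xs).card)
    (_ : (Finset.univ.filter fun x => x ∉ I).card + J.card * K₂ + J.card * z + J.card * sa ≤
      ∑ C ∈ J, (C ∩ Xs).card)
    (_ : (I.card : ℝ) + (D₀ + 4 * 2 ^ r * t) + 1 + sa ≤ (O.card : ℝ)),
    HasRed R Finset.univ E U := by
  classical
  obtain ⟨r, hr⟩ := gadget_step t
  refine ⟨r, ?_⟩
  intro V α _ _ _ _ E Δ hH R U hBF D₀ hD₀ p hp d c₁ c₂ S₁ hdD hd hc1 hc1t hc2 K₂ hc2K col hcol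
    I hI hIS N ε η hε hη J hJ C₀ C₁ mk q hq hJd LA LA' εl ηl m hεl hηl hmN hL M l hml hM β βl
    hβ1 hβ2 hβl hβl2 hβl3 sa hsa hnum Z hZ Xs O hXZ hOU hOX hOZ z hz1 hz2 hJz hsum hO
  -- elementary facts
  have hβ0 : 0 ≤ β := le_trans (mul_nonneg (div_nonneg hε.le hη.le) (Nat.cast_nonneg N)) hβ1
  have hqJ : ∀ C ∈ J, C ⊆ U ∧ C.card = N ∧ dense R C ε = ∅ := by
    intro C hC
    obtain ⟨-, h1, -, h2⟩ := hq C hC
    have := h2 p
    rwa [h1 p le_rfl] at this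
  have _ : Nonempty α := by
    obtain ⟨C, hC⟩ := hJ
    have h1 := hJz C hC
    have hz0 : 0 < z := by
      have h1 : (0 : ℝ) < z := lt_of_le_of_lt
        (mul_nonneg (mul_nonneg (by norm_num) (Nat.cast_nonneg Δ)) hβ0) hz1
      exact_mod_cast h1
    have h2 : (C ∩ Xs).Nonempty := by
      rw [← card_pos]
      omega
    obtain ⟨x, -⟩ := h2
    exact ⟨x⟩
  have hD₀0 : 0 < D₀ := by
    have h1 := hD₀ ∅ (empty_subset _) (by
      intro f hf hc
      rw [subset_empty.1 hf] at hc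
      simp at hc)
    simpa using h1
  -- assignment of the labels of the second cut
  obtain ⟨X0, hX0⟩ : ∃ X0 : Finset V, X0 = univ.filter fun x => d x = 3 * p + 3 ∧ x ∉ I :=
    ⟨_, rfl⟩
  have mX0 : ∀ x, x ∈ X0 ↔ d x = 3 * p + 3 ∧ x ∉ I := by
    intro x
    rw [hX0, mem_filter]
    simp only [mem_univ, true_and]
  obtain ⟨lb, hlJ, hlc⟩ := Assem_pack X0 c₂ J hJ (fun C => (C ∩ Xs).card - (z + sa)) K₂ (by
    intro k
    refine le_trans (card_le_card ?_) (hc2K k)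
    intro x hx
    obtain ⟨h1, h2⟩ := mem_filter.1 hx
    have h3 := ((mX0 x).1 h1).1
    exact mem_filter.2 ⟨mem_univ _, by omega, h2⟩) (by
    have h1 : X0.card ≤ (univ.filter fun x => x ∉ I).card := by
      refine card_le_card fun x hx => mem_filter.2 ⟨mem_univ _, ((mX0 x).1 hx).2⟩
    have h2 : ∑ C ∈ J, (C ∩ Xs).card =
        ∑ C ∈ J, ((C ∩ Xs).card - (z + sa)) + J.card * (z + sa) := by
      rw [← smul_eq_mul, ← sum_const, ← sum_add_distrib]
      refine sum_congr rfl fun C hC => ?_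
      have := hJz C hC
      omega
    rw [Nat.mul_add] at h2
    omega)
  have hqp : ∀ k, q (lb k) p = lb k := fun k => (hq (lb k) (hlJ k)).2.1 p le_rfl
  -- the vertices with `d x ≤ 3 p`
  have hsa' : (univ.filter fun x => d x ≤ 3 * p).card ≤ sa := by
    refine le_trans (card_le_card fun x hx => ?_) hsa
    have h1 := (mem_filter.1 hx).2
    exact mem_filter.2 ⟨mem_univ _, by omega⟩
  obtain ⟨φa, ha1, ha2, ha3, ha4, ha5⟩ := join_a E Δ hH R U p hp d c₂ hd hc2 col hcol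
    (fun k i => q (lb k) i) C₀ C₁ (fun k => mk (lb k)) (fun k => (hq (lb k) (hlJ k)).1)
    (fun k i hi => by
      have h1 := (hq (lb k) (hlJ k)).2.1
      change q (lb k) i = q (lb k) p
      rw [h1 i hi, h1 p le_rfl])
    (fun k hk => (hq (lb k) (hlJ k)).2.2.1 hk) N ε η hε hη
    (fun k i => (hq (lb k) (hlJ k)).2.2.2 i) LA LA' εl ηl m hεl hηl hmN
    (fun k i hk hne => hL (lb k) (hlJ k) i hk hne) M l hml
    (fun ⟨k, hk⟩ => hM ⟨lb k, hlJ k, hk⟩) β βl hβ0 hβ1 hβ2 hβl hβl2 hβl3 (by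
      have h1 : ((univ.filter fun x => d x ≤ 3 * p).card : ℝ) ≤ sa := by exact_mod_cast hsa'
      linarith only [h1, hnum])
  obtain ⟨Φ, hΦ⟩ : ∃ Φ : Finset α, Φ = (univ.filter fun x => d x ≤ 3 * p).image φa := ⟨_, rfl⟩
  have mΦ : ∀ x, d x ≤ 3 * p → φa x ∈ Φ := fun x hx => by
    rw [hΦ]
    exact mem_image_of_mem φa (mem_filter.2 ⟨mem_univ _, hx⟩)
  have hΦc : Φ.card ≤ sa := by
    rw [hΦ]
    exact card_image_le.trans hsa'
  obtain ⟨Xt, hXt⟩ : ∃ Xt : Finset α, Xt = Xs \ Φ := ⟨_, rfl⟩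
  obtain ⟨Ot, hOt⟩ : ∃ Ot : Finset α, Ot = O \ Φ := ⟨_, rfl⟩
  obtain ⟨Zt, hZt⟩ : ∃ Zt : Finset α, Zt = Z \ Φ := ⟨_, rfl⟩
  have hXtX : Xt ⊆ Xs := by
    rw [hXt]
    exact sdiff_subset
  have hOtO : Ot ⊆ O := by
    rw [hOt]
    exact sdiff_subset
  have hZtZ : Zt ⊆ Z := by
    rw [hZt]
    exact sdiff_subset
  have nXt : ∀ v ∈ Φ, v ∉ Xt := fun v hv h => by
    rw [hXt] at h
    exact (mem_sdiff.1 h).2 hv
  have nOt : ∀ v ∈ Φ, v ∉ Ot := fun v hv h => by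
    rw [hOt] at h
    exact (mem_sdiff.1 h).2 hv
  have nZt : ∀ v ∈ Φ, v ∉ Zt := fun v hv h => by
    rw [hZt] at h
    exact (mem_sdiff.1 h).2 hv
  have cXt : ∀ C, (C ∩ Xs).card ≤ (C ∩ Xt).card + sa := by
    intro C
    have h1 : C ∩ Xs ⊆ (C ∩ Xt) ∪ Φ := by
      intro x hx
      obtain ⟨h2, h3⟩ := mem_inter.1 hx
      by_cases h4 : x ∈ Φ
      · exact mem_union_right _ h4
      · refine mem_union_left _ (mem_inter.2 ⟨h2, ?_⟩)
        rw [hXt]
        exact mem_sdiff.2 ⟨h3, h4⟩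
    have h2 := card_le_card h1
    have h3 := card_union_le (C ∩ Xt) Φ
    omega
  have cZt : ∀ C, (Z ∩ C).card ≤ (Zt ∩ C).card + sa := by
    intro C
    have h1 : Z ∩ C ⊆ (Zt ∩ C) ∪ Φ := by
      intro x hx
      obtain ⟨h2, h3⟩ := mem_inter.1 hx
      by_cases h4 : x ∈ Φ
      · exact mem_union_right _ h4
      · refine mem_union_left _ (mem_inter.2 ⟨?_, h3⟩)
        rw [hZt]
        exact mem_sdiff.2 ⟨h2, h4⟩
    have h2 := card_le_card h1
    have h3 := card_union_le (Zt ∩ C) Φ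
    omega
  have cOt : O.card ≤ Ot.card + sa := by
    have h1 : O ⊆ Ot ∪ Φ := by
      intro x hx
      by_cases h4 : x ∈ Φ
      · exact mem_union_right _ h4
      · refine mem_union_left _ ?_
        rw [hOt]
        exact mem_sdiff.2 ⟨hx, h4⟩
    have h2 := card_le_card h1
    have h3 := card_union_le Ot Φ
    omega
  have hXZt : Disjoint Xt Zt := disjoint_of_subset_left hXtX (disjoint_of_subset_right hZtZ hXZ)
  have hOXt : Disjoint Ot Xt := disjoint_of_subset_left hOtO (disjoint_of_subset_right hXtX hOX)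
  have hOZt : Disjoint Ot Zt := disjoint_of_subset_left hOtO (disjoint_of_subset_right hZtZ hOZ)
  -- the pieces
  obtain ⟨pc, hpc⟩ : ∃ pc : V → ℕ × ℕ, ∀ x, pc x = (c₁ x, c₂ x) := ⟨fun x => (c₁ x, c₂ x), fun _ => rfl⟩
  obtain ⟨X1, hX1⟩ : ∃ X1 : Finset V, X1 = univ.filter fun x => x ∉ S₁ ∧ d x = 3 * p + 3 :=
    ⟨_, rfl⟩
  have mX1 : ∀ x, x ∈ X1 ↔ x ∉ S₁ ∧ d x = 3 * p + 3 := by
    intro x
    rw [hX1, mem_filter]
    simp only [mem_univ, true_and]
  obtain ⟨P, hP⟩ : ∃ P : Finset (ℕ × ℕ), P = X1.image pc := ⟨_, rfl⟩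
  have hPm : ∀ x ∈ X1, pc x ∈ P := fun x hx => hP ▸ mem_image_of_mem pc hx
  obtain ⟨a, ha⟩ : ∃ a : ℕ × ℕ → ℕ, ∀ k, a k =
      ((X1.filter fun x => x ∉ I).filter fun x => pc x = k).card := ⟨_, fun _ => rfl⟩
  obtain ⟨j, hj⟩ : ∃ j : ℕ × ℕ → ℕ, ∀ k, j k =
      ((X1.filter fun x => x ∈ I).filter fun x => pc x = k).card := ⟨_, fun _ => rfl⟩
  have hsubt : ∀ (k : ℕ × ℕ) (X : Finset V), X ⊆ X1 → (X.filter fun x => pc x = k).card ≤ t := by
    intro k X hX
    refine le_trans (card_le_card ?_) (hc1t k.1)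
    intro x hx
    obtain ⟨h1, h2⟩ := mem_filter.1 hx
    refine mem_filter.2 ⟨mem_univ _, ((mX1 x).1 (hX h1)).1, ?_⟩
    rw [hpc] at h2
    rw [← h2]
  have hat : ∀ k ∈ P, a k ≤ t := fun k _ => by
    rw [ha]
    exact hsubt k _ (filter_subset _ _)
  have hjt : ∀ k ∈ P, j k ≤ t := fun k _ => by
    rw [hj]
    exact hsubt k _ (filter_subset _ _)
  obtain ⟨g, hg⟩ : ∃ g : ℕ, g = ⌈D₀ + 4 * 2 ^ r * t⌉₊ := ⟨_, rfl⟩
  have hg1 : D₀ + 4 * 2 ^ r * t ≤ g := hg ▸ Nat.le_ceil _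
  have hg2 : (g : ℝ) < D₀ + 4 * 2 ^ r * t + 1 := by
    rw [hg]
    exact Nat.ceil_lt_add_one (by positivity)
  have hasum : ∀ C, ∑ k ∈ P with lb k.2 = C, a k =
      ((X1.filter fun x => x ∉ I).filter fun x => lb (c₂ x) = C).card := by
    intro C
    have h1 := Assem_fib (X1.filter fun x => x ∉ I) pc P
      (fun x hx => hPm x (mem_filter.1 hx).1) (fun k => lb k.2 = C)
    simp only [hpc] at h1
    rw [← h1]
    refine sum_congr rfl fun k _ => ?_
    rw [ha]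
    simp only [hpc]
  have hload2 : ∀ C ∈ J, ((X1.filter fun x => x ∉ I).filter fun x => lb (c₂ x) = C).card +
      (S₁.filter fun x => d x = 3 * p + 3 ∧ lb (c₂ x) = C).card + z ≤ (C ∩ Xt).card := by
    intro C hC
    have h1 := hlc C hC
    have h2 := hJz C hC
    have h2' := cXt C
    have h3 : Disjoint ((X1.filter fun x => x ∉ I).filter fun x => lb (c₂ x) = C)
        (S₁.filter fun x => d x = 3 * p + 3 ∧ lb (c₂ x) = C) := by
      rw [disjoint_left]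
      intro x hx hx'
      exact ((mX1 x).1 (mem_filter.1 (mem_filter.1 hx).1).1).1 (mem_filter.1 hx').1
    have h4 : ((X1.filter fun x => x ∉ I).filter fun x => lb (c₂ x) = C) ∪
        (S₁.filter fun x => d x = 3 * p + 3 ∧ lb (c₂ x) = C) ⊆
        X0.filter fun x => lb (c₂ x) = C := by
      intro x hx
      rcases mem_union.1 hx with hx | hx
      · obtain ⟨h5, h6⟩ := mem_filter.1 hx
        obtain ⟨h7, h8⟩ := mem_filter.1 h5
        exact mem_filter.2 ⟨(mX0 x).2 ⟨((mX1 x).1 h7).2, h8⟩, h6⟩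
      · obtain ⟨h5, h6, h7⟩ := mem_filter.1 hx
        exact mem_filter.2 ⟨(mX0 x).2 ⟨h6, fun h8 => (hIS x h8).1 h5⟩, h7⟩
    have h5 := card_le_card h4
    rw [card_union_of_disjoint h3] at h5
    omega
  obtain ⟨Y, Vs, hYV, hYVd⟩ := pieces_seq R Xt Ot ε η P (fun k => lb k.2) a j t z g hat hjt (by
    intro k hk F hF hzF G hG hgG
    have hC := hqJ (lb k.2) (hlJ k.2)
    have hzF' : (z : ℝ) ≤ F.card := by exact_mod_cast hzF
    have hgG' : (g : ℝ) ≤ G.card := by exact_mod_cast hgG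
    refine hr R U hBF (lb k.2) hC.1 ε η hε hη hC.2.2 F (hF.trans inter_subset_left) ?_ D₀ hD₀ G
      ((hG.trans hOtO).trans hOU) (hg1.trans hgG')
    rw [hC.2.1]
    exact lt_of_lt_of_le hz2 hzF') (by
    intro k hk
    have h1 := hasum (lb k.2)
    have h2 := hload2 (lb k.2) (hlJ k.2)
    change ∑ k' ∈ P with lb k'.2 = lb k.2, a k' + z ≤ (lb k.2 ∩ Xt).card
    rw [h1]
    omega) (fun k _ k' _ hne => hJd _ (hlJ _) _ (hlJ _) hne) (by
    have h1 := Assem_fib (X1.filter fun x => x ∈ I) pc P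
      (fun x hx => hPm x (mem_filter.1 hx).1) (fun _ => True)
    rw [filter_true_of_mem (fun _ _ => trivial), filter_true_of_mem (fun _ _ => trivial)] at h1
    have h2 : ∑ k ∈ P, j k = (X1.filter fun x => x ∈ I).card := by
      rw [← h1]
      exact sum_congr rfl fun k _ => hj k
    have h3 : (X1.filter fun x => x ∈ I).card ≤ I.card :=
      card_le_card fun x hx => (mem_filter.1 hx).2
    have h4 : ((X1.filter fun x => x ∈ I).card : ℝ) ≤ I.card := by exact_mod_cast h3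
    have h6 : (O.card : ℝ) ≤ Ot.card + sa := by exact_mod_cast cOt
    have h5 : ((∑ k ∈ P, j k + g : ℕ) : ℝ) ≤ Ot.card := by
      rw [h2]
      push_cast
      linarith only [h4, hg2, hO, h6]
    exact_mod_cast h5)
  -- the embedding of the vertices of the pieces
  obtain ⟨S, hS⟩ : ∃ S : Finset V, S = univ.filter fun x => x ∈ S₁ ∨ d x < 3 * p + 3 := ⟨_, rfl⟩
  have mS : ∀ x, x ∈ S ↔ (x ∈ S₁ ∨ d x < 3 * p + 3) := by
    intro x
    rw [hS, mem_filter]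
    simp only [mem_univ, true_and]
  have mS' : ∀ x, x ∉ S ↔ x ∈ X1 := by
    intro x
    rw [mS, mX1]
    have := hdD x
    constructor
    · intro h
      push Not at h
      exact ⟨h.1, by omega⟩
    · rintro ⟨h1, h2⟩ (h | h)
      · exact h1 h
      · omega
  have hPS : ∀ x ∉ S, pc x ∈ P := fun x hx => hPm x ((mS' x).1 hx)
  obtain ⟨φ₀, hφi, hφY, hφV, hφR⟩ := phi_pieces E hH.three S I pc (by
    intro f hf x hx y hy hxS hyS
    have h1 := (mX1 x).1 ((mS' x).1 hxS)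
    have h2 := (mX1 y).1 ((mS' y).1 hyS)
    rw [hpc, hpc, hc1 f hf x hx y hy h1.1 h2.1,
      hc2 f hf x hx y hy (by omega) (by omega)]) hI R Y Vs (by
    intro x hx
    have h1 := hYV (pc x) (hPS x hx)
    refine ⟨h1.2.1.red, ?_⟩
    rw [h1.2.2.1, ha]
    congr 1
    ext y
    simp only [mem_filter, mem_univ, true_and, mS', and_assoc]) (by
    intro x hx
    have h1 := hYV (pc x) (hPS x hx)
    refine ⟨?_, h1.2.2.2.2.2⟩
    rw [h1.2.2.2.2.1, hj]
    congr 1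
    ext y
    simp only [mem_filter, mem_univ, true_and, mS', and_assoc])
    (fun x hx y hy hne => hYVd _ (hPS x hx) _ (hPS y hy) hne) (by
    intro x hx y hy
    have h1 := (hYV (pc x) (hPS x hx)).1
    have h2 := (hYV (pc y) (hPS y hy)).2.2.2.1
    exact disjoint_of_subset_left (h1.trans inter_subset_right)
      (disjoint_of_subset_right h2 hOXt.symm))
  -- an edge which meets `S` does not meet `I`
  have hSI : ∀ f ∈ E, (∃ x ∈ f, x ∈ S₁ ∨ d x < 3 * p + 3) → ∀ y ∈ f, y ∉ I := by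
    rintro f hf ⟨x, hx, h1⟩ y hy hyI
    have h2 := (hIS y hyI).2.2 f hf hy x hx
    rcases h1 with h1 | h1
    · exact h2.1 h1
    · omega
  obtain ⟨Fr, hFr⟩ : ∃ Fr : Finset α → Finset α, ∀ C, Fr C = (C ∩ Xt) \ P.biUnion Y :=
    ⟨_, fun _ => rfl⟩
  have hFrX : ∀ C, Fr C ⊆ C ∩ Xt := fun C => by
    rw [hFr]
    exact sdiff_subset
  have hFrc : ∀ C ∈ J, (S₁.filter fun x => d x = 3 * p + 3 ∧ lb (c₂ x) = C).card + z ≤
      (Fr C).card := by
    intro C hC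
    have h1 := hload2 C hC
    have h2 : (C ∩ Xt) ⊆ Fr C ∪ (P.filter fun k => lb k.2 = C).biUnion Y := by
      intro x hx
      by_cases hxY : x ∈ P.biUnion Y
      · obtain ⟨k, hk, hxk⟩ := mem_biUnion.1 hxY
        refine mem_union_right _ (mem_biUnion.2 ⟨k, mem_filter.2 ⟨hk, ?_⟩, hxk⟩)
        by_contra hne
        have h3 := hJd _ (hlJ k.2) _ hC hne
        exact disjoint_left.1 h3 (mem_inter.1 ((hYV k hk).1 hxk)).1 (mem_inter.1 hx).1
      · refine mem_union_left _ ?_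
        rw [hFr]
        exact mem_sdiff.2 ⟨hx, hxY⟩
    have h3 := card_le_card h2
    have h4 := card_union_le (Fr C) ((P.filter fun k => lb k.2 = C).biUnion Y)
    have h5 : ((P.filter fun k => lb k.2 = C).biUnion Y).card ≤
        ((X1.filter fun x => x ∉ I).filter fun x => lb (c₂ x) = C).card := by
      rw [← hasum]
      refine card_biUnion_le.trans (sum_le_sum fun k hk => ?_)
      exact (hYV k (mem_filter.1 hk).1).2.2.1.le
    omega
  have hyY : ∀ y, y ∉ S₁ → d y = 3 * p + 3 → y ∉ I → φ₀ y ∈ Y (pc y) ∧ pc y ∈ P := by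
    intro y h1 h2 h3
    have h4 : y ∉ S := (mS' y).2 ((mX1 y).2 ⟨h1, h2⟩)
    exact ⟨hφY y h4 h3, hPS y h4⟩
  have hyV : ∀ y, y ∉ S₁ → d y = 3 * p + 3 → y ∈ I → φ₀ y ∈ Ot := by
    intro y h1 h2 h3
    have h4 : y ∉ S := (mS' y).2 ((mX1 y).2 ⟨h1, h2⟩)
    exact (hYV _ (hPS y h4)).2.2.2.1 (hφV y h4 h3)
  have hlpc : ∀ y, (pc y).2 = c₂ y := fun y => by rw [hpc]
  have hyU : ∀ y, y ∉ S₁ → d y = 3 * p + 3 → φ₀ y ∈ U ∧ φ₀ y ∉ Φ := by
    intro y h1 h2
    by_cases h3 : y ∈ I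
    · have h4 := hyV y h1 h2 h3
      exact ⟨hOU (hOtO h4), fun h5 => nOt _ h5 h4⟩
    · obtain ⟨h4, h5⟩ := hyY y h1 h2 h3
      have h6 := mem_inter.1 ((hYV _ h5).1 h4)
      exact ⟨(hqJ _ (hlJ _)).1 h6.1, fun h7 => nXt _ h7 h6.2⟩
  -- the two embeddings together
  obtain ⟨φ₁, hφ₁⟩ : ∃ φ₁ : V → α, ∀ x, φ₁ x = if d x ≤ 3 * p then φa x else φ₀ x :=
    ⟨_, fun _ => rfl⟩
  have e1 : ∀ x, d x ≤ 3 * p → φ₁ x = φa x := fun x hx => by rw [hφ₁, if_pos hx]
  have e2 : ∀ x, d x = 3 * p + 3 → φ₁ x = φ₀ x := fun x hx => by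
    rw [hφ₁, if_neg (by omega)]
  -- vertices which are not early
  have late : ∀ x, ¬ Early p d S₁ x → 3 * p < d x ∧ (x ∈ S₁ ∨ d x < 3 * p + 3) := by
    intro x hx
    unfold Early at hx
    push Not at hx
    have h1 := hdD x
    refine ⟨hx.1, ?_⟩
    by_cases h2 : x ∈ S₁
    · exact Or.inl h2
    · have := hx.2 h2
      exact Or.inr (by omega)
  have late2 : ∀ f ∈ E, (∃ x ∈ f, ¬ Early p d S₁ x) → ∀ y ∈ f, 3 * p ≤ d y ∧ y ∉ I := by
    rintro f hf ⟨x, hx, hxe⟩ y hy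
    obtain ⟨h1, h2⟩ := late x hxe
    have h3 := hd f hf y hy x hx
    exact ⟨by omega, hSI f hf ⟨x, hx, h2⟩ y hy⟩
  obtain ⟨φ, hφinj, hφeq, hφU, hφE⟩ := join_c E Δ hH R U p (by omega) d c₂ S₁ hdD hd hc2
    lb N ε η hε hη (fun k => hqJ _ (hlJ k)) (fun k k' hne => hJd _ (hlJ k) _ (hlJ k') hne)
    Zt β hβ0 hβ1 hβ2
    (fun k => by
      have h1 : (((univ.filter fun x => d x < 3 * p + 3).card : ℕ) : ℝ) ≤ sa := by
        exact_mod_cast hsa
      have h2 : (((Z ∩ lb k).card : ℕ) : ℝ) ≤ ((Zt ∩ lb k).card : ℝ) + sa := by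
        exact_mod_cast cZt (lb k)
      have h3 := hZ (lb k) (hlJ k)
      linarith only [h1, h2, h3])
    Fr (fun k => (hFrX _).trans inter_subset_left)
    (fun k => disjoint_of_subset_left ((hFrX _).trans inter_subset_right) hXZt)
    (fun k => by
      have h1 := hFrc (lb k) (hlJ k)
      have h2 : ((S₁.filter fun x => d x = 3 * p + 3 ∧ lb (c₂ x) = lb k).card : ℝ) + z ≤
          ((Fr (lb k)).card : ℝ) := by exact_mod_cast h1
      linarith only [h2, hz1])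
    φ₁
    (by
      rintro x hx y hy hxy
      rcases hx with hx | ⟨hx1, hx2⟩
      · rcases hy with hy | ⟨hy1, hy2⟩
        · rw [e1 x hx, e1 y hy] at hxy
          exact ha1 hx hy hxy
        · rw [e1 x hx, e2 y hy2] at hxy
          exact absurd (hxy ▸ mΦ x hx) (hyU y hy1 hy2).2
      · rcases hy with hy | ⟨hy1, hy2⟩
        · rw [e2 x hx2, e1 y hy] at hxy
          exact absurd (hxy ▸ mΦ y hy) (hyU x hx1 hx2).2
        · rw [e2 x hx2, e2 y hy2] at hxy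
          exact hφi ((mS' x).2 ((mX1 x).2 ⟨hx1, hx2⟩)) ((mS' y).2 ((mX1 y).2 ⟨hy1, hy2⟩)) hxy)
    (by
      intro f hf hex y hy hye
      obtain ⟨h1, h2⟩ := late2 f hf hex y hy
      rcases hye with h3 | ⟨h3, h4⟩
      · have h5 : d y = 3 * p := by omega
        have h6 := ha3 y h5
        rw [e1 y h3]
        change φa y ∈ q (lb (c₂ y)) p at h6
        rwa [hqp] at h6
      · obtain ⟨h5, h6⟩ := hyY y h3 h4 h2
        have h7 := (hYV _ h6).1 h5
        rw [mem_inter, hlpc] at h7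
        rw [e2 y h4]
        exact h7.1)
    (by
      intro f hf hex y hy hye y' hy' hye' hne
      obtain ⟨h1, h2⟩ := late2 f hf hex y hy
      obtain ⟨h1', h2'⟩ := late2 f hf hex y' hy'
      have hd1 := hd f hf y hy y' hy'
      have hd2 := hd f hf y' hy' y hy
      rcases hye with h3 | ⟨h3, h4⟩
      · rcases hye' with h3' | ⟨h3', h4'⟩
        · obtain ⟨x, hx, hxe⟩ := hex
          have h5 := ha5 f hf ⟨x, hx, (late x hxe).1⟩ y hy y' hy' (by omega) (by omega) hne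
          rw [e1 y h3, e1 y' h3']
          change ((cod R (q (lb (c₂ y)) p) (φa y) (φa y')).card : ℝ) < η * (N : ℝ) at h5
          rwa [hqp] at h5
        · omega
      · rcases hye' with h3' | ⟨h3', h4'⟩
        · omega
        · rw [e2 y h4, e2 y' h4']
          obtain ⟨h5, h6⟩ := hyY y h3 h4 h2
          obtain ⟨h5', h6'⟩ := hyY y' h3' h4' h2'
          have h7 : pc y' = pc y := by
            rw [hpc, hpc, hc1 f hf y' hy' y hy h3' h3, hc2 f hf y' hy' y hy (by omega) (by omega)]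
          rw [h7] at h5'
          have h8 := (hYV _ h6).2.1.cod _ h5 _ h5' (fun h9 => hne (hφi
            ((mS' y).2 ((mX1 y).2 ⟨h3, h4⟩)) ((mS' y').2 ((mX1 y').2 ⟨h3', h4'⟩)) h9))
          simp only [hlpc] at h8
          rw [(hqJ _ (hlJ (c₂ y))).2.1] at h8
          exact h8)
    (by
      intro y hye
      rcases hye with h3 | ⟨h3, h4⟩
      · rw [e1 y h3]
        have h5 := mΦ y h3
        exact ⟨nZt _ h5, fun k h6 => nXt _ h5 (mem_inter.1 (hFrX _ h6)).2⟩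
      · rw [e2 y h4]
        by_cases h5 : y ∈ I
        · have h6 := hyV y h3 h4 h5
          refine ⟨disjoint_left.1 hOZt h6, fun k h7 => ?_⟩
          exact disjoint_left.1 hOXt h6 (mem_inter.1 (hFrX _ h7)).2
        · obtain ⟨h6, h7⟩ := hyY y h3 h4 h5
          refine ⟨disjoint_left.1 hXZt (mem_inter.1 ((hYV _ h7).1 h6)).2, fun k h8 => ?_⟩
          rw [hFr] at h8
          exact (mem_sdiff.1 h8).2 (mem_biUnion.2 ⟨_, h7, h6⟩))
  refine ⟨φ, hφinj.injOn, fun x _ => ?_, fun f hf => ?_⟩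
  · by_cases hx : Early p d S₁ x
    · rw [hφeq x hx]
      rcases hx with h1 | ⟨h1, h2⟩
      · rw [e1 x h1]
        exact ha2 x h1
      · rw [e2 x h2]
        exact (hyU x h1 h2).1
    · exact hφU x hx
  · by_cases hex : ∃ x ∈ f, ¬ Early p d S₁ x
    · exact hφE f hf hex
    · push Not at hex
      by_cases hlow : ∃ x ∈ f, d x ≤ 3 * p
      · obtain ⟨x, hx, hx3⟩ := hlow
        have hall : ∀ y ∈ f, d y ≤ 3 * p := by
          intro y hy
          have h1 := hd f hf x hx y hy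
          rcases hex y hy with h2 | ⟨h2, h3⟩
          · exact h2
          · omega
        have h1 : f.image φ = f.image φa := by
          refine image_congr fun y hy => ?_
          rw [hφeq y (hex y hy), e1 y (hall y hy)]
        rw [h1]
        exact ha4 f hf hall
      · push Not at hlow
        have hall : ∀ y ∈ f, y ∉ S₁ ∧ d y = 3 * p + 3 := by
          intro y hy
          rcases hex y hy with h2 | h2
          · exact absurd h2 (by
              have := hlow y hy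
              omega)
          · exact h2
        have h1 : f.image φ = f.image φ₀ := by
          refine image_congr fun y hy => ?_
          rw [hφeq y (hex y hy), e2 y (hall y hy).2]
        rw [h1]
        refine hφR f hf ?_
        rw [disjoint_left]
        intro x hx hxS
        obtain ⟨h2, h3⟩ := hall x hx
        rcases (mS x).1 hxS with h4 | h4
        · exact h2 h4
        · omega

end Pool.MP7783b9
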