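import Pool.Agent.H.MP_7783b9_co.W.Link4

/-!
# Definitions for the exact theorem: clusters, modes, configurations
-/

set_option autoImplicit false

open Finset

namespace Pool.MP7783b9

/-- the density parameter: a type is called dense if its density is at least `thF εl` everywhere,
sparse if it is at most `2 * thF εl` everywhere -/
noncomputable def thF (εl : ℝ) : ℝ := (min (εl / 16) (1 / 64)) ^ 2 / 4

theorem thF_pos {εl : ℝ} (h : 0 < εl) : 0 < thF εl := by
  unfold thF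
  have : 0 < min (εl / 16) (1 / 64) := lt_min (by linarith) (by norm_num)
  positivity

theorem thF_le {εl : ℝ} (h : 0 < εl) : thF εl ≤ 1 / 16384 := by
  unfold thF
  have h1 : 0 < min (εl / 16) (1 / 64) := lt_min (by linarith) (by norm_num)
  have h2 : min (εl / 16) (1 / 64 : ℝ) ≤ 1 / 64 := min_le_right _ _
  nlinarith

theorem thF_le_sq {εl : ℝ} (h : 0 < εl) : thF εl ≤ εl ^ 2 / 1024 := by
  unfold thF
  have h1 : 0 < min (εl / 16) (1 / 64) := lt_min (by linarith) (by norm_num)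
  have h2 : min (εl / 16) (1 / 64 : ℝ) ≤ εl / 16 := min_le_left _ _
  nlinarith

/-- `C` is a cluster: `N` points, none of large blue degree inside `C` -/
def Clus {α : Type} [DecidableEq α] (R : Finset α → Prop) (ε : ℝ) (N : ℕ) (C : Finset α) :
    Prop :=
  C.card = N ∧ dense R C ε = ∅

/-- the colouring in which only the triples with one point in each of the three sets `m 0`, `m 1`,
`m 2` can be blue -/
def Rm {α : Type} [DecidableEq α] (R : Finset α → Prop) (m : Fin 3 → Finset α)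
    (X : Finset α) : Prop :=
  (∃ x ∈ m 0, ∃ y ∈ m 1, ∃ z ∈ m 2, X = {x, y, z}) → R X

/-- Five modes `M 0, ..., M 4` (triples of disjoint sets, sizes between `lo` and `2 lo`) lead from
`C` to `C'`: consecutive modes differ in one set only, every mode is sparse. -/
structure ModePath {α : Type} [DecidableEq α] (R : Finset α → Prop) (ε lo : ℝ)
    (C C' : Finset α) (M : ℕ → Fin 3 → Finset α) : Prop where
  step : ∀ j < 4, ∃ c₀, ∀ c, c ≠ c₀ → M (j + 1) c = M j c
  size : ∀ j ≤ 4, ∀ c, lo ≤ ((M j c).card : ℝ) ∧ ((M j c).card : ℝ) ≤ 2 * lo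
  disj : ∀ j ≤ 4, ∀ c c', c ≠ c' → Disjoint (M j c) (M j c')
  fst : ∀ c, M 0 c ⊆ C
  lst : ∀ c, M 4 c ⊆ C'
  sp : ∀ j ≤ 4, dense (Rm R (M j)) (M j 0 ∪ M j 1 ∪ M j 2) ε = ∅

/-- there is a path of modes from `C` to `C'` inside `U`, all sets have at least `lo` points -/
def ModeP {α : Type} [DecidableEq α] (R : Finset α → Prop) (U : Finset α) (ε lo : ℝ)
    (C C' : Finset α) : Prop :=
  ∃ (M : ℕ → Fin 3 → Finset α) (l : ℝ), lo ≤ l ∧ (∀ j ≤ 4, ∀ c, M j c ⊆ U) ∧
    ModePath R ε l C C' M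

/-- `k` families of `q` parts each, all parts of size `N'` and pairwise disjoint; every type is
sparse or everywhere dense, for the types `i i j` uniformly -/
structure Cfg {α : Type} [DecidableEq α] (R : Finset α → Prop) {k q : ℕ} (δ θ : ℝ) (N' : ℕ)
    (P : Fin k → Fin q → Finset α) : Prop where
  card : ∀ i a, (P i a).card = N'
  disj : ∀ i a j b, (i, a) ≠ (j, b) → Disjoint (P i a) (P j b)
  hom : ∀ i j, i ≠ j → (∀ a b c, a ≠ b → Sparse R δ (2 * θ) (P i a) (P i b) (P j c)) ∨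
    (∀ a b c, a ≠ b → Dens R δ θ (P i a) (P i b) (P j c))
  rb : ∀ i j l, i ≠ j → i ≠ l → j ≠ l → ∀ a b c,
    Sparse R δ (2 * θ) (P i a) (P j b) (P l c) ∨ Dens R δ θ (P i a) (P j b) (P l c)

/-- the type `i i j` is everywhere dense -/
def Arr {α : Type} [DecidableEq α] (R : Finset α → Prop) {k q : ℕ} (δ θ : ℝ)
    (P : Fin k → Fin q → Finset α) (i j : Fin k) : Prop :=
  ∀ a b c, a ≠ b → Dens R δ θ (P i a) (P i b) (P j c)

/-- the type `i i j` is sparse -/
def Spa {α : Type} [DecidableEq α] (R : Finset α → Prop) {k q : ℕ} (δ θ : ℝ)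
    (P : Fin k → Fin q → Finset α) (i j : Fin k) : Prop :=
  ∀ a b c, a ≠ b → Sparse R δ (2 * θ) (P i a) (P i b) (P j c)

/-- the pairs in `X × Y` which are red with `w` -/
noncomputable def redP {α : Type} [DecidableEq α] (R : Finset α → Prop) (w : α)
    (X Y : Finset α) : Finset (α × α) := by
  classical
  exact (X ×ˢ Y).filter fun p => p.1 ≠ w ∧ p.2 ≠ w ∧ R {w, p.1, p.2}

theorem mem_redP {α : Type} [DecidableEq α] {R : Finset α → Prop} {w : α} {X Y : Finset α}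
    {p : α × α} : p ∈ redP R w X Y ↔ (p.1 ∈ X ∧ p.2 ∈ Y) ∧ p.1 ≠ w ∧ p.2 ≠ w ∧ R {w, p.1, p.2} := by
  classical
  unfold redP
  rw [Finset.mem_filter, Finset.mem_product]

theorem Dens.mono {α : Type} [DecidableEq α] {R : Finset α → Prop} {δ δ' θ θ' : ℝ}
    {X Y Z : Finset α} (h : Dens R δ θ X Y Z) (hδ : δ ≤ δ') (hθ : θ' ≤ θ) :
    Dens R δ' θ' X Y Z := by
  intro A hA B hB C hC h1 h2 h3
  have e1 : δ * (X.card : ℝ) ≤ δ' * X.card := mul_le_mul_of_nonneg_right hδ (Nat.cast_nonneg _)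
  have e2 : δ * (Y.card : ℝ) ≤ δ' * Y.card := mul_le_mul_of_nonneg_right hδ (Nat.cast_nonneg _)
  have e3' : δ * (Z.card : ℝ) ≤ δ' * Z.card := mul_le_mul_of_nonneg_right hδ (Nat.cast_nonneg _)
  refine le_trans ?_ (h A hA B hB C hC (e1.trans h1) (e2.trans h2) (e3'.trans h3))
  exact mul_le_mul_of_nonneg_right hθ (by positivity)

/-- a dense box stays dense for the relative size `δ'` in sub-boxes that contain at least
the proportion `ρ` of the three sets, if `δ ≤ δ' ρ` -/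
theorem Dens.sub {α : Type} [DecidableEq α] {R : Finset α → Prop} {δ δ' θ ρ : ℝ}
    {X Y Z X' Y' Z' : Finset α} (h : Dens R δ θ X Y Z) (hδ' : 0 ≤ δ') (hδ : δ ≤ δ' * ρ)
    (hX : X' ⊆ X) (hY : Y' ⊆ Y) (hZ : Z' ⊆ Z) (cX : ρ * (X.card : ℝ) ≤ X'.card)
    (cY : ρ * (Y.card : ℝ) ≤ Y'.card) (cZ : ρ * (Z.card : ℝ) ≤ Z'.card) :
    Dens R δ' θ X' Y' Z' := by
  have key : ∀ {X X' A : Finset α}, ρ * (X.card : ℝ) ≤ X'.card → δ' * (X'.card : ℝ) ≤ A.card →
      δ * (X.card : ℝ) ≤ A.card := by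
    intro X X' A h1 h2
    have h3 : δ * (X.card : ℝ) ≤ δ' * ρ * X.card :=
      mul_le_mul_of_nonneg_right hδ (Nat.cast_nonneg _)
    have h4 := mul_le_mul_of_nonneg_left h1 hδ'
    linarith only [h2, h3, h4]
  intro A hA B hB C hC h1 h2 h3
  exact h A (hA.trans hX) B (hB.trans hY) C (hC.trans hZ) (key cX h1) (key cY h2) (key cZ h3)

theorem Sparse.mono {α : Type} [DecidableEq α] {R : Finset α → Prop} {δ δ' θ θ' : ℝ}
    {X Y Z : Finset α} (h : Sparse R δ θ X Y Z) (hδ : δ ≤ δ') (hθ : θ ≤ θ') :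
    Sparse R δ' θ' X Y Z := by
  intro A hA B hB C hC h1 h2 h3
  have e1 : δ * (X.card : ℝ) ≤ δ' * X.card := mul_le_mul_of_nonneg_right hδ (Nat.cast_nonneg _)
  have e2 : δ * (Y.card : ℝ) ≤ δ' * Y.card := mul_le_mul_of_nonneg_right hδ (Nat.cast_nonneg _)
  have e3' : δ * (Z.card : ℝ) ≤ δ' * Z.card := mul_le_mul_of_nonneg_right hδ (Nat.cast_nonneg _)
  refine le_trans (h A hA B hB C hC (e1.trans h1) (e2.trans h2) (e3'.trans h3)) ?_
  exact mul_le_mul_of_nonneg_right hθ (by positivity)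

theorem ModeP.mono {α : Type} [DecidableEq α] {R : Finset α → Prop} {U U' : Finset α}
    {ε lo lo' : ℝ} {C C' : Finset α} (h : ModeP R U ε lo C C') (hU : U ⊆ U') (hlo : lo' ≤ lo) :
    ModeP R U' ε lo' C C' := by
  obtain ⟨M, l, h1, h2, h3⟩ := h
  exact ⟨M, l, hlo.trans h1, fun j hj c => (h2 j hj c).trans hU, h3⟩

theorem Clus.mono {α : Type} [DecidableEq α] {R : Finset α → Prop} {ε ε' : ℝ} {N : ℕ}
    {C : Finset α} (h : Clus R ε N C) (hε : ε ≤ ε') : Clus R ε' N C := by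
  refine ⟨h.1, ?_⟩
  have h2 := h.2
  rw [Finset.eq_empty_iff_forall_notMem] at h2 ⊢
  intro x hx
  apply h2 x
  rw [mem_dense] at hx ⊢
  exact ⟨hx.1, (mul_le_mul_of_nonneg_right hε (sq_nonneg _)).trans hx.2⟩

theorem Linked.mono {α : Type} [DecidableEq α] {R : Finset α → Prop} {ε m m' : ℝ}
    {C C' : Finset α} (h : Linked R ε m C C') (hm : m' ≤ m) : Linked R ε m' C C' :=
  Link4_mono h le_rfl hm

end Pool.MP7783b9
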