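import Pool.Agent.H.MP_7783b9_co.X.Base
import Pool.Agent.H.MP_7783b9_co.R.Dich

/-!
# Everywhere dense boxes
-/

set_option autoImplicit false

open Finset

namespace Pool.MP7783b9

section

variable {α : Type} [DecidableEq α]

theorem Big_ins (R : Finset α → Prop) (x : α) (X Y Z : Finset α) (hx : x ∉ X) :
    e3 R (insert x X) Y Z = e3 R {x} Y Z + e3 R X Y Z := by
  rw [e3_split R (insert x X) Y Z {x} (by simp)]
  congr 2
  ext y
  simp only [mem_sdiff, mem_insert, mem_singleton]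
  constructor
  · rintro ⟨h1 | h1, h2⟩
    · exact absurd h1 h2
    · exact h1
  · intro h
    exact ⟨Or.inr h, fun h2 => hx (h2 ▸ h)⟩

theorem Big_ins2 (R : Finset α → Prop) (x : α) (X Y Z : Finset α) (hx : x ∉ X) :
    e3 R Y (insert x X) Z = e3 R Y {x} Z + e3 R Y X Z := by
  rw [Link4_e3swap R Y (insert x X) Z, Big_ins R x X Y Z hx, Link4_e3swap R {x} Y Z,
    Link4_e3swap R X Y Z]

theorem Big_self (R : Finset α → Prop) (x : α) (Z : Finset α) : e3 R {x} {x} Z = 0 := by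
  classical
  unfold e3
  rw [Finset.card_eq_zero, Finset.eq_empty_iff_forall_notMem]
  rintro ⟨a, b, c⟩ h
  rw [mem_filter, mem_product, mem_product] at h
  obtain ⟨⟨h1, h2, -⟩, h3⟩ := h
  rw [mem_singleton] at h1 h2
  apply h3.1
  show a = b
  simp only at h1 h2
  rw [h1, h2]

/-- a large cut -/
theorem Big_cut (R : Finset α → Prop) (D : Finset α) (X : Finset α) :
    ∃ A B : Finset α, A ⊆ X ∧ B ⊆ X ∧ Disjoint A B ∧ A ∪ B = X ∧
      e3 R X X D ≤ 4 * e3 R A B D := by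
  induction X using Finset.induction_on with
  | empty =>
    refine ⟨∅, ∅, Subset.rfl, Subset.rfl, disjoint_empty_left _, by simp, ?_⟩
    have h := e3_le R (∅ : Finset α) ∅ D
    simp only [card_empty, zero_mul] at h
    omega
  | insert x X hx ih =>
    obtain ⟨A, B, hA, hB, hd, hu, hc⟩ := ih
    have hxA : x ∉ A := fun h => hx (hA h)
    have hxB : x ∉ B := fun h => hx (hB h)
    have e1 : e3 R (insert x X) (insert x X) D = 2 * e3 R {x} X D + e3 R X X D := by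
      rw [Big_ins R x X _ D hx, Big_ins2 R x X {x} D hx, Big_ins2 R x X X D hx, Big_self,
        Link4_e3swap R X {x} D]
      ring
    have e2 : e3 R {x} X D = e3 R {x} A D + e3 R {x} B D := by
      rw [Link4_e3swap R {x} X D, e3_split R X {x} D A hA]
      have h1 : X \ A = B := by
        rw [← hu, union_sdiff_left]
        exact Finset.sdiff_eq_self_of_disjoint hd.symm
      rw [h1, Link4_e3swap R A {x} D, Link4_e3swap R B {x} D]
    rcases le_total (e3 R {x} A D) (e3 R {x} B D) with h | h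
    · refine ⟨insert x A, B, insert_subset_insert _ hA, hB.trans (subset_insert _ _), ?_, ?_, ?_⟩
      · rw [disjoint_insert_left]
        exact ⟨hxB, hd⟩
      · rw [insert_union, hu]
      · rw [Big_ins R x A B D hxA]
        omega
    · refine ⟨A, insert x B, hA.trans (subset_insert _ _), insert_subset_insert _ hB, ?_, ?_, ?_⟩
      · rw [disjoint_insert_right]
        exact ⟨hxA, hd⟩
      · rw [union_insert, hu]
      · rw [Big_ins2 R x B A D hxB, Link4_e3swap R A {x} D]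
        omega

/-- removing a small set from the first side -/
theorem Big_rem (R : Finset α → Prop) (N : ℕ) (X Y Z Φ : Finset α) (hY : Y.card ≤ N)
    (hZ : Z.card ≤ N) (c : ℝ) (hΦ : (Φ.card : ℝ) ≤ c * N) :
    (e3 R X Y Z : ℝ) ≤ (e3 R (X \ Φ) Y Z : ℝ) + c * (N : ℝ) ^ 3 := by
  have h1 := e3_split R X Y Z (X ∩ Φ) inter_subset_left
  have h2 : X \ (X ∩ Φ) = X \ Φ := sdiff_inter_self_left X Φ
  rw [h2] at h1
  have h3 := e3_le R (X ∩ Φ) Y Z
  have h4 : (X ∩ Φ).card ≤ Φ.card := card_le_card inter_subset_right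
  have h5 : (X ∩ Φ).card * Y.card * Z.card ≤ Φ.card * N * N :=
    Nat.mul_le_mul (Nat.mul_le_mul h4 hY) hZ
  have h6 : (e3 R (X ∩ Φ) Y Z : ℝ) ≤ (Φ.card : ℝ) * N * N := by exact_mod_cast h3.trans h5
  have h7 : (Φ.card : ℝ) * N * N ≤ c * N * N * N := by
    have := mul_le_mul_of_nonneg_right hΦ (by positivity : (0 : ℝ) ≤ (N : ℝ) * N)
    calc (Φ.card : ℝ) * N * N = Φ.card * (N * N) := by ring
      _ ≤ c * N * (N * N) := this
      _ = _ := by ring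
  have h8 : (e3 R X Y Z : ℝ) = (e3 R (X ∩ Φ) Y Z : ℝ) + e3 R (X \ Φ) Y Z := by
    exact_mod_cast h1
  rw [h8]
  have h9 : c * (N : ℝ) * N * N = c * (N : ℝ) ^ 3 := by ring
  linarith

end

/-- many blue triples in `C × C' × D`: disjoint boxes of a prescribed order of magnitude which
are everywhere dense, outside a small set -/
theorem big_box (ε4 δ : ℝ) (h4 : 0 < ε4) (h41 : ε4 ≤ 1) (hδ : 0 < δ) (hδ1 : δ ≤ 1) :
    ∃ (ρ : ℝ) (v₀ : ℕ), 0 < ρ ∧ ρ ≤ 1 ∧ ∀ {α : Type} [DecidableEq α] (R : Finset α → Prop)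
      (N : ℕ) (C C' D Φ : Finset α) (_ : C.card = N) (_ : C'.card = N) (_ : D.card = N)
      (_ : C = C' ∨ Disjoint C C') (_ : Disjoint C D) (_ : Disjoint C' D)
      (_ : (Φ.card : ℝ) ≤ ε4 / 32 * N) (v : ℕ) (_ : v₀ ≤ v) (_ : (v : ℝ) ≤ ε4 / 32 * N)
      (_ : ε4 * (N : ℝ) ^ 3 < (e3 R C C' D : ℝ)),
      ∃ (m : ℕ) (X X' Y : Finset α), ρ * (v : ℝ) ≤ m ∧ 0 < m ∧ m ≤ v ∧ X ⊆ C \ Φ ∧ X' ⊆ C' \ Φ ∧
        Y ⊆ D \ Φ ∧ Disjoint X X' ∧ X.card = m ∧ X'.card = m ∧ Y.card = m ∧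
        Dens R δ (ε4 / 16) X X' Y := by
  obtain ⟨θ, hθ⟩ : ∃ θ : ℝ, θ = ε4 / 8 := ⟨_, rfl⟩
  have hθ0 : 0 < θ := by rw [hθ]; linarith
  have hθ1 : θ ≤ 1 := by rw [hθ]; linarith
  have hq : 0 < θ * δ ^ 3 / 8 := by positivity
  obtain ⟨k, hk⟩ : ∃ k : ℕ, 1 / (θ * δ ^ 3 / 8) ≤ k := exists_nat_ge _
  rw [div_le_iff₀ hq] at hk
  obtain ⟨ρ, hρ, hρ1, hinc⟩ := Dich_inc δ θ hδ hδ1 hθ0 hθ1 k
  refine ⟨ρ, 1, hρ, hρ1, ?_⟩
  intro α _ R N C C' D Φ hC hC' hD hCC hCD hC'D hΦ v hv hvN he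
  have hN3 : (0 : ℝ) ≤ (N : ℝ) ^ 3 := by positivity
  -- remove `Φ`
  have r1 := Big_rem R N C C' D Φ (by omega) (by omega) (ε4 / 32) hΦ
  have c1 : (C' \ Φ).card ≤ N := (card_le_card sdiff_subset).trans (by omega)
  have c2 : (C \ Φ).card ≤ N := (card_le_card sdiff_subset).trans (by omega)
  have c3 : (D \ Φ).card ≤ N := (card_le_card sdiff_subset).trans (by omega)
  have r2 := Big_rem R N C' (C \ Φ) D Φ c2 (by omega) (ε4 / 32) hΦ
  have r3 := Big_rem R N D (C \ Φ) (C' \ Φ) Φ c2 c1 (ε4 / 32) hΦ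
  rw [Link4_e3swap R C' (C \ Φ) D, Link4_e3swap R (C' \ Φ) (C \ Φ) D] at r2
  rw [e3_rot R D (C \ Φ) (C' \ Φ), e3_rot R (D \ Φ) (C \ Φ) (C' \ Φ)] at r3
  have r4 : 29 / 32 * ε4 * (N : ℝ) ^ 3 ≤ (e3 R (C \ Φ) (C' \ Φ) (D \ Φ) : ℝ) := by
    linarith
  -- disjoint sides
  obtain ⟨A, A', hA, hA', hAA, hcut⟩ : ∃ A A' : Finset α, A ⊆ C \ Φ ∧ A' ⊆ C' \ Φ ∧
      Disjoint A A' ∧ 29 / 128 * ε4 * (N : ℝ) ^ 3 ≤ (e3 R A A' (D \ Φ) : ℝ) := by
    rcases hCC with h | h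
    · subst h
      obtain ⟨A, B, hA, hB, hd, -, hc⟩ := Big_cut R (D \ Φ) (C \ Φ)
      refine ⟨A, B, hA, hB, hd, ?_⟩
      have hc' : (e3 R (C \ Φ) (C \ Φ) (D \ Φ) : ℝ) ≤ 4 * e3 R A B (D \ Φ) := by
        exact_mod_cast hc
      linarith
    · refine ⟨C \ Φ, C' \ Φ, Subset.rfl, Subset.rfl,
        disjoint_of_subset_left sdiff_subset (disjoint_of_subset_right sdiff_subset h), ?_⟩
      have : 0 ≤ ε4 * (N : ℝ) ^ 3 := mul_nonneg h4.le hN3
      linarith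
  have hv0 : (0 : ℝ) < v := by exact_mod_cast hv
  have hN0 : (0 : ℝ) < N := by
    by_contra hcon
    have : (N : ℝ) = 0 := le_antisymm (not_lt.1 hcon) (Nat.cast_nonneg _)
    rw [this, mul_zero] at hvN
    linarith
  have hle := e3_le R A A' (D \ Φ)
  have hAN : (A.card : ℝ) ≤ N := by exact_mod_cast (card_le_card hA).trans c2
  have hA'N : (A'.card : ℝ) ≤ N := by exact_mod_cast (card_le_card hA').trans c1
  have hDN : ((D \ Φ).card : ℝ) ≤ N := by exact_mod_cast c3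
  have hle' : (e3 R A A' (D \ Φ) : ℝ) ≤ (A.card : ℝ) * A'.card * (D \ Φ).card := by
    exact_mod_cast hle
  have a0 : (0 : ℝ) ≤ A.card := Nat.cast_nonneg _
  have a1 : (0 : ℝ) ≤ A'.card := Nat.cast_nonneg _
  have a2 : (0 : ℝ) ≤ (D \ Φ).card := Nat.cast_nonneg _
  have hN2 : (0 : ℝ) < (N : ℝ) ^ 2 := by positivity
  have key : ∀ x y z : ℝ, 0 ≤ x → 0 ≤ y → 0 ≤ z → y ≤ N → z ≤ N →
      29 / 128 * ε4 * (N : ℝ) ^ 3 ≤ x * y * z → (v : ℝ) ≤ x := by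
    intro x y z hx hy hz hyN hzN h
    have h1 : x * y * z ≤ x * N * N := by
      have h2 : x * y ≤ x * N := mul_le_mul_of_nonneg_left hyN hx
      exact mul_le_mul h2 hzN hz (mul_nonneg hx hN0.le)
    have h2 : 29 / 128 * ε4 * (N : ℝ) * (N : ℝ) ^ 2 ≤ x * (N : ℝ) ^ 2 := by
      calc 29 / 128 * ε4 * (N : ℝ) * (N : ℝ) ^ 2 = 29 / 128 * ε4 * (N : ℝ) ^ 3 := by ring
        _ ≤ x * N * N := h.trans h1
        _ = x * (N : ℝ) ^ 2 := by ring
    have h3 := le_of_mul_le_mul_right h2 hN2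
    have h5 : 0 < ε4 * (N : ℝ) := mul_pos h4 hN0
    linarith
  have v1 : v ≤ A.card := by
    exact_mod_cast key _ _ _ a0 a1 a2 hA'N hDN (hcut.trans hle')
  have v2 : v ≤ A'.card := by
    exact_mod_cast key _ _ _ a1 a0 a2 hAN hDN (by
      refine (hcut.trans hle').trans (le_of_eq ?_)
      ring)
  have v3 : v ≤ (D \ Φ).card := by
    exact_mod_cast key _ _ _ a2 a0 a1 hAN hA'N (by
      refine (hcut.trans hle').trans (le_of_eq ?_)
      ring)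
  obtain ⟨X0, hX0, X1, hX1, Y0, hY0, x0, x1, y0, havg⟩ := box_avg R A A' (D \ Φ) v v1 v2 v3
  have havg' : (e3 R A A' (D \ Φ) : ℝ) * (v : ℝ) ^ 3 ≤
      (e3 R X0 X1 Y0 : ℝ) * ((A.card : ℝ) * A'.card * (D \ Φ).card) := by
    exact_mod_cast havg
  have hbig : θ * (v : ℝ) ^ 3 ≤ (e3 R X0 X1 Y0 : ℝ) := by
    have h1 : (A.card : ℝ) * A'.card * (D \ Φ).card ≤ (N : ℝ) ^ 3 := by
      calc (A.card : ℝ) * A'.card * (D \ Φ).card ≤ N * N * N :=
            mul_le_mul (mul_le_mul hAN hA'N a1 hN0.le) hDN a2 (by positivity)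
        _ = (N : ℝ) ^ 3 := by ring
    have h2 : (e3 R X0 X1 Y0 : ℝ) * ((A.card : ℝ) * A'.card * (D \ Φ).card) ≤
        (e3 R X0 X1 Y0 : ℝ) * (N : ℝ) ^ 3 := mul_le_mul_of_nonneg_left h1 (Nat.cast_nonneg _)
    have h3 : 29 / 128 * ε4 * (N : ℝ) ^ 3 * (v : ℝ) ^ 3 ≤
        (e3 R A A' (D \ Φ) : ℝ) * (v : ℝ) ^ 3 :=
      mul_le_mul_of_nonneg_right hcut (by positivity)
    have h5 : (29 / 128 * ε4 * (v : ℝ) ^ 3) * (N : ℝ) ^ 3 ≤ (e3 R X0 X1 Y0 : ℝ) * (N : ℝ) ^ 3 := by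
      calc (29 / 128 * ε4 * (v : ℝ) ^ 3) * (N : ℝ) ^ 3 =
            29 / 128 * ε4 * (N : ℝ) ^ 3 * (v : ℝ) ^ 3 := by ring
        _ ≤ _ := (h3.trans havg').trans h2
    have h6 := le_of_mul_le_mul_right h5 (by positivity)
    have h7 : 0 < ε4 * (v : ℝ) ^ 3 := mul_pos h4 (by positivity)
    rw [hθ]
    linarith
  obtain ⟨m, hm, X, hX, X', hX', Y, hY, mX, mX', mY, hDens⟩ := hinc R v X0 X1 Y0 x0 x1 y0 hv hbig
    (by
      have h1 : (1 - (k : ℝ) * (θ * δ ^ 3 / 8)) * (v : ℝ) ^ 3 ≤ 0 :=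
        mul_nonpos_of_nonpos_of_nonneg (by linarith) (by positivity)
      have h2 : 0 < θ * (v : ℝ) ^ 3 := mul_pos hθ0 (by positivity)
      linarith)
  refine ⟨m, X, X', Y, hm, ?_, ?_, (hX.trans hX0).trans hA, (hX'.trans hX1).trans hA',
    hY.trans hY0, ?_, mX, mX', mY, ?_⟩
  · have : (0 : ℝ) < m := lt_of_lt_of_le (mul_pos hρ hv0) hm
    exact_mod_cast this
  · rw [← mX, ← x0]
    exact card_le_card hX
  · exact disjoint_of_subset_left (hX.trans hX0) (disjoint_of_subset_right (hX'.trans hX1) hAA)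
  · have e : θ / 2 = ε4 / 16 := by rw [hθ]; ring
    rw [← e]
    exact hDens

end Pool.MP7783b9
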