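import Pool.Agent.H.MP_7783b9_co.X.Base

/-!
# Paths of modes from sparse types
-/

set_option autoImplicit false

open Finset

namespace Pool.MP7783b9

open Classical in
/-- the number of blue pairs of `Y × Z` with `x` -/
noncomputable def ModeC_deg {α : Type} [DecidableEq α] (R : Finset α → Prop) (Y Z : Finset α)
    (x : α) : ℕ := ((Y ×ˢ Z).filter fun q => Blue3 R x q.1 q.2).card

open Classical in
/-- the points of `X` with many blue pairs in `Y × Z` -/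
noncomputable def ModeC_bad {α : Type} [DecidableEq α] (R : Finset α → Prop) (X Y Z : Finset α)
    (s : ℝ) : Finset α := X.filter fun x => s ≤ (ModeC_deg R Y Z x : ℝ)

theorem ModeC_mem_bad {α : Type} [DecidableEq α] {R : Finset α → Prop} {X Y Z : Finset α}
    {s : ℝ} {x : α} : x ∈ ModeC_bad R X Y Z s ↔ x ∈ X ∧ s ≤ (ModeC_deg R Y Z x : ℝ) := by
  classical
  unfold ModeC_bad
  rw [Finset.mem_filter]

theorem ModeC_sum {α : Type} [DecidableEq α] (R : Finset α → Prop) (X Y Z : Finset α) :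
    e3 R X Y Z = ∑ x ∈ X, ModeC_deg R Y Z x := by
  classical
  unfold e3 ModeC_deg
  rw [Finset.card_filter, Finset.sum_product]
  refine Finset.sum_congr rfl fun x _ => ?_
  rw [Finset.card_filter]

theorem ModeC_bad_card {α : Type} [DecidableEq α] (R : Finset α → Prop) (X Y Z : Finset α)
    (s : ℝ) : s * ((ModeC_bad R X Y Z s).card : ℝ) ≤ (e3 R X Y Z : ℝ) := by
  classical
  rw [ModeC_sum]
  push_cast
  calc s * ((ModeC_bad R X Y Z s).card : ℝ) = ∑ _x ∈ ModeC_bad R X Y Z s, s := by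
        rw [Finset.sum_const, nsmul_eq_mul, mul_comm]
    _ ≤ ∑ x ∈ ModeC_bad R X Y Z s, (ModeC_deg R Y Z x : ℝ) :=
        Finset.sum_le_sum fun x hx => (ModeC_mem_bad.1 hx).2
    _ ≤ ∑ x ∈ X, (ModeC_deg R Y Z x : ℝ) := by
        refine Finset.sum_le_sum_of_subset_of_nonneg ?_ fun x _ _ => Nat.cast_nonneg _
        intro x hx
        exact (ModeC_mem_bad.1 hx).1

theorem ModeC_bad_le {α : Type} [DecidableEq α] (R : Finset α → Prop) (X Y Z : Finset α)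
    (ε m : ℝ) (hε : 0 < ε) (hm : 0 < m) (h : (e3 R X Y Z : ℝ) ≤ ε / 32 * m ^ 3) :
    ((ModeC_bad R X Y Z (30 * (ε / 32) * m ^ 2)).card : ℝ) ≤ m / 30 := by
  have h1 := (ModeC_bad_card R X Y Z (30 * (ε / 32) * m ^ 2)).trans h
  have h2 : 0 < ε / 32 * m ^ 2 := by positivity
  have h3 : (ε / 32 * m ^ 2) * (30 * ((ModeC_bad R X Y Z (30 * (ε / 32) * m ^ 2)).card : ℝ)) ≤
      (ε / 32 * m ^ 2) * m := by
    refine le_trans (le_of_eq ?_) (h1.trans (le_of_eq ?_))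
    · ring
    · ring
  have h4 := le_of_mul_le_mul_left h3 h2
  linarith only [h4]

theorem ModeC_pos {α : Type} [DecidableEq α] {X Y Z : Finset α} (hXY : Disjoint X Y)
    (hXZ : Disjoint X Z) {x p q a b c : α} (hx : x ∈ X) (hb : b ∈ Y) (hc : c ∈ Z)
    (hxp : x ≠ p) (hxq : x ≠ q) (hpq : p ≠ q) (h : ({x, p, q} : Finset α) = {a, b, c}) :
    (p ∈ Y ∧ q ∈ Z) ∨ (q ∈ Y ∧ p ∈ Z) := by
  have h1 : x ∈ ({a, b, c} : Finset α) := by rw [← h]; simp
  have h2 : p ∈ ({a, b, c} : Finset α) := by rw [← h]; simp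
  have h3 : q ∈ ({a, b, c} : Finset α) := by rw [← h]; simp
  simp only [Finset.mem_insert, Finset.mem_singleton] at h1 h2 h3
  rcases h1 with rfl | rfl | rfl
  · rcases h2 with rfl | rfl | rfl
    · exact absurd rfl hxp
    · rcases h3 with rfl | rfl | rfl
      · exact absurd rfl hxq
      · exact absurd rfl hpq
      · exact Or.inl ⟨hb, hc⟩
    · rcases h3 with rfl | rfl | rfl
      · exact absurd rfl hxq
      · exact Or.inr ⟨hb, hc⟩
      · exact absurd rfl hpq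
  · exact absurd hb (Finset.disjoint_left.1 hXY hx)
  · exact absurd hc (Finset.disjoint_left.1 hXZ hx)

theorem ModeC_bp {α : Type} [DecidableEq α] (R R' : Finset α → Prop) (W Y Z : Finset α) (x : α)
    (h : ∀ p q, Blue3 R' x p q → Blue3 R x p q ∧ ((p ∈ Y ∧ q ∈ Z) ∨ (q ∈ Y ∧ p ∈ Z))) :
    (bpairs R' W x).card ≤ 2 * ModeC_deg R Y Z x := by
  classical
  have h1 : bpairs R' W x ⊆ ((Y ×ˢ Z).filter fun q => Blue3 R x q.1 q.2) ∪
      (((Y ×ˢ Z).filter fun q => Blue3 R x q.1 q.2).image Prod.swap) := by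
    rintro ⟨p, q⟩ hp
    have h2 := (mem_bpairs.1 hp).2.2
    obtain ⟨h3, h4⟩ := h p q h2
    rw [Finset.mem_union]
    rcases h4 with h4 | h4
    · left
      rw [Finset.mem_filter, Finset.mem_product]
      exact ⟨h4, h3⟩
    · right
      rw [Finset.mem_image]
      refine ⟨(q, p), ?_, rfl⟩
      rw [Finset.mem_filter, Finset.mem_product]
      exact ⟨h4, h3.swap⟩
  refine (Finset.card_le_card h1).trans ((Finset.card_union_le _ _).trans ?_)
  have h2 := Finset.card_image_le (s := (Y ×ˢ Z).filter fun q => Blue3 R x q.1 q.2)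
    (f := Prod.swap)
  unfold ModeC_deg
  omega

/-- one position of a mode: a point which is not bad has small degree in the mode -/
theorem ModeC_one {α : Type} [DecidableEq α] (R : Finset α → Prop) (μ : Fin 3 → Finset α)
    (X Y Z X' Y' Z' W : Finset α) (s : ℝ) (x : α) (hX : X' ⊆ X) (hY : Y' ⊆ Y) (hZ : Z' ⊆ Z)
    (hXY : Disjoint X' Y') (hXZ : Disjoint X' Z') (hx : x ∈ X')
    (hb : x ∉ ModeC_bad R X Y Z s)
    (hμ : ∀ T : Finset α, (∃ x ∈ μ 0, ∃ y ∈ μ 1, ∃ z ∈ μ 2, T = {x, y, z}) →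
      ∃ a ∈ X', ∃ b ∈ Y', ∃ c ∈ Z', T = {a, b, c}) :
    ((bpairs (Rm R μ) W x).card : ℝ) < 2 * s := by
  have h1 : (bpairs (Rm R μ) W x).card ≤ 2 * ModeC_deg R Y Z x := by
    refine ModeC_bp R (Rm R μ) W Y Z x fun p q hpq => ?_
    obtain ⟨h1, h2, h3, h4⟩ := hpq
    unfold Rm at h4
    rw [Classical.not_imp] at h4
    refine ⟨⟨h1, h2, h3, h4.2⟩, ?_⟩
    obtain ⟨a, ha, b, hb, c, hc, hT⟩ := hμ _ h4.1
    rcases ModeC_pos hXY hXZ hx hb hc h1 h2 h3 hT with h5 | h5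
    · exact Or.inl ⟨hY h5.1, hZ h5.2⟩
    · exact Or.inr ⟨hY h5.1, hZ h5.2⟩
  have h2 : ¬ s ≤ (ModeC_deg R Y Z x : ℝ) := fun h => hb (ModeC_mem_bad.2 ⟨hX hx, h⟩)
  have h3 : ((bpairs (Rm R μ) W x).card : ℝ) ≤ 2 * (ModeC_deg R Y Z x : ℝ) := by exact_mod_cast h1
  have h4 := not_le.1 h2
  linarith only [h3, h4]

open Classical in
/-- the bad points of a mode -/
noncomputable def ModeC_B {α : Type} [DecidableEq α] (R : Finset α → Prop) (s : ℝ)
    (μ : Fin 3 → Finset α) : Finset α :=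
  ModeC_bad R (μ 0) (μ 1) (μ 2) s ∪ (ModeC_bad R (μ 1) (μ 2) (μ 0) s ∪
    ModeC_bad R (μ 2) (μ 0) (μ 1) s)

theorem ModeC_B_le {α : Type} [DecidableEq α] (R : Finset α → Prop) (μ : Fin 3 → Finset α)
    (ε m : ℝ) (hε : 0 < ε) (hm : 0 < m)
    (h : (e3 R (μ 0) (μ 1) (μ 2) : ℝ) ≤ ε / 32 * m ^ 3) :
    ((ModeC_B R (30 * (ε / 32) * m ^ 2) μ).card : ℝ) ≤ m / 10 := by
  classical
  set s : ℝ := 30 * (ε / 32) * m ^ 2 with hs
  have h1 := ModeC_bad_le R (μ 0) (μ 1) (μ 2) ε m hε hm h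
  have h2 := ModeC_bad_le R (μ 1) (μ 2) (μ 0) ε m hε hm (by rw [← e3_rot]; exact h)
  have h3 := ModeC_bad_le R (μ 2) (μ 0) (μ 1) ε m hε hm (by rw [e3_rot]; exact h)
  rw [← hs] at h1 h2 h3
  have h4 : (ModeC_B R s μ).card ≤ (ModeC_bad R (μ 0) (μ 1) (μ 2) s).card +
      ((ModeC_bad R (μ 1) (μ 2) (μ 0) s).card + (ModeC_bad R (μ 2) (μ 0) (μ 1) s).card) := by
    unfold ModeC_B
    refine (Finset.card_union_le _ _).trans ?_
    have := Finset.card_union_le (ModeC_bad R (μ 1) (μ 2) (μ 0) s)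
      (ModeC_bad R (μ 2) (μ 0) (μ 1) s)
    omega
  have h5 : ((ModeC_B R s μ).card : ℝ) ≤ ((ModeC_bad R (μ 0) (μ 1) (μ 2) s).card : ℝ) +
      (((ModeC_bad R (μ 1) (μ 2) (μ 0) s).card : ℝ) +
        ((ModeC_bad R (μ 2) (μ 0) (μ 1) s).card : ℝ)) := by exact_mod_cast h4
  linarith only [h1, h2, h3, h5]

/-- a mode without bad points is sparse -/
theorem ModeC_sparse {α : Type} [DecidableEq α] (R : Finset α → Prop) (ε m : ℝ) (hε : 0 < ε)
    (hm : 0 < m) (μ μ' : Fin 3 → Finset α) (hsub : ∀ c, μ' c ⊆ μ c)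
    (hdis : ∀ c c', c ≠ c' → Disjoint (μ' c) (μ' c'))
    (hcard : ∀ c, m / 2 ≤ ((μ' c).card : ℝ))
    (hB : ∀ c, Disjoint (μ' c) (ModeC_B R (30 * (ε / 32) * m ^ 2) μ)) :
    dense (Rm R μ') (μ' 0 ∪ μ' 1 ∪ μ' 2) ε = ∅ := by
  classical
  set s : ℝ := 30 * (ε / 32) * m ^ 2 with hs
  set W := μ' 0 ∪ μ' 1 ∪ μ' 2 with hW
  have hWc : W.card = (μ' 0).card + (μ' 1).card + (μ' 2).card := by
    rw [hW, Finset.card_union_of_disjoint, Finset.card_union_of_disjoint]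
    · exact hdis 0 1 (by decide)
    · rw [Finset.disjoint_union_left]
      exact ⟨hdis 0 2 (by decide), hdis 1 2 (by decide)⟩
  have hWr : 3 * m / 2 ≤ (W.card : ℝ) := by
    rw [hWc]
    push_cast
    have a0 := hcard 0
    have a1 := hcard 1
    have a2 := hcard 2
    linarith only [a0, a1, a2]
  have key : ∀ x ∈ W, ((bpairs (Rm R μ') W x).card : ℝ) < 2 * s := by
    intro x hx
    rw [hW, Finset.mem_union, Finset.mem_union] at hx
    rcases hx with (hx | hx) | hx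
    · have hb : x ∉ ModeC_bad R (μ 0) (μ 1) (μ 2) s := fun h =>
        Finset.disjoint_left.1 (hB 0) hx (Finset.mem_union_left _ h)
      refine ModeC_one R μ' (μ 0) (μ 1) (μ 2) (μ' 0) (μ' 1) (μ' 2) W s x (hsub 0) (hsub 1)
        (hsub 2) (hdis 0 1 (by decide)) (hdis 0 2 (by decide)) hx hb ?_
      exact fun T hT => hT
    · have hb : x ∉ ModeC_bad R (μ 1) (μ 2) (μ 0) s := fun h =>
        Finset.disjoint_left.1 (hB 1) hx (Finset.mem_union_right _ (Finset.mem_union_left _ h))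
      refine ModeC_one R μ' (μ 1) (μ 2) (μ 0) (μ' 1) (μ' 2) (μ' 0) W s x (hsub 1) (hsub 2)
        (hsub 0) (hdis 1 2 (by decide)) (hdis 1 0 (by decide)) hx hb ?_
      rintro T ⟨a, ha, b, hb, c, hc, hT⟩
      exact ⟨b, hb, c, hc, a, ha, hT.trans (pair_rot a b c)⟩
    · have hb : x ∉ ModeC_bad R (μ 2) (μ 0) (μ 1) s := fun h =>
        Finset.disjoint_left.1 (hB 2) hx (Finset.mem_union_right _ (Finset.mem_union_right _ h))
      refine ModeC_one R μ' (μ 2) (μ 0) (μ 1) (μ' 2) (μ' 0) (μ' 1) W s x (hsub 2) (hsub 0)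
        (hsub 1) (hdis 2 0 (by decide)) (hdis 2 1 (by decide)) hx hb ?_
      rintro T ⟨a, ha, b, hb, c, hc, hT⟩
      exact ⟨c, hc, a, ha, b, hb, hT.trans ((pair_rot a b c).trans (pair_rot b c a))⟩
  refine Finset.eq_empty_of_forall_notMem fun x hx => ?_
  obtain ⟨hx1, hx2⟩ := mem_dense.1 hx
  have h1 := key x hx1
  have h2 : (3 * m / 2) ^ 2 ≤ (W.card : ℝ) ^ 2 := by
    refine pow_le_pow_left₀ (by positivity) hWr 2
  have h3 : ε * (3 * m / 2) ^ 2 ≤ ε * (W.card : ℝ) ^ 2 := mul_le_mul_of_nonneg_left h2 hε.le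
  have h4 : ε * (3 * m / 2) ^ 2 = 9 / 4 * (ε * m ^ 2) := by ring
  have h5 : 2 * s = 15 / 8 * (ε * m ^ 2) := by rw [hs]; ring
  have h6 : 0 < ε * m ^ 2 := by positivity
  linarith only [h1, hx2, h3, h4, h5, h6]

/-- removing the points of large degree -/
theorem mode_clean {α : Type} [DecidableEq α] (R : Finset α → Prop) (U : Finset α) (ε : ℝ)
    (hε : 0 < ε) (C C' : Finset α) (m : ℕ) (hm : 0 < m) (M : ℕ → Fin 3 → Finset α)
    (hstep : ∀ j < 4, ∃ c₀, ∀ c, c ≠ c₀ → M (j + 1) c = M j c)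
    (hcard : ∀ j ≤ 4, ∀ c, (M j c).card = m)
    (hdisj : ∀ j ≤ 4, ∀ c c', c ≠ c' → Disjoint (M j c) (M j c'))
    (hU : ∀ j ≤ 4, ∀ c, M j c ⊆ U) (hfst : ∀ c, M 0 c ⊆ C) (hlst : ∀ c, M 4 c ⊆ C')
    (hsp : ∀ j ≤ 4, (e3 R (M j 0) (M j 1) (M j 2) : ℝ) ≤ ε / 32 * (m : ℝ) ^ 3) :
    ModeP R U ε ((m : ℝ) / 2) C C' := by
  classical
  have hmr : (0 : ℝ) < m := by exact_mod_cast hm
  set D : Finset α := (Finset.range 5).biUnion fun j =>
    ModeC_B R (30 * (ε / 32) * (m : ℝ) ^ 2) (M j) with hD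
  have hDc : (D.card : ℝ) ≤ m / 2 := by
    have h1 : D.card ≤ ∑ j ∈ Finset.range 5,
        (ModeC_B R (30 * (ε / 32) * (m : ℝ) ^ 2) (M j)).card := Finset.card_biUnion_le
    have h2 : (D.card : ℝ) ≤ ∑ j ∈ Finset.range 5,
        ((ModeC_B R (30 * (ε / 32) * (m : ℝ) ^ 2) (M j)).card : ℝ) := by exact_mod_cast h1
    refine h2.trans ?_
    have h3 : ∀ j ∈ Finset.range 5,
        ((ModeC_B R (30 * (ε / 32) * (m : ℝ) ^ 2) (M j)).card : ℝ) ≤ (m : ℝ) / 10 := by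
      intro j hj
      have hj' : j ≤ 4 := by
        have := Finset.mem_range.1 hj
        omega
      exact ModeC_B_le R (M j) ε m hε hmr (hsp j hj')
    refine (Finset.sum_le_sum h3).trans (le_of_eq ?_)
    rw [Finset.sum_const, Finset.card_range, nsmul_eq_mul]
    push_cast
    ring
  have hsz : ∀ j ≤ 4, ∀ c, (m : ℝ) / 2 ≤ ((M j c \ D).card : ℝ) := by
    intro j hj c
    have h1 := Finset.le_card_sdiff D (M j c)
    rw [hcard j hj c] at h1
    have h2 : m ≤ (M j c \ D).card + D.card := by omega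
    have h3 : (m : ℝ) ≤ ((M j c \ D).card : ℝ) + D.card := by exact_mod_cast h2
    linarith only [h3, hDc]
  refine ⟨fun j c => M j c \ D, (m : ℝ) / 2, le_rfl, fun j hj c =>
    Finset.sdiff_subset.trans (hU j hj c), ?_⟩
  refine ⟨?_, ?_, ?_, ?_, ?_, ?_⟩
  · intro j hj
    obtain ⟨c₀, h⟩ := hstep j hj
    exact ⟨c₀, fun c hc => by
      show M (j + 1) c \ D = M j c \ D
      rw [h c hc]⟩
  · intro j hj c
    refine ⟨hsz j hj c, ?_⟩
    have h1 : (M j c \ D).card ≤ m := by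
      rw [← hcard j hj c]
      exact Finset.card_le_card Finset.sdiff_subset
    have h2 : ((M j c \ D).card : ℝ) ≤ m := by exact_mod_cast h1
    show ((M j c \ D).card : ℝ) ≤ 2 * ((m : ℝ) / 2)
    linarith only [h2]
  · intro j hj c c' hc
    exact Finset.disjoint_of_subset_left Finset.sdiff_subset
      (Finset.disjoint_of_subset_right Finset.sdiff_subset (hdisj j hj c c' hc))
  · exact fun c => Finset.sdiff_subset.trans (hfst c)
  · exact fun c => Finset.sdiff_subset.trans (hlst c)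
  · intro j hj
    refine ModeC_sparse R ε m hε hmr (M j) (fun c => M j c \ D) (fun c => Finset.sdiff_subset)
      ?_ (hsz j hj) ?_
    · intro c c' hc
      exact Finset.disjoint_of_subset_left Finset.sdiff_subset
        (Finset.disjoint_of_subset_right Finset.sdiff_subset (hdisj j hj c c' hc))
    · intro c
      refine Finset.disjoint_of_subset_right ?_ Finset.sdiff_disjoint
      exact Finset.subset_biUnion_of_mem
        (fun j => ModeC_B R (30 * (ε / 32) * (m : ℝ) ^ 2) (M j))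
        (Finset.mem_range.2 (by omega : j < 5))

/-- a path of modes all of whose sets are parts of a configuration -/
theorem ModeC_gen {α : Type} [DecidableEq α] (R : Finset α → Prop) (U : Finset α) (ε : ℝ)
    (hε : 0 < ε) (C C' : Finset α) {k q : ℕ} {δ θ : ℝ} (N' : ℕ) (hN' : 0 < N')
    (P : Fin k → Fin q → Finset α) (hP : Cfg R δ θ N' P) (hU : ∀ i a, P i a ⊆ U)
    (t : Fin 7 → Fin k × Fin q) (ht : Function.Injective t) (σ : ℕ → Fin 3 → Fin 7)
    (hst : ∀ j < 4, ∃ c₀, ∀ c, c ≠ c₀ → σ (j + 1) c = σ j c)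
    (hinj : ∀ j ≤ 4, Function.Injective (σ j))
    (h0 : ∀ c, P (t (σ 0 c)).1 (t (σ 0 c)).2 ⊆ C)
    (h1 : ∀ c, P (t (σ 4 c)).1 (t (σ 4 c)).2 ⊆ C')
    (hsp : ∀ j ≤ 4, (e3 R (P (t (σ j 0)).1 (t (σ j 0)).2) (P (t (σ j 1)).1 (t (σ j 1)).2)
      (P (t (σ j 2)).1 (t (σ j 2)).2) : ℝ) ≤ ε / 32 * (N' : ℝ) ^ 3) :
    ModeP R U ε ((N' : ℝ) / 2) C C' := by
  refine mode_clean R U ε hε C C' N' hN' (fun j c => P (t (σ j c)).1 (t (σ j c)).2) ?_ ?_ ?_ ?_
    h0 h1 hsp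
  · intro j hj
    obtain ⟨c₀, h⟩ := hst j hj
    exact ⟨c₀, fun c hc => by
      show P (t (σ (j + 1) c)).1 (t (σ (j + 1) c)).2 = P (t (σ j c)).1 (t (σ j c)).2
      rw [h c hc]⟩
  · exact fun j _ c => hP.card _ _
  · intro j hj c c' hc
    refine hP.disj _ _ _ _ fun h => hc ?_
    exact hinj j hj (ht h)
  · exact fun j _ c => hU _ _

/-- the first kind of mode paths -/
theorem mode_b1 {α : Type} [DecidableEq α] (R : Finset α → Prop) (U : Finset α) (ε : ℝ)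
    (hε : 0 < ε) (C C' : Finset α) {k q : ℕ} {δ θ : ℝ} (N' : ℕ) (hN' : 0 < N')
    (P : Fin k → Fin q → Finset α) (hP : Cfg R δ θ N' P) (hU : ∀ i a, P i a ⊆ U)
    (t : Fin 7 → Fin k × Fin q) (ht : Function.Injective t)
    (h0 : ∀ n, n = 0 ∨ n = 1 ∨ n = 2 → P (t n).1 (t n).2 ⊆ C)
    (h1 : ∀ n, n = 4 ∨ n = 5 ∨ n = 6 → P (t n).1 (t n).2 ⊆ C')
    (hsp : ∀ x y z : Fin 7, (x, y, z) ∈ ({(0, 1, 2), (3, 1, 2), (3, 4, 2), (5, 4, 2), (5, 4, 6)} :
      Finset (Fin 7 × Fin 7 × Fin 7)) →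
      (e3 R (P (t x).1 (t x).2) (P (t y).1 (t y).2) (P (t z).1 (t z).2) : ℝ) ≤
        ε / 32 * (N' : ℝ) ^ 3) :
    ModeP R U ε ((N' : ℝ) / 2) C C' := by
  refine ModeC_gen R U ε hε C C' N' hN' P hP hU t ht
    (fun j => if j = 0 then ![0, 1, 2] else if j = 1 then ![3, 1, 2] else
      if j = 2 then ![3, 4, 2] else if j = 3 then ![5, 4, 2] else ![5, 4, 6]) ?_ ?_ ?_ ?_ ?_
  · decide
  · decide
  · exact fun c => h0 _ (by revert c; decide)
  · exact fun c => h1 _ (by revert c; decide)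
  · intro j hj
    refine hsp _ _ _ ?_
    revert j
    decide

/-- the second kind of mode paths -/
theorem mode_b2 {α : Type} [DecidableEq α] (R : Finset α → Prop) (U : Finset α) (ε : ℝ)
    (hε : 0 < ε) (C C' : Finset α) {k q : ℕ} {δ θ : ℝ} (N' : ℕ) (hN' : 0 < N')
    (P : Fin k → Fin q → Finset α) (hP : Cfg R δ θ N' P) (hU : ∀ i a, P i a ⊆ U)
    (t : Fin 7 → Fin k × Fin q) (ht : Function.Injective t)
    (h0 : ∀ n, n = 0 ∨ n = 1 ∨ n = 2 → P (t n).1 (t n).2 ⊆ C)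
    (h1 : ∀ n, n = 4 ∨ n = 5 ∨ n = 6 → P (t n).1 (t n).2 ⊆ C')
    (hsp : ∀ x y z : Fin 7, (x, y, z) ∈ ({(0, 1, 2), (3, 1, 2), (3, 4, 2), (3, 4, 5), (6, 4, 5)} :
      Finset (Fin 7 × Fin 7 × Fin 7)) →
      (e3 R (P (t x).1 (t x).2) (P (t y).1 (t y).2) (P (t z).1 (t z).2) : ℝ) ≤
        ε / 32 * (N' : ℝ) ^ 3) :
    ModeP R U ε ((N' : ℝ) / 2) C C' := by
  refine ModeC_gen R U ε hε C C' N' hN' P hP hU t ht
    (fun j => if j = 0 then ![0, 1, 2] else if j = 1 then ![3, 1, 2] else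
      if j = 2 then ![3, 4, 2] else if j = 3 then ![3, 4, 5] else ![6, 4, 5]) ?_ ?_ ?_ ?_ ?_
  · decide
  · decide
  · exact fun c => h0 _ (by revert c; decide)
  · exact fun c => h1 _ (by revert c; decide)
  · intro j hj
    refine hsp _ _ _ ?_
    revert j
    decide

end Pool.MP7783b9
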