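import Pool.Agent.H.MP_7783b9_co.X.CfgL
import Pool.Agent.H.MP_7783b9_co.X.ModeC

/-!
# The direction of a configuration
-/

set_option autoImplicit false

open Finset

namespace Pool.MP7783b9

/-- the combinatorial part: arrows between three kinds without two arrows out of a vertex of a
transversal triple have all the same direction -/
theorem Sign_comb {k : ℕ} (κ : Fin k → Fin 3) (hκ : Function.Surjective κ)
    (A : Fin k → Fin k → Prop) (h1 : ∀ i j, κ i ≠ κ j → A i j ∨ A j i)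
    (h2 : ∀ i j l, i ≠ j → i ≠ l → j ≠ l → A i j → A i l → (A j l ∨ A l j) → False) :
    ∃ s : Fin 3, s ≠ 0 ∧ ∀ i j, κ j = κ i + s → A i j ∧ ¬ A j i := by
  have f1 : ∀ a b : Fin 3, b = a + 1 → a ≠ b := by decide
  have f2 : ∀ a b c : Fin 3, b = a + 1 → c = b + 1 → a ≠ c := by decide
  have f3 : ∀ a b c : Fin 3, b = a + 1 → c = b + 1 → a = c + 1 := by decide
  have f4 : ∀ a b : Fin 3, b = a + 2 → a = b + 1 := by decide
  have hne : ∀ i j, κ i ≠ κ j → i ≠ j := fun i j h e => h (congrArg κ e)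
  have L0 : ∀ a b c, κ b = κ a + 1 → κ c = κ b + 1 → A a b → A b c := by
    intro a b c hab hbc h
    have n1 := f1 _ _ hab
    have n2 := f1 _ _ hbc
    have n3 := f2 _ _ _ hab hbc
    rcases h1 b c n2 with h3 | h3
    · exact h3
    · exfalso
      rcases h1 a c n3 with h4 | h4
      · exact h2 a b c (hne _ _ n1) (hne _ _ n3) (hne _ _ n2) h h4 (Or.inr h3)
      · exact h2 c a b (hne _ _ n3).symm (hne _ _ n2).symm (hne _ _ n1) h4 h3 (Or.inl h)
  have L : ∀ a b c, κ b = κ a + 1 → κ c = κ b + 1 → (A a b ↔ A b c) := by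
    intro a b c hab hbc
    refine ⟨L0 a b c hab hbc, fun h => ?_⟩
    have hca := f3 _ _ _ hab hbc
    exact L0 c a b hca hab (L0 b c a hbc hca h)
  have N : ∀ a b, κ b = κ a + 1 → A a b → A b a → False := by
    intro a b hab h h'
    obtain ⟨c, hc⟩ := hκ (κ b + 1)
    have n1 := f1 _ _ hab
    have n2 := f1 _ _ hc
    have n3 := f2 _ _ _ hab hc
    rcases h1 b c n2 with h3 | h3
    · rcases h1 a c n3 with h4 | h4
      · exact h2 a b c (hne _ _ n1) (hne _ _ n3) (hne _ _ n2) h h4 (Or.inl h3)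
      · exact h2 b a c (hne _ _ n1).symm (hne _ _ n2) (hne _ _ n3) h' h3 (Or.inr h4)
    · rcases h1 a c n3 with h4 | h4
      · exact h2 a b c (hne _ _ n1) (hne _ _ n3) (hne _ _ n2) h h4 (Or.inr h3)
      · exact h2 c a b (hne _ _ n3).symm (hne _ _ n2).symm (hne _ _ n1) h4 h3 (Or.inl h)
  have S : ∀ a b a' b', κ b = κ a + 1 → κ a' = κ a → κ b' = κ b → (A a b ↔ A a' b') := by
    intro a b a' b' hab haa hbb
    obtain ⟨c, hc⟩ := hκ (κ b + 1)
    have e1 := L a b c hab hc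
    have e2 := L a' b c (by rw [haa]; exact hab) hc
    have hc' : κ a' = κ c + 1 := by rw [haa]; exact f3 _ _ _ hab hc
    have e3 := L c a' b hc' (by rw [haa]; exact hab)
    have e4 := L c a' b' hc' (by rw [haa, hbb]; exact hab)
    exact e1.trans (e2.symm.trans (e3.symm.trans e4))
  obtain ⟨i0, hi0⟩ := hκ 0
  obtain ⟨i1, hi1⟩ := hκ 1
  obtain ⟨i2, hi2⟩ := hκ 2
  have h01 : κ i1 = κ i0 + 1 := by rw [hi0, hi1]; rfl
  have h12 : κ i2 = κ i1 + 1 := by rw [hi1, hi2]; rfl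
  have h20 : κ i0 = κ i2 + 1 := by rw [hi0, hi2]; rfl
  have T : ∀ a b, κ b = κ a + 1 → (A a b ↔ A i0 i1) := by
    intro a b hab
    have hcase : ∀ x : Fin 3, x = 0 ∨ x = 1 ∨ x = 2 := by decide
    rcases hcase (κ a) with h | h | h
    · exact S a b i0 i1 hab (by rw [hi0, h]) (by rw [hi1, hab, h]; rfl)
    · refine (S a b i1 i2 hab (by rw [hi1, h]) (by rw [hi2, hab, h]; rfl)).trans ?_
      exact (L i0 i1 i2 h01 h12).symm
    · refine (S a b i2 i0 hab (by rw [hi2, h]) (by rw [hi0, hab, h]; rfl)).trans ?_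
      exact L i2 i0 i1 h20 h01
  by_cases hT : A i0 i1
  · refine ⟨1, by decide, fun i j hij => ?_⟩
    have h3 := (T i j hij).2 hT
    exact ⟨h3, fun h4 => N i j hij h3 h4⟩
  · refine ⟨2, by decide, fun i j hij => ?_⟩
    have hji := f4 _ _ hij
    have h3 : ¬ A j i := fun h => hT ((T j i hji).1 h)
    refine ⟨?_, h3⟩
    rcases h1 j i (f1 _ _ hji) with h4 | h4
    · exact absurd h4 h3
    · exact h4

/-- in a configuration whose families lie in clusters of three kinds all arrows have the same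
direction -/
theorem cfg_sign (εl : ℝ) (h0 : 0 < εl) :
    ∃ q₀ : ℕ, 4 ≤ q₀ ∧ ∀ {α : Type} [DecidableEq α] (R : Finset α → Prop) (k q : ℕ)
      (_ : q₀ ≤ q) (δ : ℝ) (_ : 0 < δ) (_ : 7 * δ < thF εl ^ 7) (N' : ℕ) (_ : 0 < N')
      (P : Fin k → Fin q → Finset α) (_ : Cfg R δ (thF εl) N' P) (U : Finset α)
      (_ : ¬ BlueFano R U) (κ : Fin k → Fin 3) (_ : Function.Surjective κ)
      (C : Fin k → Finset α) (_ : ∀ i, C i ⊆ U) (_ : ∀ i a, P i a ⊆ C i)
      (_ : ∀ i a b c, (e3 R (P i a) (P i b) (P i c) : ℝ) ≤ 2 * thF εl * (N' : ℝ) ^ 3)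
      (_ : ∀ i j, κ i ≠ κ j → ¬ Linked R εl N' (C i) (C j)),
      ∃ s : Fin 3, s ≠ 0 ∧ ∀ i j, κ j = κ i + s →
        Arr R δ (thF εl) P i j ∧ Spa R δ (thF εl) P j i := by
  obtain ⟨q₀, hq₀, H⟩ := cfg_pair εl h0
  refine ⟨q₀, hq₀, ?_⟩
  intro α _ R k q hq δ hδ hδθ N' hN' P hP U hF κ hκ C hCU hPC hself hlink
  have t0 := thF_pos h0
  have t1 := thF_le h0
  have t2 : thF εl ≤ 1 := t1.trans (by norm_num)
  have t3 : thF εl ^ 7 ≤ 1 := pow_le_one₀ t0.le t2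
  have hδ1 : δ ≤ 1 := by linarith only [hδθ, t3, hδ]
  have hq4 : 4 ≤ q := hq₀.trans hq
  have hU : ∀ i a, P i a ⊆ U := fun i a => (hPC i a).trans (hCU i)
  obtain ⟨s, hs0, hs⟩ := Sign_comb κ hκ (fun i j => Arr R δ (thF εl) P i j)
    (fun i j hij => H R k q hq δ hδ1 N' hN' P hP i j (fun h => hij (congrArg κ h)) (C i) (C j)
      (hPC i) (hPC j) (hself i) (hself j) (hlink i j hij))
    (fun i j l hij hil hjl g1 g2 g3 => hF (cfg_out R hq4 δ (thF εl) hδ t0 t2 hδθ N' hN' P hP U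
      hU i j l hij hil hjl g1 g2 g3))
  refine ⟨s, hs0, fun i j hij => ?_⟩
  obtain ⟨g1, g2⟩ := hs i j hij
  refine ⟨g1, ?_⟩
  have hne : j ≠ i := by
    intro h
    rw [h] at hij
    apply hs0
    have f5 : ∀ a b : Fin 3, a = a + b → b = 0 := by decide
    exact f5 _ _ hij
  exact (hP.hom j i hne).resolve_right g2

theorem Sign_two {q : ℕ} (hq : 4 ≤ q) (a : Fin q) : ∃ b c : Fin q, b ≠ a ∧ c ≠ a ∧ b ≠ c := by
  obtain ⟨v, hv⟩ := a
  rcases Nat.lt_or_ge v 1 with h | h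
  · refine ⟨⟨1, by omega⟩, ⟨2, by omega⟩, ?_, ?_, ?_⟩ <;> rw [Ne, Fin.mk.injEq] <;> omega
  · rcases Nat.lt_or_ge v 2 with h' | h'
    · refine ⟨⟨0, by omega⟩, ⟨2, by omega⟩, ?_, ?_, ?_⟩ <;> rw [Ne, Fin.mk.injEq] <;> omega
    · refine ⟨⟨0, by omega⟩, ⟨1, by omega⟩, ?_, ?_, ?_⟩ <;> rw [Ne, Fin.mk.injEq] <;> omega

/-- all types `x x' e` are dense -/
theorem Sign_rain (εl : ℝ) (h0 : 0 < εl) (h1 : εl ≤ 1) {α : Type} [DecidableEq α]
    (R : Finset α → Prop) {k q : ℕ} (hq : 4 ≤ q) (δ : ℝ) (hδ1 : δ ≤ 1) (N' : ℕ) (hN' : 0 < N')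
    (P : Fin k → Fin q → Finset α) (hP : Cfg R δ (thF εl) N' P) (U : Finset α)
    (hU : ∀ i a, P i a ⊆ U) (x x' e : Fin k) (hx : x ≠ x') (hxe : x ≠ e) (hx'e : x' ≠ e)
    (s0 : Spa R δ (thF εl) P x x') (s1 : Spa R δ (thF εl) P e x')
    (C E : Finset α) (hC : ∀ a, P x a ⊆ C) (hE : ∀ a, P e a ⊆ E)
    (hself : ∀ a b c, (e3 R (P x a) (P x b) (P x c) : ℝ) ≤ 2 * thF εl * (N' : ℝ) ^ 3)
    (hself' : ∀ a b c, (e3 R (P e a) (P e b) (P e c) : ℝ) ≤ 2 * thF εl * (N' : ℝ) ^ 3)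
    (hm : ¬ ModeP R U εl ((N' : ℝ) / 2) C E) (a b c : Fin q) :
    Dens R δ (thF εl) (P x a) (P x' b) (P e c) := by
  rcases hP.rb x x' e hx hxe hx'e a b c with h | h
  swap
  · exact h
  exfalso
  apply hm
  obtain ⟨a0, a1, ha0, ha1, ha01⟩ := Sign_two hq a
  obtain ⟨c5, c6, hc5, hc6, hc56⟩ := Sign_two hq c
  have hb : 2 * thF εl ≤ εl / 32 := by
    have := thF_le_sq h0
    nlinarith only [this, h0, h1]
  have hN3 : (0 : ℝ) ≤ (N' : ℝ) ^ 3 := by positivity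
  have hb3 : 2 * thF εl * (N' : ℝ) ^ 3 ≤ εl / 32 * (N' : ℝ) ^ 3 :=
    mul_le_mul_of_nonneg_right hb hN3
  have full : ∀ {i j l : Fin k} {u v w : Fin q},
      Sparse R δ (2 * thF εl) (P i u) (P j v) (P l w) →
      (e3 R (P i u) (P j v) (P l w) : ℝ) ≤ εl / 32 * (N' : ℝ) ^ 3 := fun hS =>
    (Link4_full hδ1 (hP.card _ _) (hP.card _ _) (hP.card _ _) hS).trans hb3
  let t : Fin 7 → Fin k × Fin q := ![(x, a0), (x, a1), (x, a), (x', b), (e, c), (e, c5), (e, c6)]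
  have t0 : t 0 = (x, a0) := rfl
  have t1 : t 1 = (x, a1) := rfl
  have t2 : t 2 = (x, a) := rfl
  have t3 : t 3 = (x', b) := rfl
  have t4 : t 4 = (e, c) := rfl
  have t5 : t 5 = (e, c5) := rfl
  have t6 : t 6 = (e, c6) := rfl
  have ht : Function.Injective t := by
    intro m m' hmm
    by_contra hne
    have hall : ∀ (Q : Fin 7 → Prop), Q 0 → Q 1 → Q 2 → Q 3 → Q 4 → Q 5 → Q 6 → ∀ i, Q i := by
      intro Q h0 h1 h2 h3 h4 h5 h6 i
      fin_cases i
      · exact h0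
      · exact h1
      · exact h2
      · exact h3
      · exact h4
      · exact h5
      · exact h6
    have key : ∀ m m' : Fin 7, m < m' → t m ≠ t m' := by
      refine hall _ (hall _ ?_ ?_ ?_ ?_ ?_ ?_ ?_) (hall _ ?_ ?_ ?_ ?_ ?_ ?_ ?_)
        (hall _ ?_ ?_ ?_ ?_ ?_ ?_ ?_) (hall _ ?_ ?_ ?_ ?_ ?_ ?_ ?_) (hall _ ?_ ?_ ?_ ?_ ?_ ?_ ?_)
        (hall _ ?_ ?_ ?_ ?_ ?_ ?_ ?_) (hall _ ?_ ?_ ?_ ?_ ?_ ?_ ?_) <;> intro hlt
      all_goals first
        | exact absurd hlt (by decide)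
        | (simp only [t0, t1, t2, t3, t4, t5, t6, ne_eq, Prod.mk.injEq, not_and]
           first
             | exact fun h => absurd h hx
             | exact fun h => absurd h hxe
             | exact fun h => absurd h hx'e
             | exact fun _ => ha01
             | exact fun _ => ha0
             | exact fun _ => ha1
             | exact fun _ => hc5.symm
             | exact fun _ => hc6.symm
             | exact fun _ => hc56)
    rcases lt_or_gt_of_ne hne with hlt | hlt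
    · exact key m m' hlt hmm
    · exact key m' m hlt hmm.symm
  refine mode_b2 R U εl h0 C E N' hN' P hP hU t ht ?_ ?_ ?_
  · rintro n (rfl | rfl | rfl)
    · exact hC _
    · exact hC _
    · exact hC _
  · rintro n (rfl | rfl | rfl)
    · exact hE _
    · exact hE _
    · exact hE _
  · intro u v w hw
    simp only [Finset.mem_insert, Finset.mem_singleton, Prod.mk.injEq] at hw
    rcases hw with ⟨rfl, rfl, rfl⟩ | ⟨rfl, rfl, rfl⟩ | ⟨rfl, rfl, rfl⟩ | ⟨rfl, rfl, rfl⟩ |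
      ⟨rfl, rfl, rfl⟩
    · rw [t0, t1, t2]
      exact (hself _ _ _).trans hb3
    · rw [t3, t1, t2, e3_rot]
      exact full (s0 a1 a b ha1)
    · rw [t3, t4, t2, ← e3_rot]
      exact full h
    · rw [t3, t4, t5, e3_rot]
      exact full (s1 c c5 b hc5.symm)
    · rw [t6, t4, t5]
      exact (hself' _ _ _).trans hb3

/-- A configuration with the direction `s` of the arrows, `x ≠ x'` of the kind `a`, `y` of the
kind `a - s`, `e` of the kind `a + s`: the type `x x' y` is not everywhere dense. -/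
theorem cfg_big (εl : ℝ) (h0 : 0 < εl) (h1 : εl ≤ 1) {α : Type} [DecidableEq α]
    (R : Finset α → Prop) {k q : ℕ} (hq : 4 ≤ q) (δ θ : ℝ) (hδ : 0 < δ) (hθ : 0 < θ)
    (hθ1 : θ ≤ thF εl) (hδθ : 7 * δ < θ ^ 7) (N' : ℕ) (hN' : 0 < N')
    (P : Fin k → Fin q → Finset α) (hP : Cfg R δ (thF εl) N' P) (U : Finset α)
    (hU : ∀ i a, P i a ⊆ U) (hF : ¬ BlueFano R U) (x x' y e : Fin k) (hx : x ≠ x')
    (hxy : x ≠ y) (hxe : x ≠ e) (hx'y : x' ≠ y) (hx'e : x' ≠ e) (hye : y ≠ e)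
    (a1 : Arr R δ (thF εl) P x e) (a2 : Arr R δ (thF εl) P x' e) (a3 : Arr R δ (thF εl) P e y)
    (s1 : Spa R δ (thF εl) P e x')
    (C E : Finset α) (hC : ∀ a, P x a ⊆ C) (hE : ∀ a, P e a ⊆ E)
    (hself : ∀ a b c, (e3 R (P x a) (P x b) (P x c) : ℝ) ≤ 2 * thF εl * (N' : ℝ) ^ 3)
    (hself' : ∀ a b c, (e3 R (P e a) (P e b) (P e c) : ℝ) ≤ 2 * thF εl * (N' : ℝ) ^ 3)
    (hm : ¬ ModeP R U εl ((N' : ℝ) / 2) C E)
    (hbig : ∀ a b c, Dens R δ θ (P x a) (P x' b) (P y c)) : False := by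
  classical
  have t0 := thF_pos h0
  have t1 := thF_le h0
  have t2 : thF εl ≤ 1 := t1.trans (by norm_num)
  have t3 : thF εl ^ 7 ≤ 1 := pow_le_one₀ t0.le t2
  have t4 : θ ^ 7 ≤ thF εl ^ 7 := pow_le_pow_left₀ hθ.le hθ1 7
  have hδ1 : δ ≤ 1 := by linarith only [hδθ, t3, t4, hδ]
  have s0 : Spa R δ (thF εl) P x x' := by
    refine (hP.hom x x' hx).resolve_right fun hA => hF ?_
    exact cfg_out R hq δ (thF εl) hδ t0 t2 (hδθ.trans_le t4) N' hN' P hP U hU x x' e hx hxe hx'e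
      hA a1 (Or.inl a2)
  have hr3 := Sign_rain εl h0 h1 R hq δ hδ1 N' hN' P hP U hU x x' e hx hxe hx'e s0 s1 C E hC hE
    hself hself' hm
  have hr : ∀ {A B C : Finset α}, Dens R δ θ A B C → Dens R δ θ B C A := fun h => Link_rot h
  have hs : ∀ {A B C : Finset α}, Dens R δ θ A B C → Dens R δ θ A C B := fun h => Link_swap h
  have low : ∀ {A B C : Finset α}, Dens R δ (thF εl) A B C → Dens R δ θ A B C := fun h =>
    h.mono le_rfl hθ1
  let i0 : Fin q := ⟨0, by omega⟩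
  let i1 : Fin q := ⟨1, by omega⟩
  have i01 : i0 ≠ i1 := by
    rw [Ne, Fin.mk.injEq]
    omega
  let V : Fin 7 → Finset α := ![P x i0, P x i1, P x' i0, P e i0, P y i0, P x' i1, P e i1]
  have v0 : V 0 = P x i0 := rfl
  have v1 : V 1 = P x i1 := rfl
  have v2 : V 2 = P x' i0 := rfl
  have v3 : V 3 = P e i0 := rfl
  have v4 : V 4 = P y i0 := rfl
  have v5 : V 5 = P x' i1 := rfl
  have v6 : V 6 = P e i1 := rfl
  have hall : ∀ (Q : Fin 7 → Prop), Q 0 → Q 1 → Q 2 → Q 3 → Q 4 → Q 5 → Q 6 → ∀ i, Q i := by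
    intro Q h0 h1 h2 h3 h4 h5 h6 i
    fin_cases i
    · exact h0
    · exact h1
    · exact h2
    · exact h3
    · exact h4
    · exact h5
    · exact h6
  have d1 : ∀ {i j : Fin k} {a b : Fin q}, i ≠ j → Disjoint (P i a) (P j b) := fun hij =>
    hP.disj _ _ _ _ fun h => hij (congrArg Prod.fst h)
  have d2 : ∀ {i j : Fin k} {a b : Fin q}, a ≠ b → Disjoint (P i a) (P j b) := fun hab =>
    hP.disj _ _ _ _ fun h => hab (congrArg Prod.snd h)
  have hV : ∀ i j, i < j → Disjoint (V i) (V j) := by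
    refine hall _ (hall _ ?_ ?_ ?_ ?_ ?_ ?_ ?_) (hall _ ?_ ?_ ?_ ?_ ?_ ?_ ?_)
      (hall _ ?_ ?_ ?_ ?_ ?_ ?_ ?_) (hall _ ?_ ?_ ?_ ?_ ?_ ?_ ?_) (hall _ ?_ ?_ ?_ ?_ ?_ ?_ ?_)
      (hall _ ?_ ?_ ?_ ?_ ?_ ?_ ?_) (hall _ ?_ ?_ ?_ ?_ ?_ ?_ ?_) <;> intro hlt
    all_goals first
      | exact absurd hlt (by decide)
      | (simp only [v0, v1, v2, v3, v4, v5, v6]
         first
           | exact d1 hx
           | exact d1 hxy
           | exact d1 hxe
           | exact d1 hx'y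
           | exact d1 hx'e
           | exact d1 hye
           | exact d1 hye.symm
           | exact d1 hx'e.symm
           | exact d1 hx'y.symm
           | exact d2 i01)
  have hV' : ∀ i j, i ≠ j → Disjoint (V i) (V j) := by
    intro i j hij
    rcases lt_or_gt_of_ne hij with h | h
    · exact hV i j h
    · exact (hV j i h).symm
  have hnon : ∀ i a, (P i a).Nonempty := fun i a =>
    Finset.card_pos.1 (by rw [hP.card]; exact hN')
  have hne : ∀ i, (V i).Nonempty :=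
    hall _ (hnon _ _) (hnon _ _) (hnon _ _) (hnon _ _) (hnon _ _) (hnon _ _) (hnon _ _)
  have hsub : ∀ i, V i ⊆ U :=
    hall _ (hU _ _) (hU _ _) (hU _ _) (hU _ _) (hU _ _) (hU _ _) (hU _ _)
  obtain ⟨ψ, hψ, hmem, hf⟩ := fano_count R V hV' hne θ δ hθ (hθ1.trans t2) hδ hδθ (by
    intro i j k hij hik hjk hf
    have key : ∀ a b c : Fin 7, ({i, j, k} : Finset (Fin 7)) = {a, b, c} →
        Dens R δ θ (V a) (V b) (V c) → Dens R δ θ (V i) (V j) (V k) := fun a b c h hS =>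
      Link_perm (fun a b c => Dens R δ θ (V a) (V b) (V c)) (fun _ _ _ => hr) (fun _ _ _ => hs)
        h hij hik hjk hS
    simp only [fano, Finset.mem_insert, Finset.mem_singleton] at hf
    rcases hf with hf | hf | hf | hf | hf | hf | hf
    · exact key _ _ _ hf (low (a1 i0 i1 i0 i01))
    · exact key _ _ _ hf (hbig i1 i0 i0)
    · exact key _ _ _ hf (hs (low (a2 i0 i1 i0 i01)))
    · exact key _ _ _ hf (hs (low (a3 i0 i1 i0 i01)))
    · exact key _ _ _ hf (hs (hr (hr (hbig i0 i1 i0))))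
    · exact key _ _ _ hf (hr (low (hr3 i1 i1 i1)))
    · exact key _ _ _ hf (hr (hr (low (hr3 i0 i0 i1)))))
  refine hF ⟨ψ, hψ, fun i => ?_, hf⟩
  obtain ⟨l, -, hl⟩ := Finset.mem_biUnion.1 (hmem i)
  exact hsub l hl

end Pool.MP7783b9
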