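import Pool.Agent.H.MP_7783b9_co.X.Ext
import Pool.Agent.H.MP_7783b9_co.X.Sign
import Pool.Agent.H.MP_7783b9_co.X.Big

/-!
# Three kinds of clusters: one direction is rare
-/

set_option autoImplicit false

open Finset

namespace Pool.MP7783b9

theorem CC1_fin8 {p : Fin 8 → Prop} (h0 : p 0) (h1 : p 1) (h2 : p 2) (h3 : p 3) (h4 : p 4)
    (h5 : p 5) (h6 : p 6) (h7 : p 7) : ∀ i, p i := by
  intro i
  fin_cases i
  · exact h0
  · exact h1
  · exact h2
  · exact h3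
  · exact h4
  · exact h5
  · exact h6
  · exact h7

theorem CC1_pair {α : Type} [DecidableEq α] (B : Fin 8 → Finset α)
    (h : ∀ j i : Fin 8, i < j → Disjoint (B i) (B j)) : ∀ i j, i ≠ j → Disjoint (B i) (B j) := by
  intro i j hij
  rcases lt_or_gt_of_ne hij with h1 | h1
  · exact h j i h1
  · exact (h i j h1).symm

theorem CC1_three (s : Fin 3) (hs : s ≠ 0) : s = 1 ∨ s = 2 := by
  revert s
  decide

theorem CC1_add1 (i : Fin 3) : i ≠ i + 1 := by
  revert i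
  decide

theorem CC1_add2 (i : Fin 3) : i ≠ i + 2 := by
  revert i
  decide

theorem CC1_cov (i t : Fin 3) : t = i ∨ t = i + 1 ∨ t = i + 2 := by
  revert i t
  decide

theorem CC1_core (εl : ℝ) (h0 : 0 < εl) (h1 : εl ≤ 1) (ε4 : ℝ) (h4 : 0 < ε4) :
    ∃ (d2 ρB : ℝ) (m₀ : ℕ), 0 < d2 ∧ d2 ≤ 1 ∧ 0 < ρB ∧ ρB ≤ 1 ∧ ∀ (σ : ℝ) (_ : 0 < σ)
      {α : Type} [DecidableEq α] (R : Finset α → Prop) (N m : ℕ) (_ : m₀ ≤ m)
      (_ : σ * (N : ℝ) ≤ ρB * m) (U : Finset α) (_ : ¬ BlueFano R U)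
      (B C : Fin 8 → Finset α) (κ : Fin 8 → Fin 3)
      (_ : ∀ i, (B i).card = m) (_ : ∀ i j, i ≠ j → Disjoint (B i) (B j))
      (_ : ∀ i, B i ⊆ C i)
      (_ : ∀ i, Clus R (2 * thF εl * σ ^ 3) N (C i) ∧ C i ⊆ U)
      (_ : ∀ i j, κ i ≠ κ j → ¬ Linked R εl (σ / 2 * N) (C i) (C j) ∧
        ¬ ModeP R U εl (σ / 2 * N) (C i) (C j))
      (_ : κ 1 = κ 0) (_ : κ 2 = κ 0 + 1) (_ : κ 3 = κ 0 + 2)
      (_ : κ 5 = κ 4) (_ : κ 6 = κ 4 + 2) (_ : κ 7 = κ 4 + 1)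
      (_ : Dens R d2 (ε4 / 16) (B 0) (B 1) (B 2))
      (_ : Dens R d2 (ε4 / 16) (B 4) (B 5) (B 6)), False := by
  have hth : 0 < thF εl := thF_pos h0
  have hth1 : thF εl ≤ 1 / 16384 := thF_le h0
  obtain ⟨θ, hθe⟩ : ∃ θ : ℝ, θ = min (ε4 / 16) (thF εl) := ⟨_, rfl⟩
  have hθ : 0 < θ := by rw [hθe]; exact lt_min (by linarith) hth
  have hθ1 : θ ≤ thF εl := by rw [hθe]; exact min_le_right _ _
  have hθ2 : θ ≤ ε4 / 16 := by rw [hθe]; exact min_le_left _ _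
  have hθ7 : 0 < θ ^ 7 := by positivity
  have hθ71 : θ ^ 7 ≤ 1 := pow_le_one₀ hθ.le (by linarith)
  obtain ⟨δ, hδe⟩ : ∃ δ : ℝ, δ = θ ^ 7 / 8 := ⟨_, rfl⟩
  have hδ : 0 < δ := by rw [hδe]; positivity
  have hδ1 : δ ≤ 1 := by rw [hδe]; linarith
  have hδθ : 7 * δ < θ ^ 7 := by rw [hδe]; linarith
  have hδth : 7 * δ < thF εl ^ 7 := lt_of_lt_of_le hδθ (pow_le_pow_left₀ hθ.le hθ1 7)
  obtain ⟨q, hq4, hsign⟩ := cfg_sign εl h0
  obtain ⟨ρB, m₀, hρB, hρB1, hext⟩ := ext_blocks 8 q (thF εl) δ hth (by linarith) hδ hδ1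
  refine ⟨δ * ρB, ρB, m₀, mul_pos hδ hρB, ?_, hρB, hρB1, ?_⟩
  · calc δ * ρB ≤ 1 * 1 := mul_le_mul hδ1 hρB1 hρB.le (by norm_num)
      _ = 1 := by norm_num
  intro σ hσ α _ R N m hm hσm U hF B C κ hBc hBd hBC hCl hnl k1 k2 k3 k5 k6 k7 D1 D2
  obtain ⟨N', P, hN'm, hN', hPB, hP⟩ := hext R m hm B hBc hBd
  have hNR : (0 : ℝ) ≤ N := Nat.cast_nonneg N
  have hN'R : (0 : ℝ) < N' := by exact_mod_cast hN'
  have hσN : σ * (N : ℝ) ≤ N' := hσm.trans hN'm
  have hσN2 : σ / 2 * (N : ℝ) ≤ (N' : ℝ) / 2 := by linarith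
  have hσN3 : σ / 2 * (N : ℝ) ≤ N' := by linarith
  have hPC : ∀ i a, P i a ⊆ C i := fun i a => (hPB i a).trans (hBC i)
  have hself : ∀ i a b c, (e3 R (P i a) (P i b) (P i c) : ℝ) ≤ 2 * thF εl * (N' : ℝ) ^ 3 :=
    fun i a b c => clus_self (hCl i).1 hσ hσN le_rfl (by positivity) (hPC i a) (hPC i b)
      (hPC i c)
  have hsurj : Function.Surjective κ := by
    intro t
    rcases CC1_cov (κ 0) t with h | h | h
    · exact ⟨0, h.symm⟩
    · exact ⟨2, by rw [k2, h]⟩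
    · exact ⟨3, by rw [k3, h]⟩
  obtain ⟨s, hs, harr⟩ := hsign R 8 q le_rfl δ hδ hδth N' hN' P hP U hF κ hsurj C
    (fun i => (hCl i).2) hPC hself (fun i j hij h => (hnl i j hij).1 (h.mono hσN3))
  have hPU : ∀ i a, P i a ⊆ U := fun i a => (hPC i a).trans (hCl i).2
  have hbig : ∀ {x x' y : Fin 8}, Dens R (δ * ρB) (ε4 / 16) (B x) (B x') (B y) →
      ∀ a b c, Dens R δ θ (P x a) (P x' b) (P y c) := by
    intro x x' y h a b c
    have hc : ∀ i a, ρB * ((B i).card : ℝ) ≤ ((P i a).card : ℝ) := by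
      intro i a
      rw [hBc i, hP.card i a]
      exact hN'm
    exact (h.sub hδ.le le_rfl (hPB x a) (hPB x' b) (hPB y c) (hc x a) (hc x' b)
      (hc y c)).mono le_rfl hθ2
  have hfin : ∀ (x x' y e : Fin 8), x ≠ x' → x ≠ y → x ≠ e → x' ≠ y → x' ≠ e → y ≠ e →
      κ e = κ x + s → κ e = κ x' + s → κ y = κ e + s → κ x ≠ κ e →
      Dens R (δ * ρB) (ε4 / 16) (B x) (B x') (B y) → False := by
    intro x x' y e n1 n2 n3 n4 n5 n6 e1 e2 e3' ne hD
    exact cfg_big εl h0 h1 R hq4 δ θ hδ hθ hθ1 hδθ N' hN' P hP U hPU hF x x' y e n1 n2 n3 n4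
      n5 n6 (harr x e e1).1 (harr x' e e2).1 (harr e y e3').1 (harr x' e e2).2 (C x) (C e)
      (hPC x) (hPC e) (hself x) (hself e)
      (fun h => (hnl x e ne).2 (h.mono (Finset.Subset.refl U) hσN2)) (hbig hD)
  rcases CC1_three s hs with h | h
  · refine hfin 4 5 6 7 (by decide) (by decide) (by decide) (by decide) (by decide) (by decide)
      ?_ ?_ ?_ ?_ D2
    · rw [k7, h]
    · rw [k7, k5, h]
    · rw [k6, k7, h, add_assoc]
      rfl
    · rw [k7]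
      exact CC1_add1 _
  · refine hfin 0 1 2 3 (by decide) (by decide) (by decide) (by decide) (by decide) (by decide)
      ?_ ?_ ?_ ?_ D1
    · rw [k3, h]
    · rw [k3, k1, h]
    · rw [k2, k3, h, add_assoc]
      rfl
    · rw [k3]
      exact CC1_add2 _

/-- clusters of three kinds: the blue triples of type `i i j` are rare for `j = i + s` -/
theorem c1_rule (εl : ℝ) (h0 : 0 < εl) (h1 : εl ≤ 1) (ε4 : ℝ) (h4 : 0 < ε4) (h41 : ε4 ≤ 1) :
    ∃ ρ : ℝ, 0 < ρ ∧ ρ ≤ 1 ∧ ∃ εc : ℝ, 0 < εc ∧ ∃ N₀ : ℕ, ∀ {α : Type} [DecidableEq α]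
      (R : Finset α → Prop) (N : ℕ) (_ : N₀ ≤ N) (U : Finset α) (_ : ¬ BlueFano R U)
      (𝒦 : Fin 3 → Finset (Finset α)) (_ : ∀ i, (𝒦 i).Nonempty)
      (_ : ∀ i, ∀ C ∈ 𝒦 i, Clus R εc N C ∧ C ⊆ U)
      (_ : ∀ i, ∀ C ∈ 𝒦 i, ∀ j, ∀ C' ∈ 𝒦 j, (C = C' ∧ i = j) ∨ Disjoint C C')
      (_ : ∀ i j, i ≠ j → ∀ C ∈ 𝒦 i, ∀ C' ∈ 𝒦 j, ¬ Linked R εl (ρ * N) C C' ∧
        ¬ ModeP R U εl (ρ * N) C C'),
      ∃ s : Fin 3, s ≠ 0 ∧ ∀ i, ∀ C ∈ 𝒦 i, ∀ C' ∈ 𝒦 i, ∀ D ∈ 𝒦 (i + s),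
        (e3 R C C' D : ℝ) ≤ ε4 * (N : ℝ) ^ 3 := by
  obtain ⟨d2, ρB, m₀, hd2, hd21, hρB, hρB1, hcore⟩ := CC1_core εl h0 h1 ε4 h4
  obtain ⟨ρ2, v2, hρ2, hρ21, hbox2⟩ := big_box ε4 d2 h4 h41 hd2 hd21
  have hd1 : 0 < d2 * ρ2 := mul_pos hd2 hρ2
  have hd11 : d2 * ρ2 ≤ 1 := by
    calc d2 * ρ2 ≤ 1 * 1 := mul_le_mul hd21 hρ21 hρ2.le (by norm_num)
      _ = 1 := by norm_num
  obtain ⟨ρ1, v1, hρ1, hρ11, hbox1⟩ := big_box ε4 (d2 * ρ2) h4 h41 hd1 hd11
  obtain ⟨σ, hσe⟩ : ∃ σ : ℝ, σ = ρB * ρ2 * ρ1 * ε4 / 200 := ⟨_, rfl⟩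
  have hσ : 0 < σ := by rw [hσe]; positivity
  have hprod : ρB * ρ2 * ρ1 * ε4 ≤ 1 := by
    calc ρB * ρ2 * ρ1 * ε4 ≤ 1 * 1 * 1 * 1 := by gcongr
      _ = 1 := by norm_num
  obtain ⟨T, hTe⟩ : ∃ T : ℝ, T = (v1 : ℝ) + v2 / ρ1 + m₀ / (ρ1 * ρ2) + 3 := ⟨_, rfl⟩
  have hT1 : (0 : ℝ) ≤ v1 := Nat.cast_nonneg _
  have hT2 : (0 : ℝ) ≤ v2 / ρ1 := by positivity
  have hT3 : (0 : ℝ) ≤ m₀ / (ρ1 * ρ2) := by positivity
  refine ⟨σ / 2, by positivity, by rw [hσe]; linarith, 2 * thF εl * σ ^ 3,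
    mul_pos (mul_pos two_pos (thF_pos h0)) (pow_pos hσ 3), ⌈100 * T / ε4⌉₊, ?_⟩
  intro α _ R N hN U hF 𝒦 hne hcl hdis hnl
  by_contra hcon
  push Not at hcon
  obtain ⟨i1, C1, hC1, C1', hC1', D1, hD1, hb1⟩ := hcon 1 (by decide)
  obtain ⟨i2, C2, hC2, C2', hC2', D2, hD2, hb2⟩ := hcon 2 (by decide)
  obtain ⟨F1, hF1⟩ := hne (i1 + 2)
  obtain ⟨F2, hF2⟩ := hne (i2 + 1)
  -- sizes
  have hN1 : 100 * T / ε4 ≤ N := (Nat.le_ceil _).trans (by exact_mod_cast hN)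
  have hNT : T ≤ ε4 * N / 100 := by
    rw [div_le_iff₀ h4] at hN1
    linarith
  have hNR : (0 : ℝ) ≤ N := Nat.cast_nonneg N
  obtain ⟨v, hve⟩ : ∃ v : ℕ, v = ⌊ε4 * N / 100⌋₊ := ⟨_, rfl⟩
  have hv1 : (v : ℝ) ≤ ε4 * N / 100 := by
    rw [hve]; exact Nat.floor_le (by positivity)
  have hv2 : ε4 * N / 100 - 1 ≤ v := by
    rw [hve]; exact (Nat.sub_one_lt_floor _).le
  have hvT : T - 1 ≤ v := by linarith
  have hv3 : ε4 * N / 200 ≤ v := by
    have : 3 ≤ ε4 * (N : ℝ) / 100 := by linarith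
    linarith
  have hεN : 0 ≤ ε4 * (N : ℝ) := by positivity
  have hεN1 : ε4 * (N : ℝ) ≤ N := by nlinarith
  -- first boxes
  have hdd : ∀ {i : Fin 3} {C C' : Finset α}, C ∈ 𝒦 i → C' ∈ 𝒦 i → C = C' ∨ Disjoint C C' :=
    fun hC hC' => (hdis _ _ hC _ _ hC').imp_left And.left
  have hdn : ∀ {i j : Fin 3} {C D : Finset α}, i ≠ j → C ∈ 𝒦 i → D ∈ 𝒦 j → Disjoint C D :=
    fun hij hC hD => (hdis _ _ hC _ _ hD).resolve_left fun h => hij h.2
  obtain ⟨m1, X1a, X1a', Y1a, hm1, hm1p, hm1v, hX1a, hX1a', hY1a, hdX1, cX1, cX1', cY1, hD1'⟩ :=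
    hbox1 R N C1 C1' D1 ∅ (hcl i1 C1 hC1).1.1 (hcl i1 C1' hC1').1.1 (hcl _ D1 hD1).1.1
      (hdd hC1 hC1') (hdn (CC1_add1 i1) hC1 hD1) (hdn (CC1_add1 i1) hC1' hD1)
      (by rw [Finset.card_empty, Nat.cast_zero]; positivity) v
      (by
        have : (v1 : ℝ) ≤ v := by linarith
        exact_mod_cast this)
      (by linarith) hb1
  rw [Finset.sdiff_empty] at hX1a hX1a' hY1a
  have hm1R : (m1 : ℝ) ≤ v := by exact_mod_cast hm1v
  have hm1T : T - 1 ≤ (m1 : ℝ) / ρ1 := by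
    rw [le_div_iff₀ hρ1]
    nlinarith
  have hv2m : v2 ≤ m1 := by
    have h5 : (v2 : ℝ) / ρ1 ≤ (m1 : ℝ) / ρ1 := by linarith
    have h6 : (v2 : ℝ) ≤ m1 := by
      rwa [div_le_div_iff_of_pos_right hρ1] at h5
    exact_mod_cast h6
  have cΦ : (((X1a ∪ X1a' ∪ Y1a).card : ℕ) : ℝ) ≤ ε4 / 32 * N := by
    have h5 : (X1a ∪ X1a' ∪ Y1a).card ≤ m1 + m1 + m1 := by
      refine (Finset.card_union_le _ _).trans ?_
      rw [cY1]
      have := Finset.card_union_le X1a X1a'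
      omega
    have h6 : (((X1a ∪ X1a' ∪ Y1a).card : ℕ) : ℝ) ≤ m1 + m1 + m1 := by exact_mod_cast h5
    linarith
  obtain ⟨m2, X2, X2', Y2, hm2, hm2p, hm2v, hX2, hX2', hY2, hdX2, cX2, cX2', cY2, hD2'⟩ :=
    hbox2 R N C2 C2' D2 (X1a ∪ X1a' ∪ Y1a) (hcl i2 C2 hC2).1.1 (hcl i2 C2' hC2').1.1
      (hcl _ D2 hD2).1.1
      (hdd hC2 hC2') (hdn (CC1_add2 i2) hC2 hD2) (hdn (CC1_add2 i2) hC2' hD2)
      cΦ m1 hv2m (by linarith) hb2
  have hm2R : (m2 : ℝ) ≤ m1 := by exact_mod_cast hm2v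
  -- shrink the first boxes
  obtain ⟨X1, hX1, cX1b⟩ := Finset.exists_subset_card_eq (hm2v.trans cX1.ge)
  obtain ⟨X1', hX1', cX1b'⟩ := Finset.exists_subset_card_eq (hm2v.trans cX1'.ge)
  obtain ⟨Y1, hY1, cY1b⟩ := Finset.exists_subset_card_eq (hm2v.trans cY1.ge)
  have hDe1 : Dens R d2 (ε4 / 16) X1 X1' Y1 := by
    refine hD1'.sub hd2.le le_rfl hX1 hX1' hY1 ?_ ?_ ?_
    · rw [cX1, cX1b]; exact hm2
    · rw [cX1', cX1b']; exact hm2
    · rw [cY1, cY1b]; exact hm2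
  -- the blocks E1, E2
  have h8 : 8 * m2 ≤ N := by
    have : (8 : ℝ) * m2 ≤ N := by linarith
    exact_mod_cast this
  obtain ⟨W, hW⟩ : ∃ W : Finset α, W = X1 ∪ X1' ∪ Y1 ∪ (X2 ∪ X2' ∪ Y2) := ⟨_, rfl⟩
  have cW : W.card ≤ 6 * m2 := by
    rw [hW]
    have u1 := Finset.card_union_le (X1 ∪ X1' ∪ Y1) (X2 ∪ X2' ∪ Y2)
    have u2 := Finset.card_union_le (X1 ∪ X1') Y1
    have u3 := Finset.card_union_le X1 X1'
    have u4 := Finset.card_union_le (X2 ∪ X2') Y2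
    have u5 := Finset.card_union_le X2 X2'
    omega
  have cF1 := (hcl _ F1 hF1).1.1
  have cF2 := (hcl _ F2 hF2).1.1
  obtain ⟨E1, hE1, cE1⟩ : ∃ E1 ⊆ F1 \ W, E1.card = m2 := by
    apply Finset.exists_subset_card_eq
    have := Finset.le_card_sdiff W F1
    omega
  obtain ⟨E2, hE2, cE2⟩ : ∃ E2 ⊆ F2 \ (W ∪ E1), E2.card = m2 := by
    apply Finset.exists_subset_card_eq
    have u1 := Finset.le_card_sdiff (W ∪ E1) F2
    have u2 := Finset.card_union_le W E1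
    omega
  have hΦ1 : X1a ⊆ X1a ∪ X1a' ∪ Y1a :=
    Finset.subset_union_left.trans Finset.subset_union_left
  have hΦ2 : X1a' ⊆ X1a ∪ X1a' ∪ Y1a :=
    Finset.subset_union_right.trans Finset.subset_union_left
  have hΦ3 : Y1a ⊆ X1a ∪ X1a' ∪ Y1a := Finset.subset_union_right
  have s0 : X1 ⊆ X1a ∪ X1a' ∪ Y1a := hX1.trans hΦ1
  have s1 : X1' ⊆ X1a ∪ X1a' ∪ Y1a := hX1'.trans hΦ2
  have s2 : Y1 ⊆ X1a ∪ X1a' ∪ Y1a := hY1.trans hΦ3
  have w0 : X1 ⊆ W := fun x h => by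
    rw [hW]; exact Finset.mem_union_left _ (Finset.mem_union_left _ (Finset.mem_union_left _ h))
  have w1 : X1' ⊆ W := fun x h => by
    rw [hW]; exact Finset.mem_union_left _ (Finset.mem_union_left _ (Finset.mem_union_right _ h))
  have w2 : Y1 ⊆ W := fun x h => by
    rw [hW]; exact Finset.mem_union_left _ (Finset.mem_union_right _ h)
  have w4 : X2 ⊆ W := fun x h => by
    rw [hW]; exact Finset.mem_union_right _ (Finset.mem_union_left _ (Finset.mem_union_left _ h))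
  have w5 : X2' ⊆ W := fun x h => by
    rw [hW]; exact Finset.mem_union_right _ (Finset.mem_union_left _ (Finset.mem_union_right _ h))
  have w6 : Y2 ⊆ W := fun x h => by
    rw [hW]; exact Finset.mem_union_right _ (Finset.mem_union_right _ h)
  obtain ⟨B, hB⟩ : ∃ B : Fin 8 → Finset α, B = ![X1, X1', Y1, E1, X2, X2', Y2, E2] := ⟨_, rfl⟩
  obtain ⟨C, hC⟩ : ∃ C : Fin 8 → Finset α, C = ![C1, C1', D1, F1, C2, C2', D2, F2] := ⟨_, rfl⟩
  obtain ⟨κ, hκ⟩ : ∃ κ : Fin 8 → Fin 3,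
      κ = ![i1, i1, i1 + 1, i1 + 2, i2, i2, i2 + 2, i2 + 1] := ⟨_, rfl⟩
  have b0 : B 0 = X1 := by rw [hB]; rfl
  have c0 : C 0 = C1 := by rw [hC]; rfl
  have k0 : κ 0 = i1 := by rw [hκ]; rfl
  have b1 : B 1 = X1' := by rw [hB]; rfl
  have c1 : C 1 = C1' := by rw [hC]; rfl
  have k1 : κ 1 = i1 := by rw [hκ]; rfl
  have b2 : B 2 = Y1 := by rw [hB]; rfl
  have c2 : C 2 = D1 := by rw [hC]; rfl
  have k2 : κ 2 = i1 + 1 := by rw [hκ]; rfl
  have b3 : B 3 = E1 := by rw [hB]; rfl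
  have c3 : C 3 = F1 := by rw [hC]; rfl
  have k3 : κ 3 = i1 + 2 := by rw [hκ]; rfl
  have b4 : B 4 = X2 := by rw [hB]; rfl
  have c4 : C 4 = C2 := by rw [hC]; rfl
  have k4 : κ 4 = i2 := by rw [hκ]; rfl
  have b5 : B 5 = X2' := by rw [hB]; rfl
  have c5 : C 5 = C2' := by rw [hC]; rfl
  have k5 : κ 5 = i2 := by rw [hκ]; rfl
  have b6 : B 6 = Y2 := by rw [hB]; rfl
  have c6 : C 6 = D2 := by rw [hC]; rfl
  have k6 : κ 6 = i2 + 2 := by rw [hκ]; rfl
  have b7 : B 7 = E2 := by rw [hB]; rfl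
  have c7 : C 7 = F2 := by rw [hC]; rfl
  have k7 : κ 7 = i2 + 1 := by rw [hκ]; rfl
  have hBc : ∀ i, (B i).card = m2 := CC1_fin8
    (by rw [b0]; exact cX1b)
    (by rw [b1]; exact cX1b')
    (by rw [b2]; exact cY1b)
    (by rw [b3]; exact cE1)
    (by rw [b4]; exact cX2)
    (by rw [b5]; exact cX2')
    (by rw [b6]; exact cY2)
    (by rw [b7]; exact cE2)
  have hmem : ∀ i, C i ∈ 𝒦 (κ i) := CC1_fin8
    (by rw [c0, k0]; exact hC1)
    (by rw [c1, k1]; exact hC1')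
    (by rw [c2, k2]; exact hD1)
    (by rw [c3, k3]; exact hF1)
    (by rw [c4, k4]; exact hC2)
    (by rw [c5, k5]; exact hC2')
    (by rw [c6, k6]; exact hD2)
    (by rw [c7, k7]; exact hF2)
  have hBC : ∀ i, B i ⊆ C i := CC1_fin8
    (by rw [b0, c0]; exact hX1.trans hX1a)
    (by rw [b1, c1]; exact hX1'.trans hX1a')
    (by rw [b2, c2]; exact hY1.trans hY1a)
    (by rw [b3, c3]; exact hE1.trans Finset.sdiff_subset)
    (by rw [b4, c4]; exact hX2.trans Finset.sdiff_subset)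
    (by rw [b5, c5]; exact hX2'.trans Finset.sdiff_subset)
    (by rw [b6, c6]; exact hY2.trans Finset.sdiff_subset)
    (by rw [b7, c7]; exact hE2.trans Finset.sdiff_subset)
  have e01 : Disjoint (B 0) (B 1) := by
    rw [b0, b1]
    exact Finset.disjoint_of_subset_left hX1 (Finset.disjoint_of_subset_right hX1' hdX1)
  have e02 : Disjoint (B 0) (B 2) := by
    rw [b0, b2]
    exact Finset.disjoint_of_subset_left (hX1.trans hX1a) (Finset.disjoint_of_subset_right (hY1.trans hY1a) (hdn (CC1_add1 i1) hC1 hD1))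
  have e03 : Disjoint (B 0) (B 3) := by
    rw [b0, b3]
    exact Finset.disjoint_of_subset_left w0 (Finset.disjoint_of_subset_right hE1 Finset.disjoint_sdiff)
  have e04 : Disjoint (B 0) (B 4) := by
    rw [b0, b4]
    exact Finset.disjoint_of_subset_left s0 (Finset.disjoint_of_subset_right hX2 Finset.disjoint_sdiff)
  have e05 : Disjoint (B 0) (B 5) := by
    rw [b0, b5]
    exact Finset.disjoint_of_subset_left s0 (Finset.disjoint_of_subset_right hX2' Finset.disjoint_sdiff)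
  have e06 : Disjoint (B 0) (B 6) := by
    rw [b0, b6]
    exact Finset.disjoint_of_subset_left s0 (Finset.disjoint_of_subset_right hY2 Finset.disjoint_sdiff)
  have e07 : Disjoint (B 0) (B 7) := by
    rw [b0, b7]
    exact Finset.disjoint_of_subset_left (w0.trans Finset.subset_union_left) (Finset.disjoint_of_subset_right hE2 Finset.disjoint_sdiff)
  have e12 : Disjoint (B 1) (B 2) := by
    rw [b1, b2]
    exact Finset.disjoint_of_subset_left (hX1'.trans hX1a') (Finset.disjoint_of_subset_right (hY1.trans hY1a) (hdn (CC1_add1 i1) hC1' hD1))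
  have e13 : Disjoint (B 1) (B 3) := by
    rw [b1, b3]
    exact Finset.disjoint_of_subset_left w1 (Finset.disjoint_of_subset_right hE1 Finset.disjoint_sdiff)
  have e14 : Disjoint (B 1) (B 4) := by
    rw [b1, b4]
    exact Finset.disjoint_of_subset_left s1 (Finset.disjoint_of_subset_right hX2 Finset.disjoint_sdiff)
  have e15 : Disjoint (B 1) (B 5) := by
    rw [b1, b5]
    exact Finset.disjoint_of_subset_left s1 (Finset.disjoint_of_subset_right hX2' Finset.disjoint_sdiff)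
  have e16 : Disjoint (B 1) (B 6) := by
    rw [b1, b6]
    exact Finset.disjoint_of_subset_left s1 (Finset.disjoint_of_subset_right hY2 Finset.disjoint_sdiff)
  have e17 : Disjoint (B 1) (B 7) := by
    rw [b1, b7]
    exact Finset.disjoint_of_subset_left (w1.trans Finset.subset_union_left) (Finset.disjoint_of_subset_right hE2 Finset.disjoint_sdiff)
  have e23 : Disjoint (B 2) (B 3) := by
    rw [b2, b3]
    exact Finset.disjoint_of_subset_left w2 (Finset.disjoint_of_subset_right hE1 Finset.disjoint_sdiff)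
  have e24 : Disjoint (B 2) (B 4) := by
    rw [b2, b4]
    exact Finset.disjoint_of_subset_left s2 (Finset.disjoint_of_subset_right hX2 Finset.disjoint_sdiff)
  have e25 : Disjoint (B 2) (B 5) := by
    rw [b2, b5]
    exact Finset.disjoint_of_subset_left s2 (Finset.disjoint_of_subset_right hX2' Finset.disjoint_sdiff)
  have e26 : Disjoint (B 2) (B 6) := by
    rw [b2, b6]
    exact Finset.disjoint_of_subset_left s2 (Finset.disjoint_of_subset_right hY2 Finset.disjoint_sdiff)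
  have e27 : Disjoint (B 2) (B 7) := by
    rw [b2, b7]
    exact Finset.disjoint_of_subset_left (w2.trans Finset.subset_union_left) (Finset.disjoint_of_subset_right hE2 Finset.disjoint_sdiff)
  have e34 : Disjoint (B 3) (B 4) := by
    rw [b3, b4]
    exact (Finset.disjoint_of_subset_left w4 (Finset.disjoint_of_subset_right hE1 Finset.disjoint_sdiff)).symm
  have e35 : Disjoint (B 3) (B 5) := by
    rw [b3, b5]
    exact (Finset.disjoint_of_subset_left w5 (Finset.disjoint_of_subset_right hE1 Finset.disjoint_sdiff)).symm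
  have e36 : Disjoint (B 3) (B 6) := by
    rw [b3, b6]
    exact (Finset.disjoint_of_subset_left w6 (Finset.disjoint_of_subset_right hE1 Finset.disjoint_sdiff)).symm
  have e37 : Disjoint (B 3) (B 7) := by
    rw [b3, b7]
    exact Finset.disjoint_of_subset_left Finset.subset_union_right (Finset.disjoint_of_subset_right hE2 Finset.disjoint_sdiff)
  have e45 : Disjoint (B 4) (B 5) := by
    rw [b4, b5]
    exact hdX2
  have e46 : Disjoint (B 4) (B 6) := by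
    rw [b4, b6]
    exact Finset.disjoint_of_subset_left (hX2.trans Finset.sdiff_subset) (Finset.disjoint_of_subset_right (hY2.trans Finset.sdiff_subset) (hdn (CC1_add2 i2) hC2 hD2))
  have e47 : Disjoint (B 4) (B 7) := by
    rw [b4, b7]
    exact Finset.disjoint_of_subset_left (w4.trans Finset.subset_union_left) (Finset.disjoint_of_subset_right hE2 Finset.disjoint_sdiff)
  have e56 : Disjoint (B 5) (B 6) := by
    rw [b5, b6]
    exact Finset.disjoint_of_subset_left (hX2'.trans Finset.sdiff_subset) (Finset.disjoint_of_subset_right (hY2.trans Finset.sdiff_subset) (hdn (CC1_add2 i2) hC2' hD2))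
  have e57 : Disjoint (B 5) (B 7) := by
    rw [b5, b7]
    exact Finset.disjoint_of_subset_left (w5.trans Finset.subset_union_left) (Finset.disjoint_of_subset_right hE2 Finset.disjoint_sdiff)
  have e67 : Disjoint (B 6) (B 7) := by
    rw [b6, b7]
    exact Finset.disjoint_of_subset_left (w6.trans Finset.subset_union_left) (Finset.disjoint_of_subset_right hE2 Finset.disjoint_sdiff)
  have hBd : ∀ i j, i ≠ j → Disjoint (B i) (B j) := by
    refine CC1_pair B ?_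
    refine CC1_fin8 ?_ ?_ ?_ ?_ ?_ ?_ ?_ ?_
    · exact CC1_fin8 (fun h => absurd h (by decide)) (fun h => absurd h (by decide)) (fun h => absurd h (by decide)) (fun h => absurd h (by decide))
        (fun h => absurd h (by decide)) (fun h => absurd h (by decide)) (fun h => absurd h (by decide)) (fun h => absurd h (by decide))
    · exact CC1_fin8 (fun _ => e01) (fun h => absurd h (by decide)) (fun h => absurd h (by decide)) (fun h => absurd h (by decide))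
        (fun h => absurd h (by decide)) (fun h => absurd h (by decide)) (fun h => absurd h (by decide)) (fun h => absurd h (by decide))
    · exact CC1_fin8 (fun _ => e02) (fun _ => e12) (fun h => absurd h (by decide)) (fun h => absurd h (by decide))
        (fun h => absurd h (by decide)) (fun h => absurd h (by decide)) (fun h => absurd h (by decide)) (fun h => absurd h (by decide))
    · exact CC1_fin8 (fun _ => e03) (fun _ => e13) (fun _ => e23) (fun h => absurd h (by decide))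
        (fun h => absurd h (by decide)) (fun h => absurd h (by decide)) (fun h => absurd h (by decide)) (fun h => absurd h (by decide))
    · exact CC1_fin8 (fun _ => e04) (fun _ => e14) (fun _ => e24) (fun _ => e34)
        (fun h => absurd h (by decide)) (fun h => absurd h (by decide)) (fun h => absurd h (by decide)) (fun h => absurd h (by decide))
    · exact CC1_fin8 (fun _ => e05) (fun _ => e15) (fun _ => e25) (fun _ => e35)
        (fun _ => e45) (fun h => absurd h (by decide)) (fun h => absurd h (by decide)) (fun h => absurd h (by decide))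
    · exact CC1_fin8 (fun _ => e06) (fun _ => e16) (fun _ => e26) (fun _ => e36)
        (fun _ => e46) (fun _ => e56) (fun h => absurd h (by decide)) (fun h => absurd h (by decide))
    · exact CC1_fin8 (fun _ => e07) (fun _ => e17) (fun _ => e27) (fun _ => e37)
        (fun _ => e47) (fun _ => e57) (fun _ => e67) (fun h => absurd h (by decide))
  have hm2b : ρ1 * ρ2 * (v : ℝ) ≤ m2 := by
    have h5 : ρ2 * (ρ1 * (v : ℝ)) ≤ ρ2 * m1 := mul_le_mul_of_nonneg_left hm1 hρ2.le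
    linarith
  have hmm : m₀ ≤ m2 := by
    have h12 : 0 < ρ1 * ρ2 := mul_pos hρ1 hρ2
    have h5 : (m₀ : ℝ) / (ρ1 * ρ2) ≤ v := by linarith
    rw [div_le_iff₀ h12] at h5
    have h6 : (m₀ : ℝ) ≤ m2 := by linarith
    exact_mod_cast h6
  have hσm : σ * (N : ℝ) ≤ ρB * m2 := by
    have h5 : ρ1 * ρ2 * (ε4 * (N : ℝ) / 200) ≤ ρ1 * ρ2 * v :=
      mul_le_mul_of_nonneg_left hv3 (mul_pos hρ1 hρ2).le
    have h6 : ρB * (ρ1 * ρ2 * (ε4 * (N : ℝ) / 200)) ≤ ρB * m2 :=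
      mul_le_mul_of_nonneg_left (h5.trans hm2b) hρB.le
    refine le_trans (le_of_eq ?_) h6
    rw [hσe]
    ring
  exact hcore σ hσ R N m2 hmm hσm U hF B C κ hBc hBd hBC
    (fun i => hcl _ _ (hmem i)) (fun i j hij => hnl _ _ hij _ (hmem i) _ (hmem j))
    (by rw [k1, k0]) (by rw [k2, k0]) (by rw [k3, k0]) (by rw [k5, k4]) (by rw [k6, k4])
    (by rw [k7, k4]) (by rw [b0, b1, b2]; exact hDe1) (by rw [b4, b5, b6]; exact hD2')

end Pool.MP7783b9
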