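import Pool.Agent.H.MP_7783b9_co.X.Ext
import Pool.Agent.H.MP_7783b9_co.X.Sign

/-!
# Three kinds of clusters: every point has red pairs
-/

set_option autoImplicit false

open Finset

namespace Pool.MP7783b9

theorem CC2_e3mono {α : Type} [DecidableEq α] (R : Finset α → Prop) {X Y Z X' Y' Z' : Finset α}
    (hX : X ⊆ X') (hY : Y ⊆ Y') (hZ : Z ⊆ Z') : e3 R X Y Z ≤ e3 R X' Y' Z' := by
  classical
  unfold e3
  refine Finset.card_le_card fun p hp => ?_
  rw [Finset.mem_filter, Finset.mem_product, Finset.mem_product] at hp ⊢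
  exact ⟨⟨hX hp.1.1, hY hp.1.2.1, hZ hp.1.2.2⟩, hp.2⟩

/-- the counting lemma for some of the lines -/
theorem CC2_iter {α : Type} [DecidableEq α] (R : Finset α → Prop) (V : Fin 7 → Finset α)
    (hV : ∀ i j, i ≠ j → Disjoint (V i) (V j)) (θ δ : ℝ)
    (hθ : 0 < θ) (hθ1 : θ ≤ 1) (hδ : 0 < δ) (L : Finset (Finset (Fin 7))) :
    L ⊆ fano → (∀ i j k, i ≠ j → i ≠ k → j ≠ k → ({i, j, k} : Finset (Fin 7)) ∈ L →
      Dens R δ θ (V i) (V j) (V k)) →
    (θ ^ L.card - L.card * δ) * ∏ l, ((V l).card : ℝ) ≤ ((transv R V L).card : ℝ) := by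
  classical
  have hP : (0 : ℝ) ≤ ∏ l, ((V l).card : ℝ) := Finset.prod_nonneg fun _ _ => Nat.cast_nonneg _
  have h3 := FanoC_card3
  induction L using Finset.induction_on with
  | empty =>
    intro _ _
    have h0 : transv R V ∅ = Fintype.piFinset V :=
      Finset.filter_true_of_mem fun x _ f hf => absurd hf (Finset.notMem_empty f)
    rw [h0, Fintype.card_piFinset, Finset.card_empty, pow_zero, Nat.cast_zero, zero_mul,
      sub_zero, one_mul]
    push_cast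
    exact le_refl _
  | insert f L hfL ih =>
    intro hL hD
    have hf : f ∈ fano := hL (Finset.mem_insert_self f L)
    have hL' : L ⊆ fano := (Finset.subset_insert f L).trans hL
    have hD' : ∀ i j k, i ≠ j → i ≠ k → j ≠ k → ({i, j, k} : Finset (Fin 7)) ∈ L →
        Dens R δ θ (V i) (V j) (V k) := fun i j k a b c h =>
      hD i j k a b c (Finset.mem_insert_of_mem h)
    obtain ⟨i, j, k, hij, hik, hjk, rfl⟩ := Finset.card_eq_three.1 (h3 f hf)
    have h1 := transv_step R V hV θ δ hθ hθ1 hδ L hL' i j k hij hik hjk hf hfL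
      (hD i j k hij hik hjk (Finset.mem_insert_self _ L))
    refine le_trans ?_ h1
    have h2 := mul_le_mul_of_nonneg_left (ih hL' hD') hθ.le
    rw [Finset.card_insert_of_notMem hfL, pow_succ]
    push_cast
    have h4 : 0 ≤ (L.card : ℝ) * δ * ∏ l, ((V l).card : ℝ) :=
      mul_nonneg (mul_nonneg (Nat.cast_nonneg _) hδ.le) hP
    have h5 : θ * ((L.card : ℝ) * δ * ∏ l, ((V l).card : ℝ)) ≤
        (L.card : ℝ) * δ * ∏ l, ((V l).card : ℝ) := by
      nlinarith only [h4, hθ1]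
    nlinarith only [h2, h5]

/-- choices in which one pair of coordinates lies in `S` -/
theorem CC2_cnt {α : Type} [DecidableEq α] (V : Fin 7 → Finset α) (w : α) (hw : V 0 = {w})
    (M : ℕ) (hM : ∀ l, l ≠ 0 → (V l).card = M) (i j a b c d : Fin 7)
    (hall : ∀ l : Fin 7, l = 0 ∨ l = i ∨ l = j ∨ l = a ∨ l = b ∨ l = c ∨ l = d)
    (ha : a ≠ 0) (hb : b ≠ 0) (hc : c ≠ 0) (hd : d ≠ 0)
    (S : Finset (α × α)) (T : Finset (Fin 7 → α))
    (hT : ∀ x ∈ T, (∀ l, x l ∈ V l) ∧ (x i, x j) ∈ S) :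
    T.card ≤ S.card * M ^ 4 := by
  classical
  have h1 : T.card ≤ (S ×ˢ (V a ×ˢ V b ×ˢ V c ×ˢ V d)).card := by
    refine Finset.card_le_card_of_injOn
      (fun x => ((x i, x j), (x a, x b, x c, x d))) ?_ ?_
    · intro x hx
      obtain ⟨h2, h3⟩ := hT x hx
      rw [Finset.mem_coe, Finset.mem_product, Finset.mem_product, Finset.mem_product,
        Finset.mem_product]
      exact ⟨h3, h2 a, h2 b, h2 c, h2 d⟩
    · intro x hx y hy h
      simp only [Prod.mk.injEq] at h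
      obtain ⟨⟨e1, e2⟩, e3, e4, e5, e6⟩ := h
      have hx0 : x 0 = w := by
        have := (hT x hx).1 0
        rw [hw, Finset.mem_singleton] at this
        exact this
      have hy0 : y 0 = w := by
        have := (hT y hy).1 0
        rw [hw, Finset.mem_singleton] at this
        exact this
      funext l
      rcases hall l with rfl | rfl | rfl | rfl | rfl | rfl | rfl
      · rw [hx0, hy0]
      · exact e1
      · exact e2
      · exact e3
      · exact e4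
      · exact e5
      · exact e6
  refine h1.trans (le_of_eq ?_)
  rw [Finset.card_product, Finset.card_product, Finset.card_product, Finset.card_product,
    hM a ha, hM b hb, hM c hc, hM d hd]
  ring

theorem CC2_all (P : Fin 7 → Prop) : P 0 → P 1 → P 2 → P 3 → P 4 → P 5 → P 6 → ∀ i, P i := by
  intro h0 h1 h2 h3 h4 h5 h6 i
  fin_cases i
  · exact h0
  · exact h1
  · exact h2
  · exact h3
  · exact h4
  · exact h5
  · exact h6

/-- the four lines without the point `0` -/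
def CC2_L : Finset (Finset (Fin 7)) := {{1, 2, 4}, {2, 3, 5}, {3, 4, 6}, {5, 6, 1}}

theorem CC2_Lsub : CC2_L ⊆ fano := by
  decide +kernel

theorem CC2_Lcard : CC2_L.card = 4 := by
  decide +kernel

/-- the counting for the lines through `w` -/
theorem CC2_main {α : Type} [DecidableEq α] (R : Finset α → Prop) (U : Finset α)
    (hU : ¬ BlueFano R U) (V : Fin 7 → Finset α) (w : α) (hw : V 0 = {w})
    (hVU : ∀ i, V i ⊆ U) (hV : ∀ i j, i ≠ j → Disjoint (V i) (V j)) (M : ℕ)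
    (hM : ∀ l, l ≠ 0 → (V l).card = M) (θ δ : ℝ) (hθ : 0 < θ) (hθ1 : θ ≤ 1) (hδ : 0 < δ)
    (d1 : Dens R δ θ (V 1) (V 2) (V 4)) (d2 : Dens R δ θ (V 2) (V 3) (V 5))
    (d3 : Dens R δ θ (V 3) (V 4) (V 6)) (d4 : Dens R δ θ (V 5) (V 6) (V 1))
    (S1 S2 S3 : Finset (α × α)) (h1 : redP R w (V 1) (V 3) ⊆ S1)
    (h2 : redP R w (V 4) (V 5) ⊆ S2) (h3 : redP R w (V 6) (V 2) ⊆ S3) :
    (θ ^ 4 - 4 * δ) * (M : ℝ) ^ 6 ≤
      ((S1.card : ℝ) + (S2.card : ℝ) + (S3.card : ℝ)) * (M : ℝ) ^ 4 := by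
  classical
  have hr : ∀ {A B C : Finset α}, Dens R δ θ A B C → Dens R δ θ B C A := fun h => Link_rot h
  have hs : ∀ {A B C : Finset α}, Dens R δ θ A B C → Dens R δ θ A C B := fun h => Link_swap h
  have c1 := CC2_iter R V hV θ δ hθ hθ1 hδ CC2_L CC2_Lsub (by
    intro i j k hij hik hjk hf
    have key : ∀ a b c : Fin 7, ({i, j, k} : Finset (Fin 7)) = {a, b, c} →
        Dens R δ θ (V a) (V b) (V c) → Dens R δ θ (V i) (V j) (V k) := fun a b c h hS =>
      Link_perm (fun a b c => Dens R δ θ (V a) (V b) (V c)) (fun _ _ _ => hr) (fun _ _ _ => hs)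
        h hij hik hjk hS
    simp only [CC2_L, Finset.mem_insert, Finset.mem_singleton] at hf
    rcases hf with hf | hf | hf | hf
    · exact key _ _ _ hf d1
    · exact key _ _ _ hf d2
    · exact key _ _ _ hf d3
    · exact key _ _ _ hf d4)
  rw [CC2_Lcard] at c1
  have hprod : ∏ l, ((V l).card : ℝ) = (M : ℝ) ^ 6 := by
    rw [Fin.prod_univ_seven, hw, hM 1 (by decide), hM 2 (by decide), hM 3 (by decide),
      hM 4 (by decide), hM 5 (by decide), hM 6 (by decide), Finset.card_singleton]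
    push_cast
    ring
  rw [hprod] at c1
  have c2 : transv R V CC2_L ⊆
      ((transv R V CC2_L).filter fun x => (x 1, x 3) ∈ S1) ∪
      (((transv R V CC2_L).filter fun x => (x 4, x 5) ∈ S2) ∪
      ((transv R V CC2_L).filter fun x => (x 6, x 2) ∈ S3)) := by
    intro x hx
    obtain ⟨hx1, hx2⟩ := FanoC_mem.1 hx
    rw [Fintype.mem_piFinset] at hx1
    by_contra hcon
    rw [Finset.mem_union, Finset.mem_union, Finset.mem_filter, Finset.mem_filter,
      Finset.mem_filter] at hcon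
    have n1 : (x 1, x 3) ∉ S1 := fun h => hcon (Or.inl ⟨hx, h⟩)
    have n2 : (x 4, x 5) ∉ S2 := fun h => hcon (Or.inr (Or.inl ⟨hx, h⟩))
    have n3 : (x 6, x 2) ∉ S3 := fun h => hcon (Or.inr (Or.inr ⟨hx, h⟩))
    have hx0 : x 0 = w := by
      have := hx1 0
      rw [hw, Finset.mem_singleton] at this
      exact this
    have hinj : Function.Injective x := by
      intro i j hij
      by_contra hne
      exact (Finset.disjoint_left.1 (hV i j hne)) (hx1 i) (hij ▸ hx1 j)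
    have hne : ∀ i, i ≠ 0 → x i ≠ w := fun i hi h => hi (hinj (h.trans hx0.symm))
    refine hU ⟨x, hinj, fun i => hVU i (hx1 i), fun f hf => ?_⟩
    simp only [fano, Finset.mem_insert, Finset.mem_singleton] at hf
    rcases hf with rfl | rfl | rfl | rfl | rfl | rfl | rfl
    · intro hR
      rw [Finset.image_insert, Finset.image_insert, Finset.image_singleton, hx0] at hR
      exact n1 (h1 (mem_redP.2 ⟨⟨hx1 1, hx1 3⟩, hne 1 (by decide), hne 3 (by decide), hR⟩))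
    · exact hx2 _ (by simp [CC2_L])
    · exact hx2 _ (by simp [CC2_L])
    · exact hx2 _ (by simp [CC2_L])
    · intro hR
      have e : ({4, 5, 0} : Finset (Fin 7)) = {0, 4, 5} := by decide
      rw [e, Finset.image_insert, Finset.image_insert, Finset.image_singleton, hx0] at hR
      exact n2 (h2 (mem_redP.2 ⟨⟨hx1 4, hx1 5⟩, hne 4 (by decide), hne 5 (by decide), hR⟩))
    · exact hx2 _ (by simp [CC2_L])
    · intro hR
      have e : ({6, 0, 2} : Finset (Fin 7)) = {0, 6, 2} := by decide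
      rw [e, Finset.image_insert, Finset.image_insert, Finset.image_singleton, hx0] at hR
      exact n3 (h3 (mem_redP.2 ⟨⟨hx1 6, hx1 2⟩, hne 6 (by decide), hne 2 (by decide), hR⟩))
  have c3 := (Finset.card_le_card c2).trans
    ((Finset.card_union_le _ _).trans (Nat.add_le_add_left (Finset.card_union_le _ _) _))
  have hpi : ∀ x ∈ transv R V CC2_L, ∀ l, x l ∈ V l := fun x hx =>
    Fintype.mem_piFinset.1 (FanoC_mem.1 hx).1
  have t1 := CC2_cnt V w hw M hM 1 3 2 4 5 6 (by decide) (by decide) (by decide) (by decide)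
    (by decide) S1 ((transv R V CC2_L).filter fun x => (x 1, x 3) ∈ S1) (fun x hx => by
      rw [Finset.mem_filter] at hx
      exact ⟨hpi x hx.1, hx.2⟩)
  have t2 := CC2_cnt V w hw M hM 4 5 1 2 3 6 (by decide) (by decide) (by decide) (by decide)
    (by decide) S2 ((transv R V CC2_L).filter fun x => (x 4, x 5) ∈ S2) (fun x hx => by
      rw [Finset.mem_filter] at hx
      exact ⟨hpi x hx.1, hx.2⟩)
  have t3 := CC2_cnt V w hw M hM 6 2 1 3 4 5 (by decide) (by decide) (by decide) (by decide)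
    (by decide) S3 ((transv R V CC2_L).filter fun x => (x 6, x 2) ∈ S3) (fun x hx => by
      rw [Finset.mem_filter] at hx
      exact ⟨hpi x hx.1, hx.2⟩)
  have c4 : (transv R V CC2_L).card ≤ S1.card * M ^ 4 + (S2.card * M ^ 4 + S3.card * M ^ 4) :=
    c3.trans (Nat.add_le_add t1 (Nat.add_le_add t2 t3))
  have c5 : ((transv R V CC2_L).card : ℝ) ≤ (S1.card : ℝ) * (M : ℝ) ^ 4 +
      ((S2.card : ℝ) * (M : ℝ) ^ 4 + (S3.card : ℝ) * (M : ℝ) ^ 4) := by exact_mod_cast c4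
  push_cast at c1
  linarith only [c1, c5]

theorem CC2_two {q : ℕ} (hq : 4 ≤ q) (a : Fin q) : ∃ b c : Fin q, b ≠ a ∧ c ≠ a ∧ b ≠ c := by
  classical
  have h1 : 1 < ((Finset.univ : Finset (Fin q)).erase a).card := by
    rw [Finset.card_erase_of_mem (Finset.mem_univ a), Finset.card_univ, Fintype.card_fin]
    omega
  obtain ⟨b, hb, c, hc, hbc⟩ := Finset.one_lt_card.1 h1
  exact ⟨b, c, Finset.ne_of_mem_erase hb, Finset.ne_of_mem_erase hc, hbc⟩

theorem CC2_inj {q : ℕ} {a a0 a1 b b1 b2 c : Fin q} (ha0 : a0 ≠ a) (ha1 : a1 ≠ a)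
    (h01 : a0 ≠ a1) (hb1 : b1 ≠ b) (hb2 : b2 ≠ b) (h12 : b1 ≠ b2) :
    Function.Injective (![(0, a0), (0, a1), (0, a), (2, c), (1, b), (1, b1), (1, b2)] :
      Fin 7 → Fin 3 × Fin q) := by
  have key : ∀ i j : Fin 7, i < j → (![(0, a0), (0, a1), (0, a), (2, c), (1, b), (1, b1),
      (1, b2)] : Fin 7 → Fin 3 × Fin q) i ≠ (![(0, a0), (0, a1), (0, a), (2, c), (1, b), (1, b1),
      (1, b2)] : Fin 7 → Fin 3 × Fin q) j := by
    intro i j hij
    fin_cases i <;> fin_cases j <;>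
      first
        | exact absurd hij (by decide)
        | (intro h
           rw [Prod.ext_iff] at h
           first
             | exact absurd (show (0 : Fin 3) = 2 from h.1) (by decide)
             | exact absurd (show (0 : Fin 3) = 1 from h.1) (by decide)
             | exact absurd (show (2 : Fin 3) = 1 from h.1) (by decide)
             | exact ha0 h.2
             | exact ha1 h.2
             | exact h01 h.2
             | exact hb1 h.2.symm
             | exact hb2 h.2.symm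
             | exact h12 h.2)
  intro i j hij
  rcases lt_trichotomy i j with h | h | h
  · exact absurd hij (key i j h)
  · exact h
  · exact absurd hij.symm (key j i h)

/-- all rainbow types are dense -/
theorem CC2_rb {α : Type} [DecidableEq α] (R : Finset α → Prop) (εl : ℝ) (h0 : 0 < εl)
    (h1 : εl ≤ 1) {q : ℕ} (hq : 4 ≤ q) (δ : ℝ) (hδ1 : δ ≤ 1) (N' : ℕ) (hN' : 0 < N')
    (P : Fin 3 → Fin q → Finset α) (hP : Cfg R δ (thF εl) N' P) (U C C' : Finset α)
    (hU : ∀ i a, P i a ⊆ U) (hC : ∀ a, P 0 a ⊆ C) (hC' : ∀ a, P 1 a ⊆ C')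
    (self0 : ∀ a b c, (e3 R (P 0 a) (P 0 b) (P 0 c) : ℝ) ≤ 2 * thF εl * (N' : ℝ) ^ 3)
    (self1 : ∀ a b c, (e3 R (P 1 a) (P 1 b) (P 1 c) : ℝ) ≤ 2 * thF εl * (N' : ℝ) ^ 3)
    (s02 : Spa R δ (thF εl) P 0 2) (s10 : Spa R δ (thF εl) P 1 0)
    (hm : ¬ ModeP R U εl ((N' : ℝ) / 2) C C') (a b c : Fin q) :
    Dens R δ (thF εl) (P 0 a) (P 1 b) (P 2 c) := by
  rcases hP.rb 0 1 2 (by decide) (by decide) (by decide) a b c with hsp | hd
  · exfalso
    obtain ⟨a0, a1, ha0, ha1, h01⟩ := CC2_two hq a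
    obtain ⟨b1, b2, hb1, hb2, h12⟩ := CC2_two hq b
    have hbd : 2 * thF εl * (N' : ℝ) ^ 3 ≤ εl / 32 * (N' : ℝ) ^ 3 := by
      refine mul_le_mul_of_nonneg_right ?_ (by positivity)
      have := thF_le_sq h0
      nlinarith only [this, h0, h1]
    have full : ∀ {i j l : Fin 3} {x y z : Fin q},
        Sparse R δ (2 * thF εl) (P i x) (P j y) (P l z) →
        (e3 R (P i x) (P j y) (P l z) : ℝ) ≤ εl / 32 * (N' : ℝ) ^ 3 := fun h =>
      (Link4_full hδ1 (hP.card _ _) (hP.card _ _) (hP.card _ _) h).trans hbd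
    refine hm (mode_b1 R U εl h0 C C' N' hN' P hP hU
      ![(0, a0), (0, a1), (0, a), (2, c), (1, b), (1, b1), (1, b2)]
      (CC2_inj ha0 ha1 h01 hb1 hb2 h12) ?_ ?_ ?_)
    · rintro n (rfl | rfl | rfl)
      · exact hC a0
      · exact hC a1
      · exact hC a
    · rintro n (rfl | rfl | rfl)
      · exact hC' b
      · exact hC' b1
      · exact hC' b2
    · intro x y z hxyz
      simp only [Finset.mem_insert, Finset.mem_singleton, Prod.mk.injEq] at hxyz
      rcases hxyz with ⟨rfl, rfl, rfl⟩ | ⟨rfl, rfl, rfl⟩ | ⟨rfl, rfl, rfl⟩ | ⟨rfl, rfl, rfl⟩ |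
        ⟨rfl, rfl, rfl⟩
      · exact (self0 a0 a1 a).trans hbd
      · change (e3 R (P 2 c) (P 0 a1) (P 0 a) : ℝ) ≤ _
        rw [e3_rot R (P 2 c) (P 0 a1) (P 0 a)]
        exact full (s02 a1 a c ha1)
      · change (e3 R (P 2 c) (P 1 b) (P 0 a) : ℝ) ≤ _
        rw [e3_swap R (P 2 c) (P 1 b) (P 0 a), e3_rot R (P 2 c) (P 0 a) (P 1 b)]
        exact full hsp
      · change (e3 R (P 1 b1) (P 1 b) (P 0 a) : ℝ) ≤ _
        exact full (s10 b1 b a hb1)
      · exact (self1 b1 b b2).trans hbd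
  · exact hd

/-- three clusters of the kinds `0`, `1`, `2`, the types `i i (i-1)` are sparse; every point sees
many red pairs in `X (i - 1) × X i` for some `i` -/
theorem c2_rule (εl : ℝ) (h0 : 0 < εl) (h1 : εl ≤ 1) :
    ∃ ε5 η' : ℝ, 0 < ε5 ∧ ε5 ≤ 1 ∧ 0 < η' ∧ ∃ ρ : ℝ, 0 < ρ ∧ ρ ≤ 1 ∧ ∃ εc : ℝ, 0 < εc ∧
      ∃ N₀ : ℕ, ∀ {α : Type} [DecidableEq α]
      (R : Finset α → Prop) (N : ℕ) (_ : N₀ ≤ N) (U : Finset α) (_ : ¬ BlueFano R U)
      (X : Fin 3 → Finset α) (_ : ∀ i, Clus R εc N (X i) ∧ X i ⊆ U)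
      (_ : ∀ i j, i ≠ j → Disjoint (X i) (X j))
      (_ : ∀ i j, i ≠ j → ¬ Linked R εl (ρ * N) (X i) (X j))
      (_ : ¬ ModeP R U εl (ρ * N) (X 0) (X 1))
      (_ : ∀ i, (e3 R (X i) (X i) (X (i + 2)) : ℝ) ≤ ε5 * (N : ℝ) ^ 3) (w : α) (_ : w ∈ U),
      ∃ i, η' * (N : ℝ) ^ 2 ≤ ((redP R w (X (i + 2)) (X i)).card : ℝ) := by
  obtain ⟨q, hq, hpair⟩ := cfg_pair εl h0
  have hθ := thF_pos h0
  have hθ1 : thF εl ≤ 1 / 16384 := thF_le h0
  set θ := thF εl with hθdef
  have hθ1' : θ ≤ 1 := by linarith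
  have hθ4 : 0 < θ ^ 4 := by positivity
  have hθ4' : θ ^ 4 ≤ 1 := pow_le_one₀ hθ.le hθ1'
  set δ : ℝ := θ ^ 4 / 8 with hδdef
  have hδ : 0 < δ := by positivity
  have hδ1 : δ ≤ 1 := by linarith
  obtain ⟨ρB, m₀, hρB, hρB1, hext⟩ := ext_blocks 3 q θ δ hθ (by linarith) hδ hδ1
  set r : ℝ := ρB / 2 with hr
  have hr0 : 0 < r := by positivity
  have hr1 : r ≤ 1 := by linarith
  have hr3 : 0 < r ^ 3 := by positivity
  have hr3' : r ^ 3 ≤ 1 := pow_le_one₀ hr0.le hr1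
  refine ⟨θ * r ^ 3 / 2, θ ^ 4 * r ^ 2 / 8, by positivity, ?_, by positivity, r / 2,
    by positivity, by linarith, θ * r ^ 3, by positivity, m₀ + 2, ?_⟩
  · have : θ * r ^ 3 ≤ 1 * 1 := mul_le_mul hθ1' hr3' hr3.le (by norm_num)
    linarith
  intro α _ R N hN U hF X hX hdis hlink hmode he w hw
  by_contra hcon
  have hred : ∀ i, ((redP R w (X (i + 2)) (X i)).card : ℝ) <
      θ ^ 4 * r ^ 2 / 8 * (N : ℝ) ^ 2 := by
    intro i
    by_contra h
    exact hcon ⟨i, not_lt.1 h⟩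
  have hNr : (2 : ℝ) ≤ N := by
    have : 2 ≤ N := by omega
    exact_mod_cast this
  have hN0 : (0 : ℝ) < N := by linarith
  -- the blocks
  have hB : ∀ i, ∃ B ⊆ (X i).erase w, B.card = N - 1 := by
    intro i
    refine Finset.exists_subset_card_eq ?_
    have := Finset.pred_card_le_card_erase (s := X i) (a := w)
    rw [(hX i).1.1] at this
    exact this
  choose B hBX hBc using hB
  have hBX' : ∀ i, B i ⊆ X i := fun i => (hBX i).trans (Finset.erase_subset _ _)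
  obtain ⟨N', P, hN'1, hN'0, hPB, hP⟩ := hext R (N - 1) (by omega) B hBc (fun i j hij =>
    Finset.disjoint_of_subset_left (hBX' i) (Finset.disjoint_of_subset_right (hBX' j)
      (hdis i j hij)))
  have hPX : ∀ i a, P i a ⊆ X i := fun i a => (hPB i a).trans (hBX' i)
  have hPU : ∀ i a, P i a ⊆ U := fun i a => (hPX i a).trans (hX i).2
  have hPw : ∀ i a, w ∉ P i a := fun i a h =>
    Finset.notMem_erase w (X i) (hBX i (hPB i a h))
  have hrN : r * (N : ℝ) ≤ N' := by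
    refine le_trans ?_ hN'1
    rw [Nat.cast_sub (by omega)]
    push_cast
    nlinarith only [hr, hρB, hNr]
  have hN'r : (0 : ℝ) < N' := by exact_mod_cast hN'0
  have hrN2 : r / 2 * (N : ℝ) ≤ (N' : ℝ) / 2 := by linarith
  have hrN3 : r / 2 * (N : ℝ) ≤ (N' : ℝ) := by linarith
  have hcube : r ^ 3 * (N : ℝ) ^ 3 ≤ (N' : ℝ) ^ 3 := by
    rw [← mul_pow]
    exact pow_le_pow_left₀ (by positivity) hrN 3
  have hsq : r ^ 2 * (N : ℝ) ^ 2 ≤ (N' : ℝ) ^ 2 := by
    rw [← mul_pow]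
    exact pow_le_pow_left₀ (by positivity) hrN 2
  -- self types
  have self : ∀ i a b c, (e3 R (P i a) (P i b) (P i c) : ℝ) ≤ 2 * thF εl * (N' : ℝ) ^ 3 := by
    intro i a b c
    refine clus_self (hX i).1 hr0 hrN ?_ (by positivity) (hPX i a) (hPX i b) (hPX i c)
    rw [← hθdef]
    have : 0 < θ * r ^ 3 := by positivity
    linarith
  -- the type `i i (i + 2)` is not everywhere dense
  have noarr : ∀ i j : Fin 3, j = i + 2 → ¬ Arr R δ θ P i j := by
    rintro i j rfl harr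
    have hq0 : 0 < q := by omega
    have hq1 : 1 < q := by omega
    have hd := harr ⟨0, hq0⟩ ⟨1, hq1⟩ ⟨0, hq0⟩ (by
      intro h
      rw [Fin.mk.injEq] at h
      omega)
    have h2 : δ * (N' : ℝ) ≤ N' := by nlinarith only [hδ1, hN'r]
    have h3 := hd _ (Finset.Subset.refl _) _ (Finset.Subset.refl _) _ (Finset.Subset.refl _)
      (by rw [hP.card]; exact h2) (by rw [hP.card]; exact h2) (by rw [hP.card]; exact h2)
    rw [hP.card, hP.card, hP.card] at h3
    have h4 : (e3 R (P i ⟨0, hq0⟩) (P i ⟨1, hq1⟩) (P (i + 2) ⟨0, hq0⟩) : ℝ) ≤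
        (e3 R (X i) (X i) (X (i + 2)) : ℝ) := by
      exact_mod_cast CC2_e3mono R (hPX _ _) (hPX _ _) (hPX _ _)
    have h5 := he i
    have h6 : θ * (r ^ 3 * (N : ℝ) ^ 3) ≤ θ * (N' : ℝ) ^ 3 :=
      mul_le_mul_of_nonneg_left hcube hθ.le
    have h7 : 0 < θ * r ^ 3 * (N : ℝ) ^ 3 := by positivity
    have h8 : θ * ((N' : ℝ) * N' * N') = θ * (N' : ℝ) ^ 3 := by ring
    linarith only [h3, h4, h5, h6, h7, h8]
  have hnl : ∀ i j, i ≠ j → ¬ Linked R εl N' (X i) (X j) := fun i j hij h =>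
    hlink i j hij (h.mono hrN3)
  have arr : ∀ i j : Fin 3, i ≠ j → i = j + 2 → Arr R δ θ P i j := by
    intro i j hij h
    rcases hpair R 3 q le_rfl δ hδ1 N' hN'0 P hP i j hij (X i) (X j) (hPX i) (hPX j)
      (self i) (self j) (hnl i j hij) with h2 | h2
    · exact h2
    · exact absurd h2 (noarr j i h)
  have spa : ∀ i j : Fin 3, i ≠ j → j = i + 2 → Spa R δ θ P i j := by
    intro i j hij h
    rcases hP.hom i j hij with h2 | h2
    · exact h2
    · exact absurd h2 (noarr i j h)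
  have hq0 : 0 < q := by omega
  have hq1 : 1 < q := by omega
  set z0 : Fin q := ⟨0, hq0⟩ with hz0
  set z1 : Fin q := ⟨1, hq1⟩ with hz1
  have hz : z0 ≠ z1 := by
    intro h
    rw [hz0, hz1, Fin.mk.injEq] at h
    omega
  have rb : ∀ a b c, Dens R δ θ (P 0 a) (P 1 b) (P 2 c) :=
    CC2_rb R εl h0 h1 hq δ hδ1 N' hN'0 P hP U (X 0) (X 1) hPU (hPX 0) (hPX 1) (self 0) (self 1)
      (spa 0 2 (by decide) (by decide)) (spa 1 0 (by decide) (by decide))
      (fun h => hmode (h.mono (Finset.Subset.refl _) hrN2))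
  have a01 := arr 0 1 (by decide) (by decide)
  have a12 := arr 1 2 (by decide) (by decide)
  have a20 := arr 2 0 (by decide) (by decide)
  -- the seven parts
  let V : Fin 7 → Finset α := ![{w}, P 0 z0, P 0 z1, P 1 z0, P 1 z1, P 2 z0, P 2 z1]
  have v0 : V 0 = {w} := rfl
  have v1 : V 1 = P 0 z0 := rfl
  have v2 : V 2 = P 0 z1 := rfl
  have v3 : V 3 = P 1 z0 := rfl
  have v4 : V 4 = P 1 z1 := rfl
  have v5 : V 5 = P 2 z0 := rfl
  have v6 : V 6 = P 2 z1 := rfl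
  have hVU : ∀ i, V i ⊆ U := CC2_all _ (by rw [v0]; exact Finset.singleton_subset_iff.2 hw)
    (hPU _ _) (hPU _ _) (hPU _ _) (hPU _ _) (hPU _ _) (hPU _ _)
  have hcard : ∀ l, l ≠ 0 → (V l).card = N' := CC2_all _ (fun h => absurd rfl h)
    (fun _ => hP.card _ _) (fun _ => hP.card _ _) (fun _ => hP.card _ _)
    (fun _ => hP.card _ _) (fun _ => hP.card _ _) (fun _ => hP.card _ _)
  have hwd : ∀ i a, Disjoint ({w} : Finset α) (P i a) := fun i a =>
    Finset.disjoint_singleton_left.2 (hPw i a)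
  have pd : ∀ i a j b, (i, a) ≠ (j, b) → Disjoint (P i a) (P j b) := hP.disj
  have ne1 : ∀ (i j : Fin 3) (a b : Fin q), i ≠ j → (i, a) ≠ (j, b) := fun i j a b h e =>
    h (Prod.ext_iff.1 e).1
  have ne2 : ∀ (i j : Fin 3), (i, z0) ≠ (j, z1) := fun i j e => hz (Prod.ext_iff.1 e).2
  have hV : ∀ i j, i < j → Disjoint (V i) (V j) := by
    refine CC2_all _ (CC2_all _ ?_ ?_ ?_ ?_ ?_ ?_ ?_) (CC2_all _ ?_ ?_ ?_ ?_ ?_ ?_ ?_)
      (CC2_all _ ?_ ?_ ?_ ?_ ?_ ?_ ?_) (CC2_all _ ?_ ?_ ?_ ?_ ?_ ?_ ?_)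
      (CC2_all _ ?_ ?_ ?_ ?_ ?_ ?_ ?_) (CC2_all _ ?_ ?_ ?_ ?_ ?_ ?_ ?_)
      (CC2_all _ ?_ ?_ ?_ ?_ ?_ ?_ ?_) <;> intro hlt
    all_goals first
      | exact absurd hlt (by decide)
      | exact hwd _ _
      | exact pd _ _ _ _ (ne2 _ _)
      | exact pd _ _ _ _ (ne1 _ _ _ _ (by decide))
  have hV' : ∀ i j, i ≠ j → Disjoint (V i) (V j) := by
    intro i j hij
    rcases lt_or_gt_of_ne hij with h | h
    · exact hV i j h
    · exact (hV j i h).symm
  have redsub : ∀ {A A' D D' : Finset α}, A ⊆ A' → D ⊆ D' → redP R w A D ⊆ redP R w A' D' := by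
    intro A A' D D' h2 h3 p hp
    rw [mem_redP] at hp ⊢
    exact ⟨⟨h2 hp.1.1, h3 hp.1.2⟩, hp.2⟩
  have main := CC2_main R U hF V w v0 hVU hV' N' hcard θ δ hθ hθ1' hδ
    (a01 z0 z1 z1 hz) (rb z1 z0 z0) (a12 z0 z1 z1 hz) (a20 z0 z1 z0 hz)
    (redP R w (X (1 + 2)) (X 1)) (redP R w (X (2 + 2)) (X 2)) (redP R w (X (0 + 2)) (X 0))
    (redsub (hPX 0 z0) (hPX 1 z0)) (redsub (hPX 1 z1) (hPX 2 z0)) (redsub (hPX 2 z1) (hPX 0 z1))
  have r1 := hred 1
  have r2 := hred 2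
  have r3 := hred 0
  have h4 : (0 : ℝ) < (N' : ℝ) ^ 4 := by positivity
  have h5 : ((redP R w (X (1 + 2)) (X 1)).card : ℝ) + ((redP R w (X (2 + 2)) (X 2)).card : ℝ) +
      ((redP R w (X (0 + 2)) (X 0)).card : ℝ) < θ ^ 4 / 2 * (N' : ℝ) ^ 2 := by
    have h6 : θ ^ 4 * (r ^ 2 * (N : ℝ) ^ 2) ≤ θ ^ 4 * (N' : ℝ) ^ 2 :=
      mul_le_mul_of_nonneg_left hsq hθ4.le
    have h7 : 0 < θ ^ 4 * (r ^ 2 * (N : ℝ) ^ 2) := by positivity
    linarith only [r1, r2, r3, h6, h7]
  have h6 := mul_lt_mul_of_pos_right h5 h4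
  have h7 : (θ ^ 4 - 4 * δ) * (N' : ℝ) ^ 6 = θ ^ 4 / 2 * (N' : ℝ) ^ 2 * (N' : ℝ) ^ 4 := by
    rw [hδdef]
    ring
  linarith only [main, h6, h7]

end Pool.MP7783b9
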