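import Pool.Agent.H.MP_7783b9_co.X.Base

/-!
# Pairs of families in a configuration
-/

set_option autoImplicit false

open Finset

namespace Pool.MP7783b9

theorem clus_self {α : Type} [DecidableEq α] {R : Finset α → Prop} {εc ρ θ : ℝ} {N N' : ℕ}
    {C : Finset α} (hC : Clus R εc N C) (hρ : 0 < ρ) (hN : ρ * (N : ℝ) ≤ N')
    (hε : εc ≤ θ * ρ ^ 3) (hθ : 0 ≤ θ) {X Y Z : Finset α} (hX : X ⊆ C) (hY : Y ⊆ C)
    (hZ : Z ⊆ C) : (e3 R X Y Z : ℝ) ≤ θ * (N' : ℝ) ^ 3 := by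
  have hN0 : (0 : ℝ) ≤ (N : ℝ) := Nat.cast_nonneg N
  refine (Link4_clus hC.1 hC.2 hX hY hZ).trans ?_
  have h1 : εc * (N : ℝ) ^ 3 ≤ θ * ρ ^ 3 * (N : ℝ) ^ 3 :=
    mul_le_mul_of_nonneg_right hε (pow_nonneg hN0 3)
  have h2 : (ρ * (N : ℝ)) ^ 3 ≤ (N' : ℝ) ^ 3 :=
    pow_le_pow_left₀ (mul_nonneg hρ.le hN0) hN 3
  have h3 : θ * (ρ * (N : ℝ)) ^ 3 ≤ θ * (N' : ℝ) ^ 3 := mul_le_mul_of_nonneg_left h2 hθ
  have h4 : θ * ρ ^ 3 * (N : ℝ) ^ 3 = θ * (ρ * (N : ℝ)) ^ 3 := by
    rw [mul_pow]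
    ring
  linarith only [h1, h3, h4]

/-- two families of parts all of whose types are sparse lie in linked sets -/
theorem CfgL_linked {α : Type} [DecidableEq α] {R : Finset α → Prop} {N' q : ℕ} (hq4 : 4 ≤ q)
    (hN' : 0 < N') (A B : Fin q → Finset α) (hA : ∀ a, (A a).card = N')
    (hB : ∀ a, (B a).card = N') (dA : ∀ a b, a ≠ b → Disjoint (A a) (A b))
    (dB : ∀ a b, a ≠ b → Disjoint (B a) (B b)) (dAB : ∀ a b, Disjoint (A a) (B b))
    {C C' : Finset α} (hAC : ∀ a, A a ⊆ C) (hBC : ∀ a, B a ⊆ C') {θ θ0 : ℝ} (hθ : 0 < θ)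
    (hθ1 : θ ≤ 1 / 64) (hθ0 : 0 < θ0) (hθθ : 2 * θ0 = θ ^ 2)
    (hq : 3 / ((q + q : ℕ) : ℝ) ≤ θ0)
    (h1 : ∀ a b c, a ≠ b → (e3 R (A a) (A b) (B c) : ℝ) ≤ θ0 * (N' : ℝ) ^ 3)
    (h2 : ∀ a b c, a ≠ b → (e3 R (B a) (B b) (A c) : ℝ) ≤ θ0 * (N' : ℝ) ^ 3)
    (h3 : ∀ a b c, (e3 R (A a) (A b) (A c) : ℝ) ≤ θ0 * (N' : ℝ) ^ 3)
    (h4 : ∀ a b c, (e3 R (B a) (B b) (B c) : ℝ) ≤ θ0 * (N' : ℝ) ^ 3) :
    Linked R (16 * θ) (((q * N' : ℕ) : ℝ) / 2) C C' := by
  classical
  obtain ⟨V, hV⟩ : ∃ V : Fin (q + q) → Finset α, V = Fin.append A B := ⟨_, rfl⟩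
  have vA : ∀ a, V (Fin.castAdd q a) = A a := fun a => by rw [hV, Fin.append_left]
  have vB : ∀ a, V (Fin.natAdd q a) = B a := fun a => by rw [hV, Fin.append_right]
  have hc : ∀ m, (V m).card = N' := by
    intro m
    induction m using Fin.addCases with
    | left a => rw [vA]; exact hA a
    | right a => rw [vB]; exact hB a
  have hd : ∀ m m', m ≠ m' → Disjoint (V m) (V m') := by
    intro m m' hne
    induction m using Fin.addCases with
    | left a =>
      induction m' using Fin.addCases with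
      | left b => rw [vA, vA]; exact dA a b fun h => hne (by rw [h])
      | right b => rw [vA, vB]; exact dAB a b
    | right a =>
      induction m' using Fin.addCases with
      | left b => rw [vB, vA]; exact (dAB b a).symm
      | right b => rw [vB, vB]; exact dB a b fun h => hne (by rw [h])
  have hsp : ∀ m1 m2 m3 : Fin (q + q), m1 ≠ m2 → m1 ≠ m3 → m2 ≠ m3 →
      (e3 R (V m1) (V m2) (V m3) : ℝ) ≤ θ0 * (N' : ℝ) ^ 3 := by
    intro m1 m2 m3 h12 h13 h23
    induction m1 using Fin.addCases with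
    | left a =>
      induction m2 using Fin.addCases with
      | left b =>
        induction m3 using Fin.addCases with
        | left c => rw [vA, vA, vA]; exact h3 a b c
        | right c => rw [vA, vA, vB]; exact h1 a b c fun h => h12 (by rw [h])
      | right b =>
        induction m3 using Fin.addCases with
        | left c => rw [vA, vB, vA, e3_swap]; exact h1 a c b fun h => h13 (by rw [h])
        | right c => rw [vA, vB, vB, e3_rot]; exact h2 b c a fun h => h23 (by rw [h])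
    | right a =>
      induction m2 using Fin.addCases with
      | left b =>
        induction m3 using Fin.addCases with
        | left c => rw [vB, vA, vA, e3_rot]; exact h1 b c a fun h => h23 (by rw [h])
        | right c => rw [vB, vA, vB, e3_swap]; exact h2 a c b fun h => h13 (by rw [h])
      | right b =>
        induction m3 using Fin.addCases with
        | left c => rw [vB, vB, vA]; exact h2 a b c fun h => h12 (by rw [h])
        | right c => rw [vB, vB, vB]; exact h4 a b c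
  have hu := union_sparse R V N' hc hd Finset.univ (q + q) (by omega)
    (by rw [Finset.card_univ, Fintype.card_fin]) θ0 hθ0.le
    (fun m1 _ m2 _ m3 _ => hsp m1 m2 m3)
  have cA : (Finset.univ.biUnion A).card = q * N' := by
    rw [Finset.card_biUnion fun i _ j _ hij => dA i j hij, Finset.sum_congr rfl fun i _ => hA i,
      Finset.sum_const, Finset.card_univ, Fintype.card_fin, smul_eq_mul]
  have cB : (Finset.univ.biUnion B).card = q * N' := by
    rw [Finset.card_biUnion fun i _ j _ hij => dB i j hij, Finset.sum_congr rfl fun i _ => hB i,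
      Finset.sum_const, Finset.card_univ, Fintype.card_fin, smul_eq_mul]
  have hdAB : Disjoint (Finset.univ.biUnion A) (Finset.univ.biUnion B) := by
    rw [Finset.disjoint_biUnion_left]
    intro a _
    rw [Finset.disjoint_biUnion_right]
    intro b _
    exact dAB a b
  have he : Finset.univ.biUnion A ∪ Finset.univ.biUnion B = Finset.univ.biUnion V := by
    ext x
    rw [Finset.mem_union, Finset.mem_biUnion, Finset.mem_biUnion, Finset.mem_biUnion]
    constructor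
    · rintro (⟨a, _, ha⟩ | ⟨a, _, ha⟩)
      · exact ⟨Fin.castAdd q a, Finset.mem_univ _, by rw [vA]; exact ha⟩
      · exact ⟨Fin.natAdd q a, Finset.mem_univ _, by rw [vB]; exact ha⟩
    · rintro ⟨m, _, hm⟩
      induction m using Fin.addCases with
      | left a => rw [vA] at hm; exact Or.inl ⟨a, Finset.mem_univ _, hm⟩
      | right a => rw [vB] at hm; exact Or.inr ⟨a, Finset.mem_univ _, hm⟩
  refine linked_of_sparse R C C' _ _ (Finset.biUnion_subset.2 fun a _ => hAC a)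
    (Finset.biUnion_subset.2 fun a _ => hBC a) (q * N') (Nat.mul_pos (by omega) hN') cA cB
    hdAB θ hθ hθ1 ?_
  rw [he]
  refine hu.trans ?_
  refine mul_le_mul_of_nonneg_right ?_ (pow_nonneg (Nat.cast_nonneg _) 3)
  rw [← hθθ]
  linarith only [hq]

/-- if both types of a pair are sparse, the sets are linked -/
theorem cfg_pair (εl : ℝ) (h0 : 0 < εl) :
    ∃ q₀ : ℕ, 4 ≤ q₀ ∧ ∀ {α : Type} [DecidableEq α] (R : Finset α → Prop) (k q : ℕ)
      (_ : q₀ ≤ q) (δ : ℝ) (_ : δ ≤ 1) (N' : ℕ) (_ : 0 < N') (P : Fin k → Fin q → Finset α)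
      (_ : Cfg R δ (thF εl) N' P) (i j : Fin k) (_ : i ≠ j) (C C' : Finset α)
      (_ : ∀ a, P i a ⊆ C) (_ : ∀ a, P j a ⊆ C')
      (_ : ∀ a b c, (e3 R (P i a) (P i b) (P i c) : ℝ) ≤ 2 * thF εl * (N' : ℝ) ^ 3)
      (_ : ∀ a b c, (e3 R (P j a) (P j b) (P j c) : ℝ) ≤ 2 * thF εl * (N' : ℝ) ^ 3)
      (_ : ¬ Linked R εl N' C C'),
      Arr R δ (thF εl) P i j ∨ Arr R δ (thF εl) P j i := by
  obtain ⟨θ, hθd⟩ : ∃ θ : ℝ, θ = min (εl / 16) (1 / 64) := ⟨_, rfl⟩
  have hθ : 0 < θ := by rw [hθd]; exact lt_min (by linarith only [h0]) (by norm_num)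
  have hθ1 : θ ≤ 1 / 64 := by rw [hθd]; exact min_le_right _ _
  have hθ2 : 16 * θ ≤ εl := by
    have h1 : θ ≤ εl / 16 := by rw [hθd]; exact min_le_left _ _
    linarith only [h1]
  have hth : thF εl = θ ^ 2 / 4 := by rw [hθd]; rfl
  have hθ0 : 0 < 2 * thF εl := by
    have := thF_pos h0
    linarith only [this]
  have hθθ : 2 * (2 * thF εl) = θ ^ 2 := by rw [hth]; ring
  obtain ⟨n, hn⟩ := exists_nat_ge (3 / (2 * (2 * thF εl)))
  refine ⟨max 4 n, le_max_left _ _, ?_⟩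
  intro α _ R k q hq δ hδ N' hN' P hP i j hij C C' hC hC' e1 e2 hL
  by_contra hcon
  push Not at hcon
  obtain ⟨n1, n2⟩ := hcon
  have s1 := (hP.hom i j hij).resolve_right n1
  have s2 := (hP.hom j i hij.symm).resolve_right n2
  have hq4 : 4 ≤ q := (le_max_left _ _).trans hq
  have hnq : n ≤ q := (le_max_right _ _).trans hq
  have hqr : 3 / ((q + q : ℕ) : ℝ) ≤ 2 * thF εl := by
    have g1 : (n : ℝ) ≤ (q : ℝ) := by exact_mod_cast hnq
    have g2 : (4 : ℝ) ≤ (q : ℝ) := by exact_mod_cast hq4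
    push_cast
    rw [div_le_iff₀ (by linarith only [g2])]
    rw [div_le_iff₀ (by linarith only [hθ0])] at hn
    nlinarith only [hn, g1, hθ0]
  have hlink := CfgL_linked (R := R) hq4 hN' (P i) (P j) (hP.card i) (hP.card j)
    (fun a b hab => hP.disj i a i b fun h => hab (congrArg Prod.snd h))
    (fun a b hab => hP.disj j a j b fun h => hab (congrArg Prod.snd h))
    (fun a b => hP.disj i a j b fun h => hij (congrArg Prod.fst h)) hC hC' hθ hθ1 hθ0 hθθ hqr
    (fun a b c hab => Link4_full hδ (hP.card _ _) (hP.card _ _) (hP.card _ _) (s1 a b c hab))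
    (fun a b c hab => Link4_full hδ (hP.card _ _) (hP.card _ _) (hP.card _ _) (s2 a b c hab))
    e1 e2
  refine hL (Link4_mono hlink hθ2 ?_)
  push_cast
  have g2 : (4 : ℝ) ≤ (q : ℝ) := by exact_mod_cast hq4
  have g3 : (0 : ℝ) ≤ (N' : ℝ) := Nat.cast_nonneg _
  nlinarith only [g2, g3]

theorem CfgL_out {α : Type} [DecidableEq α] (R : Finset α → Prop) {k q : ℕ} (hq : 4 ≤ q)
    (δ θ : ℝ) (hδ : 0 < δ) (hθ : 0 < θ) (hθ1 : θ ≤ 1) (hδθ : 7 * δ < θ ^ 7) (N' : ℕ)
    (hN' : 0 < N') (P : Fin k → Fin q → Finset α) (hP : Cfg R δ θ N' P) (U : Finset α)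
    (hU : ∀ i a, P i a ⊆ U) (i j l : Fin k) (hij : i ≠ j) (hil : i ≠ l) (hjl : j ≠ l)
    (h1 : Arr R δ θ P i j) (h2 : Arr R δ θ P i l) (h3 : Arr R δ θ P j l) :
    BlueFano R U := by
  classical
  have hnon : ∀ i a, (P i a).Nonempty := fun i a =>
    Finset.card_pos.1 (by rw [hP.card]; exact hN')
  have i4 : ∀ a b : Fin 4, a ≠ b → Fin.castLE hq a ≠ Fin.castLE hq b := fun a b hab h =>
    hab (Fin.castLE_injective hq h)
  have hq2 : 2 ≤ q := by omega
  have i2 : Fin.castLE hq2 0 ≠ Fin.castLE hq2 1 := fun h =>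
    absurd (Fin.castLE_injective hq2 h) (by decide)
  have h := fano_of_types R (fun a => P i (Fin.castLE hq a)) (fun b => P j (Fin.castLE hq2 b))
    (P l ⟨0, by omega⟩) θ δ hθ hθ1 hδ hδθ
    (fun a b hab => hP.disj _ _ _ _ fun he => i4 a b hab (congrArg Prod.snd he))
    (hP.disj _ _ _ _ fun he => i2 (congrArg Prod.snd he))
    (fun a b => hP.disj _ _ _ _ fun he => hij (congrArg Prod.fst he))
    (fun a => hP.disj _ _ _ _ fun he => hil (congrArg Prod.fst he))
    (fun a => hP.disj _ _ _ _ fun he => hjl (congrArg Prod.fst he))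
    (fun a => hnon _ _) (fun b => hnon _ _) (hnon _ _)
    (fun a b c hab => h1 _ _ _ (i4 a b hab))
    (fun a b hab => h2 _ _ _ (i4 a b hab))
    (h3 _ _ _ i2)
  obtain ⟨ψ, p1, p2, p3⟩ := h
  refine ⟨ψ, p1, fun y => ?_, p3⟩
  have hx := p2 y
  rw [Finset.mem_union, Finset.mem_union, Finset.mem_biUnion, Finset.mem_biUnion] at hx
  rcases hx with (⟨a, _, ha⟩ | ⟨a, _, ha⟩) | ha
  · exact hU _ _ ha
  · exact hU _ _ ha
  · exact hU _ _ ha

/-- two arrows out of `i` and an arrow between their heads give a blue Fano plane -/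
theorem cfg_out {α : Type} [DecidableEq α] (R : Finset α → Prop) {k q : ℕ} (hq : 4 ≤ q)
    (δ θ : ℝ) (hδ : 0 < δ) (hθ : 0 < θ) (hθ1 : θ ≤ 1) (hδθ : 7 * δ < θ ^ 7) (N' : ℕ)
    (hN' : 0 < N') (P : Fin k → Fin q → Finset α) (hP : Cfg R δ θ N' P) (U : Finset α)
    (hU : ∀ i a, P i a ⊆ U) (i j l : Fin k) (hij : i ≠ j) (hil : i ≠ l) (hjl : j ≠ l)
    (h1 : Arr R δ θ P i j) (h2 : Arr R δ θ P i l) (h3 : Arr R δ θ P j l ∨ Arr R δ θ P l j) :
    BlueFano R U := by
  rcases h3 with h3 | h3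
  · exact CfgL_out R hq δ θ hδ hθ hθ1 hδθ N' hN' P hP U hU i j l hij hil hjl h1 h2 h3
  · exact CfgL_out R hq δ θ hδ hθ hθ1 hδθ N' hN' P hP U hU i l j hil hij hjl.symm h2 h1 h3

end Pool.MP7783b9
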