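import Pool.Agent.H.MP_7783b9_co.X.GadC
import Pool.Agent.H.MP_7783b9_co.R.SparseSet

/-!
# A red clique without bad pairs, and disjoint gadgets for all atypical points
-/

set_option autoImplicit false

open Finset

namespace Pool.MP7783b9

/-- greedy choice of a set without bad pairs -/
theorem CliqC_greedy {α : Type} [DecidableEq α] (T : Finset α) (Bd : α → α → Prop)
    (hs : ∀ x y, Bd x y → Bd y x) (d : ℝ) (hd : 0 ≤ d)
    (hN : ∀ x ∈ T, ∃ Nx : Finset α, (Nx.card : ℝ) ≤ d ∧ ∀ y ∈ T, Bd x y → y ∈ Nx) (j : ℕ) :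
    (j : ℝ) * (1 + d) ≤ T.card →
      ∃ Z ⊆ T, Z.card = j ∧ ∀ x ∈ Z, ∀ y ∈ Z, x ≠ y → ¬ Bd x y := by
  choose! N hN1 hN2 using hN
  induction j with
  | zero =>
    intro _
    exact ⟨∅, empty_subset _, rfl, by simp⟩
  | succ j ih =>
    intro hj
    push_cast at hj
    obtain ⟨Z, hZT, hZc, hZ⟩ := ih (by nlinarith)
    have hcard : (Z ∪ Z.biUnion N).card < T.card := by
      have h1 : ((Z ∪ Z.biUnion N).card : ℝ) ≤ Z.card + ((Z.biUnion N).card : ℝ) := by
        exact_mod_cast card_union_le _ _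
      have h2 : ((Z.biUnion N).card : ℝ) ≤ ∑ x ∈ Z, ((N x).card : ℝ) := by
        exact_mod_cast card_biUnion_le
      have h3 : ∑ x ∈ Z, ((N x).card : ℝ) ≤ ∑ _x ∈ Z, d :=
        sum_le_sum fun x hx => hN1 x (hZT hx)
      rw [sum_const, nsmul_eq_mul, hZc] at h3
      rw [hZc] at h1
      have h4 : ((Z ∪ Z.biUnion N).card : ℝ) < T.card := by nlinarith
      exact_mod_cast h4
    obtain ⟨y, hyT, hy⟩ := exists_mem_notMem_of_card_lt_card hcard
    rw [mem_union, not_or, mem_biUnion] at hy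
    obtain ⟨hy1, hy2⟩ := hy
    have hyB : ∀ x ∈ Z, ¬ Bd x y := fun x hx h => hy2 ⟨x, hx, hN2 x (hZT hx) y hyT h⟩
    refine ⟨insert y Z, insert_subset hyT hZT, by rw [card_insert_of_notMem hy1, hZc], ?_⟩
    intro a ha b hb hab
    rw [mem_insert] at ha hb
    rcases ha with rfl | ha <;> rcases hb with rfl | hb
    · exact absurd rfl hab
    · exact fun h => hyB b hb (hs _ _ h)
    · exact hyB a ha
    · exact hZ a ha b hb hab

/-- a red clique without bad pairs in a large set -/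
theorem clique_c (m : ℕ) :
    ∃ (ψ : ℝ) (n₀ : ℕ), 0 < ψ ∧ ∀ {α : Type} [DecidableEq α] (R : Finset α → Prop) (n : ℕ)
      (_ : n₀ ≤ n) (U T : Finset α) (_ : T ⊆ U) (_ : ¬ BlueFano R U) (_ : n ≤ 4 * T.card)
      (Bd : α → α → Prop) (_ : ∀ x y, Bd x y → Bd y x)
      (_ : ∀ x ∈ T, ∃ Nx : Finset α, (Nx.card : ℝ) ≤ ψ * n ∧ ∀ y ∈ T, Bd x y → y ∈ Nx),
      ∃ Y ⊆ T, Y.card = m ∧ RedClique R Y ∧ ∀ x ∈ Y, ∀ y ∈ Y, x ≠ y → ¬ Bd x y := by
  obtain ⟨M, hM⟩ := ram3 m
  have hM0 : (0 : ℝ) < 8 * M + 8 := by positivity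
  refine ⟨1 / (8 * M + 8), 8 * M + 8, by positivity, ?_⟩
  intro α _ R n hn U T hTU hF hnT Bd hs hN
  have hnR : (8 * M + 8 : ℝ) ≤ n := by exact_mod_cast hn
  have hTR : (n : ℝ) ≤ 4 * T.card := by exact_mod_cast hnT
  obtain ⟨Z, hZT, hZc, hZ⟩ := CliqC_greedy T Bd hs (1 / (8 * M + 8) * n) (by positivity) hN M (by
    have h1 : (M : ℝ) * (1 / (8 * M + 8) * n) ≤ n / 8 := by
      rw [one_div_mul_eq_div, mul_div_assoc', div_le_iff₀ hM0]
      nlinarith [Nat.cast_nonneg (α := ℝ) n]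
    nlinarith)
  rcases hM R Z hZc.ge with h | ⟨K, hKZ, hKc, hK⟩
  · exact absurd (SparseSet_mono (hZT.trans hTU) h) hF
  · exact ⟨K, hKZ.trans hZT, hKc, hK, fun x hx y hy => hZ x (hKZ hx) y (hKZ hy)⟩

/-- the atypical points and their gadgets -/
theorem gadgets_c (κ : ℝ) (hκ : 0 < κ) (hκ1 : κ ≤ 1) (t u m : ℕ) :
    ∃ (γ τ ψ : ℝ) (n₀ : ℕ), 0 < γ ∧ 0 < τ ∧ 0 < ψ ∧ ∀ {α : Type} [DecidableEq α]
      (R : Finset α → Prop) (n : ℕ) (_ : n₀ ≤ n) (T Vm A Y : Finset α) (_ : T.card ≤ n)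
      (_ : Vm.card ≤ 3 * n) (_ : Disjoint T Vm) (_ : (e3 R T T Vm : ℝ) ≤ τ * (n : ℝ) ^ 3)
      (_ : (A.card : ℝ) ≤ γ * n) (_ : Y.card ≤ m)
      (Bd : α → α → Prop) (_ : ∀ x y, Bd x y → Bd y x)
      (_ : ∀ x ∈ T, ∃ Nx : Finset α, (Nx.card : ℝ) ≤ ψ * n ∧ ∀ y ∈ T, Bd x y → y ∈ Nx)
      (_ : ∀ w ∈ A, κ * (n : ℝ) ^ 2 ≤ ((redP R w Vm T).card : ℝ)),
      ∃ P Q : α → Finset α, (∀ w ∈ A, P w ⊆ Vm ∧ Q w ⊆ T ∧ (P w).card = t ∧ (Q w).card = u ∧
        Disjoint (Q w) Y ∧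
        (∀ p ∈ P w, ∀ q ∈ Q w, R {w, p, q}) ∧
        (∀ p ∈ P w, ∀ q ∈ Q w, ∀ q' ∈ Q w, q ≠ q' → R {p, q, q'}) ∧
        ∀ q ∈ Q w, ∀ q' ∈ Q w, q ≠ q' → ¬ Bd q q') ∧
        ∀ w ∈ A, ∀ w' ∈ A, w ≠ w' → Disjoint (P w) (P w') ∧ Disjoint (Q w) (Q w') := by
  obtain ⟨χ, τ, ψ, n₀, hχ, hτ, hψ, H⟩ := gadget_c κ hκ hκ1 t u
  obtain ⟨n₁, hn₁⟩ := exists_nat_ge (2 * m / χ)
  have htu : (0 : ℝ) < 2 * (t + u + 1) := by positivity
  refine ⟨χ / (2 * (t + u + 1)), τ, ψ, max n₀ n₁, by positivity, hτ, hψ, ?_⟩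
  intro α _ R n hn T Vm A Y hT hVm hTV he hA hY Bd hs hN hw
  have hn0 : n₀ ≤ n := (le_max_left _ _).trans hn
  have hm : (m : ℝ) ≤ χ * n / 2 := by
    have h1 : (n₁ : ℝ) ≤ n := by exact_mod_cast (le_max_right _ _).trans hn
    have h2 : 2 * m / χ ≤ (n : ℝ) := hn₁.trans h1
    rw [div_le_iff₀ hχ] at h2
    linarith
  have hAtu : (A.card : ℝ) * (t + u) ≤ χ * n / 2 := by
    have h1 : (A.card : ℝ) * (2 * (t + u + 1)) ≤ χ * n := by
      have h2 := mul_le_mul_of_nonneg_right hA htu.le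
      refine h2.trans (le_of_eq ?_)
      field_simp
    nlinarith [Nat.cast_nonneg (α := ℝ) A.card]
  have key : ∀ B : Finset α, B ⊆ A →
      ∃ P Q : α → Finset α, (∀ w ∈ B, P w ⊆ Vm ∧ Q w ⊆ T ∧ (P w).card = t ∧ (Q w).card = u ∧
        Disjoint (Q w) Y ∧
        (∀ p ∈ P w, ∀ q ∈ Q w, R {w, p, q}) ∧
        (∀ p ∈ P w, ∀ q ∈ Q w, ∀ q' ∈ Q w, q ≠ q' → R {p, q, q'}) ∧
        ∀ q ∈ Q w, ∀ q' ∈ Q w, q ≠ q' → ¬ Bd q q') ∧
        ∀ w ∈ B, ∀ w' ∈ B, w ≠ w' → Disjoint (P w) (P w') ∧ Disjoint (Q w) (Q w') := by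
    intro B
    induction B using Finset.induction_on with
    | empty => exact fun _ => ⟨fun _ => ∅, fun _ => ∅, by simp, by simp⟩
    | insert w B hwB ih =>
      intro hBA
      obtain ⟨P, Q, h1, h2⟩ := ih ((subset_insert _ _).trans hBA)
      have hwA : w ∈ A := hBA (mem_insert_self _ _)
      have hBc : (B.card : ℝ) ≤ A.card := by
        exact_mod_cast card_le_card ((subset_insert _ _).trans hBA)
      have hΦ : ((Y ∪ (B.biUnion P ∪ B.biUnion Q)).card : ℝ) ≤ χ * n := by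
        have e1 : ((Y ∪ (B.biUnion P ∪ B.biUnion Q)).card : ℝ) ≤
            Y.card + (((B.biUnion P).card : ℝ) + (B.biUnion Q).card) := by
          have := (card_union_le Y (B.biUnion P ∪ B.biUnion Q)).trans
            (Nat.add_le_add_left (card_union_le (B.biUnion P) (B.biUnion Q)) _)
          exact_mod_cast this
        have e2 : (B.biUnion P).card ≤ B.card * t :=
          card_biUnion_le_card_mul _ _ _ fun x hx => (h1 x hx).2.2.1.le
        have e3 : (B.biUnion Q).card ≤ B.card * u :=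
          card_biUnion_le_card_mul _ _ _ fun x hx => (h1 x hx).2.2.2.1.le
        have e2' : ((B.biUnion P).card : ℝ) ≤ B.card * t := by exact_mod_cast e2
        have e3' : ((B.biUnion Q).card : ℝ) ≤ B.card * u := by exact_mod_cast e3
        have e4 : (Y.card : ℝ) ≤ m := by exact_mod_cast hY
        have e5 : (B.card : ℝ) * (t + u) ≤ A.card * (t + u) :=
          mul_le_mul_of_nonneg_right hBc (by positivity)
        nlinarith
      obtain ⟨P₀, Q₀, hP, hQ, hPc, hQc, hr1, hr2, hr3⟩ :=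
        H R n hn0 T Vm hT hVm hTV he Bd hs hN w (hw w hwA) _ hΦ
      have hPd : ∀ w' ∈ B, Disjoint P₀ (P w') := by
        intro w' hw'
        rw [disjoint_left]
        intro x hx hx'
        have := (mem_sdiff.1 (hP hx)).2
        exact this (mem_union_right _ (mem_union_left _ (mem_biUnion.2 ⟨w', hw', hx'⟩)))
      have hQd : ∀ w' ∈ B, Disjoint Q₀ (Q w') := by
        intro w' hw'
        rw [disjoint_left]
        intro x hx hx'
        have := (mem_sdiff.1 (hQ hx)).2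
        exact this (mem_union_right _ (mem_union_right _ (mem_biUnion.2 ⟨w', hw', hx'⟩)))
      have hne : ∀ w' ∈ B, w' ≠ w := fun w' hw' h => hwB (h ▸ hw')
      refine ⟨Function.update P w P₀, Function.update Q w Q₀, ?_, ?_⟩
      · intro w' hw'
        rw [mem_insert] at hw'
        rcases hw' with rfl | hw'
        · rw [Function.update_self, Function.update_self]
          refine ⟨hP.trans sdiff_subset, hQ.trans sdiff_subset, hPc, hQc, ?_,
            fun p hp q hq => (hr1 p hp q hq).2.2, hr2, hr3⟩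
          rw [disjoint_left]
          intro x hx hx'
          exact (mem_sdiff.1 (hQ hx)).2 (mem_union_left _ hx')
        · rw [Function.update_of_ne (hne w' hw'), Function.update_of_ne (hne w' hw')]
          exact h1 w' hw'
      · intro a ha b hb hab
        rw [mem_insert] at ha hb
        rcases ha with rfl | ha <;> rcases hb with rfl | hb
        · exact absurd rfl hab
        · rw [Function.update_self, Function.update_self, Function.update_of_ne (hne b hb),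
            Function.update_of_ne (hne b hb)]
          exact ⟨hPd b hb, hQd b hb⟩
        · rw [Function.update_self, Function.update_self, Function.update_of_ne (hne a ha),
            Function.update_of_ne (hne a ha)]
          exact ⟨(hPd a ha).symm, (hQd a ha).symm⟩
        · rw [Function.update_of_ne (hne a ha), Function.update_of_ne (hne a ha),
            Function.update_of_ne (hne b hb), Function.update_of_ne (hne b hb)]
          exact h2 a ha b hb hab
  exact key A (Subset.refl _)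

end Pool.MP7783b9
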