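import Pool.Agent.H.MP_7783b9_co.X.CC1
import Pool.Agent.H.MP_7783b9_co.X.CC2
import Pool.Agent.H.MP_7783b9_co.W.ColS

/-!
# The structure of colourings: a large linked set of clusters or the cyclic template
-/

set_option autoImplicit false

open Finset

namespace Pool.MP7783b9

/-- three classes of linked sets, with ways inside the classes -/
theorem Col3_comp {β : Type*} [DecidableEq β] (𝒞 : Finset β) (hne : 𝒞.Nonempty)
    (L : β → β → Prop) (hs : ∀ C C', L C C' → L C' C)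
    (h : ∀ f : Fin 4 → β, (∀ i, f i ∈ 𝒞) → Function.Injective f → ∃ i j, i ≠ j ∧ L (f i) (f j)) :
    ∃ c : β → Fin 3, (∀ C ∈ 𝒞, ∀ C' ∈ 𝒞, L C C' → c C = c C') ∧
      ∀ C ∈ 𝒞, ∀ C' ∈ 𝒞, c C = c C' → ∃ q : ℕ → β, q 0 = C ∧ (∀ i, 𝒞.card ≤ i → q i = C') ∧
        (∀ i, q i ∈ 𝒞) ∧ ∀ i, q i = q (i + 1) ∨ L (q i) (q (i + 1)) := by
  classical
  let G : SimpleGraph {C // C ∈ 𝒞} :=
    { Adj := fun C C' => C ≠ C' ∧ L C.1 C'.1
      symm := ⟨fun C C' h => ⟨h.1.symm, hs _ _ h.2⟩⟩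
      loopless := ⟨fun C h => h.1 rfl⟩ }
  have hGadj : ∀ C C', G.Adj C C' ↔ C ≠ C' ∧ L C.1 C'.1 := fun _ _ => Iff.rfl
  have : Fintype G.ConnectedComponent := Fintype.ofFinite _
  have hrep : ∀ c : G.ConnectedComponent, ∃ v, G.connectedComponentMk v = c := fun c =>
    c.exists_rep
  choose rep hrep using hrep
  have hcard : Fintype.card G.ConnectedComponent ≤ 3 := by
    by_contra hcon
    have h4 : Fintype.card (Fin 4) ≤ Fintype.card G.ConnectedComponent := by
      rw [Fintype.card_fin]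
      omega
    obtain ⟨e⟩ := Function.Embedding.nonempty_of_card_le h4
    have hinj : Function.Injective fun i => (rep (e i)).1 := by
      intro i j hij
      have h1 : G.connectedComponentMk (rep (e i)) = G.connectedComponentMk (rep (e j)) :=
        congrArg _ (Subtype.ext hij)
      rw [hrep, hrep] at h1
      exact e.injective h1
    obtain ⟨i, j, hne', hij⟩ := h _ (fun i => (rep (e i)).2) hinj
    have hadj : G.Adj (rep (e i)) (rep (e j)) :=
      (hGadj _ _).2 ⟨fun he => hne' (hinj (congrArg Subtype.val he)), hij⟩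
    have h1 : G.connectedComponentMk (rep (e i)) = G.connectedComponentMk (rep (e j)) :=
      SimpleGraph.ConnectedComponent.sound hadj.reachable
    rw [hrep, hrep] at h1
    exact hne' (e.injective h1)
  obtain ⟨e⟩ : Nonempty (G.ConnectedComponent ↪ Fin 3) :=
    Function.Embedding.nonempty_of_card_le (by rw [Fintype.card_fin]; exact hcard)
  refine ⟨fun C => if hC : C ∈ 𝒞 then e (G.connectedComponentMk ⟨C, hC⟩) else 0, ?_, ?_⟩
  · intro C hC C' hC' hL
    simp only [dif_pos hC, dif_pos hC']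
    by_cases hCC : C = C'
    · subst hCC
      rfl
    · have hadj : G.Adj ⟨C, hC⟩ ⟨C', hC'⟩ :=
        (hGadj _ _).2 ⟨fun he => hCC (congrArg Subtype.val he), hL⟩
      rw [SimpleGraph.ConnectedComponent.sound hadj.reachable]
  · intro C hC C' hC' hc
    simp only [dif_pos hC, dif_pos hC'] at hc
    have hr : G.Reachable ⟨C, hC⟩ ⟨C', hC'⟩ :=
      SimpleGraph.ConnectedComponent.exact (e.injective hc)
    obtain ⟨q, q0, q1, q2⟩ := path_fun G hr
    refine ⟨fun i => (q i).1, congrArg Subtype.val q0, fun i hi => ?_, fun i => (q i).2,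
      fun i => ?_⟩
    · have e1 : Fintype.card {C // C ∈ 𝒞} ≤ i := by
        rw [Fintype.card_coe]
        exact hi
      show (q i).1 = C'
      rw [q1 i e1]
    · rcases q2 i with e1 | e1
      · left
        show (q i).1 = (q (i + 1)).1
        rw [← e1]
      · right
        exact ((hGadj _ _).1 e1).2

theorem Col3_e3_le_sum {α : Type} [DecidableEq α] (R : Finset α → Prop)
    (A B D : Finset (Finset α)) :
    e3 R (A.biUnion id) (B.biUnion id) (D.biUnion id) ≤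
      ∑ p ∈ A ×ˢ B ×ˢ D, e3 R p.1 p.2.1 p.2.2 := by
  classical
  unfold e3
  refine (Finset.card_le_card ?_).trans Finset.card_biUnion_le
  rintro ⟨x, y, z⟩ hp
  rw [Finset.mem_filter, Finset.mem_product, Finset.mem_product, Finset.mem_biUnion,
    Finset.mem_biUnion, Finset.mem_biUnion] at hp
  obtain ⟨⟨⟨i, hi, hx⟩, ⟨j, hj, hy⟩, ⟨k, hk, hz⟩⟩, hb⟩ := hp
  rw [Finset.mem_biUnion]
  refine ⟨(i, j, k), ?_, ?_⟩
  · rw [Finset.mem_product, Finset.mem_product]
    exact ⟨hi, hj, hk⟩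
  · rw [Finset.mem_filter, Finset.mem_product, Finset.mem_product]
    exact ⟨⟨hx, hy, hz⟩, hb⟩

theorem Col3_union {α : Type} [DecidableEq α] (𝒦 : Finset (Finset α)) (N : ℕ)
    (hN : ∀ C ∈ 𝒦, C.card = N) (hd : ∀ C ∈ 𝒦, ∀ C' ∈ 𝒦, C ≠ C' → Disjoint C C') :
    (𝒦.biUnion id).card = 𝒦.card * N := by
  classical
  have e0 : (𝒦.biUnion id).card = ∑ C ∈ 𝒦, (id C : Finset α).card :=
    Finset.card_biUnion fun C hC C' hC' hne => hd C hC C' hC' hne
  have e0' : ∀ C ∈ 𝒦, (id C : Finset α).card = N := fun C hC => hN C hC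
  rw [e0, Finset.sum_congr rfl e0', Finset.sum_const, smul_eq_mul]

theorem Col3_fin (i j : Fin 3) : j = i ∨ j = i + 1 ∨ j = i + 2 := by
  revert i j
  decide

theorem Col3_fin2 (s i j : Fin 3) (hs : s ≠ 0) (h : 2 * s * i = 2 * s * j) : i = j := by
  revert s i j
  decide

theorem Col3_fin3 (s i : Fin 3) : 2 * s * (i + 2) = 2 * s * i + s := by
  revert s i
  decide

/-- pigeonhole over the triples of clusters -/
theorem Col3_pig {β : Type*} [DecidableEq β] (K : Fin 3 → Finset β) (hK : ∀ i, (K i).Nonempty)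
    (B : Fin 3 → β → β → Prop)
    (h : ∀ X : Fin 3 → β, (∀ i, X i ∈ K i) → ∃ i, B i (X (i + 2)) (X i)) :
    ∃ i, ∃ T : Finset (β × β), T ⊆ K (i + 2) ×ˢ K i ∧ (∀ p ∈ T, B i p.1 p.2) ∧
      (K (i + 2)).card * (K i).card ≤ 3 * T.card := by
  classical
  set T : Fin 3 → Finset (β × β) := fun i => (K (i + 2) ×ˢ K i).filter fun p => B i p.1 p.2
    with hT
  set P : Finset (Fin 3 → β) := Fintype.piFinset K with hP
  have hPc : P.card = ∏ i, (K i).card := Fintype.card_piFinset K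
  by_contra hcon
  push Not at hcon
  have h1 : ∀ i, 3 * (T i).card < (K (i + 2)).card * (K i).card := by
    intro i
    refine hcon i (T i) (Finset.filter_subset _ _) ?_
    intro p hp
    exact (Finset.mem_filter.1 hp).2
  have h2 : ∀ i, ((P.filter fun X => B i (X (i + 2)) (X i)).card) ≤
      (T i).card * (K (i + 1)).card := by
    intro i
    rw [← Finset.card_product]
    refine Finset.card_le_card_of_injOn (fun X => ((X (i + 2), X i), X (i + 1))) ?_ ?_
    · intro X hX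
      have hX' := Finset.mem_filter.1 (Finset.mem_coe.1 hX)
      have hXK := Fintype.mem_piFinset.1 hX'.1
      rw [Finset.mem_coe, Finset.mem_product, Finset.mem_filter, Finset.mem_product]
      exact ⟨⟨⟨hXK _, hXK _⟩, hX'.2⟩, hXK _⟩
    · intro X _ Y _ hXY
      simp only [Prod.mk.injEq] at hXY
      obtain ⟨⟨e1, e2⟩, e3⟩ := hXY
      funext j
      rcases Col3_fin i j with hj | hj | hj
      · rw [hj, e2]
      · rw [hj, e3]
      · rw [hj, e1]
  have h3 : P ⊆ (Finset.univ : Finset (Fin 3)).biUnion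
      fun i => P.filter fun X => B i (X (i + 2)) (X i) := by
    intro X hX
    obtain ⟨i, hi⟩ := h X (Fintype.mem_piFinset.1 hX)
    rw [Finset.mem_biUnion]
    exact ⟨i, Finset.mem_univ _, Finset.mem_filter.2 ⟨hX, hi⟩⟩
  have h4 : P.card ≤ ∑ i : Fin 3, (T i).card * (K (i + 1)).card :=
    (Finset.card_le_card h3).trans (Finset.card_biUnion_le.trans (Finset.sum_le_sum fun i _ => h2 i))
  have hpos : ∀ i, 0 < (K i).card := fun i => (hK i).card_pos
  have h5 : ∀ i, 3 * ((T i).card * (K (i + 1)).card) < ∏ i, (K i).card := by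
    intro i
    have e1 : ∏ i, (K i).card = (K (i + 2)).card * (K i).card * (K (i + 1)).card := by
      rw [Fin.prod_univ_three]
      fin_cases i
      · show (K 0).card * (K 1).card * (K 2).card = (K 2).card * (K 0).card * (K 1).card
        ring
      · show (K 0).card * (K 1).card * (K 2).card = (K 0).card * (K 1).card * (K 2).card
        ring
      · show (K 0).card * (K 1).card * (K 2).card = (K 1).card * (K 2).card * (K 0).card
        ring
    rw [e1, ← mul_assoc]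
    exact Nat.mul_lt_mul_of_pos_right (h1 i) (hpos _)
  rw [hPc, Fin.sum_univ_three] at h4
  have a0 := h5 0
  have a1 := h5 1
  have a2 := h5 2
  omega

/-- the cyclic template from three kinds of clusters -/
theorem Col3_tmpl {α : Type} [DecidableEq α] (R : Finset α → Prop) (U : Finset α) (N : ℕ)
    (K : Fin 3 → Finset (Finset α)) (hKne : ∀ i, (K i).Nonempty)
    (hK : ∀ i, ∀ C ∈ K i, C ⊆ U ∧ C.card = N)
    (hKd : ∀ i, ∀ C ∈ K i, ∀ j, ∀ C' ∈ K j, (C = C' ∧ i = j) ∨ Disjoint C C')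
    (δc ε4 ε4' η' : ℝ) (hδ : δc ≤ 1 / 100) (hε4' : ε4' ≤ ε4) (hε0 : 0 < ε4') (hη : 0 < η')
    (hw : ∀ i, (1 / 3 - 3 * δc) * (U.card : ℝ) ≤ (((K i).biUnion id).card : ℝ))
    (he : ∀ i, ∀ C ∈ K i, ∀ C' ∈ K i, ∀ D ∈ K (i + 2), (e3 R C C' D : ℝ) ≤ ε4' * (N : ℝ) ^ 3)
    (hr : ∀ X : Fin 3 → Finset α, (∀ i, X i ∈ K i) → ∀ w ∈ U,
      ∃ i, η' * (N : ℝ) ^ 2 ≤ ((redP R w (X (i + 2)) (X i)).card : ℝ)) :
    ∃ V : Fin 3 → Finset α, (∀ i, V i ⊆ U) ∧ (∀ i j, i ≠ j → Disjoint (V i) (V j)) ∧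
      (∀ i, (1 / 3 - 3 * δc) * (U.card : ℝ) ≤ ((V i).card : ℝ)) ∧
      (∀ i, (e3 R (V i) (V i) (V (i + 2)) : ℝ) ≤ ε4 * (U.card : ℝ) ^ 3) ∧
      ∀ w ∈ U, ∃ i, η' / 48 * (U.card : ℝ) ^ 2 ≤ ((redP R w (V (i + 2)) (V i)).card : ℝ) := by
  classical
  have hdis : ∀ i, ∀ C ∈ K i, ∀ C' ∈ K i, C ≠ C' → Disjoint C C' := by
    intro i C hC C' hC' hne
    rcases hKd i C hC i C' hC' with h | h
    · exact absurd h.1 hne
    · exact h
  have hcard : ∀ i, ((K i).biUnion id).card = (K i).card * N := fun i =>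
    Col3_union (K i) N (fun C hC => (hK i C hC).2) (hdis i)
  have hsub : ∀ i, (K i).biUnion id ⊆ U := by
    intro i
    rw [Finset.biUnion_subset]
    exact fun C hC => (hK i C hC).1
  have hkN : ∀ i, ((K i).card : ℝ) * (N : ℝ) ≤ (U.card : ℝ) := by
    intro i
    have h1 := Finset.card_le_card (hsub i)
    rw [hcard i] at h1
    exact_mod_cast h1
  have hU0 : (0 : ℝ) ≤ (U.card : ℝ) := Nat.cast_nonneg _
  refine ⟨fun i => (K i).biUnion id, hsub, ?_, hw, ?_, ?_⟩
  · intro i j hij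
    rw [Finset.disjoint_biUnion_left]
    intro C hC
    rw [Finset.disjoint_biUnion_right]
    intro C' hC'
    rcases hKd i C hC j C' hC' with h | h
    · exact absurd h.2 hij
    · exact h
  · intro i
    show (e3 R ((K i).biUnion id) ((K i).biUnion id) ((K (i + 2)).biUnion id) : ℝ) ≤ _
    have h1 : (e3 R ((K i).biUnion id) ((K i).biUnion id) ((K (i + 2)).biUnion id) : ℝ) ≤
        ∑ p ∈ K i ×ˢ K i ×ˢ K (i + 2), (e3 R p.1 p.2.1 p.2.2 : ℝ) := by
      exact_mod_cast Col3_e3_le_sum R (K i) (K i) (K (i + 2))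
    have h2 : ∑ p ∈ K i ×ˢ K i ×ˢ K (i + 2), (e3 R p.1 p.2.1 p.2.2 : ℝ) ≤
        ((K i ×ˢ K i ×ˢ K (i + 2)).card : ℝ) * (ε4' * (N : ℝ) ^ 3) := by
      rw [← nsmul_eq_mul]
      refine Finset.sum_le_card_nsmul _ _ _ fun p hp => ?_
      rw [Finset.mem_product, Finset.mem_product] at hp
      exact he i _ hp.1 _ hp.2.1 _ hp.2.2
    rw [Finset.card_product, Finset.card_product] at h2
    push_cast at h2
    have a1 := hkN i
    have a2 := hkN (i + 2)
    have b1 : (0 : ℝ) ≤ ((K i).card : ℝ) * (N : ℝ) := by positivity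
    have b2 : (0 : ℝ) ≤ ((K (i + 2)).card : ℝ) * (N : ℝ) := by positivity
    have h3 : ((K i).card : ℝ) * (N : ℝ) * (((K i).card : ℝ) * (N : ℝ)) *
        (((K (i + 2)).card : ℝ) * (N : ℝ)) ≤ (U.card : ℝ) * (U.card : ℝ) * (U.card : ℝ) :=
      mul_le_mul (mul_le_mul a1 a1 b1 hU0) a2 b2 (mul_nonneg hU0 hU0)
    have h4 : ((K i).card : ℝ) * (((K i).card : ℝ) * ((K (i + 2)).card : ℝ)) *
        (ε4' * (N : ℝ) ^ 3) = ε4' * (((K i).card : ℝ) * (N : ℝ) * (((K i).card : ℝ) * (N : ℝ)) *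
        (((K (i + 2)).card : ℝ) * (N : ℝ))) := by ring
    have h5 : (U.card : ℝ) ^ 3 = (U.card : ℝ) * (U.card : ℝ) * (U.card : ℝ) := by ring
    rw [h4] at h2
    rw [h5]
    have h6 := mul_le_mul_of_nonneg_left h3 hε0.le
    have h7 : ε4' * ((U.card : ℝ) * (U.card : ℝ) * (U.card : ℝ)) ≤
        ε4 * ((U.card : ℝ) * (U.card : ℝ) * (U.card : ℝ)) :=
      mul_le_mul_of_nonneg_right hε4' (by positivity)
    exact h1.trans (h2.trans (h6.trans h7))
  · intro w hwU
    obtain ⟨i, T, hT, hTB, hTc⟩ := Col3_pig K hKne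
      (fun _ C C' => η' * (N : ℝ) ^ 2 ≤ ((redP R w C C').card : ℝ))
      (fun X hX => hr X hX w hwU)
    refine ⟨i, ?_⟩
    show _ ≤ ((redP R w ((K (i + 2)).biUnion id) ((K i).biUnion id)).card : ℝ)
    have h1 : T.biUnion (fun p => redP R w p.1 p.2) ⊆
        redP R w ((K (i + 2)).biUnion id) ((K i).biUnion id) := by
      rw [Finset.biUnion_subset]
      intro p hp x hx
      have hp' := Finset.mem_product.1 (hT hp)
      rw [mem_redP] at hx ⊢
      refine ⟨⟨?_, ?_⟩, hx.2⟩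
      · exact Finset.mem_biUnion.2 ⟨p.1, hp'.1, hx.1.1⟩
      · exact Finset.mem_biUnion.2 ⟨p.2, hp'.2, hx.1.2⟩
    have h2 : (T.biUnion (fun p => redP R w p.1 p.2)).card = ∑ p ∈ T, (redP R w p.1 p.2).card := by
      refine Finset.card_biUnion ?_
      intro p hp p' hp' hne
      have a := Finset.mem_product.1 (hT hp)
      have a' := Finset.mem_product.1 (hT hp')
      show Disjoint (redP R w p.1 p.2) (redP R w p'.1 p'.2)
      rw [Finset.disjoint_left]
      intro x hx hx'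
      rw [mem_redP] at hx hx'
      apply hne
      have e1 : p.1 = p'.1 := by
        by_contra hcon
        exact (Finset.disjoint_left.1 (hdis _ _ a.1 _ a'.1 hcon)) hx.1.1 hx'.1.1
      have e2 : p.2 = p'.2 := by
        by_contra hcon
        exact (Finset.disjoint_left.1 (hdis _ _ a.2 _ a'.2 hcon)) hx.1.2 hx'.1.2
      exact Prod.ext e1 e2
    have h3 : (T.card : ℝ) * (η' * (N : ℝ) ^ 2) ≤ ∑ p ∈ T, ((redP R w p.1 p.2).card : ℝ) := by
      rw [← nsmul_eq_mul]
      exact Finset.card_nsmul_le_sum _ _ _ fun p hp => hTB p hp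
    have h4 : (T.card : ℝ) * (η' * (N : ℝ) ^ 2) ≤
        ((redP R w ((K (i + 2)).biUnion id) ((K i).biUnion id)).card : ℝ) := by
      refine h3.trans ?_
      have h5 := Finset.card_le_card h1
      rw [h2] at h5
      exact_mod_cast h5
    refine le_trans ?_ h4
    have h6 : (((K (i + 2)).card : ℝ)) * ((K i).card : ℝ) ≤ 3 * (T.card : ℝ) := by
      exact_mod_cast hTc
    have c1 : 1 / 4 * (U.card : ℝ) ≤ ((K i).card : ℝ) * (N : ℝ) := by
      have := hw i
      rw [hcard i] at this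
      push_cast at this
      nlinarith only [this, hδ, hU0]
    have c2 : 1 / 4 * (U.card : ℝ) ≤ ((K (i + 2)).card : ℝ) * (N : ℝ) := by
      have := hw (i + 2)
      rw [hcard (i + 2)] at this
      push_cast at this
      nlinarith only [this, hδ, hU0]
    have c3 : (1 / 4 * (U.card : ℝ)) * (1 / 4 * (U.card : ℝ)) ≤
        (((K (i + 2)).card : ℝ) * (N : ℝ)) * (((K i).card : ℝ) * (N : ℝ)) :=
      mul_le_mul c2 c1 (by positivity) (by positivity)
    have c4 : (((K (i + 2)).card : ℝ) * (N : ℝ)) * (((K i).card : ℝ) * (N : ℝ)) ≤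
        3 * (T.card : ℝ) * (N : ℝ) ^ 2 := by
      have := mul_le_mul_of_nonneg_right h6 (sq_nonneg (N : ℝ))
      nlinarith only [this]
    have c5 := mul_le_mul_of_nonneg_left (c3.trans c4) hη.le
    nlinarith only [c5]

/-- the structure of a colouring without blue Fano plane: a large linked set of clusters, or
the cyclic template -/
theorem colour3 (εl : ℝ) (h0 : 0 < εl) (h1 : εl ≤ 1) :
    ∃ η₂ : ℝ, 0 < η₂ ∧ ∀ (ε4 δc : ℝ), 0 < ε4 → ε4 ≤ 1 → 0 < δc → δc ≤ 1 / 100 →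
      ∃ ρ : ℝ, 0 < ρ ∧ ρ ≤ 1 ∧ ∃ εc : ℝ, 0 < εc ∧ ∀ ε : ℝ, 0 < ε → ε ≤ εc →
      ∃ σ : ℝ, 0 < σ ∧ σ ≤ 1 ∧ ∃ p n₀ : ℕ, 2 ≤ p ∧ ∀ {α : Type} [DecidableEq α]
      (R : Finset α → Prop) (U : Finset α), n₀ ≤ U.card → ¬ BlueFano R U →
      ∃ N : ℕ, σ * (U.card : ℝ) ≤ (N : ℝ) ∧
        ((∃ 𝒦 : Finset (Finset α), 𝒦.card ≤ p ∧
          (∀ C ∈ 𝒦, C ⊆ U ∧ C.card = N ∧ dense R C ε = ∅) ∧
          (∀ C ∈ 𝒦, ∀ C' ∈ 𝒦, C ≠ C' → Disjoint C C') ∧
          (1 / 3 + δc) * (U.card : ℝ) ≤ ((𝒦.biUnion id).card : ℝ) ∧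
          ∃ (C₀ C₁ : Finset α) (M : ℕ → Fin 3 → Finset α) (mk : Finset α → Prop)
            (q : Finset α → ℕ → Finset α),
            (∀ C ∈ 𝒦, q C 0 = C₀ ∧ (∀ i, p ≤ i → q C i = C) ∧
              (∀ i, q C i ⊆ U ∧ (q C i).card = N ∧ dense R (q C i) ε = ∅) ∧
              (mk C → q C 1 = C₀ ∧ q C 2 = C₁) ∧
              ∀ i, (mk C → 2 ≤ i) →
                (q C i = q C (i + 1) ∨ Linked R εl (ρ * (N : ℝ)) (q C i) (q C (i + 1)))) ∧
            ((∃ C ∈ 𝒦, mk C) → (∀ j ≤ 4, ∀ c, M j c ⊆ U) ∧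
              ∃ l : ℝ, ρ * N ≤ l ∧ ModePath R εl l C₀ C₁ M)) ∨
        (∃ V : Fin 3 → Finset α, (∀ i, V i ⊆ U) ∧ (∀ i j, i ≠ j → Disjoint (V i) (V j)) ∧
          (∀ i, (1 / 3 - 3 * δc) * (U.card : ℝ) ≤ ((V i).card : ℝ)) ∧
          (∀ i, (e3 R (V i) (V i) (V (i + 2)) : ℝ) ≤ ε4 * (U.card : ℝ) ^ 3) ∧
          ∀ w ∈ U, ∃ i, η₂ * (U.card : ℝ) ^ 2 ≤ ((redP R w (V (i + 2)) (V i)).card : ℝ))) := by
  classical
  obtain ⟨ε5, η', hε5, hε51, hη', ρ2, hρ2, hρ21, εc2, hεc2, N2, hc2⟩ := c2_rule εl h0 h1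
  refine ⟨η' / 48, by positivity, ?_⟩
  intro ε4 δc hε4 hε41 hδ hδ1
  obtain ⟨ρ1, hρ1, hρ11, εc1, hεc1, N1, hc1⟩ := c1_rule εl h0 h1 (min ε4 ε5) (lt_min hε4 hε5)
    ((min_le_left _ _).trans hε41)
  obtain ⟨ρ3, hρ3, hρ31, εc3, hεc3, N3, hlink⟩ := link4 εl h0
  obtain ⟨ρ, hρ, hρr1, hρr2, hρr3⟩ : ∃ ρ : ℝ, 0 < ρ ∧ ρ ≤ ρ1 ∧ ρ ≤ ρ2 ∧ ρ ≤ ρ3 :=
    ⟨min ρ1 (min ρ2 ρ3), lt_min hρ1 (lt_min hρ2 hρ3), min_le_left _ _,
      (min_le_right _ _).trans (min_le_left _ _), (min_le_right _ _).trans (min_le_right _ _)⟩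
  obtain ⟨εc, hεc, hεr1, hεr2, hεr3⟩ : ∃ εc : ℝ, 0 < εc ∧ εc ≤ εc1 ∧ εc ≤ εc2 ∧ εc ≤ εc3 :=
    ⟨min εc1 (min εc2 εc3), lt_min hεc1 (lt_min hεc2 hεc3), min_le_left _ _,
      (min_le_right _ _).trans (min_le_left _ _), (min_le_right _ _).trans (min_le_right _ _)⟩
  refine ⟨ρ, hρ, hρr1.trans hρ11, εc, hεc, ?_⟩
  intro ε hε hεε
  obtain ⟨σ, hσ, hσ1, n₁, hcl⟩ := clusters_eq ε (δc / 4) hε (by positivity)
    (by linarith only [hδ1])
  obtain ⟨N₀, hN₀1, hN₀2, hN₀3⟩ : ∃ N₀ : ℕ, N1 ≤ N₀ ∧ N2 ≤ N₀ ∧ N3 ≤ N₀ :=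
    ⟨N1 + N2 + N3, by omega, by omega, by omega⟩
  refine ⟨σ, hσ, hσ1, ⌈1 / σ⌉₊ + 3, max n₁ ⌈((N₀ : ℝ) + 1) / σ⌉₊, by omega, ?_⟩
  intro α _ R U hU hF
  have hU1 : n₁ ≤ U.card := (le_max_left _ _).trans hU
  have hU2 : ((N₀ : ℝ) + 1) / σ ≤ (U.card : ℝ) :=
    (Nat.le_ceil _).trans (by exact_mod_cast (le_max_right _ _).trans hU)
  have hU3 : (N₀ : ℝ) + 1 ≤ σ * (U.card : ℝ) := by
    rw [div_le_iff₀ hσ] at hU2
    linarith only [hU2]
  have hN₀ : (0 : ℝ) ≤ (N₀ : ℝ) := Nat.cast_nonneg _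
  have hUpos : (0 : ℝ) < (U.card : ℝ) := by
    have h0 : (0 : ℝ) < σ * (U.card : ℝ) := by linarith only [hU3, hN₀]
    exact (mul_pos_iff_of_pos_left hσ).1 h0
  obtain ⟨N, hN, 𝒞, hC1, hC2, hC3⟩ := hcl R U hU1 hF
  refine ⟨N, hN, ?_⟩
  have hNN : N₀ ≤ N := by
    have : (N₀ : ℝ) ≤ (N : ℝ) := by linarith only [hN, hU3]
    exact_mod_cast this
  have hNr : (0 : ℝ) ≤ (N : ℝ) := Nat.cast_nonneg _
  have hsub : 𝒞.biUnion id ⊆ U := by
    rw [Finset.biUnion_subset]
    exact fun C hC => (hC1 C hC).1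
  have hunion : ∀ 𝒦 ⊆ 𝒞, (𝒦.biUnion id).card = 𝒦.card * N := fun 𝒦 h𝒦 =>
    Col3_union 𝒦 N (fun C hC => (hC1 C (h𝒦 hC)).2.1)
      (fun C hC C' hC' hne => hC2 C (h𝒦 hC) C' (h𝒦 hC') hne)
  have hcard : 𝒞.card ≤ ⌈1 / σ⌉₊ := by
    have e1 : ((𝒞.card * N : ℕ) : ℝ) ≤ (U.card : ℝ) := by
      rw [← hunion 𝒞 (Finset.Subset.refl _)]
      exact_mod_cast Finset.card_le_card hsub
    push_cast at e1
    have e2 : (𝒞.card : ℝ) * (σ * (U.card : ℝ)) ≤ (𝒞.card : ℝ) * (N : ℝ) :=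
      mul_le_mul_of_nonneg_left hN (Nat.cast_nonneg _)
    have e3 : (𝒞.card : ℝ) * σ * (U.card : ℝ) ≤ 1 * (U.card : ℝ) := by linarith only [e1, e2]
    have e4 : (𝒞.card : ℝ) * σ ≤ 1 := le_of_mul_le_mul_right e3 hUpos
    have e5 : (𝒞.card : ℝ) ≤ 1 / σ := by
      rw [le_div_iff₀ hσ]
      exact e4
    exact_mod_cast e5.trans (Nat.le_ceil _)
  have hbig : (1 - δc / 4) * (U.card : ℝ) ≤ ((𝒞.biUnion id).card : ℝ) := by
    have e1 : (U \ 𝒞.biUnion id).card = U.card - (𝒞.biUnion id).card :=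
      Finset.card_sdiff_of_subset hsub
    have e2 : (𝒞.biUnion id).card ≤ U.card := Finset.card_le_card hsub
    have e3 : ((U \ 𝒞.biUnion id).card : ℝ) = (U.card : ℝ) - ((𝒞.biUnion id).card : ℝ) := by
      rw [e1, Nat.cast_sub e2]
    rw [e3] at hC3
    linarith only [hC3]
  have hne : 𝒞.Nonempty := by
    rw [Finset.nonempty_iff_ne_empty]
    intro h𝒞
    rw [h𝒞] at hbig
    simp only [Finset.biUnion_empty, Finset.card_empty, Nat.cast_zero] at hbig
    nlinarith only [hbig, hδ1, hUpos]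
  have hclus : ∀ ε', ε ≤ ε' → ∀ C ∈ 𝒞, Clus R ε' N C := fun ε' hε' C hC =>
    Clus.mono (R := R) (ε := ε) ⟨(hC1 C hC).2.1, (hC1 C hC).2.2⟩ hε'
  obtain ⟨c, hcL, hcq⟩ := Col3_comp 𝒞 hne (fun C C' => Linked R εl (ρ * (N : ℝ)) C C')
    (fun C C' h => h.symm) (by
      intro f hf hinj
      obtain ⟨i, j, hij, hl⟩ := hlink R N (hN₀3.trans hNN) f (fun i => (hC1 _ (hf i)).2.1)
        (fun i j hij => hC2 _ (hf i) _ (hf j) fun he => hij (hinj he))
        (fun i => (hclus εc3 (hεε.trans hεr3) _ (hf i)).2)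
        (fun hB => by
          obtain ⟨ψ, p1, p2, p3⟩ := hB
          refine hF ⟨ψ, p1, fun x => ?_, p3⟩
          obtain ⟨i, -, hi⟩ := Finset.mem_biUnion.1 (p2 x)
          exact (hC1 _ (hf i)).1 hi)
      exact ⟨i, j, hij, hl.mono (mul_le_mul_of_nonneg_right hρr3 hNr)⟩)
  -- the three classes
  obtain ⟨K, hKdef⟩ : ∃ K : Fin 3 → Finset (Finset α), ∀ i, K i = 𝒞.filter fun C => c C = i :=
    ⟨fun i => 𝒞.filter fun C => c C = i, fun _ => rfl⟩
  have hKmem : ∀ i C, C ∈ K i ↔ C ∈ 𝒞 ∧ c C = i := fun i C => by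
    rw [hKdef i, Finset.mem_filter]
  have hKsub : ∀ i, K i ⊆ 𝒞 := fun i C hC => ((hKmem i C).1 hC).1
  have hsum : (((K 0).biUnion id).card : ℝ) + (((K 1).biUnion id).card : ℝ) +
      (((K 2).biUnion id).card : ℝ) = ((𝒞.biUnion id).card : ℝ) := by
    rw [hunion _ (hKsub 0), hunion _ (hKsub 1), hunion _ (hKsub 2),
      hunion 𝒞 (Finset.Subset.refl _)]
    have e1 : 𝒞.card = ∑ i : Fin 3, (K i).card := by
      rw [Finset.card_eq_sum_card_fiberwise (f := c) (t := Finset.univ)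
        (fun C _ => Finset.mem_coe.2 (Finset.mem_univ _))]
      exact Finset.sum_congr rfl fun i _ => by rw [hKdef i]
    rw [Fin.sum_univ_three] at e1
    rw [e1]
    push_cast
    ring
  by_cases hheavy : ∃ i, (1 / 3 + δc) * (U.card : ℝ) ≤ (((K i).biUnion id).card : ℝ)
  · -- a heavy class
    obtain ⟨i, hi⟩ := hheavy
    left
    have hKne : (K i).Nonempty := by
      rw [Finset.nonempty_iff_ne_empty]
      intro hK
      rw [hK] at hi
      simp only [Finset.biUnion_empty, Finset.card_empty, Nat.cast_zero] at hi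
      nlinarith only [hi, hδ, hUpos]
    obtain ⟨C₀, hC₀⟩ := hKne
    refine ⟨K i, ((Finset.card_le_card (hKsub i)).trans hcard).trans (by omega),
      fun C hC => hC1 C (hKsub i hC), fun C hC C' hC' hne' =>
      hC2 C (hKsub i hC) C' (hKsub i hC') hne', hi, C₀, C₀, fun _ _ => ∅, fun _ => False, ?_⟩
    have hq : ∀ C : Finset α, ∃ q : ℕ → Finset α, C ∈ K i → q 0 = C₀ ∧
        (∀ n, 𝒞.card ≤ n → q n = C) ∧ (∀ n, q n ∈ 𝒞) ∧
        ∀ n, q n = q (n + 1) ∨ Linked R εl (ρ * (N : ℝ)) (q n) (q (n + 1)) := by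
      intro C
      by_cases hC : C ∈ K i
      · obtain ⟨q, hq⟩ := hcq C₀ (hKsub i hC₀) C (hKsub i hC)
          (((hKmem i C₀).1 hC₀).2.trans ((hKmem i C).1 hC).2.symm)
        exact ⟨q, fun _ => hq⟩
      · exact ⟨fun _ => ∅, fun h => absurd h hC⟩
    choose q hq using hq
    refine ⟨q, fun C hC => ?_, fun h => ?_⟩
    · obtain ⟨a1, a2, a3, a4⟩ := hq C hC
      exact ⟨a1, fun n hn => a2 n (by omega), fun n => hC1 _ (a3 n), fun h => h.elim,
        fun n _ => a4 n⟩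
    · obtain ⟨_, _, h⟩ := h
      exact h.elim
  · push Not at hheavy
    have hwt : ∀ i, (1 / 3 - 3 * δc) * (U.card : ℝ) ≤ (((K i).biUnion id).card : ℝ) := by
      have b0 := hheavy 0
      have b1 := hheavy 1
      have b2 := hheavy 2
      have hδU : 0 < δc * (U.card : ℝ) := mul_pos hδ hUpos
      intro i
      fin_cases i
      · show _ ≤ (((K 0).biUnion id).card : ℝ)
        nlinarith only [hsum, hbig, b1, b2, hδU]
      · show _ ≤ (((K 1).biUnion id).card : ℝ)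
        nlinarith only [hsum, hbig, b0, b2, hδU]
      · show _ ≤ (((K 2).biUnion id).card : ℝ)
        nlinarith only [hsum, hbig, b0, b1, hδU]
    have hKne : ∀ i, (K i).Nonempty := by
      intro i
      rw [Finset.nonempty_iff_ne_empty]
      intro hK
      have := hwt i
      rw [hK] at this
      simp only [Finset.biUnion_empty, Finset.card_empty, Nat.cast_zero] at this
      nlinarith only [this, hδ1, hUpos]
    have hKd : ∀ i, ∀ C ∈ K i, ∀ j, ∀ C' ∈ K j, (C = C' ∧ i = j) ∨ Disjoint C C' := by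
      intro i C hC j C' hC'
      by_cases he : C = C'
      · left
        refine ⟨he, ?_⟩
        rw [← ((hKmem i C).1 hC).2, ← ((hKmem j C').1 hC').2, he]
      · right
        exact hC2 C (hKsub i hC) C' (hKsub j hC') he
    by_cases hmode : ∃ i j, i ≠ j ∧ ∃ C ∈ K i, ∃ C' ∈ K j, ModeP R U εl (ρ * (N : ℝ)) C C'
    · -- two classes joined by modes
      obtain ⟨i, j, hij, C₀, hC₀, C₁, hC₁, M, l, hl, hMU, hM⟩ := hmode
      left
      have hdisK : Disjoint (K i) (K j) := by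
        rw [Finset.disjoint_left]
        intro C hC hC'
        exact hij (((hKmem i C).1 hC).2.symm.trans ((hKmem j C).1 hC').2)
      have hKK : K i ∪ K j ⊆ 𝒞 := Finset.union_subset (hKsub i) (hKsub j)
      refine ⟨K i ∪ K j, ((Finset.card_le_card hKK).trans hcard).trans (by omega),
        fun C hC => hC1 C (hKK hC), fun C hC C' hC' hne' =>
        hC2 C (hKK hC) C' (hKK hC') hne', ?_, C₀, C₁, M, fun C => C ∈ K j, ?_⟩
      · have e1 : (((K i ∪ K j).biUnion id).card : ℝ) =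
            (((K i).biUnion id).card : ℝ) + (((K j).biUnion id).card : ℝ) := by
          rw [hunion _ hKK, hunion _ (hKsub i), hunion _ (hKsub j),
            Finset.card_union_of_disjoint hdisK]
          push_cast
          ring
        rw [e1]
        have b1 := hwt i
        have b2 := hwt j
        nlinarith only [b1, b2, hδ1, hUpos]
      · have hq : ∀ C : Finset α, ∃ q : ℕ → Finset α, C ∈ K i ∪ K j → q 0 = C₀ ∧
            (∀ n, 𝒞.card + 2 ≤ n → q n = C) ∧ (∀ n, q n ∈ 𝒞) ∧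
            (C ∈ K j → q 1 = C₀ ∧ q 2 = C₁) ∧ ∀ n, (C ∈ K j → 2 ≤ n) →
            (q n = q (n + 1) ∨ Linked R εl (ρ * (N : ℝ)) (q n) (q (n + 1))) := by
          intro C
          by_cases hCj : C ∈ K j
          · obtain ⟨q, a1, a2, a3, a4⟩ := hcq C₁ (hKsub j hC₁) C (hKsub j hCj)
              (((hKmem j C₁).1 hC₁).2.trans ((hKmem j C).1 hCj).2.symm)
            refine ⟨fun n => if n ≤ 1 then C₀ else q (n - 2), fun _ => ⟨?_, ?_, ?_, ?_, ?_⟩⟩
            · show (if 0 ≤ 1 then C₀ else q (0 - 2)) = C₀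
              rw [if_pos (by omega)]
            · intro n hn
              show (if n ≤ 1 then C₀ else q (n - 2)) = C
              rw [if_neg (by omega)]
              exact a2 _ (by omega)
            · intro n
              show (if n ≤ 1 then C₀ else q (n - 2)) ∈ 𝒞
              split_ifs with h
              · exact hKsub i hC₀
              · exact a3 _
            · intro _
              refine ⟨?_, ?_⟩
              · show (if 1 ≤ 1 then C₀ else q (1 - 2)) = C₀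
                rw [if_pos (by omega)]
              · show (if 2 ≤ 1 then C₀ else q (2 - 2)) = C₁
                rw [if_neg (by omega)]
                exact a1
            · intro n hn
              have hn2 := hn hCj
              obtain ⟨m, rfl⟩ := Nat.exists_eq_add_of_le hn2
              show (if 2 + m ≤ 1 then C₀ else q (2 + m - 2)) =
                (if 2 + m + 1 ≤ 1 then C₀ else q (2 + m + 1 - 2)) ∨
                Linked R εl (ρ * (N : ℝ)) (if 2 + m ≤ 1 then C₀ else q (2 + m - 2))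
                (if 2 + m + 1 ≤ 1 then C₀ else q (2 + m + 1 - 2))
              rw [if_neg (by omega), if_neg (by omega)]
              have e1 : 2 + m - 2 = m := by omega
              have e2 : 2 + m + 1 - 2 = m + 1 := by omega
              rw [e1, e2]
              exact a4 m
          · by_cases hCi : C ∈ K i
            · obtain ⟨q, a1, a2, a3, a4⟩ := hcq C₀ (hKsub i hC₀) C (hKsub i hCi)
                (((hKmem i C₀).1 hC₀).2.trans ((hKmem i C).1 hCi).2.symm)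
              exact ⟨q, fun _ => ⟨a1, fun n hn => a2 n (by omega), a3,
                fun h => absurd h hCj, fun n _ => a4 n⟩⟩
            · refine ⟨fun _ => ∅, fun h => ?_⟩
              rcases Finset.mem_union.1 h with h | h
              · exact absurd h hCi
              · exact absurd h hCj
        choose q hq using hq
        refine ⟨q, fun C hC => ?_, fun _ => ⟨hMU, l, hl, hM⟩⟩
        obtain ⟨a1, a2, a3, a4, a5⟩ := hq C hC
        exact ⟨a1, fun n hn => a2 n (by omega), fun n => hC1 _ (a3 n), a4, a5⟩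
    · -- the template
      right
      push Not at hmode
      have hnl : ∀ r, ρ ≤ r → ∀ i j, i ≠ j → ∀ C ∈ K i, ∀ C' ∈ K j,
          ¬ Linked R εl (r * (N : ℝ)) C C' ∧ ¬ ModeP R U εl (r * (N : ℝ)) C C' := by
        intro r hr i j hij C hC C' hC'
        have hrN : ρ * (N : ℝ) ≤ r * (N : ℝ) := mul_le_mul_of_nonneg_right hr hNr
        constructor
        · intro hL
          have e1 := hcL C (hKsub i hC) C' (hKsub j hC') (hL.mono hrN)
          rw [((hKmem i C).1 hC).2, ((hKmem j C').1 hC').2] at e1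
          exact hij e1
        · intro hM
          exact hmode i j hij C hC C' hC' (hM.mono (Finset.Subset.refl _) hrN)
      obtain ⟨s, hs, hse⟩ := hc1 R N (hN₀1.trans hNN) U hF K hKne
        (fun i C hC => ⟨hclus εc1 (hεε.trans hεr1) C (hKsub i hC), (hC1 C (hKsub i hC)).1⟩)
        hKd (hnl ρ1 hρr1)
      have hinj : ∀ i j, i ≠ j → 2 * s * i ≠ 2 * s * j := fun i j hij he =>
        hij (Col3_fin2 s i j hs he)
      refine Col3_tmpl R U N (fun i => K (2 * s * i)) (fun i => hKne _)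
        (fun i C hC => ⟨(hC1 C (hKsub _ hC)).1, (hC1 C (hKsub _ hC)).2.1⟩) ?_ δc ε4
        (min ε4 ε5) η' hδ1 (min_le_left _ _) (lt_min hε4 hε5) hη' (fun i => hwt _) ?_ ?_
      · intro i C hC j C' hC'
        rcases hKd _ C hC _ C' hC' with h | h
        · exact Or.inl ⟨h.1, Col3_fin2 s i j hs h.2⟩
        · exact Or.inr h
      · intro i C hC C' hC' D hD
        have hD' : D ∈ K (2 * s * i + s) := by
          rw [← Col3_fin3]
          exact hD
        exact hse _ C hC C' hC' D hD'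
      · intro X hX w hw
        refine hc2 R N (hN₀2.trans hNN) U hF X
          (fun i => ⟨hclus εc2 (hεε.trans hεr2) _ (hKsub _ (hX i)), (hC1 _ (hKsub _ (hX i))).1⟩)
          ?_ ?_ ?_ ?_ w hw
        · intro i j hij
          rcases hKd _ _ (hX i) _ _ (hX j) with h | h
          · exact absurd h.2 (hinj i j hij)
          · exact h
        · intro i j hij
          exact (hnl ρ2 hρr2 _ _ (hinj i j hij) _ (hX i) _ (hX j)).1
        · exact (hnl ρ2 hρr2 _ _ (hinj 0 1 (by decide)) _ (hX 0) _ (hX 1)).2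
        · intro i
          have hD' : X (i + 2) ∈ K (2 * s * i + s) := by
            rw [← Col3_fin3]
            exact hX (i + 2)
          refine (hse _ _ (hX i) _ (hX i) _ hD').trans ?_
          exact mul_le_mul_of_nonneg_right (min_le_right _ _) (by positivity)

end Pool.MP7783b9
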