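import Pool.Agent.H.MP_7783b9_co.W.UpperW

/-!
# The cut of the hypergraph, away from a set of exceptional vertices
-/

set_option autoImplicit false

open Finset

namespace Pool.MP7783b9

private def CutX_B {V : Type*} [DecidableEq V] (E : Finset (Finset V)) (S : Finset V) :
    ℕ → Finset V
  | 0 => S
  | j + 1 => (CutX_B E S j).biUnion (nbc E)

private theorem CutX_self {V : Type*} [DecidableEq V] (E : Finset (Finset V)) (x : V) :
    x ∈ nbc E x := Finset.mem_insert_self _ _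

private theorem CutX_step {V : Type*} [DecidableEq V] (E : Finset (Finset V)) (S : Finset V)
    {j : ℕ} {x y : V} (hx : x ∈ CutX_B E S j) (hy : y ∈ nbc E x) : y ∈ CutX_B E S (j + 1) := by
  rw [CutX_B, Finset.mem_biUnion]
  exact ⟨x, hx, hy⟩

private theorem CutX_mono {V : Type*} [DecidableEq V] (E : Finset (Finset V)) (S : Finset V)
    {i j : ℕ} (h : i ≤ j) : CutX_B E S i ⊆ CutX_B E S j := by
  induction j, h using Nat.le_induction with
  | base => exact Finset.Subset.refl _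
  | succ j _ ih => exact fun x hx => CutX_step E S (ih hx) (CutX_self E x)

private theorem CutX_card {V : Type*} [DecidableEq V] {T : Finset V} {E : Finset (Finset V)}
    {Δ : ℕ} (hH : Hyp T E Δ) (S : Finset V) (j : ℕ) :
    (CutX_B E S j).card ≤ S.card * (2 * Δ + 1) ^ j := by
  induction j with
  | zero => rw [pow_zero, mul_one, CutX_B]
  | succ j ih =>
    rw [CutX_B]
    calc _ ≤ (CutX_B E S j).card * (2 * Δ + 1) :=
          Finset.card_biUnion_le_card_mul _ _ _ fun y _ => nbc_card hH y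
      _ ≤ S.card * (2 * Δ + 1) ^ j * (2 * Δ + 1) := Nat.mul_le_mul_right _ ih
      _ = S.card * (2 * Δ + 1) ^ (j + 1) := by rw [pow_succ, mul_assoc]

private theorem CutX_lip {V : Type*} [DecidableEq V] (E : Finset (Finset V)) (S : Finset V)
    (g : V → ℕ) (m : ℕ) (hg : ∀ f ∈ E, ∀ x ∈ f, ∀ y ∈ f, g y ≤ g x + 1)
    (hm : ∀ x ∈ S, m ≤ g x) (j : ℕ) : ∀ x ∈ CutX_B E S j, m ≤ g x + j := by
  induction j with
  | zero =>
    intro x hx
    rw [CutX_B] at hx
    exact hm x hx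
  | succ j ih =>
    intro x hx
    rw [CutX_B, Finset.mem_biUnion] at hx
    obtain ⟨y, hy, hxy⟩ := hx
    have h1 := ih y hy
    rcases (Far_mem_nbc E y x).1 hxy with h2 | ⟨f, hf, hyf, hxf⟩
    · rw [h2]
      omega
    · have h3 := hg f hf x hxf y hyf
      omega

/-- the distance from the set `S`, cut off at `D` -/
theorem levels_x {V : Type*} [Fintype V] [DecidableEq V] (E : Finset (Finset V)) (Δ : ℕ)
    (hH : Hyp Finset.univ E Δ) (S : Finset V) (D : ℕ) :
    ∃ d : V → ℕ, (∀ x, d x ≤ D) ∧ (∀ x, 0 < D → (d x = 0 ↔ x ∈ S)) ∧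
      (∀ f ∈ E, ∀ x ∈ f, ∀ y ∈ f, d y ≤ d x + 1) ∧
      (Finset.univ.filter fun x => d x < D).card ≤ S.card * (2 * Δ + 1) ^ D ∧
      ∀ (g : V → ℕ) (m : ℕ), (∀ f ∈ E, ∀ x ∈ f, ∀ y ∈ f, g y ≤ g x + 1) →
        (∀ x ∈ S, m ≤ g x) → ∀ x, d x < D → m ≤ g x + d x := by
  classical
  obtain ⟨d, hd1, hd2, hd3⟩ : ∃ d : V → ℕ, (∀ x, d x ≤ D) ∧
      (∀ x j, x ∈ CutX_B E S j → d x ≤ j) ∧ ∀ x, d x < D → x ∈ CutX_B E S (d x) := by
    refine ⟨fun x => if h : ∃ j, j < D ∧ x ∈ CutX_B E S j then Nat.find h else D,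
      fun x => ?_, fun x j hj => ?_, fun x hx => ?_⟩
    · by_cases h : ∃ j, j < D ∧ x ∈ CutX_B E S j
      · simp only [dif_pos h]
        exact (Nat.find_spec h).1.le
      · simp only [dif_neg h]
        exact le_rfl
    · by_cases h : ∃ j, j < D ∧ x ∈ CutX_B E S j
      · simp only [dif_pos h]
        by_cases hjD : j < D
        · exact Nat.find_min' h ⟨hjD, hj⟩
        · exact (Nat.find_spec h).1.le.trans (not_lt.1 hjD)
      · simp only [dif_neg h]
        by_contra hc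
        exact h ⟨j, not_le.1 hc, hj⟩
    · by_cases h : ∃ j, j < D ∧ x ∈ CutX_B E S j
      · simp only [dif_pos h] at hx ⊢
        exact (Nat.find_spec h).2
      · simp only [dif_neg h] at hx
        exact absurd hx (lt_irrefl _)
  refine ⟨d, hd1, fun x hD => ⟨fun h => ?_, fun h => ?_⟩, fun f hf x hx y hy => ?_, ?_,
    fun g m hg hm x hx => CutX_lip E S g m hg hm _ x (hd3 x hx)⟩
  · have h1 := hd3 x (by omega)
    rwa [h] at h1
  · exact Nat.le_zero.1 (hd2 x 0 h)
  · by_cases h : d x < D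
    · refine hd2 y _ (CutX_step E S (hd3 x h) ?_)
      exact (Far_mem_nbc E x y).2 (Or.inr ⟨f, hf, hx, hy⟩)
    · have := hd1 y
      omega
  · refine le_trans (Finset.card_le_card ?_) (CutX_card hH S D)
    intro x hx
    rw [Finset.mem_filter] at hx
    exact CutX_mono E S (hd1 x) (hd3 x hx.2)

/-- the two cuts of the hypergraph; the edges which meet `Ss` are far from the second one -/
theorem cut_x {V : Type*} [Fintype V] [DecidableEq V] (E : Finset (Finset V)) (Δ : ℕ)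
    (hH : Hyp Finset.univ E Δ) (K : ℕ → ℕ) (hK : Hyperfinite E K) (I Ss : Finset V) (D : ℕ)
    (hD : 0 < D) (k₁ k₂ : ℕ) (hk₁ : 0 < k₁) (hk₂ : 0 < k₂) (A : ℕ)
    (hA : Ss.card * (2 * Δ + 1) ^ (D + 3) ≤ A)
    (hnum : ∀ σ, k₂ * σ ≤ Fintype.card V →
      k₁ * ((σ + A) * (2 * Δ + 1) ^ D) ≤ Fintype.card V) :
    ∃ (d c₁ c₂ : V → ℕ) (S₁ : Finset V), (∀ x, d x ≤ D) ∧
      (∀ f ∈ E, ∀ x ∈ f, ∀ y ∈ f, d y ≤ d x + 1) ∧
      (∀ f ∈ E, ∀ x ∈ f, ∀ y ∈ f, x ∉ S₁ → y ∉ S₁ → c₁ x = c₁ y) ∧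
      (∀ i, (Finset.univ.filter fun x => x ∉ S₁ ∧ c₁ x = i).card ≤ K k₁) ∧
      (∀ f ∈ E, ∀ x ∈ f, ∀ y ∈ f, 0 < d x → 0 < d y → c₂ x = c₂ y) ∧
      (∀ i, (Finset.univ.filter fun x => 0 < d x ∧ c₂ x = i).card ≤ K k₂ + A) ∧
      (∀ f ∈ E, ¬ Disjoint f Ss → ∀ x ∈ f, d x = D) ∧
      (∃ σ, k₂ * σ ≤ Fintype.card V ∧
        (Finset.univ.filter fun x => d x < D).card ≤ (σ + A) * (2 * Δ + 1) ^ D) ∧
      ∃ I' ⊆ I, k₁ * I.card ≤ k₁ * I'.card + 2 * (2 * Δ + 1) * Fintype.card V ∧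
        ∀ x ∈ I', x ∉ S₁ ∧ d x = D ∧ ∀ f ∈ E, x ∈ f → ∀ y ∈ f, y ∉ S₁ ∧ d y = D := by
  classical
  obtain ⟨g, hg1, hg2, hg3, hg4, -⟩ := levels_x E Δ hH Ss (D + 3)
  obtain ⟨S₁, c₁, hS₁, hc₁, hc₁E⟩ := hK k₁ hk₁
  obtain ⟨S₂, c, hS₂, hc, hcE⟩ := hK k₂ hk₂
  have hgA : (univ.filter fun x => g x < D + 3).card ≤ A := hg4.trans hA
  obtain ⟨S', hS'⟩ : ∃ S' : Finset V, S' = (S₂.filter fun x => g x = D + 3) ∪
      univ.filter fun x => g x = D + 2 := ⟨_, rfl⟩
  have hmem : ∀ x, x ∈ S' ↔ (x ∈ S₂ ∧ g x = D + 3) ∨ g x = D + 2 := by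
    intro x
    rw [hS', mem_union, mem_filter, mem_filter]
    simp
  have hS'c : S'.card ≤ S₂.card + A := by
    rw [hS']
    refine (card_union_le _ _).trans (add_le_add (card_le_card (filter_subset _ _)) ?_)
    refine le_trans (card_le_card ?_) hgA
    intro x hx
    have h := (mem_filter.1 hx).2
    exact mem_filter.2 ⟨mem_univ _, by omega⟩
  obtain ⟨d, hd1, hd2, hd3, hd4, hd5⟩ := levels_x E Δ hH S' D
  have hdS : ∀ x, 0 < d x → x ∉ S' := by
    intro x hx hxS
    have := (hd2 x hD).2 hxS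
    omega
  have hd6 : (univ.filter fun x => d x < D).card ≤ (S₂.card + A) * (2 * Δ + 1) ^ D :=
    hd4.trans (Nat.mul_le_mul_right _ hS'c)
  refine ⟨d, c₁, fun x => if g x < D + 2 then 0 else c x + 1, S₁, hd1, hd3, hc₁E, hc₁, ?_, ?_, ?_,
    ⟨S₂.card, hS₂, hd6⟩, ?_⟩
  · intro f hf x hx y hy hdx hdy
    have h1 := hdS x hdx
    have h2 := hdS y hdy
    rw [hmem, not_or] at h1 h2
    have h3 := hg3 f hf x hx y hy
    have h4 := hg3 f hf y hy x hx
    have h5 := hg1 x
    have h6 := hg1 y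
    by_cases h7 : g x < D + 2
    · have h8 : g y < D + 2 := by omega
      simp only [h7, h8, if_true]
    · have h8 : ¬ g y < D + 2 := by omega
      have h9 : x ∉ S₂ := fun h => h1.1 ⟨h, by omega⟩
      have h10 : y ∉ S₂ := fun h => h2.1 ⟨h, by omega⟩
      simp only [h7, h8, if_false]
      rw [hcE f hf x hx y hy h9 h10]
  · intro i
    rcases i with _ | i
    · refine le_trans (card_le_card ?_) (hgA.trans (Nat.le_add_left _ _))
      intro x hx
      obtain ⟨-, -, h2⟩ := mem_filter.1 hx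
      refine mem_filter.2 ⟨mem_univ _, ?_⟩
      by_contra h3
      have h4 : ¬ g x < D + 2 := by omega
      simp only [h4, if_false] at h2
      omega
    · refine le_trans (card_le_card ?_) ((hc i).trans (Nat.le_add_right _ _))
      intro x hx
      obtain ⟨-, h1, h2⟩ := mem_filter.1 hx
      have h3 := hdS x h1
      rw [hmem, not_or] at h3
      have h5 := hg1 x
      refine mem_filter.2 ⟨mem_univ _, ?_⟩
      by_cases h4 : g x < D + 2
      · simp only [h4, if_true] at h2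
        omega
      · simp only [h4, if_false] at h2
        exact ⟨fun h => h3.1 ⟨h, by omega⟩, by omega⟩
  · intro f hf hfS x hx
    obtain ⟨s, hsf, hsS⟩ := Finset.not_disjoint_iff.1 hfS
    have h1 : g s = 0 := (hg2 s (by omega)).2 hsS
    have h2 := hg3 f hf s hsf x hx
    have h3 := hd1 x
    by_contra h4
    have h5 := hd5 g (D + 2) hg3 (fun y hy => by
      rcases (hmem y).1 hy with h | h
      · omega
      · omega) x (by omega)
    omega
  · obtain ⟨S, hS⟩ : ∃ S : Finset V, S = S₁ ∪ univ.filter fun x => d x < D := ⟨_, rfl⟩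
    have hSc : k₁ * S.card ≤ 2 * Fintype.card V := by
      have h1 : S.card ≤ S₁.card + (S₂.card + A) * (2 * Δ + 1) ^ D := by
        rw [hS]
        exact (card_union_le _ _).trans (Nat.add_le_add_left hd6 _)
      have h2 := Nat.mul_le_mul_left k₁ h1
      have h3 := hnum S₂.card hS₂
      rw [mul_add] at h2
      omega
    have hN : (S.biUnion (nbc E)).card ≤ S.card * (2 * Δ + 1) :=
      card_biUnion_le_card_mul _ _ _ fun x _ => nbc_card hH x
    refine ⟨I \ S.biUnion (nbc E), sdiff_subset, ?_, ?_⟩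
    · have h1 : I.card ≤ (I \ S.biUnion (nbc E)).card + S.card * (2 * Δ + 1) := by
        have h2 := card_le_card (show I ⊆ (I \ S.biUnion (nbc E)) ∪ S.biUnion (nbc E) by
          rw [sdiff_union_self_eq_union]
          exact subset_union_left)
        have h3 := card_union_le (I \ S.biUnion (nbc E)) (S.biUnion (nbc E))
        omega
      calc k₁ * I.card ≤ k₁ * ((I \ S.biUnion (nbc E)).card + S.card * (2 * Δ + 1)) :=
            Nat.mul_le_mul_left _ h1
        _ = k₁ * (I \ S.biUnion (nbc E)).card + (2 * Δ + 1) * (k₁ * S.card) := by ring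
        _ ≤ k₁ * (I \ S.biUnion (nbc E)).card + (2 * Δ + 1) * (2 * Fintype.card V) :=
            Nat.add_le_add_left (Nat.mul_le_mul_left _ hSc) _
        _ = _ := by ring
    · intro x hx
      have hx2 := (mem_sdiff.1 hx).2
      have key : ∀ y, y ∈ nbc E x → y ∉ S₁ ∧ d y = D := by
        intro y hy
        have h1 : y ∉ S := fun hyS => hx2 (mem_biUnion.2 ⟨y, hyS, (mem_nbc_symm E x y).1 hy⟩)
        rw [hS, mem_union, not_or, mem_filter] at h1
        refine ⟨h1.1, ?_⟩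
        have h2 := hd1 y
        have h3 : ¬ d y < D := fun h => h1.2 ⟨mem_univ _, h⟩
        omega
      have hxx := key x ((Far_mem_nbc E x x).2 (Or.inl rfl))
      exact ⟨hxx.1, hxx.2,
        fun f hf hxf y hyf => key y ((Far_mem_nbc E x y).2 (Or.inr ⟨f, hf, hxf, hyf⟩))⟩

end Pool.MP7783b9
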