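import Pool.Agent.H.MP_7783b9_co.W.UpperW

/-!
# Tight cycles
-/

set_option autoImplicit false

open Finset

namespace Pool.MP7783b9

/-- the tight cycle on the points `0, ..., n - 1`: its edges are the triples of three cyclically
consecutive points -/
def tightCycle (n : ℕ) : Finset (Finset (Fin n)) :=
  Finset.univ.image fun i : Fin n =>
    Finset.univ.filter fun j : Fin n =>
      (j : ℕ) = (i : ℕ) ∨ (j : ℕ) = ((i : ℕ) + 1) % n ∨ (j : ℕ) = ((i : ℕ) + 2) % n

/-- the bound for the pieces -/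
def cycK (k : ℕ) : ℕ := 4 * k

/-- the edge which starts at `i` -/
def Cyc_e (n : ℕ) (i : Fin n) : Finset (Fin n) :=
  Finset.univ.filter fun j : Fin n =>
    (j : ℕ) = (i : ℕ) ∨ (j : ℕ) = ((i : ℕ) + 1) % n ∨ (j : ℕ) = ((i : ℕ) + 2) % n

theorem Cyc_mem_tight {n : ℕ} {f : Finset (Fin n)} :
    f ∈ tightCycle n ↔ ∃ i : Fin n, Cyc_e n i = f := by
  unfold tightCycle Cyc_e
  simp only [Finset.mem_image, Finset.mem_univ, true_and]

theorem Cyc_mod {n i t : ℕ} (ht : t ≤ n) (hi : i < n) :
    (i + t) % n = if i + t < n then i + t else i + t - n := by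
  split_ifs with h
  · exact Nat.mod_eq_of_lt h
  · rw [Nat.mod_eq_sub_mod (by omega)]
    exact Nat.mod_eq_of_lt (by omega)

theorem Cyc_mem {n : ℕ} (hn : 2 ≤ n) (i j : Fin n) :
    j ∈ Cyc_e n i ↔ (j : ℕ) = i ∨ (j : ℕ) = i + 1 ∨ (j : ℕ) + n = i + 1 ∨ (j : ℕ) = i + 2 ∨
      (j : ℕ) + n = i + 2 := by
  unfold Cyc_e
  rw [Finset.mem_filter, Cyc_mod (by omega) i.2, Cyc_mod hn i.2]
  have h1 := i.2
  have h2 := j.2
  simp only [Finset.mem_univ, true_and]
  split_ifs <;> omega

theorem cyc_three (n : ℕ) (hn : 3 ≤ n) : ∀ f ∈ tightCycle n, f.card = 3 := by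
  intro f hf
  obtain ⟨i, rfl⟩ := Cyc_mem_tight.1 hf
  have h1 := i.2
  rw [Finset.card_eq_three]
  refine ⟨i, ⟨if (i : ℕ) + 1 < n then (i : ℕ) + 1 else (i : ℕ) + 1 - n, by split_ifs <;> omega⟩,
    ⟨if (i : ℕ) + 2 < n then (i : ℕ) + 2 else (i : ℕ) + 2 - n, by split_ifs <;> omega⟩,
    ?_, ?_, ?_, ?_⟩
  · intro h
    have := congrArg Fin.val h
    simp only at this
    split_ifs at this <;> omega
  · intro h
    have := congrArg Fin.val h
    simp only at this
    split_ifs at this <;> omega
  · intro h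
    have := congrArg Fin.val h
    simp only at this
    split_ifs at this <;> omega
  · ext j
    rw [Cyc_mem (by omega)]
    simp only [Finset.mem_insert, Finset.mem_singleton, Fin.ext_iff]
    have h2 := j.2
    split_ifs <;> omega

theorem Cyc_start {n : ℕ} (x : Fin n) :
    ((Finset.univ : Finset (Fin n)).filter fun i => x ∈ Cyc_e n i).card ≤ 3 := by
  have hx := x.2
  rcases Nat.lt_or_ge n 3 with hn | hn
  · calc ((Finset.univ : Finset (Fin n)).filter fun i => x ∈ Cyc_e n i).card
        ≤ (Finset.univ : Finset (Fin n)).card := Finset.card_filter_le _ _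
      _ = n := by rw [Finset.card_univ, Fintype.card_fin]
      _ ≤ 3 := by omega
  · have hsub : ((Finset.univ : Finset (Fin n)).filter fun i => x ∈ Cyc_e n i) ⊆
        {x, ⟨if 1 ≤ (x : ℕ) then (x : ℕ) - 1 else (x : ℕ) + n - 1, by split_ifs <;> omega⟩,
          ⟨if 2 ≤ (x : ℕ) then (x : ℕ) - 2 else (x : ℕ) + n - 2, by split_ifs <;> omega⟩} := by
      intro i hi
      rw [Finset.mem_filter, Cyc_mem (by omega)] at hi
      have hi2 := i.2
      simp only [Finset.mem_insert, Finset.mem_singleton, Fin.ext_iff]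
      have h3 := hi.2
      split_ifs <;> omega
    exact (Finset.card_le_card hsub).trans Finset.card_le_three

theorem cyc_deg (n : ℕ) (x : Fin n) : (edgesAt (tightCycle n) x).card ≤ 3 := by
  have hsub : edgesAt (tightCycle n) x ⊆
      ((Finset.univ : Finset (Fin n)).filter fun i => x ∈ Cyc_e n i).image (Cyc_e n) := by
    intro f hf
    rw [edgesAt, Finset.mem_filter] at hf
    obtain ⟨i, rfl⟩ := Cyc_mem_tight.1 hf.1
    exact Finset.mem_image_of_mem _ (Finset.mem_filter.2 ⟨Finset.mem_univ _, hf.2⟩)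
  exact (Finset.card_le_card hsub).trans (Finset.card_image_le.trans (Cyc_start x))

theorem cyc_hf (n : ℕ) : Hyperfinite (tightCycle n) cycK := by
  intro k hk
  rcases Nat.lt_or_ge n (4 * k) with hn | hn
  · refine ⟨∅, fun _ => 0, ?_, ?_, ?_⟩
    · simp
    · intro i
      refine (Finset.card_filter_le _ _).trans ?_
      rw [Finset.card_univ, Fintype.card_fin]
      exact hn.le
    · intro f hf x hx y hy _ _
      rfl
  · have hL : 4 ≤ 4 * k := by omega
    set L := 4 * k with hLdef
    refine ⟨Finset.univ.filter fun j : Fin n => (j : ℕ) % L = 0 ∨ (j : ℕ) % L = 1,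
      fun j => (j : ℕ) / L, ?_, ?_, ?_⟩
    · have h1 : (Finset.univ.filter fun j : Fin n => (j : ℕ) % L = 0 ∨ (j : ℕ) % L = 1).card ≤
          2 * (n / L + 1) := by
        have h2 : ((Finset.univ.filter fun j : Fin n =>
            (j : ℕ) % L = 0 ∨ (j : ℕ) % L = 1).image Fin.val) ⊆
            ((Finset.range (n / L + 1)) ×ˢ (Finset.range 2)).image
              (fun p : ℕ × ℕ => L * p.1 + p.2) := by
          intro a ha
          rw [Finset.mem_image] at ha
          obtain ⟨j, hj, rfl⟩ := ha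
          rw [Finset.mem_filter] at hj
          rw [Finset.mem_image]
          refine ⟨((j : ℕ) / L, (j : ℕ) % L), ?_, Nat.div_add_mod _ _⟩
          rw [Finset.mem_product, Finset.mem_range, Finset.mem_range]
          refine ⟨Nat.lt_succ_of_le (Nat.div_le_div_right j.2.le), ?_⟩
          have := hj.2
          simp only
          omega
        have h3 := Finset.card_le_card h2
        rw [Finset.card_image_of_injective _ Fin.val_injective] at h3
        refine h3.trans (Finset.card_image_le.trans ?_)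
        rw [Finset.card_product, Finset.card_range, Finset.card_range, Nat.mul_comm]
      rw [Fintype.card_fin]
      have h4 : L * (n / L) ≤ n := Nat.mul_div_le n L
      have h5 : k * (Finset.univ.filter fun j : Fin n =>
          (j : ℕ) % L = 0 ∨ (j : ℕ) % L = 1).card ≤ k * (2 * (n / L + 1)) :=
        Nat.mul_le_mul_left _ h1
      have h6 : 2 * (k * (2 * (n / L + 1))) = L * (n / L) + L := by
        rw [hLdef]; ring
      omega
    · intro i
      have h2 : ((Finset.univ.filter fun x : Fin n =>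
          x ∉ (Finset.univ.filter fun j : Fin n => (j : ℕ) % L = 0 ∨ (j : ℕ) % L = 1) ∧
            (x : ℕ) / L = i).image Fin.val) ⊆ Finset.Ico (i * L) (i * L + L) := by
        intro a ha
        rw [Finset.mem_image] at ha
        obtain ⟨j, hj, rfl⟩ := ha
        rw [Finset.mem_filter] at hj
        rw [Finset.mem_Ico]
        have h3 := Nat.div_add_mod (j : ℕ) L
        have h4 := Nat.mod_lt (j : ℕ) (show 0 < L by omega)
        rw [hj.2.2] at h3
        have h5 : L * i = i * L := Nat.mul_comm _ _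
        omega
      have h3 := Finset.card_le_card h2
      rw [Finset.card_image_of_injective _ Fin.val_injective, Nat.card_Ico] at h3
      refine h3.trans ?_
      unfold cycK
      omega
    · intro f hf x hx y hy hxS hyS
      obtain ⟨i, rfl⟩ := Cyc_mem_tight.1 hf
      have hn3 : 2 ≤ n := by omega
      rw [Cyc_mem hn3] at hx hy
      rw [Finset.mem_filter] at hxS hyS
      have hxS' : 2 ≤ (x : ℕ) % L := by
        by_contra h
        apply hxS
        refine ⟨Finset.mem_univ _, ?_⟩
        omega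
      have hyS' : 2 ≤ (y : ℕ) % L := by
        by_contra h
        apply hyS
        refine ⟨Finset.mem_univ _, ?_⟩
        omega
      have hx2 : 2 ≤ (x : ℕ) := hxS'.trans (Nat.mod_le _ _)
      have hy2 : 2 ≤ (y : ℕ) := hyS'.trans (Nat.mod_le _ _)
      have hi := i.2
      have key : ∀ a b : ℕ, 2 ≤ a % L → 2 ≤ b % L → a ≤ b → b ≤ a + 2 → a / L = b / L := by
        intro a b ha hb hab hba
        have h3 := Nat.div_add_mod b L
        have h4 := Nat.mod_lt b (show 0 < L by omega)
        apply Nat.div_eq_of_lt_le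
        · rw [Nat.mul_comm]; omega
        · rw [Nat.add_mul, Nat.mul_comm, Nat.one_mul]; omega
      show (x : ℕ) / L = (y : ℕ) / L
      rcases Nat.le_total (x : ℕ) (y : ℕ) with h | h
      · exact key _ _ hxS' hyS' h (by omega)
      · exact (key _ _ hyS' hxS' h (by omega)).symm

theorem Cyc_step {n : ℕ} (hn : 3 ≤ n) (m : ℕ) (hm : m + 1 < n) :
    2 ≤ (Cyc_e n ⟨m, by omega⟩ ∩ Cyc_e n ⟨m + 1, hm⟩).card := by
  have hsub : ({⟨m + 1, hm⟩, ⟨if m + 2 < n then m + 2 else 0, by split_ifs <;> omega⟩} :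
      Finset (Fin n)) ⊆ Cyc_e n ⟨m, by omega⟩ ∩ Cyc_e n ⟨m + 1, hm⟩ := by
    intro j hj
    simp only [Finset.mem_insert, Finset.mem_singleton, Fin.ext_iff] at hj
    rw [Finset.mem_inter, Cyc_mem (by omega), Cyc_mem (by omega)]
    simp only
    split_ifs at hj <;> omega
  have h2 : ({⟨m + 1, hm⟩, ⟨if m + 2 < n then m + 2 else 0, by split_ifs <;> omega⟩} :
      Finset (Fin n)).card = 2 := by
    apply Finset.card_pair
    intro h
    have := congrArg Fin.val h
    simp only at this
    split_ifs at this <;> omega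
  rw [← h2]
  exact Finset.card_le_card hsub

theorem cyc_tight (n : ℕ) (hn : 3 ≤ n) : TightConn (tightCycle n) := by
  refine ⟨fun v => ⟨Cyc_e n v, Cyc_mem_tight.2 ⟨v, rfl⟩, (Cyc_mem (by omega) v v).2 (Or.inl rfl)⟩,
    ?_⟩
  have hsym : ∀ a b : Finset (Fin n), Relation.ReflTransGen (fun a b : Finset (Fin n) =>
      a ∈ tightCycle n ∧ b ∈ tightCycle n ∧ 2 ≤ (a ∩ b).card) a b →
      Relation.ReflTransGen (fun a b : Finset (Fin n) =>
      a ∈ tightCycle n ∧ b ∈ tightCycle n ∧ 2 ≤ (a ∩ b).card) b a := by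
    intro a b h
    induction h with
    | refl => exact Relation.ReflTransGen.refl
    | tail _ h2 ih =>
      refine Relation.ReflTransGen.head ⟨h2.2.1, h2.1, ?_⟩ ih
      rw [Finset.inter_comm]
      exact h2.2.2
  have h0 : ∀ m : ℕ, ∀ hm : m < n, Relation.ReflTransGen (fun a b : Finset (Fin n) =>
      a ∈ tightCycle n ∧ b ∈ tightCycle n ∧ 2 ≤ (a ∩ b).card) (Cyc_e n ⟨0, by omega⟩)
        (Cyc_e n ⟨m, hm⟩) := by
    intro m
    induction m with
    | zero => intro hm; exact Relation.ReflTransGen.refl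
    | succ m ih =>
      intro hm
      refine (ih (by omega)).tail ?_
      exact ⟨Cyc_mem_tight.2 ⟨_, rfl⟩, Cyc_mem_tight.2 ⟨_, rfl⟩, Cyc_step hn m hm⟩
  intro e he e' he'
  obtain ⟨i, rfl⟩ := Cyc_mem_tight.1 he
  obtain ⟨i', rfl⟩ := Cyc_mem_tight.1 he'
  exact (hsym _ _ (h0 i i.2)).trans (h0 i' i'.2)

/-- the colouring of the vertices: the last one or two vertices get the colour `1` if `n` is not
divisible by three -/
def cycCol (n : ℕ) (j : Fin n) : Fin 3 :=
  if (j : ℕ) < 3 * (n / 3) then ⟨(j : ℕ) % 3, Nat.mod_lt _ (by norm_num)⟩ else 1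

theorem Cyc_col_zero {n : ℕ} (j : Fin n) :
    cycCol n j = 0 ↔ (j : ℕ) < 3 * (n / 3) ∧ (j : ℕ) % 3 = 0 := by
  unfold cycCol
  split_ifs with h
  · simp only [Fin.ext_iff, h, true_and]
    rfl
  · simp [h]

theorem cyc_col (n : ℕ) (hn : 3 ≤ n) :
    (Finset.univ.filter fun j : Fin n => 3 * (n / 3) ≤ (j : ℕ)).card ≤ 2 ∧
    (∀ f ∈ tightCycle n, Disjoint f (Finset.univ.filter fun j : Fin n => 3 * (n / 3) ≤ (j : ℕ)) →
      ∀ x ∈ f, ∀ y ∈ f, x ≠ y → cycCol n x ≠ cycCol n y) ∧
    StrongIndep (tightCycle n) (Finset.univ.filter fun j : Fin n => cycCol n j = 0) ∧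
    (Finset.univ.filter fun j : Fin n => cycCol n j = 0).card = n / 3 := by
  refine ⟨?_, ?_, ?_, ?_⟩
  · have h2 : ((Finset.univ.filter fun j : Fin n => 3 * (n / 3) ≤ (j : ℕ)).image Fin.val) ⊆
        Finset.Ico (3 * (n / 3)) n := by
      intro a ha
      rw [Finset.mem_image] at ha
      obtain ⟨j, hj, rfl⟩ := ha
      rw [Finset.mem_filter] at hj
      rw [Finset.mem_Ico]
      exact ⟨hj.2, j.2⟩
    have h3 := Finset.card_le_card h2
    rw [Finset.card_image_of_injective _ Fin.val_injective, Nat.card_Ico] at h3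
    omega
  · intro f hf hd x hx y hy hxy
    obtain ⟨i, rfl⟩ := Cyc_mem_tight.1 hf
    have hall : ∀ z ∈ Cyc_e n i, (z : ℕ) < 3 * (n / 3) := by
      intro z hz
      by_contra h
      exact Finset.disjoint_left.1 hd hz (Finset.mem_filter.2 ⟨Finset.mem_univ _, by omega⟩)
    have hi := i.2
    have a0 : (i : ℕ) < 3 * (n / 3) := hall i ((Cyc_mem (by omega) i i).2 (Or.inl rfl))
    have a1 : (i : ℕ) + 1 < n → (i : ℕ) + 1 < 3 * (n / 3) := by
      intro h
      exact hall ⟨(i : ℕ) + 1, h⟩ ((Cyc_mem (by omega) i _).2 (by simp))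
    have hx' := hall x hx
    have hy' := hall y hy
    rw [Cyc_mem (by omega)] at hx hy
    have hne : (x : ℕ) ≠ (y : ℕ) := fun h => hxy (Fin.ext h)
    unfold cycCol
    rw [if_pos hx', if_pos hy']
    intro h
    have h3 := congrArg Fin.val h
    simp only at h3
    omega
  · intro e he
    obtain ⟨i, rfl⟩ := Cyc_mem_tight.1 he
    rw [Finset.card_le_one]
    intro x hx y hy
    rw [Finset.mem_inter, Finset.mem_filter, Cyc_mem (by omega), Cyc_col_zero] at hx hy
    have hi := i.2
    have hx1 := x.2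
    have hy1 := y.2
    apply Fin.ext
    omega
  · have h2 : ((Finset.univ.filter fun j : Fin n => cycCol n j = 0).image Fin.val) =
        (Finset.range (n / 3)).image (fun q => 3 * q) := by
      ext a
      rw [Finset.mem_image, Finset.mem_image]
      constructor
      · rintro ⟨j, hj, rfl⟩
        rw [Finset.mem_filter, Cyc_col_zero] at hj
        exact ⟨(j : ℕ) / 3, Finset.mem_range.2 (by omega), by omega⟩
      · rintro ⟨q, hq, rfl⟩
        rw [Finset.mem_range] at hq
        refine ⟨⟨3 * q, by omega⟩, ?_, rfl⟩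
        rw [Finset.mem_filter, Cyc_col_zero]
        simp only
        refine ⟨Finset.mem_univ _, ?_, ?_⟩ <;> omega
    have h3 := congrArg Finset.card h2
    rw [Finset.card_image_of_injective _ Fin.val_injective,
      Finset.card_image_of_injective _ (fun a b h => by simpa using h), Finset.card_range] at h3
    exact h3

theorem cyc_max (n : ℕ) (hn : 3 ≤ n) (J : Finset (Fin n)) (hJ : StrongIndep (tightCycle n) J) :
    J.card ≤ n / 3 := by
  have hb : ∀ p : Fin n × ℕ, (if p.2 ≤ (p.1 : ℕ) then (p.1 : ℕ) - p.2 else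
      ((p.1 : ℕ) + n - p.2) % n) < n := by
    intro p
    have := p.1.2
    split_ifs
    · omega
    · exact Nat.mod_lt _ (by omega)
  have hinj : Set.InjOn (fun p : Fin n × ℕ => (⟨_, hb p⟩ : Fin n))
      (((J ×ˢ Finset.range 3 : Finset (Fin n × ℕ))) : Set (Fin n × ℕ)) := by
    rintro ⟨j, t⟩ h ⟨j', t'⟩ h' heq
    rw [Finset.mem_coe, Finset.mem_product, Finset.mem_range] at h h'
    simp only at h h' heq
    have hj1 := j.2
    have hj1' := j'.2
    have e0 : ∀ (j : Fin n) (t : ℕ), t < 3 → (if t ≤ (j : ℕ) then (j : ℕ) - t else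
        ((j : ℕ) + n - t) % n) = if t ≤ (j : ℕ) then (j : ℕ) - t else ((j : ℕ) + n - t) := by
      intro j t ht
      split_ifs with h1
      · rfl
      · exact Nat.mod_eq_of_lt (by omega)
    have heq2 := congrArg Fin.val heq
    simp only at heq2
    rw [e0 j t h.2, e0 j' t' h'.2] at heq2
    set i : Fin n := ⟨if t ≤ (j : ℕ) then (j : ℕ) - t else ((j : ℕ) + n - t), by
      split_ifs <;> omega⟩ with hi
    have m1 : j ∈ Cyc_e n i := by
      rw [Cyc_mem (by omega), hi]
      simp only
      split_ifs <;> omega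
    have m2 : j' ∈ Cyc_e n i := by
      rw [Cyc_mem (by omega), hi]
      simp only
      split_ifs at heq2 ⊢ <;> omega
    have hc := hJ (Cyc_e n i) (Cyc_mem_tight.2 ⟨i, rfl⟩)
    rw [Finset.card_le_one] at hc
    have hjj := hc j (Finset.mem_inter.2 ⟨m1, h.1⟩) j' (Finset.mem_inter.2 ⟨m2, h'.1⟩)
    subst hjj
    have htt : t = t' := by
      have h1 := h.2
      have h2 := h'.2
      split_ifs at heq2 <;> omega
    rw [htt]
  have hc := Finset.card_image_of_injOn hinj
  have hle : ((J ×ˢ Finset.range 3 : Finset (Fin n × ℕ)).image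
      (fun p : Fin n × ℕ => (⟨_, hb p⟩ : Fin n))).card ≤ n := by
    refine (Finset.card_le_univ _).trans ?_
    rw [Fintype.card_fin]
  rw [hc, Finset.card_product, Finset.card_range] at hle
  omega

end Pool.MP7783b9
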