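import Pool.Agent.H.MP_7783b9_co.X.Base

/-!
# The cyclic template: typical points, atypical points and the set of the third part
-/

set_option autoImplicit false

open Finset

namespace Pool.MP7783b9

/-- the pairs of `Y × Z` that are blue with `w` -/
noncomputable def DataC_bl {α : Type} [DecidableEq α] (R : Finset α → Prop) (Y Z : Finset α)
    (w : α) : Finset (α × α) := by
  classical
  exact (Y ×ˢ Z).filter fun p => Blue3 R w p.1 p.2

theorem DataC_mem {α : Type} [DecidableEq α] {R : Finset α → Prop} {Y Z : Finset α} {w : α}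
    {p : α × α} : p ∈ DataC_bl R Y Z w ↔ (p.1 ∈ Y ∧ p.2 ∈ Z) ∧ Blue3 R w p.1 p.2 := by
  classical
  unfold DataC_bl
  rw [Finset.mem_filter, Finset.mem_product]

theorem DataC_sum {α : Type} [DecidableEq α] (R : Finset α → Prop) (X Y Z : Finset α) :
    e3 R X Y Z = ∑ x ∈ X, (DataC_bl R Y Z x).card := by
  classical
  unfold e3 DataC_bl
  rw [Finset.card_filter, Finset.sum_product]
  refine Finset.sum_congr rfl fun x _ => ?_
  rw [Finset.card_filter]

theorem DataC_mono {α : Type} [DecidableEq α] (R : Finset α → Prop) {X Y Z X' Y' Z' : Finset α}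
    (hX : X ⊆ X') (hY : Y ⊆ Y') (hZ : Z ⊆ Z') : e3 R X Y Z ≤ e3 R X' Y' Z' := by
  classical
  unfold e3
  exact Finset.card_le_card (Finset.filter_subset_filter _
    (Finset.product_subset_product hX (Finset.product_subset_product hY hZ)))

/-- few points have large degree -/
theorem DataC_few {α : Type} [DecidableEq α] (R : Finset α → Prop) (X Y Z B : Finset α)
    (hB : B ⊆ X) (c : ℝ) (h : ∀ w ∈ B, c ≤ ((DataC_bl R Y Z w).card : ℝ)) :
    (B.card : ℝ) * c ≤ (e3 R X Y Z : ℝ) := by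
  rw [DataC_sum]
  push_cast
  calc (B.card : ℝ) * c = ∑ _x ∈ B, c := by rw [Finset.sum_const, nsmul_eq_mul]
    _ ≤ ∑ x ∈ B, ((DataC_bl R Y Z x).card : ℝ) := Finset.sum_le_sum h
    _ ≤ ∑ x ∈ X, ((DataC_bl R Y Z x).card : ℝ) :=
        Finset.sum_le_sum_of_subset_of_nonneg hB fun _ _ _ => Nat.cast_nonneg _

/-- the degree condition -/
theorem DataC_deg {α : Type} [DecidableEq α] (R : Finset α → Prop) (T Vm Y Z : Finset α)
    (hT : T ⊆ Y) (hV : Vm ⊆ Z) (w : α) (c : ℝ) (F : Finset α) (hF : F ⊆ T)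
    (h : ∀ w' ∈ F, c ≤ ((cod R Vm w w').card : ℝ)) :
    (F.card : ℝ) * c ≤ ((DataC_bl R Y Z w).card : ℝ) := by
  classical
  have h2 : (F.sigma fun w' => cod R Vm w w').card ≤ (DataC_bl R Y Z w).card := by
    refine Finset.card_le_card_of_injOn (fun p => (p.1, p.2)) ?_ ?_
    · rintro ⟨x, z⟩ hp
      have hp' := Finset.mem_sigma.1 (Finset.mem_coe.1 hp)
      have hz := mem_cod.1 hp'.2
      exact Finset.mem_coe.2 (DataC_mem.2 ⟨⟨hT (hF hp'.1), hV hz.1⟩, hz.2⟩)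
    · rintro ⟨x, z⟩ _ ⟨x', z'⟩ _ hxy
      simp only [Prod.mk.injEq] at hxy
      obtain ⟨rfl, rfl⟩ := hxy
      rfl
  rw [Finset.card_sigma] at h2
  have h3 : ((∑ a ∈ F, (cod R Vm w a).card : ℕ) : ℝ) ≤ ((DataC_bl R Y Z w).card : ℝ) := by
    exact_mod_cast h2
  push_cast at h3
  calc (F.card : ℝ) * c = ∑ _x ∈ F, c := by rw [Finset.sum_const, nsmul_eq_mul]
    _ ≤ ∑ x ∈ F, ((cod R Vm w x).card : ℝ) := Finset.sum_le_sum h
    _ ≤ _ := h3

/-- red pairs that remain -/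
theorem DataC_red {α : Type} [DecidableEq α] (R : Finset α → Prop) (w : α)
    (Y Z A T : Finset α) :
    (redP R w Z Y).card ≤ (redP R w (Z \ A) T).card + A.card * Y.card + Z.card * (Y \ T).card := by
  classical
  have h : redP R w Z Y ⊆ (redP R w (Z \ A) T ∪ A ×ˢ Y) ∪ Z ×ˢ (Y \ T) := by
    intro p hp
    rw [mem_redP] at hp
    rw [Finset.mem_union, Finset.mem_union, mem_redP, Finset.mem_product, Finset.mem_product,
      Finset.mem_sdiff, Finset.mem_sdiff]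
    by_cases h1 : p.1 ∈ A
    · exact Or.inl (Or.inr ⟨h1, hp.1.2⟩)
    · by_cases h2 : p.2 ∈ T
      · exact Or.inl (Or.inl ⟨⟨⟨hp.1.1, h1⟩, h2⟩, hp.2⟩)
      · exact Or.inr ⟨hp.1.1, hp.1.2, h2⟩
  refine (Finset.card_le_card h).trans ((Finset.card_union_le _ _).trans ?_)
  rw [Finset.card_product]
  refine Nat.add_le_add_right ((Finset.card_union_le _ _).trans ?_) _
  rw [Finset.card_product]

theorem DataC_arith {η κ u n a v v' d r r' : ℝ} (hκ : 0 < κ) (hu : 0 < u) (hn : 0 < n)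
    (hnu : n ≤ u) (hη : 0 ≤ η) (h : 2000 * κ ≤ η) (hv : 0 ≤ v) (hd : 0 ≤ d)
    (ha : a ≤ 12 * κ * u) (hvu : v ≤ u) (hvu' : v' ≤ u) (hdu : d ≤ κ * u)
    (hr : η * u ^ 2 ≤ r) (hr' : r ≤ r' + a * v + v' * d) : η / 2 * n ^ 2 ≤ r' := by
  have h0 : 0 < κ * u := mul_pos hκ hu
  have h3 : a * v ≤ 12 * κ * u * u := by
    have e1 : a * v ≤ 12 * κ * u * v := mul_le_mul_of_nonneg_right ha hv
    have e2 : 12 * κ * u * v ≤ 12 * κ * u * u :=
      mul_le_mul_of_nonneg_left hvu (by linarith only [h0])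
    exact e1.trans e2
  have h4 : v' * d ≤ u * (κ * u) := by
    have e1 : v' * d ≤ u * d := mul_le_mul_of_nonneg_right hvu' hd
    have e2 : u * d ≤ u * (κ * u) := mul_le_mul_of_nonneg_left hdu hu.le
    exact e1.trans e2
  have h5 : 2000 * κ * u ^ 2 ≤ η * u ^ 2 := mul_le_mul_of_nonneg_right h (sq_nonneg u)
  have h6 : η / 2 * n ^ 2 ≤ η / 2 * u ^ 2 :=
    mul_le_mul_of_nonneg_left (pow_le_pow_left₀ hn.le hnu 2) (by linarith only [hη])
  have h7 : 0 < κ * u ^ 2 := mul_pos hκ (pow_pos hu 2)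
  have h8 : 12 * κ * u * u = 12 * (κ * u ^ 2) := by ring
  have h9 : u * (κ * u) = κ * u ^ 2 := by ring
  have h10 : 2000 * κ * u ^ 2 = 2000 * (κ * u ^ 2) := by ring
  linarith only [hr, hr', h3, h4, h5, h6, h7, h8, h9, h10]

theorem DataC_fin : ∀ i : Fin 3, i ≠ i + 2 := by decide

theorem data_c (η₂ : ℝ) (hη : 0 < η₂) (hη1 : η₂ ≤ 1) (γ θ ψ τ : ℝ) (hγ : 0 < γ) (hθ : 0 < θ)
    (hψ : 0 < ψ) (hτ : 0 < τ) :
    ∃ ε4 δc : ℝ, 0 < ε4 ∧ ε4 ≤ 1 ∧ 0 < δc ∧ δc ≤ 1 / 100 ∧ ∃ n₀ : ℕ, ∀ {α : Type}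
      [DecidableEq α] (R : Finset α → Prop) (U : Finset α) (n b : ℕ) (_ : n₀ ≤ n)
      (_ : 6 * n ≤ 10 * b) (_ : b ≤ n) (_ : U.card ≤ 3 * n) (_ : n ≤ U.card)
      (_ : 3 * b ≤ U.card + 2)
      (V : Fin 3 → Finset α) (_ : ∀ i, V i ⊆ U) (_ : ∀ i j, i ≠ j → Disjoint (V i) (V j))
      (_ : ∀ i, (1 / 3 - 3 * δc) * (U.card : ℝ) ≤ ((V i).card : ℝ))
      (_ : ∀ i, (e3 R (V i) (V i) (V (i + 2)) : ℝ) ≤ ε4 * (U.card : ℝ) ^ 3)
      (_ : ∀ w ∈ U, ∃ i, η₂ * (U.card : ℝ) ^ 2 ≤ ((redP R w (V (i + 2)) (V i)).card : ℝ)),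
      ∃ T A Vm : Finset α, T ⊆ U ∧ A ⊆ U ∧ Vm ⊆ U ∧ Disjoint T A ∧ Disjoint T Vm ∧
        Disjoint A Vm ∧ T.card + A.card = b ∧ (A.card : ℝ) ≤ γ * n ∧ 9 * b ≤ 10 * Vm.card ∧
        (∀ w ∈ T, ((T.filter fun w' => w ≠ w' ∧ θ * (n : ℝ) ≤ ((cod R Vm w w').card : ℝ)).card : ℝ)
          ≤ ψ * n) ∧
        (e3 R T T Vm : ℝ) ≤ τ * (n : ℝ) ^ 3 ∧
        ∀ w ∈ A, η₂ / 2 * (n : ℝ) ^ 2 ≤ ((redP R w Vm T).card : ℝ) := by
  classical
  set τ0 : ℝ := θ * ψ / 9 with hτ0
  have hτ0p : 0 < τ0 := by positivity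
  set κ : ℝ := min γ (min η₂ 1) / 2000 with hκ
  have hκp : 0 < κ := by
    have : 0 < min γ (min η₂ 1) := lt_min hγ (lt_min hη one_pos)
    positivity
  have hκγ : 2000 * κ ≤ γ := by
    rw [hκ]
    have := min_le_left γ (min η₂ 1)
    linarith only [this]
  have hκη : 2000 * κ ≤ η₂ := by
    rw [hκ]
    have := (min_le_right γ (min η₂ 1)).trans (min_le_left _ _)
    linarith only [this]
  have hκ1 : 2000 * κ ≤ 1 := by
    rw [hκ]
    have := (min_le_right γ (min η₂ 1)).trans (min_le_right _ _)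
    linarith only [this]
  set ε4 : ℝ := min (min 1 (τ / 27)) (τ0 * κ) with hε
  have hεp : 0 < ε4 := lt_min (lt_min one_pos (by positivity)) (by positivity)
  have hε1 : ε4 ≤ 1 := (min_le_left _ _).trans (min_le_left _ _)
  have hετ : 27 * ε4 ≤ τ := by
    have : ε4 ≤ τ / 27 := (min_le_left _ _).trans (min_le_right _ _)
    linarith only [this]
  have hεκ : ε4 ≤ τ0 * κ := min_le_right _ _
  clear_value ε4
  clear_value κ
  have hτ0' : τ0 * 9 = θ * ψ := by
    rw [hτ0]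
    ring
  clear_value τ0
  refine ⟨ε4, κ, hεp, hε1, hκp, by linarith only [hκ1], 24, ?_⟩
  intro α _ R U n b hn h6 hbn hU3 hnU h3b V hVU hVd hVc he3 hred
  set u : ℝ := (U.card : ℝ) with hu
  have hn24 : (24 : ℝ) ≤ n := by exact_mod_cast hn
  have hnu : (n : ℝ) ≤ u := by rw [hu]; exact_mod_cast hnU
  have hu3 : u ≤ 3 * n := by rw [hu]; exact_mod_cast hU3
  have hup : 0 < u := by linarith only [hn24, hnu]
  have hnp : (0 : ℝ) < n := by linarith only [hn24]
  have h6r : 6 * (n : ℝ) ≤ 10 * b := by exact_mod_cast h6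
  have h3br : 3 * (b : ℝ) ≤ u + 2 := by rw [hu]; exact_mod_cast h3b
  -- typical points
  let T0 : Fin 3 → Finset α := fun i =>
    (V i).filter fun w => ((DataC_bl R (V i) (V (i + 2)) w).card : ℝ) ≤ τ0 * u ^ 2
  have hT0V : ∀ i, T0 i ⊆ V i := fun i => Finset.filter_subset _ _
  have hT0d : ∀ i, ∀ w ∈ T0 i, ((DataC_bl R (V i) (V (i + 2)) w).card : ℝ) ≤ τ0 * u ^ 2 :=
    fun i w hw => (Finset.mem_filter.1 hw).2
  have hfew : ∀ i, ((V i \ T0 i).card : ℝ) ≤ κ * u := by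
    intro i
    have h1 := DataC_few R (V i) (V i) (V (i + 2)) (V i \ T0 i) Finset.sdiff_subset (τ0 * u ^ 2)
      (by
        intro w hw
        rw [Finset.mem_sdiff] at hw
        by_contra hc
        exact hw.2 (Finset.mem_filter.2 ⟨hw.1, (not_le.1 hc).le⟩))
    have h2 := h1.trans (he3 i)
    have h3 : ε4 * u ^ 3 ≤ τ0 * κ * u ^ 3 := mul_le_mul_of_nonneg_right hεκ (by positivity)
    have h4 : ((V i \ T0 i).card : ℝ) * (τ0 * u ^ 2) ≤ κ * u * (τ0 * u ^ 2) := by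
      refine (h2.trans h3).trans (le_of_eq ?_)
      ring
    exact le_of_mul_le_mul_right h4 (by positivity)
  have hT0c : ∀ i, (1 / 3 - 4 * κ) * u ≤ ((T0 i).card : ℝ) := by
    intro i
    have h1 := Finset.card_sdiff_add_card_eq_card (hT0V i)
    have h2 : ((V i \ T0 i).card : ℝ) + ((T0 i).card : ℝ) = ((V i).card : ℝ) := by exact_mod_cast h1
    have h3 := hVc i
    have h4 := hfew i
    linarith only [h2, h3, h4]
  have hcl : ∀ w : α, ∃ i : Fin 3, w ∈ U → (w ∈ T0 i ∨ ((∀ j, w ∉ T0 j) ∧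
      η₂ * u ^ 2 ≤ ((redP R w (V (i + 2)) (V i)).card : ℝ))) := by
    intro w
    by_cases hw : w ∈ U
    · by_cases h : ∃ j, w ∈ T0 j
      · obtain ⟨j, hj⟩ := h
        exact ⟨j, fun _ => Or.inl hj⟩
      · obtain ⟨i, hi⟩ := hred w hw
        exact ⟨i, fun _ => Or.inr ⟨fun j hj => h ⟨j, hj⟩, hi⟩⟩
    · exact ⟨0, fun h => absurd h hw⟩
  choose cl hcl using hcl
  have hT0U : ∀ i, T0 i ⊆ U := fun i => (hT0V i).trans (hVU i)
  have hcl0 : ∀ i, ∀ w ∈ T0 i, cl w = i := by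
    intro i w hw
    rcases hcl w (hT0U i hw) with h | h
    · by_contra hne
      exact Finset.disjoint_left.1 (hVd _ _ hne) (hT0V _ h) (hT0V _ hw)
    · exact absurd hw (h.1 i)
  have hsum : U.card = ∑ i : Fin 3, (U.filter fun w => cl w = i).card :=
    Finset.card_eq_sum_card_fiberwise fun w _ => Finset.mem_coe.2 (Finset.mem_univ (cl w))
  obtain ⟨i, hi⟩ : ∃ i : Fin 3, U.card ≤ 3 * (U.filter fun w => cl w = i).card := by
    by_contra hc
    push Not at hc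
    have h0 := hc 0
    have h1 := hc 1
    have h2 := hc 2
    rw [Fin.sum_univ_three] at hsum
    omega
  set W : Finset α := U.filter fun w => cl w = i with hW
  have hWb : b ≤ W.card := by omega
  have hWU : W ⊆ U := Finset.filter_subset _ _
  have hTW : T0 i ⊆ W := fun w hw => Finset.mem_filter.2 ⟨hT0U i hw, hcl0 i w hw⟩
  have hWn : ∀ w ∈ W \ T0 i, ∀ j, w ∉ T0 j := by
    intro w hw j hj
    rw [Finset.mem_sdiff] at hw
    have h1 := hcl0 j w hj
    have h2 := (Finset.mem_filter.1 hw.1).2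
    rw [h1] at h2
    rw [h2] at hj
    exact hw.2 hj
  -- size of the atypical points
  have hWs : ((W \ T0 i).card : ℝ) ≤ 12 * κ * u := by
    have h1 : (W \ T0 i).card + ∑ j : Fin 3, (T0 j).card ≤ U.card := by
      rw [← Finset.card_biUnion (s := (Finset.univ : Finset (Fin 3))) (t := T0)
        (fun a _ c _ hac => Finset.disjoint_of_subset_left (hT0V a)
          (Finset.disjoint_of_subset_right (hT0V c) (hVd a c hac)))]
      rw [← Finset.card_union_of_disjoint]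
      · refine Finset.card_le_card (Finset.union_subset (Finset.sdiff_subset.trans hWU) ?_)
        exact Finset.biUnion_subset.2 fun j _ => hT0U j
      · rw [Finset.disjoint_left]
        intro w hw hw2
        obtain ⟨j, -, hj⟩ := Finset.mem_biUnion.1 hw2
        exact hWn w hw j hj
    rw [Fin.sum_univ_three] at h1
    have h2 : ((W \ T0 i).card : ℝ) + (((T0 0).card : ℝ) + (T0 1).card + (T0 2).card) ≤ u := by
      rw [hu]
      exact_mod_cast h1
    have c0 := hT0c 0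
    have c1 := hT0c 1
    have c2 := hT0c 2
    linarith only [h2, c0, c1, c2]
  have hii : i ≠ i + 2 := DataC_fin i
  -- the choice of T and A
  obtain ⟨T, A, hTT, hAW, hcard, hor⟩ : ∃ T A : Finset α, T ⊆ T0 i ∧ A ⊆ W \ T0 i ∧
      T.card + A.card = b ∧ (A = ∅ ∨ T = T0 i) := by
    by_cases hb : b ≤ (T0 i).card
    · obtain ⟨T, hT, hTc⟩ := Finset.exists_subset_card_eq hb
      exact ⟨T, ∅, hT, Finset.empty_subset _, by rw [hTc, Finset.card_empty, add_zero],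
        Or.inl rfl⟩
    · have h1 := Finset.card_sdiff_add_card_eq_card hTW
      have h2 : b - (T0 i).card ≤ (W \ T0 i).card := by omega
      obtain ⟨A, hA, hAc⟩ := Finset.exists_subset_card_eq h2
      exact ⟨T0 i, A, Finset.Subset.refl _, hA, by omega, Or.inr rfl⟩
  have hAs : (A.card : ℝ) ≤ 12 * κ * u :=
    (by exact_mod_cast Finset.card_le_card hAW : (A.card : ℝ) ≤ ((W \ T0 i).card : ℝ)).trans hWs
  have hVmc : ((V (i + 2)).card : ℝ) ≤ ((V (i + 2) \ A).card : ℝ) + A.card := by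
    have := Finset.card_le_card_sdiff_add_card (s := V (i + 2)) (t := A)
    exact_mod_cast this
  have hTV : T ⊆ V i := hTT.trans (hT0V i)
  refine ⟨T, A, V (i + 2) \ A, hTV.trans (hVU i), (hAW.trans Finset.sdiff_subset).trans hWU,
    Finset.sdiff_subset.trans (hVU _), ?_, ?_, ?_, hcard, ?_, ?_, ?_, ?_, ?_⟩
  · exact Finset.disjoint_of_subset_left hTT (Finset.disjoint_of_subset_right hAW
      Finset.disjoint_sdiff)
  · exact Finset.disjoint_of_subset_left hTV (Finset.disjoint_of_subset_right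
      Finset.sdiff_subset (hVd _ _ hii))
  · exact Finset.disjoint_sdiff
  · have h1 : 12 * κ * u ≤ 12 * κ * (3 * n) := mul_le_mul_of_nonneg_left hu3 (by positivity)
    have h2 : 2000 * κ * n ≤ γ * n := mul_le_mul_of_nonneg_right hκγ hnp.le
    have h3 : 0 < κ * n := mul_pos hκp hnp
    have h4 : 12 * κ * (3 * (n : ℝ)) = 36 * (κ * n) := by ring
    have h5 : 2000 * κ * (n : ℝ) = 2000 * (κ * n) := by ring
    linarith only [hAs, h1, h2, h3, h4, h5]
  · have h1 := hVc (i + 2)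
    have h2 : κ * u ≤ κ * (3 * n) := mul_le_mul_of_nonneg_left hu3 hκp.le
    have h3 : κ * (6 * (n : ℝ)) ≤ κ * (10 * b) := mul_le_mul_of_nonneg_left h6r hκp.le
    have h4 : 0 ≤ (b : ℝ) := Nat.cast_nonneg _
    have h5 : 2000 * κ * b ≤ 1 * b := mul_le_mul_of_nonneg_right hκ1 h4
    have h6 : 9 * (b : ℝ) ≤ 10 * ((V (i + 2) \ A).card : ℝ) := by
      nlinarith only [h1, h2, h3, h5, hAs, hVmc, h3br, h6r, hn24]
    exact_mod_cast h6
  · intro w hw
    have h1 := DataC_deg R T (V (i + 2) \ A) (V i) (V (i + 2)) hTV Finset.sdiff_subset w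
      (θ * n) (T.filter fun w' => w ≠ w' ∧ θ * (n : ℝ) ≤
        ((cod R (V (i + 2) \ A) w w').card : ℝ)) (Finset.filter_subset _ _)
      (fun w' hw' => (Finset.mem_filter.1 hw').2.2)
    have h2 := h1.trans (hT0d i w (hTT hw))
    have h3 : τ0 * u ^ 2 ≤ τ0 * (3 * n) ^ 2 :=
      mul_le_mul_of_nonneg_left (pow_le_pow_left₀ hup.le hu3 2) hτ0p.le
    have h4 : τ0 * (3 * (n : ℝ)) ^ 2 = ψ * n * (θ * n) := by
      have : τ0 * (3 * (n : ℝ)) ^ 2 = τ0 * 9 * (n : ℝ) ^ 2 := by ring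
      rw [this, hτ0']
      ring
    exact le_of_mul_le_mul_right ((h2.trans h3).trans (le_of_eq h4)) (mul_pos hθ hnp)
  · have h1 : (e3 R T T (V (i + 2) \ A) : ℝ) ≤ (e3 R (V i) (V i) (V (i + 2)) : ℝ) := by
      exact_mod_cast DataC_mono R hTV hTV Finset.sdiff_subset
    have h2 : ε4 * u ^ 3 ≤ ε4 * (3 * n) ^ 3 :=
      mul_le_mul_of_nonneg_left (pow_le_pow_left₀ hup.le hu3 3) hεp.le
    have h3 : 27 * ε4 * (n : ℝ) ^ 3 ≤ τ * (n : ℝ) ^ 3 :=
      mul_le_mul_of_nonneg_right hετ (by positivity)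
    have h4 : ε4 * (3 * (n : ℝ)) ^ 3 = 27 * ε4 * (n : ℝ) ^ 3 := by ring
    linarith only [h1, he3 i, h2, h3, h4]
  · intro w hw
    have hT : T = T0 i := by
      rcases hor with h | h
      · rw [h] at hw
        exact absurd hw (Finset.notMem_empty _)
      · exact h
    have hwW := hAW hw
    have hcw := (Finset.mem_filter.1 (Finset.mem_sdiff.1 hwW).1).2
    have hr : η₂ * u ^ 2 ≤ ((redP R w (V (i + 2)) (V i)).card : ℝ) := by
      rcases hcl w (hWU (Finset.mem_sdiff.1 hwW).1) with h | h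
      · exact absurd h (hWn w hwW _)
      · have := h.2
        rwa [hcw] at this
    have h1 := DataC_red R w (V i) (V (i + 2)) A T
    have h2 : ((redP R w (V (i + 2)) (V i)).card : ℝ) ≤
        ((redP R w (V (i + 2) \ A) T).card : ℝ) + (A.card : ℝ) * ((V i).card : ℝ) +
          ((V (i + 2)).card : ℝ) * ((V i \ T).card : ℝ) := by
      exact_mod_cast h1
    have hc1 : ((V i).card : ℝ) ≤ u := by
      rw [hu]
      exact_mod_cast Finset.card_le_card (hVU i)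
    have hc2 : ((V (i + 2)).card : ℝ) ≤ u := by
      rw [hu]
      exact_mod_cast Finset.card_le_card (hVU (i + 2))
    have hf := hfew i
    rw [← hT] at hf
    exact DataC_arith hκp hup hnp hnu hη.le hκη (Nat.cast_nonneg _) (Nat.cast_nonneg _)
      hAs hc1 hc2 hf hr h2

end Pool.MP7783b9
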