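import Pool.Agent.H.MP_7783b9_co.Final

/-!
# A disconnected hypergraph splits
-/

set_option autoImplicit false

open Finset

namespace Pool.MP7783b9

/-- a disconnected hypergraph splits -/
theorem disc_set {V : Type*} [Fintype V] [DecidableEq V] (E : Finset (Finset V))
    (h3 : ∀ f ∈ E, f.card = 3) (hne : Nonempty V) (hc : ¬ (incidence E).Connected) :
    ∃ A : Finset V, A.Nonempty ∧ A ≠ Finset.univ ∧ ∀ f ∈ E, f ⊆ A ∨ Disjoint f A := by
  classical
  obtain ⟨v₀⟩ := hne
  refine ⟨Finset.univ.filter fun v => (incidence E).Reachable (Sum.inl v₀) (Sum.inl v),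
    ⟨v₀, Finset.mem_filter.2 ⟨Finset.mem_univ _, SimpleGraph.Reachable.refl _⟩⟩, ?_, ?_⟩
  · intro hA
    apply hc
    have hv : ∀ v, (incidence E).Reachable (Sum.inl v₀) (Sum.inl v) := fun v =>
      (Finset.mem_filter.1 (hA.symm ▸ Finset.mem_univ v :
        v ∈ Finset.univ.filter fun v => (incidence E).Reachable (Sum.inl v₀) (Sum.inl v))).2
    have key : ∀ a, (incidence E).Reachable (Sum.inl v₀) a := by
      rintro (v | ⟨f, hf⟩)
      · exact hv v
      · obtain ⟨x, hx⟩ := Finset.card_pos.1 (by rw [h3 f hf]; norm_num : 0 < f.card)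
        refine (hv x).trans (SimpleGraph.Adj.reachable ?_)
        show x ∈ _
        exact hx
    rw [SimpleGraph.connected_iff]
    exact ⟨fun a b => (key a).symm.trans (key b), ⟨Sum.inl v₀⟩⟩
  · intro f hf
    by_cases h : ∃ x ∈ f, (incidence E).Reachable (Sum.inl v₀) (Sum.inl x)
    · left
      obtain ⟨x, hx, hr⟩ := h
      intro y hy
      refine Finset.mem_filter.2 ⟨Finset.mem_univ _, hr.trans ?_⟩
      refine SimpleGraph.Reachable.trans (v := Sum.inr ⟨f, hf⟩) ?_ ?_
      · exact SimpleGraph.Adj.reachable (by show x ∈ _; exact hx)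
      · exact SimpleGraph.Adj.reachable (by show y ∈ _; exact hy)
    · right
      rw [Finset.disjoint_left]
      intro x hx hxA
      exact h ⟨x, hx, (Finset.mem_filter.1 hxA).2⟩

end Pool.MP7783b9
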