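import Pool.Agent.H.MP_7783b9_co.B.Far
import Pool.Agent.H.MP_7783b9_co.N.Tight

/-!
# Vertices far from each other, and the zones around them
-/

set_option autoImplicit false

open Finset

namespace Pool.MP7783b9

/-- the neighbours of `x` in `I` -/
def nI {V : Type*} [DecidableEq V] (E : Finset (Finset V)) (I : Finset V) (x : V) : Finset V :=
  nbc E x ∩ I

/-- `x` and the vertices outside of `I` which are neighbours of a neighbour of `x` in `I` -/
def zone {V : Type*} [DecidableEq V] (E : Finset (Finset V)) (I : Finset V) (x : V) : Finset V :=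
  insert x (((nI E I x).biUnion (nbc E)) \ I)

theorem zone_card {V : Type*} [Fintype V] [DecidableEq V] (E : Finset (Finset V)) (Δ : ℕ)
    (hH : Hyp Finset.univ E Δ) (I : Finset V) (hI : StrongIndep E I) (x : V) (hx : x ∉ I) :
    (nI E I x).card ≤ Δ ∧ ((zone E I x).erase x).card ≤ 2 * Δ ^ 2 := by
  have h1 : (nI E I x).card ≤ Δ := by
    have hsub : nI E I x ⊆ (edgesAt E x).biUnion fun f => f ∩ I := by
      intro y hy
      unfold nI at hy
      rw [Finset.mem_inter, Far_mem_nbc] at hy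
      obtain ⟨hy1, hyI⟩ := hy
      rcases hy1 with rfl | ⟨f, hf, hxf, hyf⟩
      · exact absurd hyI hx
      · rw [Finset.mem_biUnion]
        refine ⟨f, ?_, Finset.mem_inter.2 ⟨hyf, hyI⟩⟩
        unfold edgesAt
        exact Finset.mem_filter.2 ⟨hf, hxf⟩
    calc (nI E I x).card ≤ _ := Finset.card_le_card hsub
      _ ≤ (edgesAt E x).card * 1 := by
        apply Finset.card_biUnion_le_card_mul
        intro f hf
        unfold edgesAt at hf
        rw [Finset.mem_filter] at hf
        exact hI f hf.1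
      _ ≤ Δ := by
        have := hH.deg x
        omega
  refine ⟨h1, ?_⟩
  have hsub : (zone E I x).erase x ⊆ (nI E I x).biUnion fun y => (nbc E y).erase y := by
    intro z hz
    rw [Finset.mem_erase] at hz
    obtain ⟨hzx, hz⟩ := hz
    unfold zone at hz
    rw [Finset.mem_insert, Finset.mem_sdiff, Finset.mem_biUnion] at hz
    rcases hz with hz | ⟨⟨y, hy, hzy⟩, hzI⟩
    · exact absurd hz hzx
    · rw [Finset.mem_biUnion]
      refine ⟨y, hy, Finset.mem_erase.2 ⟨?_, hzy⟩⟩
      rintro rfl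
      unfold nI at hy
      exact hzI (Finset.mem_inter.1 hy).2
  calc ((zone E I x).erase x).card ≤ _ := Finset.card_le_card hsub
    _ ≤ (nI E I x).card * (2 * Δ) := by
      apply Finset.card_biUnion_le_card_mul
      intro y _
      have hyy : y ∈ nbc E y := (Far_mem_nbc E y y).2 (Or.inl rfl)
      rw [Finset.card_erase_of_mem hyy]
      have := nbc_card hH y
      omega
    _ ≤ Δ * (2 * Δ) := Nat.mul_le_mul_right _ h1
    _ = 2 * Δ ^ 2 := by ring

/-- the ball of radius `k` -/
def FarC_ball {V : Type*} [DecidableEq V] (E : Finset (Finset V)) : ℕ → V → Finset V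
  | 0, x => {x}
  | k + 1, x => (FarC_ball E k x).biUnion (nbc E)

theorem FarC_mem_succ {V : Type*} [DecidableEq V] (E : Finset (Finset V)) (k : ℕ) (x z : V) :
    z ∈ FarC_ball E (k + 1) x ↔ ∃ y ∈ FarC_ball E k x, z ∈ nbc E y := by
  show z ∈ (FarC_ball E k x).biUnion (nbc E) ↔ _
  rw [Finset.mem_biUnion]

theorem FarC_mem_zero {V : Type*} [DecidableEq V] (E : Finset (Finset V)) (x z : V) :
    z ∈ FarC_ball E 0 x ↔ z = x := by
  show z ∈ ({x} : Finset V) ↔ _
  rw [Finset.mem_singleton]

theorem FarC_mem_one {V : Type*} [DecidableEq V] (E : Finset (Finset V)) {x z : V}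
    (h : z ∈ nbc E x) : z ∈ FarC_ball E 1 x := by
  rw [FarC_mem_succ]
  exact ⟨x, (FarC_mem_zero E x x).2 rfl, h⟩

theorem FarC_trans {V : Type*} [DecidableEq V] (E : Finset (Finset V)) (j k : ℕ) (x y z : V)
    (h : y ∈ FarC_ball E j x) (h' : z ∈ FarC_ball E k y) : z ∈ FarC_ball E (j + k) x := by
  induction k generalizing z with
  | zero =>
    rw [FarC_mem_zero] at h'
    rw [h']
    exact h
  | succ k ih =>
    rw [FarC_mem_succ] at h'
    obtain ⟨w, hw, hzw⟩ := h'
    rw [← Nat.add_assoc, FarC_mem_succ]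
    exact ⟨w, ih w hw, hzw⟩

theorem FarC_symm {V : Type*} [DecidableEq V] (E : Finset (Finset V)) (k : ℕ) (x y : V)
    (h : y ∈ FarC_ball E k x) : x ∈ FarC_ball E k y := by
  induction k generalizing y with
  | zero =>
    rw [FarC_mem_zero] at h ⊢
    exact h.symm
  | succ k ih =>
    rw [FarC_mem_succ] at h
    obtain ⟨z, hz, hyz⟩ := h
    have h1 : z ∈ FarC_ball E 1 y := FarC_mem_one E ((mem_nbc_symm E z y).1 hyz)
    have h2 := FarC_trans E 1 k y z x h1 (ih z hz)
    rwa [Nat.add_comm] at h2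

theorem FarC_self {V : Type*} [DecidableEq V] (E : Finset (Finset V)) (k : ℕ) (x : V) :
    x ∈ FarC_ball E k x := by
  induction k with
  | zero => exact (FarC_mem_zero E x x).2 rfl
  | succ k ih =>
    rw [FarC_mem_succ]
    exact ⟨x, ih, (Far_mem_nbc E x x).2 (Or.inl rfl)⟩

theorem FarC_mono {V : Type*} [DecidableEq V] (E : Finset (Finset V)) {j k : ℕ} (hjk : j ≤ k)
    {x y : V} (h : y ∈ FarC_ball E j x) : y ∈ FarC_ball E k x := by
  obtain ⟨l, rfl⟩ := Nat.exists_eq_add_of_le hjk
  exact FarC_trans E j l x y y h (FarC_self E l y)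

theorem FarC_card {V : Type*} [DecidableEq V] {S : Finset V} {E : Finset (Finset V)} {Δ : ℕ}
    (h : Hyp S E Δ) (k : ℕ) (x : V) : (FarC_ball E k x).card ≤ (2 * Δ + 1) ^ k := by
  induction k with
  | zero =>
    show ({x} : Finset V).card ≤ _
    simp
  | succ k ih =>
    calc (FarC_ball E (k + 1) x).card ≤ (FarC_ball E k x).card * (2 * Δ + 1) :=
          Finset.card_biUnion_le_card_mul _ _ _ fun y _ => nbc_card h y
      _ ≤ (2 * Δ + 1) ^ k * (2 * Δ + 1) := Nat.mul_le_mul_right _ ih
      _ = (2 * Δ + 1) ^ (k + 1) := by ring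

theorem FarC_nI {V : Type*} [DecidableEq V] (E : Finset (Finset V)) (I : Finset V) {x y : V}
    (h : y ∈ nI E I x) : y ∈ FarC_ball E 1 x := by
  unfold nI at h
  exact FarC_mem_one E (Finset.mem_inter.1 h).1

theorem FarC_zone {V : Type*} [DecidableEq V] (E : Finset (Finset V)) (I : Finset V) {x y : V}
    (h : y ∈ zone E I x) : y ∈ FarC_ball E 2 x := by
  unfold zone at h
  rw [Finset.mem_insert, Finset.mem_sdiff, Finset.mem_biUnion] at h
  rcases h with rfl | ⟨⟨z, hz, hyz⟩, _⟩
  · exact FarC_self E 2 y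
  · rw [FarC_mem_succ]
    exact ⟨z, FarC_nI E I hz, hyz⟩

theorem far_c {V β : Type*} [Fintype V] [DecidableEq V] [DecidableEq β]
    (E : Finset (Finset V)) (Δ : ℕ) (hH : Hyp Finset.univ E Δ) (I BS : Finset V)
    (A : Finset β) (hnum : A.card * (2 * Δ + 1) ^ 5 + BS.card * (2 * Δ + 1) ^ 3 <
      (Finset.univ.filter fun x => x ∉ I).card) :
    ∃ x : β → V, (∀ w ∈ A, x w ∉ I) ∧
      (∀ w ∈ A, ∀ w' ∈ A, w ≠ w' → Disjoint (nI E I (x w)) (nI E I (x w')) ∧
        ∀ a ∈ zone E I (x w), ∀ b ∈ zone E I (x w'), a ≠ b ∧ ∀ f ∈ E, a ∈ f → b ∉ f) ∧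
      ∀ w ∈ A, ∀ a ∈ zone E I (x w), ∀ b ∈ BS, a ≠ b ∧ ∀ f ∈ E, a ∈ f → b ∉ f := by
  have main : ∃ x : β → V, (∀ w ∈ A, x w ∉ I ∧ ∀ b ∈ BS, x w ∉ FarC_ball E 3 b) ∧
      ∀ w ∈ A, ∀ w' ∈ A, w ≠ w' → x w' ∉ FarC_ball E 5 (x w) := by
    induction A using Finset.induction_on with
    | empty =>
      have hpos : 0 < (Finset.univ.filter fun x => x ∉ I).card := by omega
      obtain ⟨v, -⟩ := Finset.card_pos.1 hpos
      exact ⟨fun _ => v, fun i hi => absurd hi (Finset.notMem_empty i),
        fun i hi => absurd hi (Finset.notMem_empty i)⟩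
    | insert j A hj ih =>
      rw [Finset.card_insert_of_notMem hj, add_mul, one_mul] at hnum
      obtain ⟨x, hx1, hx2⟩ := ih (by omega)
      have hpos : 0 < (2 * Δ + 1) ^ 5 := by positivity
      have hlt : ((A.biUnion fun i => FarC_ball E 5 (x i)) ∪
          BS.biUnion fun b => FarC_ball E 3 b).card <
          (Finset.univ.filter fun x => x ∉ I).card := by
        have e1 : (A.biUnion fun i => FarC_ball E 5 (x i)).card ≤ A.card * (2 * Δ + 1) ^ 5 :=
          Finset.card_biUnion_le_card_mul _ _ _ fun i _ => FarC_card hH 5 (x i)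
        have e2 : (BS.biUnion fun b => FarC_ball E 3 b).card ≤ BS.card * (2 * Δ + 1) ^ 3 :=
          Finset.card_biUnion_le_card_mul _ _ _ fun b _ => FarC_card hH 3 b
        have e3 := Finset.card_union_le (A.biUnion fun i => FarC_ball E 5 (x i))
          (BS.biUnion fun b => FarC_ball E 3 b)
        omega
      obtain ⟨v, hvS, hv⟩ := Finset.exists_mem_notMem_of_card_lt_card hlt
      rw [Finset.mem_union, not_or, Finset.mem_biUnion, Finset.mem_biUnion] at hv
      have hvI : v ∉ I := (Finset.mem_filter.1 hvS).2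
      have hv5 : ∀ i ∈ A, v ∉ FarC_ball E 5 (x i) := fun i hi hvi => hv.1 ⟨i, hi, hvi⟩
      have hv3 : ∀ b ∈ BS, v ∉ FarC_ball E 3 b := fun b hb hvb => hv.2 ⟨b, hb, hvb⟩
      have hne : ∀ i ∈ A, i ≠ j := fun i hi hij => hj (hij ▸ hi)
      refine ⟨Function.update x j v, ?_, ?_⟩
      · intro i hi
        rcases Finset.mem_insert.1 hi with rfl | hi
        · rw [Function.update_self]
          exact ⟨hvI, hv3⟩
        · rw [Function.update_of_ne (hne i hi)]
          exact hx1 i hi
      · intro i hi k hk hik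
        rcases Finset.mem_insert.1 hi with hi1 | hi1
        · rcases Finset.mem_insert.1 hk with hk1 | hk1
          · exact absurd (hi1.trans hk1.symm) hik
          · rw [hi1, Function.update_self, Function.update_of_ne (hne k hk1)]
            exact fun hcon => hv5 k hk1 (FarC_symm E 5 _ _ hcon)
        · rcases Finset.mem_insert.1 hk with hk1 | hk1
          · rw [hk1, Function.update_self, Function.update_of_ne (hne i hi1)]
            exact hv5 i hi1
          · rw [Function.update_of_ne (hne i hi1), Function.update_of_ne (hne k hk1)]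
            exact hx2 i hi1 k hk1 hik
  obtain ⟨x, hx1, hx2⟩ := main
  refine ⟨x, fun w hw => (hx1 w hw).1, ?_, ?_⟩
  · intro w hw w' hw' hww
    have hfar := hx2 w hw w' hw' hww
    refine ⟨?_, ?_⟩
    · rw [Finset.disjoint_left]
      intro y hy hy'
      have h1 := FarC_nI E I hy
      have h2 := FarC_symm E 1 _ _ (FarC_nI E I hy')
      exact hfar (FarC_mono E (by norm_num) (FarC_trans E 1 1 _ _ _ h1 h2))
    · intro a ha b hb
      have h1 := FarC_zone E I ha
      have h2 := FarC_symm E 2 _ _ (FarC_zone E I hb)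
      refine ⟨?_, ?_⟩
      · rintro rfl
        exact hfar (FarC_mono E (by norm_num) (FarC_trans E 2 2 _ _ _ h1 h2))
      · intro f hf haf hbf
        have h3 : b ∈ FarC_ball E 1 a := FarC_mem_one E ((Far_mem_nbc E a b).2
          (Or.inr ⟨f, hf, haf, hbf⟩))
        exact hfar (FarC_trans E 3 2 _ _ _ (FarC_trans E 2 1 _ _ _ h1 h3) h2)
  · intro w hw a ha b hb
    have h1 := FarC_zone E I ha
    have hfar := (hx1 w hw).2 b hb
    refine ⟨?_, ?_⟩
    · rintro rfl
      exact hfar (FarC_mono E (by norm_num) (FarC_symm E 2 _ _ h1))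
    · intro f hf haf hbf
      have h3 : b ∈ FarC_ball E 1 a := FarC_mem_one E ((Far_mem_nbc E a b).2
        (Or.inr ⟨f, hf, haf, hbf⟩))
      exact hfar (FarC_symm E 3 _ _ (FarC_trans E 2 1 _ _ _ h1 h3))

end Pool.MP7783b9
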