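import Pool.Agent.H.MP_7783b9_co.X.SwitchX
import Pool.Agent.H.MP_7783b9_co.X.FarC

/-!
# The embedding of the vertices outside of the strongly independent set
-/

set_option autoImplicit false

open Finset

namespace Pool.MP7783b9

/-- an injection of a finite set into a finite set which is not smaller -/
theorem EmbB_inj {V α : Type*} [Nonempty α] (S : Finset V) (Y : Finset α)
    (h : S.card ≤ Y.card) : ∃ g : V → α, (∀ y ∈ S, g y ∈ Y) ∧ Set.InjOn g S := by
  classical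
  obtain ⟨Y', hY', hc⟩ := Finset.exists_subset_card_eq h
  obtain ⟨a0⟩ := ‹Nonempty α›
  let e : S ≃ Y' := Finset.equivOfCardEq hc.symm
  refine ⟨fun y => if hy : y ∈ S then (e ⟨y, hy⟩ : α) else a0, ?_, ?_⟩
  · intro y hy
    simp only [dif_pos hy]
    exact hY' (e ⟨y, hy⟩).2
  · intro y hy z hz hyz
    have hy' : y ∈ S := hy
    have hz' : z ∈ S := hz
    simp only [dif_pos hy', dif_pos hz'] at hyz
    have h1 : e ⟨y, hy'⟩ = e ⟨z, hz'⟩ := Subtype.ext hyz
    have h2 := e.injective h1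
    exact congrArg Subtype.val h2

/-- the neighbours of `x`, without `x` -/
theorem EmbB_nb {V : Type*} [Fintype V] [DecidableEq V] (E : Finset (Finset V)) (Δ : ℕ)
    (hH : Hyp Finset.univ E Δ) (x : V) : ((nbc E x).erase x).card ≤ 2 * Δ := by
  have hxx : x ∈ nbc E x := (Far_mem_nbc E x x).2 (Or.inl rfl)
  rw [Finset.card_erase_of_mem hxx]
  have := nbc_card hH x
  omega

/-- the embedding of the vertices of the zones and of `BS` -/
theorem EmbB_fix {V : Type*} {α : Type} [Fintype V] [DecidableEq V] [DecidableEq α] [Nonempty α]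
    (E : Finset (Finset V)) (I : Finset V)
    (T A Y : Finset α) (hTA : Disjoint T A)
    (BS : Finset V) (hBSY : BS.card ≤ Y.card) (hY : Y ⊆ T)
    (x : α → V)
    (hz : ∀ w ∈ A, ∀ w' ∈ A, w ≠ w' →
      ∀ a ∈ zone E I (x w), ∀ b ∈ zone E I (x w'), a ≠ b)
    (hzB : ∀ w ∈ A, ∀ a ∈ zone E I (x w), ∀ b ∈ BS, a ≠ b)
    (Q : α → Finset α) (hQ : ∀ w ∈ A, Q w ⊆ T ∧ Disjoint (Q w) Y ∧
      ((zone E I (x w)).erase (x w)).card ≤ (Q w).card)
    (hQd : ∀ w ∈ A, ∀ w' ∈ A, w ≠ w' → Disjoint (Q w) (Q w')) :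
    ∃ g : V → α, (∀ y ∈ BS, g y ∈ Y) ∧ (∀ w ∈ A, g (x w) = w) ∧
      (∀ w ∈ A, ∀ y ∈ (zone E I (x w)).erase (x w), g y ∈ Q w) ∧
      Set.InjOn g (BS ∪ A.biUnion fun w => zone E I (x w) : Finset V) := by
  classical
  obtain ⟨fB, hfB, hfBi⟩ := EmbB_inj BS Y hBSY
  have hfQ : ∀ w : α, ∃ f : V → α, w ∈ A →
      (∀ y ∈ (zone E I (x w)).erase (x w), f y ∈ Q w) ∧
      Set.InjOn f ((zone E I (x w)).erase (x w) : Finset V) := by
    intro w
    by_cases hw : w ∈ A
    · obtain ⟨f, hf1, hf2⟩ := EmbB_inj ((zone E I (x w)).erase (x w)) (Q w) (hQ w hw).2.2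
      exact ⟨f, fun _ => ⟨hf1, hf2⟩⟩
    · obtain ⟨a0⟩ := ‹Nonempty α›
      exact ⟨fun _ => a0, fun h => absurd h hw⟩
  choose fQ hfQ using hfQ
  have hc : ∃ c : V → α, ∀ w ∈ A, ∀ y ∈ zone E I (x w), c y = w := by
    obtain ⟨a0⟩ := ‹Nonempty α›
    refine ⟨fun y => if h : ∃ w ∈ A, y ∈ zone E I (x w) then h.choose else a0, ?_⟩
    intro w hw y hy
    have hex : ∃ w ∈ A, y ∈ zone E I (x w) := ⟨w, hw, hy⟩
    simp only [dif_pos hex]
    by_contra hne
    exact hz _ hex.choose_spec.1 w hw hne y hex.choose_spec.2 y hy rfl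
  obtain ⟨c, hc⟩ := hc
  have hxz : ∀ w, x w ∈ zone E I (x w) := by
    intro w
    unfold zone
    exact Finset.mem_insert_self _ _
  let g : V → α := fun y => if y ∈ BS then fB y else if y = x (c y) then c y else fQ (c y) y
  have g1 : ∀ y ∈ BS, g y = fB y := by
    intro y hy
    simp only [g, if_pos hy]
  have gnB : ∀ w ∈ A, ∀ y ∈ zone E I (x w), y ∉ BS := by
    intro w hw y hy hyB
    exact hzB w hw y hy y hyB rfl
  have g2 : ∀ w ∈ A, g (x w) = w := by
    intro w hw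
    have h1 := gnB w hw (x w) (hxz w)
    have h2 := hc w hw (x w) (hxz w)
    simp only [g, if_neg h1, h2, if_true]
  have g3 : ∀ w ∈ A, ∀ y ∈ (zone E I (x w)).erase (x w), g y = fQ w y := by
    intro w hw y hy
    rw [Finset.mem_erase] at hy
    have h1 := gnB w hw y hy.2
    have h2 := hc w hw y hy.2
    simp only [g, if_neg h1, h2, if_neg hy.1]
  have g4 : ∀ w ∈ A, ∀ y ∈ (zone E I (x w)).erase (x w), g y ∈ Q w := by
    intro w hw y hy
    rw [g3 w hw y hy]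
    exact (hfQ w hw).1 y hy
  have gB : ∀ y ∈ BS, g y ∈ Y := by
    intro y hy
    rw [g1 y hy]
    exact hfB y hy
  refine ⟨g, gB, g2, g4, ?_⟩
  -- a point of `BS` and a point of a zone have different images
  have mix : ∀ a ∈ BS, ∀ w ∈ A, ∀ b ∈ zone E I (x w), g a ≠ g b := by
    intro a ha w hw b hb hab
    have h1 := gB a ha
    by_cases hbx : b = x w
    · rw [hab, hbx, g2 w hw] at h1
      exact Finset.disjoint_left.1 hTA (hY h1) hw
    · have h2 := g4 w hw b (Finset.mem_erase.2 ⟨hbx, hb⟩)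
      rw [← hab] at h2
      exact Finset.disjoint_left.1 (hQ w hw).2.1 h2 h1
  -- `x w` and a point of a zone
  have mix2 : ∀ w ∈ A, ∀ w' ∈ A, ∀ b ∈ zone E I (x w'), g (x w) = g b → x w = b := by
    intro w hw w' hw' b hb hab
    rw [g2 w hw] at hab
    by_cases hbx : b = x w'
    · rw [hbx, g2 w' hw'] at hab
      rw [hbx, hab]
    · have h2 := g4 w' hw' b (Finset.mem_erase.2 ⟨hbx, hb⟩)
      rw [← hab] at h2
      exact absurd hw (Finset.disjoint_left.1 hTA ((hQ w' hw').1 h2))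
  intro a ha b hb hab
  have ha' : a ∈ BS ∪ A.biUnion fun w => zone E I (x w) := ha
  have hb' : b ∈ BS ∪ A.biUnion fun w => zone E I (x w) := hb
  rw [Finset.mem_union, Finset.mem_biUnion] at ha' hb'
  rcases ha' with ha' | ⟨w, hw, haw⟩
  · rcases hb' with hb' | ⟨w', hw', hbw⟩
    · rw [g1 a ha', g1 b hb'] at hab
      exact hfBi ha' hb' hab
    · exact absurd hab (mix a ha' w' hw' b hbw)
  · rcases hb' with hb' | ⟨w', hw', hbw⟩
    · exact absurd hab.symm (mix b hb' w hw a haw)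
    · by_cases hax : a = x w
      · subst hax
        exact mix2 w hw w' hw' b hbw hab
      · by_cases hbx : b = x w'
        · subst hbx
          exact (mix2 w' hw' w hw a haw hab.symm).symm
        · have ha1 := Finset.mem_erase.2 ⟨hax, haw⟩
          have hb1 := Finset.mem_erase.2 ⟨hbx, hbw⟩
          by_cases hww : w = w'
          · subst hww
            rw [g3 w hw a ha1, g3 w hw b hb1] at hab
            exact (hfQ w hw).2 (Finset.mem_coe.2 ha1) (Finset.mem_coe.2 hb1) hab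
          · have h1 := g4 w hw a ha1
            have h2 := g4 w' hw' b hb1
            rw [hab] at h1
            exact absurd h2 (Finset.disjoint_left.1 (hQd w hw w' hw' hww) h1)

theorem emb_b {V : Type*} {α : Type} [Fintype V] [DecidableEq V] [DecidableEq α]
    (E : Finset (Finset V)) (Δ : ℕ) (hH : Hyp Finset.univ E Δ) (I : Finset V)
    (T A Y : Finset α) (hTA : Disjoint T A)
    (hcard : T.card + A.card = (Finset.univ.filter fun x => x ∉ I).card)
    (Bd : α → α → Prop) (hBd : ∀ u v, Bd u v → Bd v u) (ψ : ℕ)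
    (hψ : ∀ w ∈ T, ∃ Nw : Finset α, Nw.card ≤ ψ ∧ ∀ v ∈ T, Bd w v → v ∈ Nw)
    -- the vertices which are mapped to the clique `Y`
    (BS : Finset V) (hBS : ∀ x ∈ BS, x ∉ I) (hBSY : BS.card ≤ Y.card) (hY : Y ⊆ T)
    (hYB : ∀ a ∈ Y, ∀ b ∈ Y, a ≠ b → ¬ Bd a b)
    -- the vertices which are mapped to the atypical points, and their zones
    (x : α → V) (hx : ∀ w ∈ A, x w ∉ I)
    (hz : ∀ w ∈ A, ∀ w' ∈ A, w ≠ w' →
      ∀ a ∈ zone E I (x w), ∀ b ∈ zone E I (x w'), a ≠ b ∧ ∀ f ∈ E, a ∈ f → b ∉ f)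
    (hzB : ∀ w ∈ A, ∀ a ∈ zone E I (x w), ∀ b ∈ BS, a ≠ b ∧ ∀ f ∈ E, a ∈ f → b ∉ f)
    (Q : α → Finset α) (hQ : ∀ w ∈ A, Q w ⊆ T ∧ Disjoint (Q w) Y ∧
      ((zone E I (x w)).erase (x w)).card ≤ (Q w).card ∧
      ∀ a ∈ Q w, ∀ b ∈ Q w, a ≠ b → ¬ Bd a b)
    (hQd : ∀ w ∈ A, ∀ w' ∈ A, w ≠ w' → Disjoint (Q w) (Q w'))
    (u : ℕ) (hu : ∀ w ∈ A, ((zone E I (x w)).erase (x w)).card ≤ u)
    (hnum : 8 * (Δ * ψ) + 2 * Δ + 1 + BS.card + A.card * (1 + u) <
      (Finset.univ.filter fun x => x ∉ I).card) :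
    ∃ φ : V → α, Set.InjOn φ {y | y ∉ I} ∧ (∀ y, y ∉ I → φ y ∈ T ∪ A) ∧
      (∀ w ∈ A, φ (x w) = w) ∧
      (∀ w ∈ A, ∀ y ∈ (zone E I (x w)).erase (x w), φ y ∈ Q w) ∧
      (∀ y ∈ BS, φ y ∈ Y) ∧
      ∀ f ∈ E, ∀ a ∈ f, ∀ b ∈ f, a ∉ I → b ∉ I → a ≠ b → φ a ∈ T → φ b ∈ T →
        ¬ Bd (φ a) (φ b) := by
  classical
  have hne : Nonempty α := by
    have h1 : 0 < T.card + A.card := by omega
    rcases (by omega : 0 < T.card ∨ 0 < A.card) with h | h
    · obtain ⟨a, _⟩ := Finset.card_pos.1 h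
      exact ⟨a⟩
    · obtain ⟨a, _⟩ := Finset.card_pos.1 h
      exact ⟨a⟩
  have hxz : ∀ w, x w ∈ zone E I (x w) := by
    intro w
    unfold zone
    exact Finset.mem_insert_self _ _
  obtain ⟨g, gB, gx, gQ, gi⟩ := EmbB_fix E I T A Y hTA BS hBSY hY x
    (fun w hw w' hw' hne a ha b hb => (hz w hw w' hw' hne a ha b hb).1)
    (fun w hw a ha b hb => (hzB w hw a ha b hb).1) Q
    (fun w hw => ⟨(hQ w hw).1, (hQ w hw).2.1, (hQ w hw).2.2.1⟩) hQd
  -- the set of the vertices which are embedded already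
  obtain ⟨F, hF⟩ : ∃ F : Finset V, F = BS ∪ A.biUnion fun w => zone E I (x w) := ⟨_, rfl⟩
  rw [← hF] at gi
  have memF : ∀ y, y ∈ F ↔ y ∈ BS ∨ ∃ w ∈ A, y ∈ zone E I (x w) := by
    intro y
    rw [hF, Finset.mem_union, Finset.mem_biUnion]
  have hFI : ∀ y ∈ F, y ∉ I := by
    intro y hy
    rcases (memF y).1 hy with h | ⟨w, hw, h⟩
    · exact hBS y h
    · unfold zone at h
      rw [Finset.mem_insert, Finset.mem_sdiff] at h
      rcases h with h | h
      · rw [h]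
        exact hx w hw
      · exact h.2
  have hFc : F.card ≤ BS.card + A.card * (1 + u) := by
    rw [hF]
    refine (Finset.card_union_le _ _).trans (Nat.add_le_add_left ?_ _)
    refine Finset.card_biUnion_le_card_mul _ _ _ fun w hw => ?_
    have h1 := hu w hw
    rw [Finset.card_erase_of_mem (hxz w)] at h1
    omega
  have gT : ∀ y ∈ F, g y ∈ T ∪ A := by
    intro y hy
    rcases (memF y).1 hy with h | ⟨w, hw, h⟩
    · exact Finset.mem_union_left _ (hY (gB y h))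
    · by_cases hyx : y = x w
      · rw [hyx, gx w hw]
        exact Finset.mem_union_right _ hw
      · exact Finset.mem_union_left _ ((hQ w hw).1 (gQ w hw y (Finset.mem_erase.2 ⟨hyx, h⟩)))
  -- the other vertices and the other points
  obtain ⟨B', hB'⟩ : ∃ B' : Finset V, B' = (Finset.univ.filter fun x => x ∉ I) \ F := ⟨_, rfl⟩
  obtain ⟨W', hW'⟩ : ∃ W' : Finset α, W' = (T ∪ A) \ F.image g := ⟨_, rfl⟩
  have memB : ∀ y, y ∈ B' ↔ y ∉ I ∧ y ∉ F := by
    intro y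
    rw [hB', Finset.mem_sdiff, Finset.mem_filter]
    simp only [Finset.mem_univ, true_and]
  have hWT : W' ⊆ T := by
    intro w hw
    rw [hW', Finset.mem_sdiff, Finset.mem_union] at hw
    rcases hw.1 with h | h
    · exact h
    · exact absurd (Finset.mem_image.2 ⟨x w, (memF _).2 (Or.inr ⟨w, h, hxz w⟩), gx w h⟩) hw.2
  have hcB : B'.card + F.card = (Finset.univ.filter fun x => x ∉ I).card := by
    rw [hB']
    refine Finset.card_sdiff_add_card_eq_card fun y hy => ?_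
    rw [Finset.mem_filter]
    exact ⟨Finset.mem_univ _, hFI y hy⟩
  have hcW : W'.card + F.card = T.card + A.card := by
    rw [hW', ← Finset.card_union_of_disjoint hTA, ← Finset.card_image_of_injOn gi]
    refine Finset.card_sdiff_add_card_eq_card fun y hy => ?_
    obtain ⟨z, hzF, rfl⟩ := Finset.mem_image.1 hy
    exact gT z hzF
  -- the neighbourhoods in the relation `Bd`
  obtain ⟨N, hN⟩ : ∃ N : α → Finset α, N = fun w => T.filter fun v => Bd w v := ⟨_, rfl⟩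
  have memN : ∀ w v, v ∈ N w ↔ v ∈ T ∧ Bd w v := by
    intro w v
    rw [hN]
    exact Finset.mem_filter
  have hNc : ∀ w ∈ T, (N w).card ≤ ψ := by
    intro w hw
    obtain ⟨Nw, h1, h2⟩ := hψ w hw
    refine (Finset.card_le_card fun v hv => ?_).trans h1
    exact h2 v ((memN w v).1 hv).1 ((memN w v).1 hv).2
  obtain ⟨Φ, hΦ⟩ : ∃ Φ : V → Finset α, Φ = fun b =>
      (((nbc E b).erase b).filter fun a => a ∈ F ∧ g a ∈ T).biUnion fun a => N (g a) := ⟨_, rfl⟩
  have memΦ : ∀ b v, v ∈ Φ b ↔ ∃ a, a ≠ b ∧ a ∈ nbc E b ∧ a ∈ F ∧ g a ∈ T ∧ v ∈ T ∧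
      Bd (g a) v := by
    intro b v
    rw [hΦ]
    simp only [Finset.mem_biUnion, Finset.mem_filter, Finset.mem_erase, memN]
    constructor
    · rintro ⟨a, ⟨⟨h1, h2⟩, h3, h4⟩, h5, h6⟩
      exact ⟨a, h1, h2, h3, h4, h5, h6⟩
    · rintro ⟨a, h1, h2, h3, h4, h5, h6⟩
      exact ⟨a, ⟨⟨h1, h2⟩, h3, h4⟩, h5, h6⟩
  have hΦc : ∀ b ∈ B', (Φ b).card ≤ 2 * Δ * ψ := by
    intro b _
    rw [hΦ]
    refine (Finset.card_biUnion_le_card_mul _ _ ψ fun a ha => ?_).trans ?_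
    · exact hNc (g a) (Finset.mem_filter.1 ha).2.2
    · refine Nat.mul_le_mul_right _ ((Finset.card_filter_le _ _).trans ?_)
      exact EmbB_nb E Δ hH b
  have hΦ'c : ∀ w ∈ W', ∃ Bw : Finset V, Bw.card ≤ 2 * Δ * ψ ∧ ∀ b ∈ B', w ∈ Φ b → b ∈ Bw := by
    intro w hw
    refine ⟨(F.filter fun a => g a ∈ N w).biUnion fun a => (nbc E a).erase a, ?_, ?_⟩
    · refine (Finset.card_biUnion_le_card_mul _ _ (2 * Δ) fun a _ => EmbB_nb E Δ hH a).trans ?_
      have h1 : (F.filter fun a => g a ∈ N w).card ≤ (N w).card := by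
        refine Finset.card_le_card_of_injOn g (fun a ha => ?_) fun a ha b hb hab => ?_
        · exact (Finset.mem_filter.1 (Finset.mem_coe.1 ha)).2
        · exact gi (Finset.mem_coe.2 (Finset.mem_filter.1 (Finset.mem_coe.1 ha)).1)
            (Finset.mem_coe.2 (Finset.mem_filter.1 (Finset.mem_coe.1 hb)).1) hab
      calc (F.filter fun a => g a ∈ N w).card * (2 * Δ) ≤ ψ * (2 * Δ) :=
            Nat.mul_le_mul_right _ (h1.trans (hNc w (hWT hw)))
        _ = 2 * Δ * ψ := by ring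
    · intro b _ hwb
      obtain ⟨a, h1, h2, h3, h4, h5, h6⟩ := (memΦ b w).1 hwb
      rw [Finset.mem_biUnion]
      refine ⟨a, Finset.mem_filter.2 ⟨h3, (memN w (g a)).2 ⟨h4, hBd _ _ h6⟩⟩, ?_⟩
      rw [Finset.mem_erase]
      exact ⟨h1.symm, (mem_nbc_symm E b a).1 h2⟩
  have hnum' : 2 * Δ * ψ + 2 * Δ * ψ + 2 * (2 * Δ * ψ) + 2 * Δ + 1 < B'.card := by
    have e1 : 2 * Δ * ψ = 2 * (Δ * ψ) := by ring
    rw [e1]
    generalize Δ * ψ = m at hnum ⊢
    generalize A.card * (1 + u) = k at hnum hFc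
    omega
  obtain ⟨φ', p1, p2, p3, p4⟩ := switch_x B' W' (by omega)
    (fun a b => a ≠ b ∧ ∃ f ∈ E, a ∈ f ∧ b ∈ f)
    (fun a b h => ⟨h.1.symm, h.2.imp fun f hf => ⟨hf.1, hf.2.2, hf.2.1⟩⟩) (2 * Δ)
    (fun b _ => ⟨(nbc E b).erase b, EmbB_nb E Δ hH b, fun a _ h =>
      Finset.mem_erase.2 ⟨h.1.symm, (Far_mem_nbc E b a).2 (Or.inr h.2)⟩⟩)
    (fun a h => h.1 rfl) Bd hBd ψ
    (fun w hw => by
      obtain ⟨Nw, h1, h2⟩ := hψ w (hWT hw)
      exact ⟨Nw, h1, fun v hv hb => h2 v (hWT hv) hb⟩)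
    Φ (2 * Δ * ψ) (2 * Δ * ψ) hΦc hΦ'c hnum'
  obtain ⟨φ, hφ⟩ : ∃ φ : V → α, φ = fun y => if y ∈ F then g y else φ' y := ⟨_, rfl⟩
  have φ1 : ∀ y ∈ F, φ y = g y := by
    intro y hy
    rw [hφ]
    simp only [if_pos hy]
  have φ2 : ∀ y, y ∉ F → φ y = φ' y := by
    intro y hy
    rw [hφ]
    simp only [if_neg hy]
  have φ'W : ∀ y ∈ B', φ' y ∈ W' := by
    intro y hy
    rw [← p2]
    exact Finset.mem_image_of_mem _ hy
  have cross : ∀ a ∈ F, ∀ b ∈ B', g a ≠ φ' b := by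
    intro a ha b hb hab
    have h1 := φ'W b hb
    rw [hW', Finset.mem_sdiff, ← hab] at h1
    exact h1.2 (Finset.mem_image_of_mem _ ha)
  have hxF : ∀ w ∈ A, ∀ y ∈ zone E I (x w), y ∈ F := fun w hw y hy =>
    (memF y).2 (Or.inr ⟨w, hw, hy⟩)
  refine ⟨φ, ?_, ?_, ?_, ?_, ?_, ?_⟩
  · intro a ha b hb hab
    have ha' : a ∉ I := ha
    have hb' : b ∉ I := hb
    by_cases haF : a ∈ F
    · rw [φ1 a haF] at hab
      by_cases hbF : b ∈ F
      · rw [φ1 b hbF] at hab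
        exact gi (Finset.mem_coe.2 haF) (Finset.mem_coe.2 hbF) hab
      · rw [φ2 b hbF] at hab
        exact absurd hab (cross a haF b ((memB b).2 ⟨hb', hbF⟩))
    · rw [φ2 a haF] at hab
      by_cases hbF : b ∈ F
      · rw [φ1 b hbF] at hab
        exact absurd hab.symm (cross b hbF a ((memB a).2 ⟨ha', haF⟩))
      · rw [φ2 b hbF] at hab
        exact p1 (Finset.mem_coe.2 ((memB a).2 ⟨ha', haF⟩))
          (Finset.mem_coe.2 ((memB b).2 ⟨hb', hbF⟩)) hab
  · intro y hy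
    by_cases hyF : y ∈ F
    · rw [φ1 y hyF]
      exact gT y hyF
    · rw [φ2 y hyF]
      exact Finset.mem_union_left _ (hWT (φ'W y ((memB y).2 ⟨hy, hyF⟩)))
  · intro w hw
    rw [φ1 _ (hxF w hw _ (hxz w)), gx w hw]
  · intro w hw y hy
    rw [φ1 _ (hxF w hw _ (Finset.mem_of_mem_erase hy))]
    exact gQ w hw y hy
  · intro y hy
    rw [φ1 y ((memF y).2 (Or.inl hy))]
    exact gB y hy
  · intro f hf a ha b hb haI hbI hab haT hbT
    -- one of the two vertices in `F`, the other one in `B'`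
    have one : ∀ a b, a ∈ f → b ∈ f → a ∈ F → b ∉ F → b ∉ I → a ≠ b → φ a ∈ T → φ b ∈ T →
        ¬ Bd (φ a) (φ b) := by
      intro a b ha hb haF hbF hbI hab haT hbT hcon
      rw [φ1 a haF] at haT hcon
      rw [φ2 b hbF] at hbT hcon
      refine p3 b ((memB b).2 ⟨hbI, hbF⟩) ((memΦ b _).2 ⟨a, hab, ?_, haF, haT, hbT, hcon⟩)
      exact (Far_mem_nbc E b a).2 (Or.inr ⟨f, hf, hb, ha⟩)
    by_cases haF : a ∈ F
    · by_cases hbF : b ∈ F
      · rw [φ1 a haF] at haT ⊢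
        rw [φ1 b hbF] at hbT ⊢
        have hgab : g a ≠ g b := fun h => hab (gi (Finset.mem_coe.2 haF) (Finset.mem_coe.2 hbF) h)
        rcases (memF a).1 haF with haB | ⟨w, hw, haw⟩
        · rcases (memF b).1 hbF with hbB | ⟨w', hw', hbw⟩
          · exact hYB _ (gB a haB) _ (gB b hbB) hgab
          · exact absurd ha ((hzB w' hw' b hbw a haB).2 f hf hb)
        · rcases (memF b).1 hbF with hbB | ⟨w', hw', hbw⟩
          · exact absurd hb ((hzB w hw a haw b hbB).2 f hf ha)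
          · by_cases hww : w = w'
            · subst hww
              have h1 : a ≠ x w := by
                intro h
                rw [h, gx w hw] at haT
                exact Finset.disjoint_left.1 hTA haT hw
              have h2 : b ≠ x w := by
                intro h
                rw [h, gx w hw] at hbT
                exact Finset.disjoint_left.1 hTA hbT hw
              exact (hQ w hw).2.2.2 _ (gQ w hw a (Finset.mem_erase.2 ⟨h1, haw⟩)) _
                (gQ w hw b (Finset.mem_erase.2 ⟨h2, hbw⟩)) hgab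
            · exact absurd hb ((hz w hw w' hw' hww a haw b hbw).2 f hf ha)
      · exact one a b ha hb haF hbF hbI hab haT hbT
    · by_cases hbF : b ∈ F
      · exact fun hcon => one b a hb ha hbF haF haI hab.symm hbT haT (hBd _ _ hcon)
      · rw [φ2 a haF, φ2 b hbF]
        exact p4 a ((memB a).2 ⟨haI, haF⟩) b ((memB b).2 ⟨hbI, hbF⟩) ⟨hab, f, hf, ha, hb⟩

end Pool.MP7783b9
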