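import Pool.Agent.H.MP_7783b9_co.X.EmbB
import Pool.Agent.H.MP_7783b9_co.X.CliqC

/-!
# The red copy in the cyclic template
-/

set_option autoImplicit false

open Finset

namespace Pool.MP7783b9

/-- an injective choice of representatives when every set is larger than the number of the other
sets which meet it -/
theorem EmbC_inj {V : Type*} {α : Type} [DecidableEq V] [DecidableEq α] (I : Finset V)
    (G : V → Finset α) (ρ₀ : V → α)
    (h : ∀ y ∈ I, (I.filter fun y' => y' ≠ y ∧ ¬ Disjoint (G y) (G y')).card < (G y).card) :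
    ∃ ρ : V → α, (∀ y, y ∉ I → ρ y = ρ₀ y) ∧ (∀ y ∈ I, ρ y ∈ G y) ∧
      ∀ y ∈ I, ∀ y' ∈ I, ρ y = ρ y' → y = y' := by
  have key : ∀ I' : Finset V, I' ⊆ I → ∃ ρ : V → α, (∀ y, y ∉ I' → ρ y = ρ₀ y) ∧
      (∀ y ∈ I', ρ y ∈ G y) ∧ ∀ y ∈ I', ∀ y' ∈ I', ρ y = ρ y' → y = y' := by
    intro I'
    induction I' using Finset.induction_on with
    | empty =>
      intro _
      exact ⟨ρ₀, fun _ _ => rfl, fun y hy => absurd hy (Finset.notMem_empty y),
        fun y hy => absurd hy (Finset.notMem_empty y)⟩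
    | insert x I' hx ih =>
      intro hsub
      have hxI : x ∈ I := hsub (Finset.mem_insert_self x I')
      have hsub' : I' ⊆ I := (Finset.subset_insert x I').trans hsub
      obtain ⟨ρ, h1, h2, h3⟩ := ih hsub'
      have hb : ((I'.filter fun y' => ¬ Disjoint (G x) (G y')).image ρ).card < (G x).card := by
        refine lt_of_le_of_lt (Finset.card_image_le.trans (Finset.card_le_card ?_)) (h x hxI)
        intro y hy
        rw [Finset.mem_filter] at hy ⊢
        exact ⟨hsub' hy.1, fun e => hx (e ▸ hy.1), hy.2⟩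
      obtain ⟨v, hv, hv'⟩ := Finset.exists_mem_notMem_of_card_lt_card hb
      have hne : ∀ y ∈ I', ρ y ≠ v := by
        intro y hy e
        apply hv'
        rw [Finset.mem_image]
        refine ⟨y, ?_, e⟩
        rw [Finset.mem_filter]
        refine ⟨hy, fun hd => ?_⟩
        exact Finset.disjoint_left.1 hd hv (e ▸ h2 y hy)
      refine ⟨Function.update ρ x v, ?_, ?_, ?_⟩
      · intro y hy
        rw [Finset.mem_insert, not_or] at hy
        rw [Function.update_of_ne hy.1]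
        exact h1 y hy.2
      · intro y hy
        by_cases hyx : y = x
        · rw [hyx, Function.update_self]
          exact hv
        · rw [Function.update_of_ne hyx]
          exact h2 y (Finset.mem_of_mem_insert_of_ne hy hyx)
      · intro y hy y' hy' e
        by_cases hyx : y = x
        · by_cases hyx' : y' = x
          · rw [hyx, hyx']
          · rw [hyx, Function.update_self, Function.update_of_ne hyx'] at e
            exact absurd e.symm (hne y' (Finset.mem_of_mem_insert_of_ne hy' hyx'))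
        · by_cases hyx' : y' = x
          · rw [hyx', Function.update_self, Function.update_of_ne hyx] at e
            exact absurd e (hne y (Finset.mem_of_mem_insert_of_ne hy hyx))
          · rw [Function.update_of_ne hyx, Function.update_of_ne hyx'] at e
            exact h3 y (Finset.mem_of_mem_insert_of_ne hy hyx) y'
              (Finset.mem_of_mem_insert_of_ne hy' hyx') e
  exact key I (Finset.Subset.refl I)

theorem EmbC_bU {ι α : Type*} [DecidableEq α] (S : Finset ι) (t : ι → Finset α) (r : ℝ)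
    (h : ∀ a ∈ S, ((t a).card : ℝ) ≤ r) : ((S.biUnion t).card : ℝ) ≤ (S.card : ℝ) * r := by
  have h1 : ((S.biUnion t).card : ℝ) ≤ ∑ a ∈ S, ((t a).card : ℝ) := by
    exact_mod_cast Finset.card_biUnion_le
  refine h1.trans ((Finset.sum_le_sum h).trans (le_of_eq ?_))
  rw [Finset.sum_const, nsmul_eq_mul]

/-- the edges disjoint from `I` -/
theorem EmbC_BS {V : Type*} [DecidableEq V] {S : Finset V} (E : Finset (Finset V)) (Δ s : ℕ)
    (hH : Hyp S E Δ) (Ss I : Finset V) (hs : Ss.card ≤ s)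
    (h : ∀ f ∈ E, Disjoint f Ss → (f ∩ I).Nonempty) :
    ((E.filter fun f => Disjoint f I).biUnion id).card ≤ 3 * (s * Δ) := by
  have h1 : (E.filter fun f => Disjoint f I) ⊆ Ss.biUnion (edgesAt E) := by
    intro f hf
    rw [Finset.mem_filter] at hf
    have h2 : ¬ Disjoint f Ss := by
      intro hd
      have h3 := h f hf.1 hd
      rw [Finset.disjoint_iff_inter_eq_empty.1 hf.2] at h3
      exact Finset.not_nonempty_empty h3
    rw [Finset.not_disjoint_iff] at h2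
    obtain ⟨y, hy1, hy2⟩ := h2
    rw [Finset.mem_biUnion]
    refine ⟨y, hy2, ?_⟩
    unfold edgesAt
    rw [Finset.mem_filter]
    exact ⟨hf.1, hy1⟩
  have h2 : (Ss.biUnion (edgesAt E)).card ≤ Ss.card * Δ :=
    Finset.card_biUnion_le_card_mul _ _ _ fun x _ => hH.deg x
  have h3 : ((E.filter fun f => Disjoint f I).biUnion id).card ≤
      (E.filter fun f => Disjoint f I).card * 3 := by
    refine Finset.card_biUnion_le_card_mul _ _ _ fun f hf => ?_
    rw [Finset.mem_filter] at hf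
    exact (hH.three f hf.1).le
  have h4 : Ss.card * Δ ≤ s * Δ := Nat.mul_le_mul_right Δ hs
  have h5 := Finset.card_le_card h1
  omega

theorem EmbC_codsymm {α : Type} [DecidableEq α] (R : Finset α → Prop) (W : Finset α)
    (x y : α) : cod R W y x = cod R W x y := by
  ext z
  rw [mem_cod, mem_cod]
  constructor
  · rintro ⟨h1, h2, h3, h4, h5⟩
    refine ⟨h1, h2.symm, h4, h3, ?_⟩
    rwa [Finset.insert_comm x y]
  · rintro ⟨h1, h2, h3, h4, h5⟩
    refine ⟨h1, h2.symm, h4, h3, ?_⟩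
    rwa [Finset.insert_comm y x]

/-- the vertices of `I` are embedded after the others -/
theorem EmbC_last {V : Type*} {α : Type} [Fintype V] [DecidableEq V] [DecidableEq α]
    (E : Finset (Finset V)) (Δ : ℕ) (hH : Hyp Finset.univ E Δ) (I : Finset V)
    (hI : StrongIndep E I) (n : ℕ) (hn : 0 < n) (hIn : 100 * I.card ≤ 40 * n)
    (R : Finset α → Prop) (U T A Vm : Finset α) (hTU : T ⊆ U) (hAU : A ⊆ U) (hVU : Vm ⊆ U)
    (hTV : Disjoint T Vm) (hAV : Disjoint A Vm) (hVm : 54 * n ≤ 100 * Vm.card)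
    (hAn : 100 * (A.card * Δ) ≤ n) (θ : ℝ) (hθ : 100 * ((Δ : ℝ) * (θ * n)) ≤ n)
    (BS : Finset V) (hBS : ∀ f ∈ E, Disjoint f I → f ⊆ BS) (Y : Finset α)
    (hY : RedClique R Y) (x : α → V) (hxI : ∀ w ∈ A, x w ∉ I)
    (hnI : ∀ w ∈ A, (nI E I (x w)).card ≤ Δ)
    (hd : ∀ w ∈ A, ∀ w' ∈ A, w ≠ w' → Disjoint (nI E I (x w)) (nI E I (x w')))
    (P Q : α → Finset α) (hPV : ∀ w ∈ A, P w ⊆ Vm) (hPc : ∀ w ∈ A, (P w).card = Δ)
    (hPQ1 : ∀ w ∈ A, ∀ p ∈ P w, ∀ q ∈ Q w, R {w, p, q})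
    (hPQ2 : ∀ w ∈ A, ∀ p ∈ P w, ∀ q ∈ Q w, ∀ q' ∈ Q w, q ≠ q' → R {p, q, q'})
    (hPd : ∀ w ∈ A, ∀ w' ∈ A, w ≠ w' → Disjoint (P w) (P w'))
    (φ₀ : V → α) (hφi : Set.InjOn φ₀ {y | y ∉ I}) (hφm : ∀ y, y ∉ I → φ₀ y ∈ T ∪ A)
    (hφx : ∀ w ∈ A, φ₀ (x w) = w)
    (hφQ : ∀ w ∈ A, ∀ y ∈ (zone E I (x w)).erase (x w), φ₀ y ∈ Q w)
    (hφB : ∀ y ∈ BS, φ₀ y ∈ Y)
    (hφT : ∀ f ∈ E, ∀ a ∈ f, ∀ b ∈ f, a ∉ I → b ∉ I → a ≠ b → φ₀ a ∈ T → φ₀ b ∈ T →
      ((cod R Vm (φ₀ a) (φ₀ b)).card : ℝ) ≤ θ * n) :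
    HasRed R Finset.univ E U := by
  classical
  -- the other two vertices of an edge
  have hother : ∀ f ∈ E, ∀ y ∈ f, y ∈ I → ∀ a ∈ f, a ≠ y → a ∉ I := by
    intro f hf y hy hyI a ha hay haI
    have h1 := Finset.card_le_one.1 (hI f hf) a (Finset.mem_inter.2 ⟨ha, haI⟩) y
      (Finset.mem_inter.2 ⟨hy, hyI⟩)
    exact hay h1
  have hnImem : ∀ f ∈ E, ∀ y ∈ f, y ∈ I → ∀ z ∈ f, y ∈ nI E I z := by
    intro f hf y hy hyI z hz
    unfold nI
    rw [Finset.mem_inter, Far_mem_nbc]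
    exact ⟨Or.inr ⟨f, hf, hz, hy⟩, hyI⟩
  have hzone : ∀ f ∈ E, ∀ y ∈ f, ∀ w, y ∈ nI E I w → ∀ a ∈ f, a ∉ I → a ∈ zone E I w := by
    intro f hf y hy w hyw a ha haI
    unfold zone
    rw [Finset.mem_insert, Finset.mem_sdiff, Finset.mem_biUnion]
    refine Or.inr ⟨⟨y, hyw, ?_⟩, haI⟩
    rw [Far_mem_nbc]
    exact Or.inr ⟨f, hf, hy, ha⟩
  -- the sets of possible images
  let F : V → Finset α := fun y => A.biUnion P ∪
    (edgesAt E y).biUnion fun f => (f.erase y).offDiag.biUnion fun p =>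
      cod R Vm (φ₀ p.1) (φ₀ p.2)
  have hF1 : ∀ y, A.biUnion P ⊆ F y := fun y => Finset.subset_union_left
  have hF2 : ∀ y, ∀ f ∈ E, y ∈ f → ∀ a ∈ f, ∀ b ∈ f, a ≠ y → b ≠ y → a ≠ b →
      cod R Vm (φ₀ a) (φ₀ b) ⊆ F y := by
    intro y f hf hy a ha b hb hay hby hab v hv
    refine Finset.mem_union_right _ ?_
    rw [Finset.mem_biUnion]
    refine ⟨f, ?_, ?_⟩
    · unfold edgesAt
      rw [Finset.mem_filter]
      exact ⟨hf, hy⟩
    · rw [Finset.mem_biUnion]
      refine ⟨(a, b), ?_, hv⟩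
      rw [Finset.mem_offDiag]
      exact ⟨Finset.mem_erase.2 ⟨hay, ha⟩, Finset.mem_erase.2 ⟨hby, hb⟩, hab⟩
  have hmT : ∀ f ∈ E, ∀ y ∈ f, y ∈ I → (∀ w ∈ A, y ∉ nI E I (x w)) → ∀ a ∈ f, a ≠ y →
      φ₀ a ∈ T := by
    intro f hf y hy hyI hno a ha hay
    have haI := hother f hf y hy hyI a ha hay
    rcases Finset.mem_union.1 (hφm a haI) with h | h
    · exact h
    · exfalso
      have h1 : a = x (φ₀ a) := hφi haI (hxI _ h) (hφx _ h).symm
      apply hno _ h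
      rw [← h1]
      exact hnImem f hf y hy hyI a ha
  have hF3 : ∀ y ∈ I, (∀ w ∈ A, y ∉ nI E I (x w)) → 100 * ((F y).card : ℝ) ≤ 3 * n := by
    intro y hyI hno
    have h1 : ((A.biUnion P).card : ℝ) ≤ (A.card : ℝ) * (Δ : ℝ) := by
      refine EmbC_bU A P _ fun w hw => ?_
      rw [hPc w hw]
    have h2 : (((edgesAt E y).biUnion fun f => (f.erase y).offDiag.biUnion fun p =>
        cod R Vm (φ₀ p.1) (φ₀ p.2)).card : ℝ) ≤ ((edgesAt E y).card : ℝ) * (2 * (θ * n)) := by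
      refine EmbC_bU _ _ _ fun f hf => ?_
      unfold edgesAt at hf
      rw [Finset.mem_filter] at hf
      have h3 : ((f.erase y).offDiag).card = 2 := by
        rw [Finset.offDiag_card, Finset.card_erase_of_mem hf.2, hH.three f hf.1]
      have h4 := EmbC_bU (f.erase y).offDiag (fun p => cod R Vm (φ₀ p.1) (φ₀ p.2)) (θ * n)
        (fun p hp => by
          rw [Finset.mem_offDiag, Finset.mem_erase, Finset.mem_erase] at hp
          obtain ⟨⟨p1, p2⟩, ⟨p3, p4⟩, p5⟩ := hp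
          exact hφT f hf.1 p.1 p2 p.2 p4 (hother f hf.1 y hf.2 hyI _ p2 p1)
            (hother f hf.1 y hf.2 hyI _ p4 p3) p5
            (hmT f hf.1 y hf.2 hyI hno _ p2 p1) (hmT f hf.1 y hf.2 hyI hno _ p4 p3))
      rw [h3] at h4
      exact_mod_cast h4
    have h3 : ((F y).card : ℝ) ≤ ((A.biUnion P).card : ℝ) +
        (((edgesAt E y).biUnion fun f => (f.erase y).offDiag.biUnion fun p =>
        cod R Vm (φ₀ p.1) (φ₀ p.2)).card : ℝ) := by
      exact_mod_cast Finset.card_union_le _ _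
    have h4 : ((edgesAt E y).card : ℝ) ≤ (Δ : ℝ) := by exact_mod_cast hH.deg y
    have h5 : 100 * ((A.card : ℝ) * (Δ : ℝ)) ≤ n := by exact_mod_cast hAn
    have h6 : ((edgesAt E y).card : ℝ) * (2 * (θ * n)) ≤ 2 * n / 100 := by
      rcases le_or_gt 0 (θ * (n : ℝ)) with h7 | h7
      · have h8 := mul_le_mul_of_nonneg_right h4 h7
        linarith only [h8, hθ]
      · have h8 : ((edgesAt E y).card : ℝ) * (θ * n) ≤ 0 :=
          mul_nonpos_of_nonneg_of_nonpos (Nat.cast_nonneg _) h7.le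
        have h9 : (0 : ℝ) ≤ n := Nat.cast_nonneg _
        linarith only [h8, h9]
    linarith only [h1, h2, h3, h5, h6]
  let G : V → Finset α := fun y =>
    if h : ∃ w ∈ A, y ∈ nI E I (x w) then P h.choose else Vm \ F y
  have hG1 : ∀ w ∈ A, ∀ y ∈ nI E I (x w), G y = P w := by
    intro w hw y hy
    have h : ∃ w ∈ A, y ∈ nI E I (x w) := ⟨w, hw, hy⟩
    have h1 : G y = P h.choose := dif_pos h
    have h2 : h.choose = w := by
      by_contra hne
      exact Finset.disjoint_left.1 (hd _ h.choose_spec.1 w hw hne) h.choose_spec.2 hy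
    rw [h1, h2]
  have hG2 : ∀ y, (∀ w ∈ A, y ∉ nI E I (x w)) → G y = Vm \ F y := by
    intro y hy
    have h : ¬ ∃ w ∈ A, y ∈ nI E I (x w) := by
      rintro ⟨w, hw, h1⟩
      exact hy w hw h1
    exact dif_neg h
  have hsplit : ∀ y, (∃ w ∈ A, y ∈ nI E I (x w)) ∨ ∀ w ∈ A, y ∉ nI E I (x w) := by
    intro y
    by_cases h : ∃ w ∈ A, y ∈ nI E I (x w)
    · exact Or.inl h
    · exact Or.inr fun w hw h1 => h ⟨w, hw, h1⟩
  clear_value G F
  have hGV : ∀ y, G y ⊆ Vm := by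
    intro y
    rcases hsplit y with ⟨w, hw, h⟩ | h
    · rw [hG1 w hw y h]
      exact hPV w hw
    · rw [hG2 y h]
      exact Finset.sdiff_subset
  have hcount : ∀ y ∈ I,
      (I.filter fun y' => y' ≠ y ∧ ¬ Disjoint (G y) (G y')).card < (G y).card := by
    intro y hyI
    rcases hsplit y with ⟨w, hw, h⟩ | h
    · rw [hG1 w hw y h, hPc w hw]
      have hsub : (I.filter fun y' => y' ≠ y ∧ ¬ Disjoint (P w) (G y')) ⊆
          (nI E I (x w)).erase y := by
        intro y' hy'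
        rw [Finset.mem_filter] at hy'
        obtain ⟨_, h1, h2⟩ := hy'
        rw [Finset.mem_erase]
        refine ⟨h1, ?_⟩
        rcases hsplit y' with ⟨w', hw', h3⟩ | h3
        · rw [hG1 w' hw' y' h3] at h2
          by_cases hww : w = w'
          · rw [hww]
            exact h3
          · exact absurd (hPd w hw w' hw' hww) h2
        · exfalso
          rw [hG2 y' h3] at h2
          apply h2
          rw [Finset.disjoint_left]
          intro v hv hv'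
          exact (Finset.mem_sdiff.1 hv').2 (hF1 y' (Finset.mem_biUnion.2 ⟨w, hw, hv⟩))
      have h1 := Finset.card_le_card hsub
      rw [Finset.card_erase_of_mem h] at h1
      have h2 := Finset.card_pos.2 ⟨y, h⟩
      have h3 := hnI w hw
      omega
    · rw [hG2 y h]
      have h1 : (I.filter fun y' => y' ≠ y ∧ ¬ Disjoint (Vm \ F y) (G y')).card ≤ I.card :=
        Finset.card_le_card (Finset.filter_subset _ _)
      have h2 := hF3 y hyI h
      have h3 : 100 * (F y).card ≤ 3 * n := by exact_mod_cast h2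
      have h4 := Finset.le_card_sdiff (F y) Vm
      omega
  obtain ⟨φ, f1, f2, f3⟩ := EmbC_inj I G φ₀ hcount
  have hφV : ∀ y ∈ I, φ y ∈ Vm := fun y hy => hGV y (f2 y hy)
  have hTAV : ∀ v ∈ T ∪ A, v ∉ Vm := by
    intro v hv hv'
    rcases Finset.mem_union.1 hv with h | h
    · exact Finset.disjoint_left.1 hTV h hv'
    · exact Finset.disjoint_left.1 hAV h hv'
  have hinj : Function.Injective φ := by
    intro y y' e
    by_cases hy : y ∈ I
    · by_cases hy' : y' ∈ I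
      · exact f3 y hy y' hy' e
      · exfalso
        apply hTAV (φ y')
        · rw [f1 y' hy']
          exact hφm y' hy'
        · rw [← e]
          exact hφV y hy
    · by_cases hy' : y' ∈ I
      · exfalso
        apply hTAV (φ y)
        · rw [f1 y hy]
          exact hφm y hy
        · rw [e]
          exact hφV y' hy'
      · rw [f1 y hy, f1 y' hy'] at e
        exact hφi hy hy' e
  refine ⟨φ, hinj.injOn, ?_, ?_⟩
  · intro v _
    by_cases hv : v ∈ I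
    · exact hVU (hφV v hv)
    · rw [f1 v hv]
      rcases Finset.mem_union.1 (hφm v hv) with h | h
      · exact hTU h
      · exact hAU h
  · intro f hf
    have hf3 := hH.three f hf
    by_cases hdis : Disjoint f I
    · apply hY
      · intro v hv
        rw [Finset.mem_image] at hv
        obtain ⟨y, hy, rfl⟩ := hv
        rw [f1 y (Finset.disjoint_left.1 hdis hy)]
        exact hφB y (hBS f hf hdis hy)
      · rw [Finset.card_image_of_injective _ hinj, hf3]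
    · rw [Finset.not_disjoint_iff] at hdis
      obtain ⟨y, hy, hyI⟩ := hdis
      have h2 : (f.erase y).card = 2 := by
        rw [Finset.card_erase_of_mem hy, hf3]
      obtain ⟨a, b, hab, he⟩ := Finset.card_eq_two.1 h2
      have ha : a ∈ f.erase y := by rw [he]; exact Finset.mem_insert_self _ _
      have hb : b ∈ f.erase y := by
        rw [he]
        exact Finset.mem_insert_of_mem (Finset.mem_singleton_self _)
      rw [Finset.mem_erase] at ha hb
      have haI := hother f hf y hy hyI a ha.2 ha.1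
      have hbI := hother f hf y hy hyI b hb.2 hb.1
      have himg : f.image φ = {φ y, φ₀ a, φ₀ b} := by
        rw [← Finset.insert_erase hy, he, Finset.image_insert, Finset.image_insert,
          Finset.image_singleton, f1 a haI, f1 b hbI]
      have hab0 : φ₀ a ≠ φ₀ b := fun e => hab (hφi haI hbI e)
      rw [himg]
      have hfy := f2 y hyI
      rcases hsplit y with ⟨w, hw, h⟩ | h
      · rw [hG1 w hw y h] at hfy
        have haz := hzone f hf y hy (x w) h a ha.2 haI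
        have hbz := hzone f hf y hy (x w) h b hb.2 hbI
        by_cases hax : a = x w
        · have hbx : b ≠ x w := fun e => hab (hax.trans e.symm)
          have h3 := hPQ1 w hw _ hfy _ (hφQ w hw b (Finset.mem_erase.2 ⟨hbx, hbz⟩))
          rw [hax, hφx w hw, Finset.insert_comm]
          exact h3
        · by_cases hbx : b = x w
          · have h3 := hPQ1 w hw _ hfy _ (hφQ w hw a (Finset.mem_erase.2 ⟨hax, haz⟩))
            rw [hbx, hφx w hw, Finset.pair_comm, Finset.insert_comm]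
            exact h3
          · exact hPQ2 w hw _ hfy _ (hφQ w hw a (Finset.mem_erase.2 ⟨hax, haz⟩)) _
              (hφQ w hw b (Finset.mem_erase.2 ⟨hbx, hbz⟩)) hab0
      · rw [hG2 y h, Finset.mem_sdiff] at hfy
        by_contra hR
        apply hfy.2
        apply hF2 y f hf hy a ha.2 b hb.2 ha.1 hb.1 hab
        rw [mem_cod]
        have haT := hmT f hf y hy hyI h a ha.2 ha.1
        have hbT := hmT f hf y hy hyI h b hb.2 hb.1
        refine ⟨hfy.1, hab0, ?_, ?_, ?_⟩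
        · intro e
          exact Finset.disjoint_left.1 hTV haT (e ▸ hfy.1)
        · intro e
          exact Finset.disjoint_left.1 hTV hbT (e ▸ hfy.1)
        · rwa [← pair_rot (φ y) (φ₀ a) (φ₀ b)]

theorem emb_c (Δ s : ℕ) (κ : ℝ) (hκ : 0 < κ) (hκ1 : κ ≤ 1) :
    ∃ (γ θ ψ τ : ℝ) (n₀ : ℕ), 0 < γ ∧ 0 < θ ∧ 0 < ψ ∧ 0 < τ ∧
      ∀ {V : Type*} {α : Type} [Fintype V] [DecidableEq V] [DecidableEq α]
      (E : Finset (Finset V)) (_ : Hyp Finset.univ E Δ) (Ss I : Finset V) (_ : Ss.card ≤ s)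
      (_ : StrongIndep E I) (_ : ∀ f ∈ E, Disjoint f Ss → (f ∩ I).Nonempty)
      (n : ℕ) (_ : n = Fintype.card V) (_ : n₀ ≤ n) (_ : 100 * I.card ≤ 40 * n)
      (R : Finset α → Prop) (U : Finset α) (_ : ¬ BlueFano R U) (T A Vm : Finset α)
      (_ : T ⊆ U) (_ : A ⊆ U) (_ : Vm ⊆ U) (_ : Disjoint T A) (_ : Disjoint T Vm)
      (_ : Disjoint A Vm) (_ : T.card + A.card + I.card = n) (_ : (A.card : ℝ) ≤ γ * n)
      (_ : 9 * (T.card + A.card) ≤ 10 * Vm.card) (_ : Vm.card ≤ 3 * n)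
      (_ : ∀ w ∈ T, ((T.filter fun w' => w ≠ w' ∧
        θ * (n : ℝ) ≤ ((cod R Vm w w').card : ℝ)).card : ℝ) ≤ ψ * n)
      (_ : (e3 R T T Vm : ℝ) ≤ τ * (n : ℝ) ^ 3)
      (_ : ∀ w ∈ A, κ * (n : ℝ) ^ 2 ≤ ((redP R w Vm T).card : ℝ)),
      HasRed R Finset.univ E U := by
  classical
  obtain ⟨ψ1, n1, hψ1, hcl⟩ := clique_c (3 * (s * Δ))
  obtain ⟨γ1, τ, ψ2, n2, hγ1, hτ, hψ2, hga⟩ := gadgets_c κ hκ hκ1 Δ (2 * Δ ^ 2) (3 * (s * Δ))
  have hΔ0 : (0 : ℝ) ≤ (Δ : ℝ) := Nat.cast_nonneg _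
  have hK : (0 : ℝ) < ((2 * (Δ : ℝ) + 1) ^ 5) := by positivity
  refine ⟨min γ1 (1 / (100 * (2 * (Δ : ℝ) + 1) ^ 5)), 1 / (100 * ((Δ : ℝ) + 1)),
    min (min ψ1 ψ2) (1 / (100 * ((Δ : ℝ) + 1))), τ,
    max n1 n2 + 100 * (3 * (s * Δ) * (2 * Δ + 1) ^ 3 + 2 * Δ + 1 + 3 * (s * Δ)) + 1,
    lt_min hγ1 (by positivity), by positivity,
    lt_min (lt_min hψ1 hψ2) (by positivity), hτ, ?_⟩
  intro V α _ _ _ E hH Ss I hSs hI hEI n hn hn0 hIn R U hF T A Vm hTU hAU hVU hTA hTV hAV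
    hsum hA hVm hVm3 hT he3 hred
  set γ : ℝ := min γ1 (1 / (100 * (2 * (Δ : ℝ) + 1) ^ 5)) with hγdef
  set θ : ℝ := 1 / (100 * ((Δ : ℝ) + 1)) with hθdef
  set ψ : ℝ := min (min ψ1 ψ2) θ with hψdef
  have hψ0 : 0 < ψ := lt_min (lt_min hψ1 hψ2) (by positivity)
  have hn1 : n1 ≤ n := by
    have := le_max_left n1 n2
    omega
  have hn2 : n2 ≤ n := by
    have := le_max_right n1 n2
    omega
  have hnpos : 0 < n := by omega
  have hnr : (0 : ℝ) < n := by exact_mod_cast hnpos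
  have hN1 : 100 * (3 * (s * Δ) * (2 * Δ + 1) ^ 3 + 2 * Δ + 1 + 3 * (s * Δ)) ≤ n := by omega
  -- sizes
  have hA5 : 100 * (A.card * (2 * Δ + 1) ^ 5) ≤ n := by
    have h1 : (A.card : ℝ) ≤ 1 / (100 * (2 * (Δ : ℝ) + 1) ^ 5) * n :=
      hA.trans (mul_le_mul_of_nonneg_right (min_le_right _ _) hnr.le)
    have h2 : 100 * ((A.card : ℝ) * (2 * (Δ : ℝ) + 1) ^ 5) ≤ n := by
      have h3 := mul_le_mul_of_nonneg_right h1 (by positivity :
        (0 : ℝ) ≤ 100 * (2 * (Δ : ℝ) + 1) ^ 5)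
      have h4 : 1 / (100 * (2 * (Δ : ℝ) + 1) ^ 5) * n * (100 * (2 * (Δ : ℝ) + 1) ^ 5) = n := by
        field_simp
      rw [h4] at h3
      linarith only [h3]
    exact_mod_cast h2
  have hpow : 1 + 2 * Δ ^ 2 ≤ (2 * Δ + 1) ^ 5 := by
    have h1 : (2 * Δ + 1) ^ 2 ≤ (2 * Δ + 1) ^ 5 := Nat.pow_le_pow_right (by omega) (by omega)
    have h2 : (2 * Δ + 1) ^ 2 = 4 * Δ ^ 2 + 4 * Δ + 1 := by ring
    omega
  have hpow' : Δ ≤ (2 * Δ + 1) ^ 5 := by
    have h1 : 2 * Δ + 1 ≤ (2 * Δ + 1) ^ 5 := Nat.le_self_pow (by omega) _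
    omega
  have hA1 : A.card * (1 + 2 * Δ ^ 2) ≤ A.card * (2 * Δ + 1) ^ 5 := Nat.mul_le_mul_left _ hpow
  have hA2 : A.card * Δ ≤ A.card * (2 * Δ + 1) ^ 5 := Nat.mul_le_mul_left _ hpow'
  have hA3 : A.card ≤ A.card * (2 * Δ + 1) ^ 5 := Nat.le_mul_of_pos_right _ (by positivity)
  have hθn : 100 * ((Δ : ℝ) * (θ * n)) ≤ n := by
    have h1 : 100 * ((Δ : ℝ) * (θ * n)) = (Δ : ℝ) / ((Δ : ℝ) + 1) * n := by
      rw [hθdef]
      field_simp
    rw [h1]
    have h2 : (Δ : ℝ) / ((Δ : ℝ) + 1) ≤ 1 := by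
      rw [div_le_one (by positivity)]
      linarith
    nlinarith only [h2, hnr]
  have hψn : 100 * (Δ * ⌊ψ * n⌋₊) ≤ n := by
    have h1 : (⌊ψ * n⌋₊ : ℝ) ≤ ψ * n := Nat.floor_le (by positivity)
    have h2 : ψ * n ≤ θ * n := mul_le_mul_of_nonneg_right (min_le_right _ _) hnr.le
    have h3 : (Δ : ℝ) * (⌊ψ * n⌋₊ : ℝ) ≤ (Δ : ℝ) * (θ * n) :=
      mul_le_mul_of_nonneg_left (h1.trans h2) hΔ0
    have h4 : 100 * ((Δ : ℝ) * (⌊ψ * n⌋₊ : ℝ)) ≤ n := by linarith only [h3, hθn]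
    exact_mod_cast h4
  have hcard : T.card + A.card = (Finset.univ.filter fun x => x ∉ I).card := by
    have h1 : (Finset.univ.filter fun x : V => x ∉ I) = Iᶜ := by
      ext y
      simp
    rw [h1, Finset.card_compl, ← hn]
    omega
  -- the bad pairs
  let Bd : α → α → Prop := fun a b => a ≠ b ∧ θ * (n : ℝ) ≤ ((cod R Vm a b).card : ℝ)
  have hBd : ∀ a b, Bd a b → Bd b a := by
    rintro a b ⟨h1, h2⟩
    refine ⟨h1.symm, ?_⟩
    rw [EmbC_codsymm R Vm a b]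
    exact h2
  have hBN : ∀ w ∈ T, ∃ Nw : Finset α, (Nw.card : ℝ) ≤ ψ * n ∧ ∀ v ∈ T, Bd w v → v ∈ Nw := by
    intro w hw
    refine ⟨_, hT w hw, fun v hv h => ?_⟩
    rw [Finset.mem_filter]
    exact ⟨hv, h⟩
  have hBN1 : ∀ w ∈ T, ∃ Nw : Finset α, (Nw.card : ℝ) ≤ ψ1 * n ∧
      ∀ v ∈ T, Bd w v → v ∈ Nw := by
    intro w hw
    obtain ⟨Nw, h1, h2⟩ := hBN w hw
    exact ⟨Nw, h1.trans (mul_le_mul_of_nonneg_right
      ((min_le_left _ _).trans (min_le_left _ _)) hnr.le), h2⟩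
  have hBN2 : ∀ w ∈ T, ∃ Nw : Finset α, (Nw.card : ℝ) ≤ ψ2 * n ∧
      ∀ v ∈ T, Bd w v → v ∈ Nw := by
    intro w hw
    obtain ⟨Nw, h1, h2⟩ := hBN w hw
    exact ⟨Nw, h1.trans (mul_le_mul_of_nonneg_right
      ((min_le_left _ _).trans (min_le_right _ _)) hnr.le), h2⟩
  have hBN3 : ∀ w ∈ T, ∃ Nw : Finset α, Nw.card ≤ ⌊ψ * n⌋₊ ∧ ∀ v ∈ T, Bd w v → v ∈ Nw := by
    intro w hw
    obtain ⟨Nw, h1, h2⟩ := hBN w hw
    exact ⟨Nw, Nat.le_floor h1, h2⟩
  -- the exceptional edges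
  set BS : Finset V := (E.filter fun f => Disjoint f I).biUnion id with hBSdef
  have hBSc : BS.card ≤ 3 * (s * Δ) := EmbC_BS E Δ s hH Ss I hSs hEI
  have hBSI : ∀ y ∈ BS, y ∉ I := by
    intro y hy
    rw [hBSdef, Finset.mem_biUnion] at hy
    obtain ⟨f, hf, hyf⟩ := hy
    rw [Finset.mem_filter] at hf
    exact Finset.disjoint_left.1 hf.2 hyf
  have hBSf : ∀ f ∈ E, Disjoint f I → f ⊆ BS := by
    intro f hf hd y hy
    rw [hBSdef, Finset.mem_biUnion]
    exact ⟨f, Finset.mem_filter.2 ⟨hf, hd⟩, hy⟩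
  have hBS3 : BS.card * (2 * Δ + 1) ^ 3 ≤ 3 * (s * Δ) * (2 * Δ + 1) ^ 3 :=
    Nat.mul_le_mul_right _ hBSc
  clear_value BS
  -- the red clique
  obtain ⟨Y, hYT, hYc, hYr, hYB⟩ := hcl R n hn1 U T hTU hF (by omega) Bd hBd hBN1
  -- the gadgets
  obtain ⟨P, Q, hPQ, hPQd⟩ := hga R n hn2 T Vm A Y (by omega) hVm3 hTV he3
    (hA.trans (mul_le_mul_of_nonneg_right (min_le_left _ _) hnr.le)) hYc.le Bd hBd hBN2 hred
  -- the positions of the atypical points
  obtain ⟨x, hx1, hx2, hx3⟩ := far_c E Δ hH I BS A (by omega)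
  have hzc : ∀ w ∈ A, (nI E I (x w)).card ≤ Δ ∧
      ((zone E I (x w)).erase (x w)).card ≤ 2 * Δ ^ 2 := fun w hw =>
    zone_card E Δ hH I hI (x w) (hx1 w hw)
  obtain ⟨φ₀, p1, p2, p3, p4, p5, p6⟩ := emb_b E Δ hH I T A Y hTA hcard Bd hBd ⌊ψ * n⌋₊ hBN3
    BS hBSI (by omega) hYT hYB x hx1 (fun w hw w' hw' hne => (hx2 w hw w' hw' hne).2) hx3
    Q (fun w hw => by
      obtain ⟨q1, q2, q3, q4, q5, q6, q7, q8⟩ := hPQ w hw
      exact ⟨q2, q5, by rw [q4]; exact (hzc w hw).2, q8⟩)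
    (fun w hw w' hw' hne => (hPQd w hw w' hw' hne).2) (2 * Δ ^ 2) (fun w hw => (hzc w hw).2)
    (by omega)
  refine EmbC_last E Δ hH I hI n hnpos hIn R U T A Vm hTU hAU hVU hTV hAV (by omega) (by omega)
    θ hθn BS hBSf Y hYr x hx1 (fun w hw => (hzc w hw).1)
    (fun w hw w' hw' hne => (hx2 w hw w' hw' hne).1) P Q (fun w hw => (hPQ w hw).1)
    (fun w hw => (hPQ w hw).2.2.1) (fun w hw => (hPQ w hw).2.2.2.2.2.1)
    (fun w hw => (hPQ w hw).2.2.2.2.2.2.1) (fun w hw w' hw' hne => (hPQd w hw w' hw' hne).1)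
    φ₀ p1 p2 p3 p4 p5 ?_
  intro f hf a ha b hb haI hbI hab haT hbT
  have h1 := p6 f hf a ha b hb haI hbI hab haT hbT
  by_contra h2
  exact h1 ⟨fun e => hab (p1 haI hbI e), (not_le.1 h2).le⟩

end Pool.MP7783b9
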