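import Pool.Agent.H.MP_7783b9_co.X.Base

/-!
# Configurations exist
-/

set_option autoImplicit false

open Finset

namespace Pool.MP7783b9

/-- the pairs of a list, `k` sides -/
theorem Ext_list {k : ℕ} (l : List (Fin k × Fin k)) : ∀ s : ℕ, ∃ r0 : ℕ, ∀ (r : ℕ)
    (P : Fin k → Fin k → Fin r → Fin r → Fin r → Prop)
    (_ : ∀ i j a b c, P i j a b c → P i j b a c) (X : Fin k → Finset (Fin r)),
    (∀ i, r0 ≤ (X i).card) → ∃ X' : Fin k → Finset (Fin r), (∀ i, X' i ⊆ X i) ∧
      (∀ i, (X' i).card = s) ∧ ∀ p ∈ l, p.1 ≠ p.2 → ProdR_hom (P p.1 p.2) (X' p.1) (X' p.2) := by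
  induction l with
  | nil =>
    intro s
    refine ⟨s, fun r P _ X hX => ?_⟩
    choose X' hX' hX'c using fun i => exists_subset_card_eq (hX i)
    exact ⟨X', hX', hX'c, fun p hp => absurd hp List.not_mem_nil⟩
  | cons p l ih =>
    intro s
    obtain ⟨N', hN'⟩ := ih s
    by_cases hp : p.1 = p.2
    · refine ⟨N', fun r P hP X hX => ?_⟩
      obtain ⟨X', h1, h2, h3⟩ := hN' r P hP X hX
      refine ⟨X', h1, h2, fun p' hp' hne => ?_⟩
      rcases List.mem_cons.1 hp' with h | h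
      · rw [h] at hne
        exact absurd hp hne
      · exact h3 p' h hne
    · obtain ⟨N, hN⟩ := prod_step N'
      refine ⟨max N N', fun r P hP X hX => ?_⟩
      obtain ⟨A, hA, B, hB, hAc, hBc, hAB⟩ := hN (X p.1) (X p.2) (P p.1 p.2) (hP p.1 p.2)
        ((le_max_left _ _).trans (hX p.1)) ((le_max_left _ _).trans (hX p.2))
      have hX1 : ∀ i, N' ≤ (Function.update (Function.update X p.1 A) p.2 B i).card := by
        intro i
        by_cases h2 : i = p.2
        · rw [h2, Function.update_self, hBc]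
        · rw [Function.update_of_ne h2]
          by_cases h1 : i = p.1
          · rw [h1, Function.update_self, hAc]
          · rw [Function.update_of_ne h1]
            exact (le_max_right _ _).trans (hX i)
      obtain ⟨X', h1, h2, h3⟩ := hN' r P hP _ hX1
      have e1 : X' p.1 ⊆ A := by
        have := h1 p.1
        rwa [Function.update_of_ne hp, Function.update_self] at this
      have e2 : X' p.2 ⊆ B := by
        have := h1 p.2
        rwa [Function.update_self] at this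
      refine ⟨X', fun i => ?_, h2, fun p' hp' hne => ?_⟩
      · by_cases h5 : i = p.2
        · rw [h5]
          exact e2.trans hB
        · by_cases h4 : i = p.1
          · rw [h4]
            exact e1.trans hA
          · have := h1 i
            rwa [Function.update_of_ne h5, Function.update_of_ne h4] at this
      · rcases List.mem_cons.1 hp' with h | h
        · rw [h]
          exact ProdR_hom_mono hAB e1 e2
        · exact h3 p' h hne

/-- Ramsey's theorem for `k` sides: pairs in one side and a point of another side -/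
theorem ram_prod (k q : ℕ) :
    ∃ r : ℕ, q ≤ r ∧ ∀ (P : Fin k → Fin k → Fin r → Fin r → Fin r → Prop)
      (_ : ∀ i j a b c, P i j a b c → P i j b a c),
      ∃ Q : Fin k → Finset (Fin r), (∀ i, (Q i).card = q) ∧
        ∀ i j, i ≠ j → (∀ a ∈ Q i, ∀ b ∈ Q i, ∀ c ∈ Q j, a ≠ b → P i j a b c) ∨
          (∀ a ∈ Q i, ∀ b ∈ Q i, ∀ c ∈ Q j, a ≠ b → ¬ P i j a b c) := by
  obtain ⟨r0, hr⟩ := Ext_list (Finset.univ : Finset (Fin k × Fin k)).toList q
  refine ⟨max q r0, le_max_left _ _, fun P hP => ?_⟩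
  obtain ⟨Q, -, h2, h3⟩ := hr (max q r0) P hP (fun _ => Finset.univ) fun i => by
    rw [Finset.card_univ, Fintype.card_fin]
    exact le_max_right _ _
  exact ⟨Q, h2, fun i j hij => h3 (i, j) (Finset.mem_toList.2 (Finset.mem_univ _)) hij⟩

/-- from `k` families of `r` parts one can choose `k` families of `q` smaller parts which
form a configuration -/
theorem ext_parts (k q : ℕ) (θ δ : ℝ) (hθ : 0 < θ) (hθ1 : 2 * θ ≤ 1) (hδ : 0 < δ) (hδ1 : δ ≤ 1) :
    ∃ (r : ℕ) (ρ : ℝ), q ≤ r ∧ 0 < ρ ∧ ρ ≤ 1 ∧ ∀ {α : Type} [DecidableEq α]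
      (R : Finset α → Prop) (N : ℕ) (_ : 0 < N) (V : Fin k → Fin r → Finset α)
      (_ : ∀ i a, (V i a).card = N)
      (_ : ∀ i a j b, (i, a) ≠ (j, b) → Disjoint (V i a) (V j b)),
      ∃ (N' : ℕ) (s : Fin k → Fin q → Fin r) (P : Fin k → Fin q → Finset α),
        ρ * (N : ℝ) ≤ N' ∧ 0 < N' ∧ (∀ i, Function.Injective (s i)) ∧
        (∀ i a, P i a ⊆ V i (s i a)) ∧ Cfg R δ θ N' P := by
  classical
  obtain ⟨r, hqr, hr⟩ := ram_prod k q
  obtain ⟨ρ, hρ, hρ1, hm⟩ := multi (k * r) (Finset.univ.filter fun T =>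
    T.1 ≠ T.2.1 ∧ T.1 ≠ T.2.2 ∧ T.2.1 ≠ T.2.2) (fun T hT => (Finset.mem_filter.1 hT).2)
    (2 * θ) (by positivity) hθ1 δ hδ hδ1
  refine ⟨r, ρ, hqr, hρ, hρ1, ?_⟩
  intro α _ R N hN V hV hVd
  obtain ⟨N', hN', V', hV', hT⟩ := hm R N
    (fun m => V (finProdFinEquiv.symm m).1 (finProdFinEquiv.symm m).2)
    (fun m => hV _ _) hN
  have hNR : (0 : ℝ) < N := by exact_mod_cast hN
  have hN'R : (0 : ℝ) < N' := lt_of_lt_of_le (mul_pos hρ hNR) hN'
  have hN'p : 0 < N' := by exact_mod_cast hN'R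
  have hVV : ∀ i a, V' (finProdFinEquiv (i, a)) ⊆ V i a := by
    intro i a
    have h1 := (hV' (finProdFinEquiv (i, a))).1
    rwa [Equiv.symm_apply_apply] at h1
  have he : (2 * θ) / 2 = θ := by ring
  rw [he] at hT
  have hT2 : ∀ x y z : Fin k × Fin r, x ≠ y → x ≠ z → y ≠ z →
      Sparse R δ (2 * θ) (V' (finProdFinEquiv x)) (V' (finProdFinEquiv y))
        (V' (finProdFinEquiv z)) ∨
      Dens R δ θ (V' (finProdFinEquiv x)) (V' (finProdFinEquiv y)) (V' (finProdFinEquiv z)) := by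
    intro x y z h1 h2 h3
    refine hT (finProdFinEquiv x, finProdFinEquiv y, finProdFinEquiv z) ?_
    rw [Finset.mem_filter]
    exact ⟨Finset.mem_univ _, fun h => h1 (finProdFinEquiv.injective h),
      fun h => h2 (finProdFinEquiv.injective h), fun h => h3 (finProdFinEquiv.injective h)⟩
  obtain ⟨Q, hQ, hQ2⟩ := hr (fun i j a b c => Sparse R δ (2 * θ) (V' (finProdFinEquiv (i, a)))
    (V' (finProdFinEquiv (i, b))) (V' (finProdFinEquiv (j, c)))) (fun i j a b c h => Link4_swap h)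
  choose s hs hsQ using fun i => Link4_sel (le_refl q) (hQ i)
  refine ⟨N', s, fun i a => V' (finProdFinEquiv (i, s i a)), hN', hN'p, hs,
    fun i a => hVV i _, ?_⟩
  constructor
  · intro i a
    exact (hV' _).2
  · intro i a j b hne
    refine Finset.disjoint_of_subset_left (hVV _ _) (Finset.disjoint_of_subset_right (hVV _ _)
      (hVd _ _ _ _ ?_))
    intro h
    have h1 : i = j := congrArg Prod.fst h
    subst h1
    have h2 : s i a = s i b := congrArg Prod.snd h
    exact hne (by rw [hs i h2])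
  · intro i j hij
    rcases hQ2 i j hij with h1 | h1
    · exact Or.inl fun a b c hab =>
        h1 _ (hsQ i a) _ (hsQ i b) _ (hsQ j c) fun h => hab (hs i h)
    · right
      intro a b c hab
      have h2 := h1 _ (hsQ i a) _ (hsQ i b) _ (hsQ j c) fun h => hab (hs i h)
      rcases hT2 (i, s i a) (i, s i b) (j, s j c)
        (fun h => hab (hs i (congrArg Prod.snd h))) (fun h => hij (congrArg Prod.fst h))
        (fun h => hij (congrArg Prod.fst h)) with h3 | h3
      · exact absurd h3 h2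
      · exact h3
  · intro i j l hij hil hjl a b c
    exact hT2 (i, s i a) (j, s j b) (l, s l c) (fun h => hij (congrArg Prod.fst h))
      (fun h => hil (congrArg Prod.fst h)) (fun h => hjl (congrArg Prod.fst h))

/-- `k` disjoint blocks of the same size contain a configuration -/
theorem ext_blocks (k q : ℕ) (θ δ : ℝ) (hθ : 0 < θ) (hθ1 : 2 * θ ≤ 1) (hδ : 0 < δ)
    (hδ1 : δ ≤ 1) :
    ∃ (ρ : ℝ) (m₀ : ℕ), 0 < ρ ∧ ρ ≤ 1 ∧ ∀ {α : Type} [DecidableEq α] (R : Finset α → Prop)
      (m : ℕ) (_ : m₀ ≤ m) (B : Fin k → Finset α) (_ : ∀ i, (B i).card = m)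
      (_ : ∀ i j, i ≠ j → Disjoint (B i) (B j)),
      ∃ (N' : ℕ) (P : Fin k → Fin q → Finset α),
        ρ * (m : ℝ) ≤ N' ∧ 0 < N' ∧ (∀ i a, P i a ⊆ B i) ∧ Cfg R δ θ N' P := by
  obtain ⟨r, ρ, hqr, hρ, hρ1, h⟩ := ext_parts k q θ δ hθ hθ1 hδ hδ1
  have hr0 : (0 : ℝ) ≤ r := Nat.cast_nonneg r
  refine ⟨ρ / (2 * (r + 1)), r + 1, by positivity, ?_, ?_⟩
  · rw [div_le_one (by positivity)]
    linarith only [hρ1, hr0]
  intro α _ R m hm B hB hBd
  obtain ⟨N1, hN1⟩ : ∃ N1 : ℕ, N1 = m / (r + 1) := ⟨_, rfl⟩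
  have hN1a : (r + 1) * N1 ≤ m := by rw [hN1]; exact Nat.mul_div_le m (r + 1)
  have hN1p : 0 < N1 := by
    rw [hN1]
    exact Nat.div_pos hm (Nat.succ_pos r)
  have hN1b : m ≤ 2 * (r + 1) * N1 := by
    have h1 : m < (r + 1) * (N1 + 1) := by
      rw [hN1]; exact Nat.lt_mul_div_succ m (Nat.succ_pos r)
    nlinarith only [h1, hN1p]
  have hV : ∀ i, ∃ V : Fin r → Finset α, (∀ a, V a ⊆ B i ∧ (V a).card = N1) ∧
      ∀ a b, a ≠ b → Disjoint (V a) (V b) := fun i =>
    disjoint_parts (B i) r N1 (by rw [hB i]; nlinarith only [hN1a])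
  choose V hV1 hV2 using hV
  obtain ⟨N', s, P, h1, h2, h3, h4, h5⟩ := h R N1 hN1p V (fun i a => (hV1 i a).2) (by
    intro i a j b hne
    by_cases hij : i = j
    · subst hij
      exact hV2 i a b fun hab => hne (by rw [hab])
    · exact Finset.disjoint_of_subset_left (hV1 i a).1
        (Finset.disjoint_of_subset_right (hV1 j b).1 (hBd i j hij)))
  refine ⟨N', P, ?_, h2, fun i a => (h4 i a).trans (hV1 i _).1, h5⟩
  refine le_trans ?_ h1
  have h6 : (m : ℝ) ≤ 2 * (r + 1) * N1 := by exact_mod_cast hN1b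
  rw [div_mul_eq_mul_div, div_le_iff₀ (by positivity)]
  nlinarith only [h6, hρ]

end Pool.MP7783b9
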