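import Pool.Agent.H.MP_7783b9_co.X.UpperD
import Pool.Agent.H.MP_7783b9_co.X.Disc

/-!
# Hyperfinite 3-graphs with a large strongly independent set: good if and only if connected
-/

set_option autoImplicit false

open Finset

namespace Pool.MP7783b9

theorem good_hf_iff (Δ : ℕ) (K : ℕ → ℕ) (δ : ℝ) (hδ : 0 < δ) :
    ∃ n₀ : ℕ, ∀ {V : Type*} [Fintype V] [DecidableEq V] (E : Finset (Finset V))
      (_ : ∀ f ∈ E, f.card = 3) (_ : ∀ x, (edgesAt E x).card ≤ Δ)
      (_ : Hyperfinite E K) (I : Finset V)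
      (_ : StrongIndep E I) (_ : (1 / 3 + δ) * (Fintype.card V : ℝ) ≤ (I.card : ℝ))
      (_ : n₀ ≤ Fintype.card V), FanoGood E ↔ (incidence E).Connected := by
  obtain ⟨n₀, hn₀⟩ := upper_hf Δ K δ hδ
  obtain ⟨n₁, hn₁⟩ := upper_hd Δ K δ hδ
  refine ⟨n₀ + n₁ + 2, ?_⟩
  intro V _ _ E h3 hdeg hK I hI hIc hn
  have hne : Nonempty V := by
    rw [← Fintype.card_pos_iff]
    omega
  have hyp : Hyp (Finset.univ : Finset V) E Δ := ⟨h3, fun f _ => Finset.subset_univ f, hdeg⟩
  constructor
  · intro hF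
    by_contra hc
    obtain ⟨A, hA1, hA2, hA3⟩ := disc_set E h3 hne hc
    have hA' : Arrows E (2 * Fintype.card V - 2) := by
      apply arrows_of
      intro R
      refine hn₁ E hyp hK A hA1 hA2 hA3 I hI hIc (by omega) R Finset.univ ?_
      rw [Finset.card_univ, Fintype.card_fin]
    have h1 : ramsey E ≤ 2 * Fintype.card V - 2 := Nat.sInf_le hA'
    unfold FanoGood at hF
    omega
  · intro hc
    have hA : Arrows E (2 * (Fintype.card V - 1) + 1) := by
      apply arrows_of
      intro R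
      apply hn₀ E hyp hK I hI hIc (by omega) R Finset.univ
      rw [Finset.card_univ, Fintype.card_fin]
      omega
    unfold FanoGood
    refine le_antisymm (Nat.sInf_le hA) ?_
    by_contra hcon
    push Not at hcon
    refine not_arrows_of_connected E h3 hc (ramsey E) ?_
      (Nat.sInf_mem (⟨_, hA⟩ : {N | Arrows E N}.Nonempty))
    omega

end Pool.MP7783b9
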