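import Pool.Agent.H.MP_7783b9_co.X.UpperX
import Pool.Agent.H.MP_7783b9_co.X.Cyc
import Pool.Agent.H.MP_7783b9_co.X.Disc
import Pool.Agent.H.MP_7783b9_co.W.FinalA

/-!
# The exact value of the Ramsey number for almost tripartite hyperfinite 3-graphs
-/

set_option autoImplicit false

open Finset

namespace Pool.MP7783b9

theorem exact_x (Δ : ℕ) (K : ℕ → ℕ) (s : ℕ) :
    ∃ n₀ : ℕ, ∀ {V : Type*} [Fintype V] [DecidableEq V] (E : Finset (Finset V))
      (_ : ∀ f ∈ E, f.card = 3) (_ : ∀ x, (edgesAt E x).card ≤ Δ) (_ : Hyperfinite E K)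
      (col : V → Fin 3) (Ss : Finset V) (_ : Ss.card ≤ s)
      (_ : ∀ f ∈ E, Disjoint f Ss → ∀ x ∈ f, ∀ y ∈ f, x ≠ y → col x ≠ col y)
      (I : Finset V) (_ : StrongIndep E I) (_ : ∀ x, x ∈ I ↔ col x = 0)
      (_ : n₀ ≤ Fintype.card V),
      ramsey E ≤ max (2 * Fintype.card V - 1) (3 * (Fintype.card V - I.card) - 2) ∧
      (TightConn E → (∀ J : Finset V, StrongIndep E J → J.card ≤ I.card) →
        ramsey E = max (2 * Fintype.card V - 1) (3 * (Fintype.card V - I.card) - 2)) ∧
      ((incidence E).Connected → (Fintype.card V + 1) / 3 ≤ I.card → FanoGood E) ∧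
      (Fintype.card V ≤ 3 * I.card → (FanoGood E ↔ (incidence E).Connected)) := by
  obtain ⟨n₀, hn₀⟩ := upper_x Δ K s
  obtain ⟨n₁, hn₁⟩ := upper_xd Δ K s
  refine ⟨n₀ + n₁ + 2, ?_⟩
  intro V _ _ E h3 hdeg hK col Ss hSs hcol I hI hIc hn
  have hne : Nonempty V := by
    rw [← Fintype.card_pos_iff]
    omega
  obtain ⟨n, hnn⟩ : ∃ n : ℕ, n = Fintype.card V := ⟨_, rfl⟩
  have hleI : I.card ≤ Fintype.card V := Finset.card_le_univ I
  rw [← hnn] at hn hleI
  obtain ⟨M, hM⟩ : ∃ M : ℕ, M = max (2 * n - 1) (3 * (n - I.card) - 2) := ⟨_, rfl⟩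
  rw [← hnn, ← hM]
  have hyp : Hyp (Finset.univ : Finset V) E Δ := ⟨h3, fun f _ => Finset.subset_univ f, hdeg⟩
  have hA : Arrows E M := by
    apply arrows_of
    intro R
    refine hn₀ E hyp hK col Ss hSs hcol I hI hIc (by omega) R Finset.univ ?_ ?_
    · rw [Finset.card_univ, Fintype.card_fin, ← hnn]
      omega
    · rw [Finset.card_univ, Fintype.card_fin, ← hnn]
      omega
  have hup : ramsey E ≤ M := Nat.sInf_le hA
  have hval : (∀ m, m < M → ¬ Arrows E m) → ramsey E = M := by
    intro hlow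
    refine le_antisymm hup ?_
    by_contra hcon
    push Not at hcon
    exact hlow _ hcon (Nat.sInf_mem (⟨M, hA⟩ : {N | Arrows E N}.Nonempty))
  have hgood : (incidence E).Connected → (n + 1) / 3 ≤ I.card → FanoGood E := by
    intro hc hI3
    have hMn : M = 2 * (n - 1) + 1 := by
      rw [hM]
      omega
    unfold FanoGood
    rw [← hnn, ← hMn]
    apply hval
    intro m hm
    apply not_arrows_of_connected E h3 hc
    omega
  refine ⟨hup, ?_, hgood, ?_⟩
  · intro ht hmax
    have hc := FinalA_conn E hne ht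
    have hlt : I.card < n := by
      obtain ⟨v⟩ := hne
      obtain ⟨e, he, -⟩ := ht.1 v
      have h1 := hI e he
      have h2 := h3 e he
      have h4 : I ⊂ Finset.univ := by
        rw [Finset.ssubset_univ_iff]
        intro hcon
        rw [hcon, Finset.inter_univ] at h1
        omega
      have := Finset.card_lt_card h4
      rwa [Finset.card_univ, ← hnn] at this
    apply hval
    intro m hm
    rcases Nat.lt_or_ge m (2 * n - 1) with h1 | h1
    · apply not_arrows_of_connected E h3 hc
      omega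
    · apply FinalA_low E h3 hne ht I hmax
      · rw [hM] at hm
        omega
      · omega
  · intro hI3
    refine ⟨fun hF => ?_, fun hc => hgood hc (by omega)⟩
    by_contra hc
    obtain ⟨A, hA1, hA2, hA3⟩ := disc_set E h3 hne hc
    have hA' : Arrows E (2 * n - 2) := by
      apply arrows_of
      intro R
      refine hn₁ E hyp hK A hA1 hA2 hA3 col Ss hSs hcol I hI hIc (by omega) R Finset.univ ?_ ?_
      · rw [Finset.card_univ, Fintype.card_fin, ← hnn]
        omega
      · rw [Finset.card_univ, Fintype.card_fin, ← hnn]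
        omega
    have h1 : ramsey E ≤ 2 * n - 2 := Nat.sInf_le hA'
    unfold FanoGood at hF
    rw [← hnn] at hF
    omega

/-- a tripartite 3-graph is Fano-good if and only if it is connected -/
theorem tripartite_x (Δ : ℕ) (K : ℕ → ℕ) :
    ∃ n₀ : ℕ, ∀ {V : Type*} [Fintype V] [DecidableEq V] (E : Finset (Finset V))
      (_ : ∀ f ∈ E, f.card = 3) (_ : ∀ x, (edgesAt E x).card ≤ Δ) (_ : Hyperfinite E K)
      (col : V → Fin 3) (_ : ∀ f ∈ E, ∀ x ∈ f, ∀ y ∈ f, x ≠ y → col x ≠ col y)
      (_ : n₀ ≤ Fintype.card V), FanoGood E ↔ (incidence E).Connected := by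
  obtain ⟨n₀, hn₀⟩ := exact_x Δ K 0
  refine ⟨n₀, ?_⟩
  intro V _ _ E h3 hdeg hK col hcol hn
  -- a largest colour class
  have hsum : ∑ i : Fin 3, (Finset.univ.filter fun v => col v = i).card = Fintype.card V := by
    rw [← Finset.card_univ]
    exact (Finset.card_eq_sum_card_fiberwise (fun x _ => Finset.mem_coe.2 (Finset.mem_univ _))).symm
  obtain ⟨i, hi⟩ : ∃ i : Fin 3, Fintype.card V ≤
      3 * (Finset.univ.filter fun v => col v = i).card := by
    by_contra hcon
    push Not at hcon
    rw [Fin.sum_univ_three] at hsum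
    have h0 := hcon 0
    have h1 := hcon 1
    have h2 := hcon 2
    omega
  have key := hn₀ E h3 hdeg hK (fun v => col v - i) ∅ (by simp) (by
    intro f hf _ x hx y hy hxy h
    exact hcol f hf x hx y hy hxy (sub_left_injective h))
    (Finset.univ.filter fun v => col v = i) (by
      intro f hf
      rw [Finset.card_le_one]
      intro a ha b hb
      rw [Finset.mem_inter, Finset.mem_filter] at ha hb
      by_contra hab
      exact hcol f hf a ha.1 b hb.1 hab (ha.2.2.trans hb.2.2.symm)) (by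
      intro x
      rw [Finset.mem_filter]
      constructor
      · rintro ⟨-, h⟩
        show col x - i = 0
        rw [h, sub_self]
      · intro h
        exact ⟨Finset.mem_univ _, sub_eq_zero.1 h⟩) hn
  exact key.2.2.2 hi

/-- the Ramsey number of the tight cycle and the Fano plane -/
theorem cycle_x : ∃ n₀ : ℕ, ∀ n, n₀ ≤ n →
    ramsey (tightCycle n) = if n % 3 = 2 then 2 * n else 2 * n - 1 := by
  obtain ⟨n₀, hn₀⟩ := exact_x 3 cycK 2
  refine ⟨n₀ + 3, ?_⟩
  intro n hn
  have hn3 : 3 ≤ n := by omega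
  obtain ⟨h1, h2, h3, h4⟩ := cyc_col n hn3
  have key := (hn₀ (tightCycle n) (cyc_three n hn3) (cyc_deg n) (cyc_hf n) (cycCol n) _ h1 h2 _ h3
    (fun x => by simp) (by rw [Fintype.card_fin]; omega)).2.1 (cyc_tight n hn3) (by
      intro J hJ
      rw [h4]
      exact cyc_max n hn3 J hJ)
  rw [key, h4, Fintype.card_fin]
  split_ifs with h5
  · omega
  · omega

end Pool.MP7783b9
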