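import Pool.Agent.H.MP_7783b9_co.X.Base

/-!
# Gadgets for the atypical points of the cyclic template
-/

set_option autoImplicit false

open Finset

namespace Pool.MP7783b9

open Classical in
theorem GadC_sum {α : Type} [DecidableEq α] (R : Finset α → Prop) (X Y Z : Finset α) :
    (e3 R X Y Z : ℝ) =
      ∑ x ∈ X, (((Y ×ˢ Z).filter fun q => Blue3 R x q.1 q.2).card : ℝ) := by
  have h : e3 R X Y Z = ∑ x ∈ X, ((Y ×ˢ Z).filter fun q => Blue3 R x q.1 q.2).card := by
    unfold e3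
    rw [Finset.card_filter, Finset.sum_product]
    refine Finset.sum_congr rfl fun x _ => ?_
    rw [Finset.card_filter]
  rw [h]
  push_cast
  rfl

open Classical in
theorem GadC_select {α : Type} [DecidableEq α] (r : α → α → Prop) (V1 : Finset α) (κ : ℝ) (n : ℕ)
    (hκ : 0 < κ) (hV : (V1.card : ℝ) ≤ 3 * n) (hn : 0 < n) :
    ∀ (t : ℕ), (t : ℝ) ≤ κ * n / 20 → ∀ (Q0 : Finset α), Q0.Nonempty →
      (∀ q ∈ Q0, κ * n / 4 ≤ ((V1.filter fun p => r p q).card : ℝ)) →
      ∃ P ⊆ V1, P.card = t ∧ ∃ Q ⊆ Q0, (κ / 15) ^ t * (Q0.card : ℝ) ≤ Q.card ∧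
        ∀ p ∈ P, ∀ q ∈ Q, r p q := by
  have hn' : (0 : ℝ) < n := by exact_mod_cast hn
  intro t
  induction t with
  | zero =>
    intro _ Q0 _ _
    exact ⟨∅, Finset.empty_subset _, Finset.card_empty, Q0, Finset.Subset.refl _, by simp,
      by simp⟩
  | succ t ih =>
    intro ht Q0 hQ0 hdeg
    push_cast at ht
    obtain ⟨P, hPV, hPc, Q, hQQ, hQc, hr⟩ := ih (by linarith) Q0 hQ0 hdeg
    have hQ0c : (0 : ℝ) < Q0.card := by exact_mod_cast hQ0.card_pos
    have hQpos : (0 : ℝ) < Q.card := lt_of_lt_of_le (by positivity) hQc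
    have key : (Q.card : ℝ) * (κ * n / 5) ≤
        ∑ p ∈ V1 \ P, ((Q.filter fun q => r p q).card : ℝ) := by
      have e : (∑ p ∈ V1 \ P, ((Q.filter fun q => r p q).card : ℝ)) =
          ∑ q ∈ Q, (((V1 \ P).filter fun p => r p q).card : ℝ) := by
        have := Finset.sum_card_bipartiteAbove_eq_sum_card_bipartiteBelow
          (s := V1 \ P) (t := Q) (r := r)
        unfold Finset.bipartiteAbove Finset.bipartiteBelow at this
        exact_mod_cast this
      rw [e]
      calc (Q.card : ℝ) * (κ * n / 5) = ∑ _q ∈ Q, κ * n / 5 := by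
            rw [Finset.sum_const, nsmul_eq_mul]
        _ ≤ _ := by
            refine Finset.sum_le_sum fun q hq => ?_
            have h1 := hdeg q (hQQ hq)
            have h2 : (V1.filter fun p => r p q).card ≤
                ((V1 \ P).filter fun p => r p q).card + P.card := by
              calc (V1.filter fun p => r p q).card
                  ≤ (((V1 \ P).filter fun p => r p q) ∪ P).card := by
                    refine Finset.card_le_card fun x hx => ?_
                    rw [Finset.mem_filter] at hx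
                    rw [Finset.mem_union, Finset.mem_filter, Finset.mem_sdiff]
                    by_cases hxP : x ∈ P
                    · exact Or.inr hxP
                    · exact Or.inl ⟨⟨hx.1, hxP⟩, hx.2⟩
                _ ≤ _ := Finset.card_union_le _ _
            have h3 : ((V1.filter fun p => r p q).card : ℝ) ≤
                (((V1 \ P).filter fun p => r p q).card : ℝ) + t := by
              rw [hPc] at h2
              exact_mod_cast h2
            linarith
    have hne : (V1 \ P).Nonempty := by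
      rw [Finset.nonempty_iff_ne_empty]
      intro h0
      rw [h0, Finset.sum_empty] at key
      have : 0 < (Q.card : ℝ) * (κ * n / 5) := by positivity
      linarith
    obtain ⟨p, hp, hpd⟩ := Finset.exists_le_of_sum_le (s := V1 \ P)
      (f := fun _ => (Q.card : ℝ) * (κ / 15))
      (g := fun p => ((Q.filter fun q => r p q).card : ℝ)) hne (by
        rw [Finset.sum_const, nsmul_eq_mul]
        refine le_trans ?_ key
        have h1 : ((V1 \ P).card : ℝ) ≤ 3 * n :=
          le_trans (by exact_mod_cast Finset.card_le_card Finset.sdiff_subset) hV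
        calc ((V1 \ P).card : ℝ) * ((Q.card : ℝ) * (κ / 15))
            ≤ (3 * n) * ((Q.card : ℝ) * (κ / 15)) :=
              mul_le_mul_of_nonneg_right h1 (by positivity)
          _ = _ := by ring)
    rw [Finset.mem_sdiff] at hp
    refine ⟨insert p P, ?_, ?_, Q.filter fun q => r p q, (Finset.filter_subset _ _).trans hQQ,
      ?_, ?_⟩
    · exact Finset.insert_subset hp.1 hPV
    · rw [Finset.card_insert_of_notMem hp.2, hPc]
    · calc (κ / 15) ^ (t + 1) * (Q0.card : ℝ) = (κ / 15) * ((κ / 15) ^ t * Q0.card) := by ring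
        _ ≤ (κ / 15) * Q.card := mul_le_mul_of_nonneg_left hQc (by positivity)
        _ = (Q.card : ℝ) * (κ / 15) := by ring
        _ ≤ _ := hpd
    · intro x hx q hq
      rw [Finset.mem_filter] at hq
      rw [Finset.mem_insert] at hx
      rcases hx with rfl | hx
      · exact hq.2
      · exact hr x hx q hq.1

theorem GadC_greedy {α : Type} [DecidableEq α] (N : α → Finset α) (K : ℝ) :
    ∀ (u : ℕ) (Q : Finset α), (∀ q ∈ Q, ((N q).card : ℝ) ≤ K) → (u : ℝ) * (K + 1) ≤ Q.card →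
      0 ≤ K →
      ∃ S ⊆ Q, S.card = u ∧ ∀ q ∈ S, ∀ q' ∈ S, q ≠ q' → q' ∉ N q ∨ q ∉ N q' := by
  intro u
  induction u with
  | zero =>
    intro Q _ _ _
    exact ⟨∅, Finset.empty_subset _, Finset.card_empty, by simp⟩
  | succ u ih =>
    intro Q hN hc hK
    push_cast at hc
    have hQ : Q.Nonempty := by
      rw [Finset.nonempty_iff_ne_empty]
      intro h0
      rw [h0, Finset.card_empty] at hc
      have : 0 < ((u : ℝ) + 1) * (K + 1) := by positivity
      push_cast at hc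
      linarith
    obtain ⟨q, hq⟩ := hQ
    obtain ⟨S, hS, hSc, hSi⟩ := ih (Q \ insert q (N q))
      (fun x hx => hN x (Finset.mem_sdiff.1 hx).1) (by
        have h1 : Q.card ≤ (Q \ insert q (N q)).card + (insert q (N q)).card := by
          have := Finset.card_le_card_sdiff_add_card (s := Q) (t := insert q (N q))
          omega
        have h2 : (insert q (N q)).card ≤ (N q).card + 1 := Finset.card_insert_le _ _
        have h3 : (Q.card : ℝ) ≤ ((Q \ insert q (N q)).card : ℝ) + ((N q).card + 1) := by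
          exact_mod_cast h1.trans (by omega)
        have h4 := hN q hq
        nlinarith) hK
    have hqS : q ∉ S := fun h => (Finset.mem_sdiff.1 (hS h)).2 (Finset.mem_insert_self _ _)
    refine ⟨insert q S, ?_, ?_, ?_⟩
    · exact Finset.insert_subset hq (hS.trans Finset.sdiff_subset)
    · rw [Finset.card_insert_of_notMem hqS, hSc]
    · intro a ha b hb hab
      rw [Finset.mem_insert] at ha hb
      rcases ha with rfl | ha <;> rcases hb with rfl | hb
      · exact absurd rfl hab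
      · left
        intro h
        exact (Finset.mem_sdiff.1 (hS hb)).2 (Finset.mem_insert_of_mem h)
      · right
        intro h
        exact (Finset.mem_sdiff.1 (hS ha)).2 (Finset.mem_insert_of_mem h)
      · exact hSi a ha b hb hab

open Classical in
/-- the pairs `p, q` with `p` of small blue degree, both outside `Φ` -/
theorem GadC_count {α : Type} [DecidableEq α] (R : Finset α → Prop) (κ τ1 : ℝ) (hκ : 0 < κ)
    (hτ1 : 0 < τ1) (n : ℕ) (hn : 0 < n) (T Vm : Finset α) (hT : T.card ≤ n)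
    (hV : Vm.card ≤ 3 * n) (he : (e3 R T T Vm : ℝ) ≤ (τ1 * κ / 8) * (n : ℝ) ^ 3) (w : α)
    (hred : κ * (n : ℝ) ^ 2 ≤ ((redP R w Vm T).card : ℝ)) (Φ : Finset α)
    (hΦ : (Φ.card : ℝ) ≤ κ / 32 * n) :
    ∃ V1 ⊆ Vm \ Φ, (∀ p ∈ V1,
        (((T ×ˢ T).filter fun q => Blue3 R p q.1 q.2).card : ℝ) < τ1 * (n : ℝ) ^ 2) ∧
      ∃ T2 ⊆ T \ Φ, κ / 12 * n ≤ (T2.card : ℝ) ∧ ∀ q ∈ T2, κ * n / 4 ≤
        ((V1.filter fun p => p ≠ w ∧ q ≠ w ∧ R {w, p, q}).card : ℝ) := by
  have hn' : (0 : ℝ) < n := by exact_mod_cast hn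
  have hT' : (T.card : ℝ) ≤ n := by exact_mod_cast hT
  have hV' : (Vm.card : ℝ) ≤ 3 * n := by exact_mod_cast hV
  set B : α → ℝ := fun p => (((T ×ˢ T).filter fun q => Blue3 R p q.1 q.2).card : ℝ) with hB
  set Vb := Vm.filter fun p => τ1 * (n : ℝ) ^ 2 ≤ B p with hVb
  have hVbc : (Vb.card : ℝ) ≤ κ / 8 * n := by
    have h1 : (Vb.card : ℝ) * (τ1 * (n : ℝ) ^ 2) ≤ (e3 R T T Vm : ℝ) := by
      have e : e3 R T T Vm = e3 R Vm T T := by rw [e3_rot R Vm T T]
      rw [e, GadC_sum]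
      calc (Vb.card : ℝ) * (τ1 * (n : ℝ) ^ 2) = ∑ _p ∈ Vb, τ1 * (n : ℝ) ^ 2 := by
            rw [Finset.sum_const, nsmul_eq_mul]
        _ ≤ ∑ p ∈ Vb, B p := Finset.sum_le_sum fun p hp => (Finset.mem_filter.1 hp).2
        _ ≤ ∑ p ∈ Vm, B p := Finset.sum_le_sum_of_subset_of_nonneg (Finset.filter_subset _ _)
            fun p _ _ => Nat.cast_nonneg _
    have h2 : (Vb.card : ℝ) * (τ1 * (n : ℝ) ^ 2) ≤ (κ / 8 * n) * (τ1 * (n : ℝ) ^ 2) := by
      calc _ ≤ _ := h1
        _ ≤ _ := he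
        _ = _ := by ring
    exact le_of_mul_le_mul_right h2 (by positivity)
  set V1 := (Vm \ Φ) \ Vb with hV1
  refine ⟨V1, Finset.sdiff_subset, ?_, ?_⟩
  · intro p hp
    rw [hV1, Finset.mem_sdiff, Finset.mem_sdiff] at hp
    by_contra h
    exact hp.2 (Finset.mem_filter.2 ⟨hp.1.1, not_lt.1 h⟩)
  set d : α → ℝ := fun q => ((V1.filter fun p => p ≠ w ∧ q ≠ w ∧ R {w, p, q}).card : ℝ) with hd
  set T2 := (T \ Φ).filter fun q => κ * n / 4 ≤ d q with hT2
  refine ⟨T2, Finset.filter_subset _ _, ?_, fun q hq => (Finset.mem_filter.1 hq).2⟩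
  -- the sum of the degrees
  have hsum : κ * (n : ℝ) ^ 2 / 2 ≤ ∑ q ∈ T \ Φ, d q := by
    have e1 : (∑ q ∈ T \ Φ, d q) = ((redP R w V1 (T \ Φ)).card : ℝ) := by
      have h : (redP R w V1 (T \ Φ)).card =
          ∑ q ∈ T \ Φ, (V1.filter fun p => p ≠ w ∧ q ≠ w ∧ R {w, p, q}).card := by
        have h0 : redP R w V1 (T \ Φ) =
            (V1 ×ˢ (T \ Φ)).filter fun p => p.1 ≠ w ∧ p.2 ≠ w ∧ R {w, p.1, p.2} := by
          ext x
          rw [mem_redP, Finset.mem_filter, Finset.mem_product]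
        rw [h0, Finset.card_filter, Finset.sum_product_right]
        refine Finset.sum_congr rfl fun q _ => ?_
        rw [Finset.card_filter]
      rw [h]
      push_cast
      rfl
    have e2 : (redP R w Vm T).card ≤ (redP R w V1 (T \ Φ)).card +
        ((Φ ×ˢ T).card + (Vm ×ˢ Φ).card + (Vb ×ˢ T).card) := by
      calc (redP R w Vm T).card ≤ (redP R w V1 (T \ Φ) ∪ ((Φ ×ˢ T) ∪ (Vm ×ˢ Φ) ∪ (Vb ×ˢ T))).card := by
            refine Finset.card_le_card fun x hx => ?_
            rw [mem_redP] at hx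
            simp only [Finset.mem_union, mem_redP, Finset.mem_product, hV1, Finset.mem_sdiff]
            by_cases h1 : x.1 ∈ Φ
            · exact Or.inr (Or.inl (Or.inl ⟨h1, hx.1.2⟩))
            by_cases h2 : x.2 ∈ Φ
            · exact Or.inr (Or.inl (Or.inr ⟨hx.1.1, h2⟩))
            by_cases h3 : x.1 ∈ Vb
            · exact Or.inr (Or.inr ⟨h3, hx.1.2⟩)
            exact Or.inl ⟨⟨⟨⟨hx.1.1, h1⟩, h3⟩, hx.1.2, h2⟩, hx.2⟩
        _ ≤ _ := by
            refine (Finset.card_union_le _ _).trans ?_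
            have h1 := Finset.card_union_le ((Φ ×ˢ T) ∪ (Vm ×ˢ Φ)) (Vb ×ˢ T)
            have h2 := Finset.card_union_le (Φ ×ˢ T) (Vm ×ˢ Φ)
            omega
    rw [Finset.card_product, Finset.card_product, Finset.card_product] at e2
    have e3' : ((redP R w Vm T).card : ℝ) ≤ ((redP R w V1 (T \ Φ)).card : ℝ) +
        ((Φ.card : ℝ) * T.card + (Vm.card : ℝ) * Φ.card + (Vb.card : ℝ) * T.card) := by
      exact_mod_cast e2
    rw [e1]
    have f1 : (Φ.card : ℝ) * T.card ≤ (κ / 32 * n) * n :=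
      mul_le_mul hΦ hT' (Nat.cast_nonneg _) (by positivity)
    have f2 : (Vm.card : ℝ) * Φ.card ≤ (3 * n) * (κ / 32 * n) :=
      mul_le_mul hV' hΦ (Nat.cast_nonneg _) (by positivity)
    have f3 : (Vb.card : ℝ) * T.card ≤ (κ / 8 * n) * n :=
      mul_le_mul hVbc hT' (Nat.cast_nonneg _) (by positivity)
    have f4 : 0 ≤ κ * (n : ℝ) ^ 2 := by positivity
    nlinarith
  have hsplit : ∑ q ∈ T \ Φ, d q ≤ (T2.card : ℝ) * (3 * n) + κ * (n : ℝ) ^ 2 / 4 := by
    rw [← Finset.sum_filter_add_sum_filter_not (T \ Φ) (fun q => κ * n / 4 ≤ d q) d]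
    refine add_le_add ?_ ?_
    · calc ∑ q ∈ T2, d q ≤ ∑ _q ∈ T2, (3 * (n : ℝ)) := by
            refine Finset.sum_le_sum fun q _ => ?_
            refine le_trans ?_ hV'
            show (((V1.filter fun p => p ≠ w ∧ q ≠ w ∧ R {w, p, q}).card : ℕ) : ℝ) ≤
              (Vm.card : ℝ)
            exact_mod_cast Finset.card_le_card ((Finset.filter_subset _ _).trans
              (Finset.sdiff_subset.trans Finset.sdiff_subset))
        _ = _ := by rw [Finset.sum_const, nsmul_eq_mul]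
    · calc ∑ q ∈ (T \ Φ).filter (fun q => ¬ κ * n / 4 ≤ d q), d q
          ≤ ∑ _q ∈ (T \ Φ).filter (fun q => ¬ κ * n / 4 ≤ d q), κ * n / 4 :=
            Finset.sum_le_sum fun q hq => (not_le.1 (Finset.mem_filter.1 hq).2).le
        _ = (((T \ Φ).filter (fun q => ¬ κ * n / 4 ≤ d q)).card : ℝ) * (κ * n / 4) := by
            rw [Finset.sum_const, nsmul_eq_mul]
        _ ≤ n * (κ * n / 4) := by
            refine mul_le_mul_of_nonneg_right (le_trans ?_ hT') (by positivity)
            exact_mod_cast Finset.card_le_card ((Finset.filter_subset _ _).trans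
              Finset.sdiff_subset)
        _ = _ := by ring
  have h3 : (κ / 12 * n) * (3 * n) ≤ (T2.card : ℝ) * (3 * n) := by nlinarith
  exact le_of_mul_le_mul_right h3 (by positivity)

/-- A point `w` which is red with many pairs of `Vm × T`: there are `t` points `P` in `Vm` and `u`
points `Q` in `T`, outside of a small set, such that `w` is red with `P × Q`, all triples with one
point in `P` and two in `Q` are red, and no pair of `Q` is bad. -/
theorem gadget_c (κ : ℝ) (hκ : 0 < κ) (hκ1 : κ ≤ 1) (t u : ℕ) :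
    ∃ (χ τ ψ : ℝ) (n₀ : ℕ), 0 < χ ∧ 0 < τ ∧ 0 < ψ ∧ ∀ {α : Type} [DecidableEq α]
      (R : Finset α → Prop) (n : ℕ) (_ : n₀ ≤ n) (T Vm : Finset α) (_ : T.card ≤ n)
      (_ : Vm.card ≤ 3 * n) (_ : Disjoint T Vm) (_ : (e3 R T T Vm : ℝ) ≤ τ * (n : ℝ) ^ 3)
      (Bd : α → α → Prop) (_ : ∀ x y, Bd x y → Bd y x)
      (_ : ∀ x ∈ T, ∃ Nx : Finset α, (Nx.card : ℝ) ≤ ψ * n ∧ ∀ y ∈ T, Bd x y → y ∈ Nx)
      (w : α) (_ : κ * (n : ℝ) ^ 2 ≤ ((redP R w Vm T).card : ℝ))
      (Φ : Finset α) (_ : (Φ.card : ℝ) ≤ χ * n),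
      ∃ P Q : Finset α, P ⊆ Vm \ Φ ∧ Q ⊆ T \ Φ ∧ P.card = t ∧ Q.card = u ∧
        (∀ p ∈ P, ∀ q ∈ Q, p ≠ w ∧ q ≠ w ∧ R {w, p, q}) ∧
        (∀ p ∈ P, ∀ q ∈ Q, ∀ q' ∈ Q, q ≠ q' → R {p, q, q'}) ∧
        ∀ q ∈ Q, ∀ q' ∈ Q, q ≠ q' → ¬ Bd q q' := by
  classical
  set c : ℝ := (κ / 15) ^ t * (κ / 12) with hc
  have hc0 : 0 < c := by positivity
  set s1 : ℝ := c / (8 * (u + 1) * (t + 1)) with hs1
  have hs0 : 0 < s1 := by positivity
  have hs8 : (u + 1) * (t + 1) * s1 = c / 8 := by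
    rw [hs1]
    field_simp
  set ψ : ℝ := c / (8 * (u + 1)) with hψ
  have hψ0 : 0 < ψ := by positivity
  have hψ8 : (u + 1) * ψ = c / 8 := by
    rw [hψ]
    field_simp
  refine ⟨κ / 32, s1 ^ 2 * κ / 8, ψ, ⌈20 * t / κ⌉₊ + ⌈8 * u / c⌉₊ + 1, by positivity,
    by positivity, hψ0, ?_⟩
  intro α _ R n hn T Vm hT hV hdis he Bd hBd hN w hred Φ hΦ
  have hn1 : 0 < n := by omega
  have hn' : (0 : ℝ) < n := by exact_mod_cast hn1
  have hnt : (t : ℝ) ≤ κ * n / 20 := by
    have h0 : ⌈20 * (t : ℝ) / κ⌉₊ ≤ n := by omega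
    have h1 : 20 * (t : ℝ) / κ ≤ (n : ℝ) := (Nat.le_ceil _).trans (by exact_mod_cast h0)
    rw [div_le_iff₀ hκ] at h1
    linarith
  have hnu : (u : ℝ) ≤ c / 8 * n := by
    have h0 : ⌈8 * (u : ℝ) / c⌉₊ ≤ n := by omega
    have h1 : 8 * (u : ℝ) / c ≤ (n : ℝ) := (Nat.le_ceil _).trans (by exact_mod_cast h0)
    rw [div_le_iff₀ hc0] at h1
    linarith
  obtain ⟨V1, hV1, hB, T2, hT2, hT2c, hdeg⟩ := GadC_count R κ (s1 ^ 2) hκ (by positivity) n hn1
    T Vm hT hV he w hred Φ hΦ
  have hV1c : (V1.card : ℝ) ≤ 3 * n := by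
    have : V1.card ≤ Vm.card := Finset.card_le_card (hV1.trans Finset.sdiff_subset)
    exact_mod_cast this.trans hV
  have hT2ne : T2.Nonempty := by
    rw [← Finset.card_pos]
    have h : (0 : ℝ) < T2.card := lt_of_lt_of_le (by positivity) hT2c
    exact_mod_cast h
  obtain ⟨P, hP, hPc, Q1, hQ1, hQ1c, hr⟩ := GadC_select (fun p q => p ≠ w ∧ q ≠ w ∧ R {w, p, q})
    V1 κ n hκ hV1c hn1 t hnt T2 hT2ne (fun q hq => by convert hdeg q hq)
  have hQ1n : c * n ≤ Q1.card := by
    refine le_trans ?_ hQ1c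
    calc c * n = (κ / 15) ^ t * (κ / 12 * n) := by rw [hc]; ring
      _ ≤ _ := mul_le_mul_of_nonneg_left hT2c (by positivity)
  -- the heavy points
  set nb : α → α → Finset α := fun p q => T.filter fun q' => Blue3 R p q q' with hnb
  set hv : α → Finset α := fun p => T.filter fun q => s1 * n ≤ ((nb p q).card : ℝ) with hhv
  have hhvc : ∀ p ∈ P, ((hv p).card : ℝ) ≤ s1 * n := by
    intro p hp
    have h1 : ((hv p).card : ℝ) * (s1 * n) ≤
        (((T ×ˢ T).filter fun q => Blue3 R p q.1 q.2).card : ℝ) := by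
      have e : ((T ×ˢ T).filter fun q => Blue3 R p q.1 q.2).card = ∑ q ∈ T, (nb p q).card := by
        rw [Finset.card_filter, Finset.sum_product]
        refine Finset.sum_congr rfl fun q _ => ?_
        rw [hnb, Finset.card_filter]
      rw [e]
      push_cast
      calc ((hv p).card : ℝ) * (s1 * n) = ∑ _q ∈ hv p, s1 * (n : ℝ) := by
            rw [Finset.sum_const, nsmul_eq_mul]
        _ ≤ ∑ q ∈ hv p, ((nb p q).card : ℝ) :=
            Finset.sum_le_sum fun q hq => (Finset.mem_filter.1 hq).2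
        _ ≤ _ := Finset.sum_le_sum_of_subset_of_nonneg (Finset.filter_subset _ _)
            fun q _ _ => Nat.cast_nonneg _
    have h2 := hB p (hP hp)
    have h3 : ((hv p).card : ℝ) * (s1 * n) ≤ (s1 * n) * (s1 * n) := by
      calc _ ≤ _ := h1
        _ ≤ _ := h2.le
        _ = _ := by ring
    exact le_of_mul_le_mul_right h3 (by positivity)
  set Q2 := Q1 \ P.biUnion hv with hQ2
  have hQ2c : (c - t * s1) * n ≤ Q2.card := by
    have h1 : Q1.card ≤ Q2.card + (P.biUnion hv).card := by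
      have := Finset.card_le_card_sdiff_add_card (s := Q1) (t := P.biUnion hv)
      omega
    have h2 : ((P.biUnion hv).card : ℝ) ≤ t * (s1 * n) := by
      calc ((P.biUnion hv).card : ℝ) ≤ ((∑ p ∈ P, (hv p).card : ℕ) : ℝ) := by
            exact_mod_cast Finset.card_biUnion_le
        _ = ∑ p ∈ P, ((hv p).card : ℝ) := by push_cast; rfl
        _ ≤ ∑ _p ∈ P, s1 * (n : ℝ) := Finset.sum_le_sum hhvc
        _ = _ := by rw [Finset.sum_const, nsmul_eq_mul, hPc]
    have h3 : (Q1.card : ℝ) ≤ (Q2.card : ℝ) + ((P.biUnion hv).card : ℝ) := by exact_mod_cast h1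
    nlinarith
  choose! Nx hNx hNx' using hN
  have hQ2T : ∀ q ∈ Q2, q ∈ T \ Φ := fun q hq => hT2 (hQ1 (Finset.mem_sdiff.1 hq).1)
  have hQ2T' : ∀ q ∈ Q2, q ∈ T := fun q hq => (Finset.mem_sdiff.1 (hQ2T q hq)).1
  obtain ⟨S, hS, hSc, hSi⟩ := GadC_greedy (fun q => (P.biUnion fun p => nb p q) ∪ Nx q)
    (t * (s1 * n) + ψ * n) u Q2 (by
      intro q hq
      have h1 : ((((P.biUnion fun p => nb p q) ∪ Nx q).card : ℕ) : ℝ) ≤
          ((P.biUnion fun p => nb p q).card : ℝ) + ((Nx q).card : ℝ) := by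
        exact_mod_cast Finset.card_union_le _ _
      have h2 : ((P.biUnion fun p => nb p q).card : ℝ) ≤ t * (s1 * n) := by
        calc ((P.biUnion fun p => nb p q).card : ℝ) ≤ ((∑ p ∈ P, (nb p q).card : ℕ) : ℝ) := by
              exact_mod_cast Finset.card_biUnion_le
          _ = ∑ p ∈ P, ((nb p q).card : ℝ) := by push_cast; rfl
          _ ≤ ∑ _p ∈ P, s1 * (n : ℝ) := by
              refine Finset.sum_le_sum fun p hp => ?_
              by_contra h
              refine (Finset.mem_sdiff.1 hq).2 (Finset.mem_biUnion.2 ⟨p, hp, ?_⟩)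
              exact Finset.mem_filter.2 ⟨hQ2T' q hq, (not_le.1 h).le⟩
          _ = _ := by rw [Finset.sum_const, nsmul_eq_mul, hPc]
      have h3 := hNx q (hQ2T' q hq)
      linarith) (by
      refine le_trans ?_ hQ2c
      have h1 : (u : ℝ) * (t * s1) ≤ c / 8 := by
        rw [← hs8]
        have : 0 ≤ (u : ℝ) := Nat.cast_nonneg _
        have : 0 ≤ (t : ℝ) := Nat.cast_nonneg _
        have e : (u + 1) * (t + 1) * s1 - (u : ℝ) * (t * s1) = (u + t + 1) * s1 := by ring
        have : 0 ≤ ((u : ℝ) + t + 1) * s1 := by positivity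
        linarith
      have h2 : (t : ℝ) * s1 ≤ c / 8 := by
        rw [← hs8]
        have : 0 ≤ (u : ℝ) := Nat.cast_nonneg _
        have : 0 ≤ (t : ℝ) := Nat.cast_nonneg _
        have e : (u + 1) * (t + 1) * s1 - (t : ℝ) * s1 = (u * t + u + 1) * s1 := by ring
        have : 0 ≤ ((u : ℝ) * t + u + 1) * s1 := by positivity
        linarith
      have h3 : (u : ℝ) * ψ ≤ c / 8 := by
        rw [← hψ8]
        have e : (u + 1) * ψ - (u : ℝ) * ψ = ψ := by ring
        linarith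
      have g1 : (u : ℝ) * (t * s1) * n ≤ c / 8 * n := mul_le_mul_of_nonneg_right h1 hn'.le
      have g2 : (t : ℝ) * s1 * n ≤ c / 8 * n := mul_le_mul_of_nonneg_right h2 hn'.le
      have g3 : (u : ℝ) * ψ * n ≤ c / 8 * n := mul_le_mul_of_nonneg_right h3 hn'.le
      have g4 : 0 ≤ c * n := by positivity
      have e1 : (u : ℝ) * (t * (s1 * n) + ψ * n + 1) =
          (u : ℝ) * (t * s1) * n + (u : ℝ) * ψ * n + u := by ring
      have e2 : (c - t * s1) * n = c * n - t * s1 * n := by ring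
      rw [e1, e2]
      linarith) (by positivity)
  refine ⟨P, S, hP.trans hV1, fun q hq => hQ2T q (hS hq), hPc, hSc, ?_, ?_, ?_⟩
  · intro p hp q hq
    exact hr p hp q (Finset.mem_sdiff.1 (hS hq)).1
  · intro p hp q hq q' hq' hqq
    by_contra hR
    have hpV : p ∈ Vm := (Finset.mem_sdiff.1 (hV1 (hP hp))).1
    have hpq : ∀ x ∈ S, p ≠ x := by
      rintro x hx rfl
      exact Finset.disjoint_left.1 hdis (hQ2T' _ (hS hx)) hpV
    have hb : Blue3 R p q q' := ⟨hpq q hq, hpq q' hq', hqq, hR⟩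
    have hm : ∀ a b, b ∈ S → Blue3 R p a b → b ∈ (P.biUnion fun p => nb p a) ∪ Nx a := by
      intro a b hb' h
      exact Finset.mem_union_left _ (Finset.mem_biUnion.2 ⟨p, hp, Finset.mem_filter.2
        ⟨hQ2T' _ (hS hb'), h⟩⟩)
    rcases hSi q hq q' hq' hqq with h | h
    · exact h (hm q q' hq' hb)
    · exact h (hm q' q hq hb.swap)
  · intro q hq q' hq' hqq hbd
    rcases hSi q hq q' hq' hqq with h | h
    · exact h (Finset.mem_union_right _ (hNx' q (hQ2T' q (hS hq)) q' (hQ2T' _ (hS hq')) hbd))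
    · exact h (Finset.mem_union_right _ (hNx' q' (hQ2T' q' (hS hq')) q (hQ2T' _ (hS hq))
        (hBd _ _ hbd)))

end Pool.MP7783b9
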