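import Pool.Agent.H.MP_7783b9_co.W.Greedy

/-!
# Greedy embedding of some vertices, with a colouring for every edge
-/

set_option autoImplicit false

open Finset

namespace Pool.MP7783b9

/-- the ambient set of an edge -/
structure GreedyF_W {V : Type*} {α : Type} [DecidableEq V] [DecidableEq α]
    (R : Finset α → Prop) (A S : Finset V) (T : V → Finset α) (φ₀ : V → α) (b : V → ℝ)
    (f : Finset V) (W : Finset α) (ε η : ℝ) : Prop where
  ε0 : 0 < ε
  η0 : 0 < η
  hd : dense R W ε = ∅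
  hT : ∀ s ∈ f, s ∈ S → T s ⊆ W ∧ ε / η * (W.card : ℝ) ≤ b s ∧ η * (W.card : ℝ) ≤ b s
  hW : ∀ y ∈ f, y ∈ A → φ₀ y ∈ W
  hc : ∀ y ∈ f, y ∈ A → ∀ y' ∈ f, y' ∈ A → y ≠ y' →
        ((cod R W (φ₀ y) (φ₀ y')).card : ℝ) < η * (W.card : ℝ)

/-- the state after the embedding of `S'` -/
structure GreedyF_St {V : Type*} {α : Type} [DecidableEq V] [DecidableEq α]
    (E : Finset (Finset V)) (R : Finset V → Finset α → Prop) (A S : Finset V)
    (T : V → Finset α) (φ₀ : V → α)
    (W : Finset V → Finset α) (η : Finset V → ℝ) (S' : Finset V) (φ : V → α) : Prop where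
  out : ∀ x ∉ S, φ x = φ₀ x
  mem : ∀ s ∈ S', φ s ∈ T s
  inj : ∀ x y, (x ∈ A ∨ x ∈ S') → (y ∈ A ∨ y ∈ S') → φ x = φ y → x = y
  hcod : ∀ f ∈ E, (f ∩ S).Nonempty → ∀ y ∈ f, ∀ y' ∈ f, y ≠ y' → (y ∈ A ∨ y ∈ S') →
    (y' ∈ A ∨ y' ∈ S') →
    ((cod (R f) (W f) (φ y) (φ y')).card : ℝ) < η f * ((W f).card : ℝ)
  red : ∀ f ∈ E, (f ∩ S').Nonempty → (∀ y ∈ f, y ∈ A ∨ y ∈ S') → R f (f.image φ)

/-- embedded vertices of an edge lie in its ambient set -/
theorem GreedyF_St.memW {V : Type*} {α : Type} [DecidableEq V] [DecidableEq α]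
    {E : Finset (Finset V)} {R : Finset V → Finset α → Prop} {A S : Finset V}
    {T : V → Finset α} {φ₀ : V → α}
    {W : Finset V → Finset α} {ε η : Finset V → ℝ} {b : V → ℝ} {S' : Finset V} {φ : V → α}
    (hAS : Disjoint A S) (h : GreedyF_St E R A S T φ₀ W η S' φ) (hS : S' ⊆ S) {f : Finset V}
    (hf : GreedyF_W (R f) A S T φ₀ b f (W f) (ε f) (η f)) {y : V} (hy : y ∈ f)
    (hy' : y ∈ A ∨ y ∈ S') : φ y ∈ W f := by
  rcases hy' with h1 | h1
  · rw [h.out y (Finset.disjoint_left.1 hAS h1)]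
    exact hf.hW y hy h1
  · exact (hf.hT y hy (hS h1)).1 (h.mem y h1)

theorem GreedyF_St.bad {V : Type*} {α : Type} [DecidableEq V] [DecidableEq α]
    {E : Finset (Finset V)} {R : Finset V → Finset α → Prop} {A S : Finset V}
    {T : V → Finset α} {φ₀ : V → α}
    {W : Finset V → Finset α} {ε η : Finset V → ℝ} {b : V → ℝ} {S' : Finset V} {φ : V → α}
    (hAS : Disjoint A S) (h : GreedyF_St E R A S T φ₀ W η S' φ) (hS : S' ⊆ S) {f : Finset V}
    (hf : GreedyF_W (R f) A S T φ₀ b f (W f) (ε f) (η f)) {y : V} (hy : y ∈ f)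
    (hy' : y ∈ A ∨ y ∈ S') {s : V} (hs : s ∈ f) (hsS : s ∈ S) :
    ((NiceX_bad (R f) (W f) (η f) (φ y)).card : ℝ) ≤ b s := by
  have h1 := h.memW hAS hS hf hy hy'
  have h2 : (0 : ℝ) < ((W f).card : ℝ) := by exact_mod_cast Finset.card_pos.2 ⟨_, h1⟩
  have h3 : ((bpairs (R f) (W f) (φ y)).card : ℝ) < ε f * ((W f).card : ℝ) ^ 2 := by
    by_contra hcon
    have h4 : φ y ∈ dense (R f) (W f) (ε f) := mem_dense.2 ⟨h1, not_lt.1 hcon⟩
    rw [hf.hd] at h4
    exact absurd h4 (Finset.notMem_empty _)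
  exact (NiceX_bad_card (R f) (W f) (ε f) (η f) hf.η0 h2 (φ y) h3).trans (hf.hT s hs hsS).2.1

open Classical in
/-- the points forbidden for `s` by the edge `f = {s, p, q}` -/
noncomputable def GreedyF_F {V : Type*} {α : Type} [DecidableEq α]
    (R : Finset α → Prop) (A S' : Finset V) (W : Finset α) (η : ℝ) (φ : V → α) (p q : V) :
    Finset α :=
  (if p ∈ A ∨ p ∈ S' then NiceX_bad R W η (φ p) else ∅) ∪
    ((if q ∈ A ∨ q ∈ S' then NiceX_bad R W η (φ q) else ∅) ∪
      (if (p ∈ A ∨ p ∈ S') ∧ (q ∈ A ∨ q ∈ S') then cod R W (φ p) (φ q) else ∅))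

theorem GreedyF_St.F_card {V : Type*} {α : Type} [DecidableEq V] [DecidableEq α]
    {E : Finset (Finset V)} {R : Finset V → Finset α → Prop} {A S : Finset V}
    {T : V → Finset α} {φ₀ : V → α}
    {W : Finset V → Finset α} {ε η : Finset V → ℝ} {b : V → ℝ} {S' : Finset V} {φ : V → α}
    (hAS : Disjoint A S) (h : GreedyF_St E R A S T φ₀ W η S' φ) (hS : S' ⊆ S) {f : Finset V}
    (hfE : f ∈ E)
    (hf : GreedyF_W (R f) A S T φ₀ b f (W f) (ε f) (η f)) {s p q : V} (hs : s ∈ f)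
    (hsS : s ∈ S)
    (hb : 0 ≤ b s) (hp : p ∈ f) (hq : q ∈ f) (hpq : p ≠ q) :
    ((GreedyF_F (R f) A S' (W f) (η f) φ p q).card : ℝ) ≤ 3 * b s := by
  unfold GreedyF_F
  refine Greedy_union3 _ _ _ (Greedy_if hb fun hc => ?_) (Greedy_if hb fun hc => ?_)
    (Greedy_if hb fun hc => ?_)
  · exact h.bad hAS hS hf hp hc hs hsS
  · exact h.bad hAS hS hf hq hc hs hsS
  · exact ((h.hcod f hfE ⟨s, Finset.mem_inter.2 ⟨hs, hsS⟩⟩ p hp q hq hpq hc.1 hc.2).le).trans
        (hf.hT s hs hsS).2.2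

/-- one more vertex -/
theorem GreedyF_St.step {V : Type*} {α : Type} [DecidableEq V] [DecidableEq α]
    {E : Finset (Finset V)} {R : Finset V → Finset α → Prop} {A S : Finset V}
    {T : V → Finset α} {φ₀ : V → α}
    {W : Finset V → Finset α} {ε η : Finset V → ℝ} {b : V → ℝ} {S' : Finset V} {φ : V → α}
    {Δ : ℕ} (h3 : ∀ f ∈ E, f.card = 3) (hdeg : ∀ x, (edgesAt E x).card ≤ Δ)
    (hAS : Disjoint A S)
    (hb : ∀ s, 0 ≤ b s) (hφ : ∀ x ∈ A, ∀ s ∈ S, φ₀ x ∉ T s)
    (hW : ∀ f ∈ E, (f ∩ S).Nonempty → GreedyF_W (R f) A S T φ₀ b f (W f) (ε f) (η f))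
    (hT : ∀ s ∈ S, ((S.filter fun s' => ¬ Disjoint (T s) (T s')).card : ℝ) + 3 * Δ * b s
      < ((T s).card : ℝ))
    (h : GreedyF_St E R A S T φ₀ W η S' φ) (hS : S' ⊆ S) {s : V} (hs : s ∈ S) :
    ∃ φ' : V → α, GreedyF_St E R A S T φ₀ W η (insert s S') φ' := by
  classical
  have hpq : ∀ f : Finset V, ∃ p q : V, f ∈ edgesAt E s → p ≠ q ∧ f.erase s = {p, q} := by
    intro f
    by_cases hf : f ∈ edgesAt E s
    · obtain ⟨hfE, hsf⟩ := Finset.mem_filter.1 hf
      have h1 : (f.erase s).card = 2 := by rw [Finset.card_erase_of_mem hsf, h3 f hfE]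
      obtain ⟨p, q, hne, he⟩ := Finset.card_eq_two.1 h1
      exact ⟨p, q, fun _ => ⟨hne, he⟩⟩
    · exact ⟨s, s, fun h => absurd h hf⟩
  choose p q hpq using hpq
  have hpf : ∀ f ∈ edgesAt E s, p f ∈ f ∧ p f ≠ s ∧ q f ∈ f ∧ q f ≠ s ∧ p f ≠ q f := by
    intro f hf
    obtain ⟨h1, h2⟩ := hpq f hf
    have h4 : p f ∈ f.erase s := by rw [h2]; exact Finset.mem_insert_self _ _
    have h5 : q f ∈ f.erase s := by
      rw [h2]; exact Finset.mem_insert_of_mem (Finset.mem_singleton_self _)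
    exact ⟨(Finset.mem_erase.1 h4).2, (Finset.mem_erase.1 h4).1, (Finset.mem_erase.1 h5).2,
      (Finset.mem_erase.1 h5).1, h1⟩
  have hfS : ∀ f ∈ edgesAt E s, f ∈ E ∧ s ∈ f ∧ (f ∩ S).Nonempty := by
    intro f hf
    obtain ⟨hfE, hsf⟩ := Finset.mem_filter.1 hf
    exact ⟨hfE, hsf, s, Finset.mem_inter.2 ⟨hsf, hs⟩⟩
  -- the forbidden points
  have hc1 : (((S.filter fun s' => ¬ Disjoint (T s) (T s')).image φ).card : ℝ) ≤
      ((S.filter fun s' => ¬ Disjoint (T s) (T s')).card : ℝ) := by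
    exact_mod_cast Finset.card_image_le
  have hc2 : (((edgesAt E s).biUnion fun f =>
      GreedyF_F (R f) A S' (W f) (η f) φ (p f) (q f)).card : ℝ) ≤ 3 * Δ * b s := by
    have e1 : ((edgesAt E s).biUnion fun f =>
        GreedyF_F (R f) A S' (W f) (η f) φ (p f) (q f)).card ≤
        ∑ f ∈ edgesAt E s, (GreedyF_F (R f) A S' (W f) (η f) φ (p f) (q f)).card :=
      Finset.card_biUnion_le
    have e2 : (((edgesAt E s).biUnion fun f =>
        GreedyF_F (R f) A S' (W f) (η f) φ (p f) (q f)).card : ℝ) ≤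
        ∑ f ∈ edgesAt E s,
          ((GreedyF_F (R f) A S' (W f) (η f) φ (p f) (q f)).card : ℝ) := by
      exact_mod_cast e1
    have e3 : ∑ f ∈ edgesAt E s,
        ((GreedyF_F (R f) A S' (W f) (η f) φ (p f) (q f)).card : ℝ) ≤
        ∑ _f ∈ edgesAt E s, 3 * b s := by
      refine Finset.sum_le_sum fun f hf => ?_
      obtain ⟨a1, a2, a3⟩ := hfS f hf
      obtain ⟨b1, b2, b3, b4, b5⟩ := hpf f hf
      exact h.F_card hAS hS a1 (hW f a1 a3) a2 hs (hb s) b1 b3 b5
    rw [Finset.sum_const, nsmul_eq_mul] at e3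
    have e4 : ((edgesAt E s).card : ℝ) * (3 * b s) ≤ Δ * (3 * b s) := by
      refine mul_le_mul_of_nonneg_right ?_ ?_
      · exact_mod_cast hdeg s
      · linarith only [hb s]
    linarith only [e2, e3, e4]
  have hc3 : (((S.filter fun s' => ¬ Disjoint (T s) (T s')).image φ) ∪
      (edgesAt E s).biUnion fun f =>
        GreedyF_F (R f) A S' (W f) (η f) φ (p f) (q f)).card < (T s).card := by
    have e1 := Finset.card_union_le ((S.filter fun s' => ¬ Disjoint (T s) (T s')).image φ)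
      ((edgesAt E s).biUnion fun f => GreedyF_F (R f) A S' (W f) (η f) φ (p f) (q f))
    have e2 : ((((S.filter fun s' => ¬ Disjoint (T s) (T s')).image φ) ∪
      (edgesAt E s).biUnion fun f =>
        GreedyF_F (R f) A S' (W f) (η f) φ (p f) (q f)).card : ℝ) < ((T s).card : ℝ) := by
      have e3 : ((((S.filter fun s' => ¬ Disjoint (T s) (T s')).image φ) ∪
        (edgesAt E s).biUnion fun f =>
          GreedyF_F (R f) A S' (W f) (η f) φ (p f) (q f)).card : ℝ) ≤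
          (((S.filter fun s' => ¬ Disjoint (T s) (T s')).image φ).card : ℝ) +
          (((edgesAt E s).biUnion fun f =>
          GreedyF_F (R f) A S' (W f) (η f) φ (p f) (q f)).card : ℝ) := by exact_mod_cast e1
      have e4 := hT s hs
      linarith only [e3, e4, hc1, hc2]
    exact_mod_cast e2
  obtain ⟨z, hzT, hz⟩ := Finset.exists_mem_notMem_of_card_lt_card hc3
  have hz1 : ∀ s' ∈ S', φ s' ≠ z := by
    intro s' hs1 he
    refine hz (Finset.mem_union_left _ (Finset.mem_image.2 ⟨s', ?_, he⟩))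
    refine Finset.mem_filter.2 ⟨hS hs1, fun hd => ?_⟩
    have h4 : z ∈ T s' := by rw [← he]; exact h.mem s' hs1
    exact Finset.disjoint_left.1 hd hzT h4
  have hz2 : ∀ y, (y ∈ A ∨ y ∈ S') → φ y ≠ z := by
    intro y hy
    rcases hy with hy | hy
    · intro he
      rw [h.out y (Finset.disjoint_left.1 hAS hy)] at he
      exact hφ y hy s hs (by rw [he]; exact hzT)
    · exact hz1 y hy
  have hz3 : ∀ f ∈ edgesAt E s, z ∉ GreedyF_F (R f) A S' (W f) (η f) φ (p f) (q f) := by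
    intro f hf h4
    exact hz (Finset.mem_union_right _ (Finset.mem_biUnion.2 ⟨f, hf, h4⟩))
  have hzW : ∀ f ∈ edgesAt E s, z ∈ W f := by
    intro f hf
    obtain ⟨a1, a2, a3⟩ := hfS f hf
    exact ((hW f a1 a3).hT s a2 hs).1 hzT
  have hz4 : ∀ f ∈ edgesAt E s, ∀ y ∈ f, y ≠ s → (y ∈ A ∨ y ∈ S') →
      ((cod (R f) (W f) (φ y) z).card : ℝ) < η f * ((W f).card : ℝ) := by
    intro f hf y hy hys hyS
    by_contra hcon
    have h4 : z ∈ NiceX_bad (R f) (W f) (η f) (φ y) := by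
      unfold NiceX_bad
      exact Finset.mem_filter.2 ⟨hzW f hf, hz2 y hyS, not_lt.1 hcon⟩
    have h5 : y ∈ f.erase s := Finset.mem_erase.2 ⟨hys, hy⟩
    rw [(hpq f hf).2, Finset.mem_insert, Finset.mem_singleton] at h5
    apply hz3 f hf
    unfold GreedyF_F
    rcases h5 with h5 | h5
    · rw [h5] at hyS h4
      refine Finset.mem_union_left _ ?_
      rw [if_pos hyS]
      exact h4
    · rw [h5] at hyS h4
      refine Finset.mem_union_right _ (Finset.mem_union_left _ ?_)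
      rw [if_pos hyS]
      exact h4
  have hs1 : ∀ y, (y ∈ A ∨ y ∈ insert s S') → y ≠ s → (y ∈ A ∨ y ∈ S') := by
    intro y hy hys
    rcases hy with hy | hy
    · exact Or.inl hy
    · exact Or.inr ((Finset.mem_insert.1 hy).resolve_left hys)
  refine ⟨Function.update φ s z, ?_⟩
  have u1 : Function.update φ s z s = z := Function.update_self _ _ _
  have u2 : ∀ y, y ≠ s → Function.update φ s z y = φ y := fun y hy =>
    Function.update_of_ne hy _ _
  refine { out := ?_, mem := ?_, inj := ?_, hcod := ?_, red := ?_ }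
  · intro x hx
    rw [u2 x fun e => hx (e ▸ hs)]
    exact h.out x hx
  · intro y hy
    by_cases hys : y = s
    · rw [hys, u1]
      exact hzT
    · rw [u2 y hys]
      exact h.mem y ((Finset.mem_insert.1 hy).resolve_left hys)
  · intro x y hx hy hxy
    by_cases hxs : x = s
    · by_cases hys : y = s
      · rw [hxs, hys]
      · rw [hxs, u1, u2 y hys] at hxy
        exact absurd hxy.symm (hz2 y (hs1 y hy hys))
    · by_cases hys : y = s
      · rw [hys, u1, u2 x hxs] at hxy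
        exact absurd hxy (hz2 x (hs1 x hx hxs))
      · rw [u2 x hxs, u2 y hys] at hxy
        exact h.inj x y (hs1 x hx hxs) (hs1 y hy hys) hxy
  · intro f hf hfS' y hy y' hy' hne hyS hyS'
    by_cases hys : y = s
    · have hys' : y' ≠ s := fun e => hne (hys.trans e.symm)
      rw [hys, u1, u2 y' hys', Greedy_cod_symm]
      exact hz4 f (Finset.mem_filter.2 ⟨hf, hys ▸ hy⟩) y' hy' hys' (hs1 y' hyS' hys')
    · by_cases hys' : y' = s
      · rw [hys', u1, u2 y hys]
        exact hz4 f (Finset.mem_filter.2 ⟨hf, hys' ▸ hy'⟩) y hy hys (hs1 y hyS hys)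
      · rw [u2 y hys, u2 y' hys']
        exact h.hcod f hf hfS' y hy y' hy' hne (hs1 y hyS hys) (hs1 y' hyS' hys')
  · intro f hf hfne hall
    by_cases hsf : s ∈ f
    · have hfs : f ∈ edgesAt E s := Finset.mem_filter.2 ⟨hf, hsf⟩
      obtain ⟨b1, b2, b3, b4, b5⟩ := hpf f hfs
      have e1 := hs1 (p f) (hall _ b1) b2
      have e2 := hs1 (q f) (hall _ b3) b4
      have hfe : f = {s, p f, q f} := by
        conv_lhs => rw [← Finset.insert_erase hsf, (hpq f hfs).2]
      have h4 : f.image (Function.update φ s z) = {z, φ (p f), φ (q f)} := by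
        conv_lhs => rw [hfe]
        rw [Finset.image_insert, Finset.image_insert, Finset.image_singleton, u1, u2 _ b2,
          u2 _ b4]
      rw [h4, pair_rot]
      by_contra hcon
      apply hz3 f hfs
      unfold GreedyF_F
      refine Finset.mem_union_right _ (Finset.mem_union_right _ ?_)
      rw [if_pos ⟨e1, e2⟩]
      exact mem_cod.2 ⟨hzW f hfs, fun e => b5 (h.inj _ _ e1 e2 e), hz2 _ e1, hz2 _ e2, hcon⟩
    · have h4 : f.image (Function.update φ s z) = f.image φ :=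
        Finset.image_congr fun y hy => u2 y fun e => hsf (e ▸ hy)
      rw [h4]
      refine h.red f hf ?_ fun y hy => hs1 y (hall y hy) fun e => hsf (e ▸ hy)
      obtain ⟨y, hy⟩ := hfne
      obtain ⟨hy1, hy2⟩ := Finset.mem_inter.1 hy
      exact ⟨y, Finset.mem_inter.2 ⟨hy1, (Finset.mem_insert.1 hy2).resolve_left
        fun e => hsf (e ▸ hy1)⟩⟩

/-- Greedy embedding of the vertices of `S`; the vertices of `A` are embedded already, the other
vertices are ignored.  Every edge `f` has its own ambient set `W f` and its own colouring `R f`. -/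
theorem greedy_f {V : Type*} {α : Type} [DecidableEq V] [DecidableEq α] (E : Finset (Finset V))
    (Δ : ℕ) (h3 : ∀ f ∈ E, f.card = 3) (hdeg : ∀ x, (edgesAt E x).card ≤ Δ)
    (A S : Finset V) (hAS : Disjoint A S) (T : V → Finset α) (φ₀ : V → α) (b : V → ℝ)
    (hb : ∀ s, 0 ≤ b s) (hφ : ∀ x ∈ A, ∀ s ∈ S, φ₀ x ∉ T s)
    (R : Finset V → Finset α → Prop) (W : Finset V → Finset α) (ε η : Finset V → ℝ)
    (hf : ∀ f ∈ E, (f ∩ S).Nonempty → 0 < ε f ∧ 0 < η f ∧ dense (R f) (W f) (ε f) = ∅ ∧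
      (∀ s ∈ f, s ∈ S → T s ⊆ W f ∧ ε f / η f * ((W f).card : ℝ) ≤ b s ∧
        η f * ((W f).card : ℝ) ≤ b s) ∧
      (∀ y ∈ f, y ∈ A → φ₀ y ∈ W f) ∧
      (∀ y ∈ f, y ∈ A → ∀ y' ∈ f, y' ∈ A → y ≠ y' →
        ((cod (R f) (W f) (φ₀ y) (φ₀ y')).card : ℝ) < η f * ((W f).card : ℝ)))
    (hinj : Set.InjOn φ₀ {x | x ∈ A})
    (hT : ∀ s ∈ S, ((S.filter fun s' => ¬ Disjoint (T s) (T s')).card : ℝ) + 3 * Δ * b s
      < ((T s).card : ℝ)) :
    ∃ φ : V → α, (∀ x ∉ S, φ x = φ₀ x) ∧ (∀ s ∈ S, φ s ∈ T s) ∧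
      Set.InjOn φ {x | x ∈ A ∨ x ∈ S} ∧
      ∀ f ∈ E, (f ∩ S).Nonempty →
        (∀ y ∈ f, ∀ y' ∈ f, (y ∈ A ∨ y ∈ S) → (y' ∈ A ∨ y' ∈ S) → y ≠ y' →
          ((cod (R f) (W f) (φ y) (φ y')).card : ℝ) < η f * ((W f).card : ℝ)) ∧
        ((∀ y ∈ f, y ∈ A ∨ y ∈ S) → R f (f.image φ)) := by
  classical
  have hW' : ∀ f ∈ E, (f ∩ S).Nonempty → GreedyF_W (R f) A S T φ₀ b f (W f) (ε f) (η f) := by
    intro f hf' hne
    obtain ⟨a1, a2, a3, a4, a5, a6⟩ := hf f hf' hne
    exact ⟨a1, a2, a3, a4, a5, a6⟩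
  have key : ∀ S' : Finset V, S' ⊆ S → ∃ φ, GreedyF_St E R A S T φ₀ W η S' φ := by
    intro S'
    induction S' using Finset.induction_on with
    | empty =>
      intro _
      refine ⟨φ₀, ?_⟩
      refine { out := fun _ _ => rfl, mem := ?_, inj := ?_, hcod := ?_, red := ?_ }
      · intro s hs
        exact absurd hs (Finset.notMem_empty s)
      · intro x y hx hy hxy
        exact hinj (hx.resolve_right (Finset.notMem_empty x))
          (hy.resolve_right (Finset.notMem_empty y)) hxy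
      · intro f hf' hne y hy y' hy' hyy h1 h2
        exact (hW' f hf' hne).hc y hy (h1.resolve_right (Finset.notMem_empty y)) y' hy'
          (h2.resolve_right (Finset.notMem_empty y')) hyy
      · intro f _ hne
        rw [Finset.inter_empty] at hne
        exact absurd hne Finset.not_nonempty_empty
    | insert s S' hs ih =>
      intro hsub
      obtain ⟨hsS, hS'⟩ := Finset.insert_subset_iff.1 hsub
      obtain ⟨φ, hφ'⟩ := ih hS'
      exact hφ'.step h3 hdeg hAS hb hφ hW' hT hS' hsS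
  obtain ⟨φ, h⟩ := key S (Finset.Subset.refl S)
  refine ⟨φ, h.out, h.mem, fun x hx y hy hxy => h.inj x y hx hy hxy, fun f hf' hne => ⟨?_, ?_⟩⟩
  · intro y hy y' hy' h1 h2 hyy
    exact h.hcod f hf' hne y hy y' hy' hyy h1 h2
  · exact fun hall => h.red f hf' hne hall

end Pool.MP7783b9
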