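import Pool.Agent.H.MP_7783b9_co.X.Base
import Pool.Agent.H.MP_7783b9_co.X.GreedyF

/-!
# Embedding the vertices near the second separator, with paths of modes
-/

set_option autoImplicit false

open Finset

namespace Pool.MP7783b9

/-- the ambient set of an edge and its colouring -/
structure JoinA_W {V : Type*} {α : Type} [DecidableEq V] [DecidableEq α]
    (R : Finset α → Prop) (T : V → Finset α) (b : V → ℝ) (p : ℕ) (d c : V → ℕ)
    (q : ℕ → ℕ → Finset α) (η : ℝ) (f : Finset V) (R' : Finset α → Prop) (W : Finset α)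
    (ε' η' : ℝ) : Prop where
  ε0 : 0 < ε'
  η0 : 0 < η'
  hd : dense R' W ε' = ∅
  hT : ∀ s ∈ f, T s ⊆ W ∧ ε' / η' * (W.card : ℝ) ≤ b s ∧ η' * (W.card : ℝ) ≤ b s
  red : ∀ φ : V → α, (∀ y ∈ f, φ y ∈ T y) → R' (f.image φ) → R (f.image φ)
  top : (∃ x ∈ f, 3 * p < d x) → ∀ y ∈ f, d y = 3 * p → R' = R ∧ W = q (c y) p ∧ η' = η

theorem JoinA_red {V : Type*} {α : Type} [DecidableEq V] [DecidableEq α]
    (R : Finset α → Prop) (m : Fin 3 → Finset α) (f : Finset V) (h3 : f.card = 3)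
    (col : V → Fin 3) (hcol : ∀ x ∈ f, ∀ y ∈ f, x ≠ y → col x ≠ col y) (φ : V → α)
    (hφ : ∀ y ∈ f, φ y ∈ m (col y)) (hR : Rm R m (f.image φ)) : R (f.image φ) := by
  classical
  have hinj : ∀ x ∈ f, ∀ y ∈ f, col x = col y → x = y := by
    intro x hx y hy hxy
    by_contra hne
    exact hcol x hx y hy hne hxy
  have h1 : f.image col = Finset.univ := by
    apply Finset.eq_univ_of_card
    rw [Finset.card_image_of_injOn (fun x hx y hy h => hinj x hx y hy h), h3, Fintype.card_fin]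
  have h2 : ∀ i : Fin 3, ∃ a ∈ f, col a = i := by
    intro i
    have h := Finset.mem_univ i
    rw [← h1, Finset.mem_image] at h
    exact h
  obtain ⟨a0, ha0, e0⟩ := h2 0
  obtain ⟨a1, ha1, e1⟩ := h2 1
  obtain ⟨a2, ha2, e2⟩ := h2 2
  have h4 : f = {a0, a1, a2} := by
    ext y
    simp only [Finset.mem_insert, Finset.mem_singleton]
    constructor
    · intro hy
      have h5 : ∀ i : Fin 3, i = 0 ∨ i = 1 ∨ i = 2 := by decide
      rcases h5 (col y) with h | h | h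
      · exact Or.inl (hinj y hy a0 ha0 (h.trans e0.symm))
      · exact Or.inr (Or.inl (hinj y hy a1 ha1 (h.trans e1.symm)))
      · exact Or.inr (Or.inr (hinj y hy a2 ha2 (h.trans e2.symm)))
    · rintro (rfl | rfl | rfl)
      · exact ha0
      · exact ha1
      · exact ha2
  apply hR
  refine ⟨φ a0, ?_, φ a1, ?_, φ a2, ?_, ?_⟩
  · rw [← e0]
    exact hφ a0 ha0
  · rw [← e1]
    exact hφ a1 ha1
  · rw [← e2]
    exact hφ a2 ha2
  · rw [h4]
    simp only [Finset.image_insert, Finset.image_singleton]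

theorem JoinA_mode {V : Type*} {α : Type} [DecidableEq V] [DecidableEq α]
    {R : Finset α → Prop} {M : ℕ → Fin 3 → Finset α} {εl l : ℝ} {C₀ C₁ : Finset α}
    (hM : ModePath R εl l C₀ C₁ M) (f : Finset V) (col : V → Fin 3)
    (hcol : ∀ x ∈ f, ∀ y ∈ f, x ≠ y → col x ≠ col y) (d : V → ℕ) (j : ℕ) (hj : j < 4)
    (hlev : ∀ y ∈ f, d y = j + 2 ∨ d y = j + 3) :
    ∃ j' ≤ 4, ∀ y ∈ f, M (d y - 2) (col y) = M j' (col y) := by
  classical
  obtain ⟨c₀, hc₀⟩ := hM.step j hj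
  have key : ∀ y ∈ f, ∀ i, i ≠ c₀ → M (d y - 2) i = M j i := by
    intro y hy i hi
    rcases hlev y hy with h | h
    · have e : d y - 2 = j := by omega
      rw [e]
    · have e : d y - 2 = j + 1 := by omega
      rw [e]
      exact hc₀ i hi
  by_cases h : ∃ a ∈ f, col a = c₀
  · obtain ⟨a, ha, hac⟩ := h
    refine ⟨d a - 2, ?_, ?_⟩
    · rcases hlev a ha with h | h <;> omega
    · intro y hy
      by_cases hya : y = a
      · rw [hya]
      · have hne : col y ≠ c₀ := by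
          rw [← hac]
          exact hcol y hy a ha hya
        rw [key y hy _ hne, key a ha _ hne]
  · refine ⟨j, by omega, ?_⟩
    intro y hy
    exact key y hy _ fun he => h ⟨y, hy, he⟩

/-- The vertices with `d x ≤ 3 p` are embedded.  A vertex `x` belongs to the cluster
`q (c x) (d x / 3)`; for the labels `k` with `mk k` the clusters `q k 1` and `q k 2` are joined by
a path of modes, the vertices with `2 ≤ d x ≤ 6` are embedded into the modes according to their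
colours. -/
theorem join_a {V : Type*} {α : Type} [Fintype V] [DecidableEq V] [DecidableEq α]
    (E : Finset (Finset V)) (Δ : ℕ) (hH : Hyp Finset.univ E Δ) (R : Finset α → Prop)
    (U : Finset α) (p : ℕ) (hp : 2 ≤ p) (d c : V → ℕ)
    (hd : ∀ f ∈ E, ∀ x ∈ f, ∀ y ∈ f, d y ≤ d x + 1)
    (hc : ∀ f ∈ E, ∀ x ∈ f, ∀ y ∈ f, 0 < d x → 0 < d y → c x = c y)
    (col : V → Fin 3)
    (hcol : ∀ f ∈ E, (∃ x ∈ f, d x ≤ 3 * p) → ∀ x ∈ f, ∀ y ∈ f, x ≠ y → col x ≠ col y)
    -- the clusters on the way to the cluster of the label `k`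
    (q : ℕ → ℕ → Finset α) (C₀ C₁ : Finset α) (mk : ℕ → Prop) (hq0 : ∀ k, q k 0 = C₀)
    (hqp : ∀ k i, p ≤ i → q k i = q k p) (hq1 : ∀ k, mk k → q k 1 = C₀ ∧ q k 2 = C₁)
    (N : ℕ) (ε η : ℝ) (hε : 0 < ε) (hη : 0 < η)
    (hq : ∀ k i, q k i ⊆ U ∧ (q k i).card = N ∧ dense R (q k i) ε = ∅)
    -- the sparse unions between consecutive clusters
    (LA LA' : Finset α → Finset α → Finset α) (εl ηl m : ℝ) (hεl : 0 < εl) (hηl : 0 < ηl)
    (hm : m ≤ (N : ℝ))
    (hL : ∀ k i, (mk k → 2 ≤ i) → q k i ≠ q k (i + 1) → LA (q k i) (q k (i + 1)) ⊆ q k i ∧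
      LA' (q k i) (q k (i + 1)) ⊆ q k (i + 1) ∧
      (LA (q k i) (q k (i + 1))).card = (LA' (q k i) (q k (i + 1))).card ∧
      m ≤ ((LA (q k i) (q k (i + 1))).card : ℝ) ∧
      dense R (LA (q k i) (q k (i + 1)) ∪ LA' (q k i) (q k (i + 1))) εl = ∅)
    -- the modes
    (M : ℕ → Fin 3 → Finset α) (l : ℝ) (hl : m ≤ l)
    (hM : (∃ k, mk k) → (∀ j ≤ 4, ∀ i, M j i ⊆ U) ∧ ModePath R εl l C₀ C₁ M)
    -- bounds for the number of forbidden points
    (β βl : ℝ) (hβ0 : 0 ≤ β) (hβ1 : ε / η * (N : ℝ) ≤ β) (hβ2 : η * (N : ℝ) ≤ β)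
    (hβl : εl / ηl ≤ βl) (hβl2 : ηl ≤ βl) (hβl3 : 48 * ((Δ : ℝ) + 1) * βl ≤ 1)
    (hnum : ((Finset.univ.filter fun x => d x ≤ 3 * p).card : ℝ) + 3 * Δ * β < m / 2) :
    ∃ φ : V → α, Set.InjOn φ {x | d x ≤ 3 * p} ∧ (∀ x, d x ≤ 3 * p → φ x ∈ U) ∧
      (∀ x, d x = 3 * p → φ x ∈ q (c x) p) ∧
      (∀ f ∈ E, (∀ x ∈ f, d x ≤ 3 * p) → R (f.image φ)) ∧
      ∀ f ∈ E, (∃ x ∈ f, 3 * p < d x) → ∀ y ∈ f, ∀ y' ∈ f, d y = 3 * p → d y' = 3 * p →
        y ≠ y' → ((cod R (q (c y) p) (φ y) (φ y')).card : ℝ) < η * (N : ℝ) := by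
  classical
  have hβl0 : 0 < βl := lt_of_lt_of_le hηl hβl2
  have hΔ0 : (0 : ℝ) ≤ (Δ : ℝ) := Nat.cast_nonneg _
  have hm0 : 0 < m := by
    have h1 : (0 : ℝ) ≤ ((Finset.univ.filter fun x => d x ≤ 3 * p).card : ℝ) :=
      Nat.cast_nonneg _
    have h2 : 0 ≤ 3 * (Δ : ℝ) * β := mul_nonneg (by linarith only [hΔ0]) hβ0
    linarith only [h1, h2, hnum]
  have hN0 : 0 < N := by
    have : (0 : ℝ) < N := lt_of_lt_of_le hm0 hm
    exact_mod_cast this
  obtain ⟨a₀, ha₀⟩ : (q 0 0).Nonempty := by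
    rw [← Finset.card_pos, (hq 0 0).2.1]
    exact hN0
  obtain ⟨T, b, hcase⟩ : ∃ (T : V → Finset α) (b : V → ℝ), ∀ x,
      ((mk (c x) ∧ 2 ≤ d x ∧ d x ≤ 6) ∧ T x = M (d x - 2) (col x) ∧
        b x = β + 6 * βl * ((M (d x - 2) (col x)).card : ℝ)) ∨
      (¬(mk (c x) ∧ 2 ≤ d x ∧ d x ≤ 6) ∧
        (d x % 3 = 2 ∧ q (c x) (d x / 3) ≠ q (c x) (d x / 3 + 1)) ∧
        T x = LA (q (c x) (d x / 3)) (q (c x) (d x / 3 + 1)) ∧
        b x = β + 2 * βl * ((LA (q (c x) (d x / 3)) (q (c x) (d x / 3 + 1))).card : ℝ)) ∨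
      (¬(mk (c x) ∧ 2 ≤ d x ∧ d x ≤ 6) ∧
        (d x % 3 = 0 ∧ 0 < d x ∧ q (c x) (d x / 3 - 1) ≠ q (c x) (d x / 3 - 1 + 1)) ∧
        T x = LA' (q (c x) (d x / 3 - 1)) (q (c x) (d x / 3 - 1 + 1)) ∧
        b x = β + 2 * βl *
          ((LA' (q (c x) (d x / 3 - 1)) (q (c x) (d x / 3 - 1 + 1))).card : ℝ)) ∨
      (¬(mk (c x) ∧ 2 ≤ d x ∧ d x ≤ 6) ∧
        ¬(d x % 3 = 2 ∧ q (c x) (d x / 3) ≠ q (c x) (d x / 3 + 1)) ∧
        ¬(d x % 3 = 0 ∧ 0 < d x ∧ q (c x) (d x / 3 - 1) ≠ q (c x) (d x / 3 - 1 + 1)) ∧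
        T x = q (c x) (d x / 3) ∧ b x = β) := by
    have hex : ∀ x, ∃ (Tx : Finset α) (bx : ℝ),
      ((mk (c x) ∧ 2 ≤ d x ∧ d x ≤ 6) ∧ Tx = M (d x - 2) (col x) ∧
        bx = β + 6 * βl * ((M (d x - 2) (col x)).card : ℝ)) ∨
      (¬(mk (c x) ∧ 2 ≤ d x ∧ d x ≤ 6) ∧
        (d x % 3 = 2 ∧ q (c x) (d x / 3) ≠ q (c x) (d x / 3 + 1)) ∧
        Tx = LA (q (c x) (d x / 3)) (q (c x) (d x / 3 + 1)) ∧
        bx = β + 2 * βl * ((LA (q (c x) (d x / 3)) (q (c x) (d x / 3 + 1))).card : ℝ)) ∨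
      (¬(mk (c x) ∧ 2 ≤ d x ∧ d x ≤ 6) ∧
        (d x % 3 = 0 ∧ 0 < d x ∧ q (c x) (d x / 3 - 1) ≠ q (c x) (d x / 3 - 1 + 1)) ∧
        Tx = LA' (q (c x) (d x / 3 - 1)) (q (c x) (d x / 3 - 1 + 1)) ∧
        bx = β + 2 * βl *
          ((LA' (q (c x) (d x / 3 - 1)) (q (c x) (d x / 3 - 1 + 1))).card : ℝ)) ∨
      (¬(mk (c x) ∧ 2 ≤ d x ∧ d x ≤ 6) ∧
        ¬(d x % 3 = 2 ∧ q (c x) (d x / 3) ≠ q (c x) (d x / 3 + 1)) ∧
        ¬(d x % 3 = 0 ∧ 0 < d x ∧ q (c x) (d x / 3 - 1) ≠ q (c x) (d x / 3 - 1 + 1)) ∧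
        Tx = q (c x) (d x / 3) ∧ bx = β) := by
      intro x
      by_cases h1 : mk (c x) ∧ 2 ≤ d x ∧ d x ≤ 6
      · exact ⟨_, _, Or.inl ⟨h1, rfl, rfl⟩⟩
      by_cases h2 : d x % 3 = 2 ∧ q (c x) (d x / 3) ≠ q (c x) (d x / 3 + 1)
      · exact ⟨_, _, Or.inr (Or.inl ⟨h1, h2, rfl, rfl⟩)⟩
      by_cases h3 : d x % 3 = 0 ∧ 0 < d x ∧ q (c x) (d x / 3 - 1) ≠ q (c x) (d x / 3 - 1 + 1)
      · exact ⟨_, _, Or.inr (Or.inr (Or.inl ⟨h1, h3, rfl, rfl⟩))⟩
      · exact ⟨_, _, Or.inr (Or.inr (Or.inr ⟨h1, h2, h3, rfl, rfl⟩))⟩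
    choose T b h using hex
    exact ⟨T, b, h⟩
  have hLx : ∀ x, ¬(mk (c x) ∧ 2 ≤ d x ∧ d x ≤ 6) → d x % 3 = 2 → mk (c x) → 2 ≤ d x / 3 := by
    intro x h1 h2 h3
    by_contra h4
    exact h1 ⟨h3, by omega, by omega⟩
  have hLx' : ∀ x, ¬(mk (c x) ∧ 2 ≤ d x ∧ d x ≤ 6) → d x % 3 = 0 → 0 < d x → mk (c x) →
      2 ≤ d x / 3 - 1 := by
    intro x h1 h2 h2' h3
    by_contra h4
    exact h1 ⟨h3, by omega, by omega⟩
  -- sizes
  have hsize : ∀ x, T x ⊆ U ∧ m ≤ ((T x).card : ℝ) ∧ β ≤ b x ∧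
      b x ≤ β + 6 * βl * ((T x).card : ℝ) := by
    intro x
    have hT0 : (0 : ℝ) ≤ ((T x).card : ℝ) := Nat.cast_nonneg _
    have hT1 : 0 ≤ βl * ((T x).card : ℝ) := mul_nonneg hβl0.le hT0
    rcases hcase x with ⟨h1, h2, h3⟩ | ⟨h1, h2, h3, h4⟩ | ⟨h1, h2, h3, h4⟩ | ⟨_, _, _, h3, h4⟩
    · obtain ⟨m1, m2⟩ := hM ⟨_, h1.1⟩
      rw [← h2] at h3
      refine ⟨?_, ?_, by linarith only [h3, hT1], by linarith only [h3]⟩
      · rw [h2]
        exact m1 _ (by omega) _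
      · rw [h2]
        exact hl.trans (m2.size _ (by omega) _).1
    · obtain ⟨l1, l2, l3, l4, l5⟩ := hL _ _ (hLx x h1 h2.1) h2.2
      rw [← h3] at h4 l1 l4
      exact ⟨l1.trans (hq _ _).1, l4, by linarith only [h4, hT1], by linarith only [h4, hT1]⟩
    · obtain ⟨l1, l2, l3, l4, l5⟩ := hL _ _ (hLx' x h1 h2.1 h2.2.1) h2.2.2
      rw [l3] at l4
      rw [← h3] at h4 l2 l4
      exact ⟨l2.trans (hq _ _).1, l4, by linarith only [h4, hT1], by linarith only [h4, hT1]⟩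
    · refine ⟨by rw [h3]; exact (hq _ _).1, ?_, h4.ge, by linarith only [h4, hT1]⟩
      rw [h3, (hq _ _).2.1]
      exact hm
  -- the hosts lie in the clusters
  have hTq : ∀ x, ¬(mk (c x) ∧ 3 ≤ d x ∧ d x ≤ 5) → T x ⊆ q (c x) (d x / 3) := by
    intro x hx
    rcases hcase x with ⟨h1, h2, _⟩ | ⟨h1, h2, h3, _⟩ | ⟨h1, h2, h3, _⟩ | ⟨_, _, _, h3, _⟩
    · obtain ⟨m1, m2⟩ := hM ⟨_, h1.1⟩
      have h4 : d x = 2 ∨ d x = 6 := by
        by_contra hcon
        exact hx ⟨h1.1, by omega, by omega⟩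
      rcases h4 with h4 | h4
      · rw [h2, h4]
        have e : (2 : ℕ) / 3 = 0 := rfl
        rw [e, hq0]
        exact m2.fst _
      · rw [h2, h4]
        have e : (6 : ℕ) / 3 = 2 := rfl
        rw [e, (hq1 _ h1.1).2]
        exact m2.lst _
    · rw [h3]
      exact (hL _ _ (hLx x h1 h2.1) h2.2).1
    · rw [h3]
      have h4 := (hL _ _ (hLx' x h1 h2.1 h2.2.1) h2.2.2).2.1
      have h5 : d x / 3 - 1 + 1 = d x / 3 := by
        have := h2.1
        have := h2.2.1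
        omega
      rw [h5] at h4 ⊢
      exact h4
    · rw [h3]
  set S : Finset V := Finset.univ.filter fun x => d x ≤ 3 * p with hS
  have memS : ∀ x, x ∈ S ↔ d x ≤ 3 * p := by
    intro x
    rw [hS, Finset.mem_filter]
    exact ⟨fun h => h.2, fun h => ⟨Finset.mem_univ x, h⟩⟩
  -- the ambient sets
  have hW : ∀ f : Finset V, ∃ (R' : Finset α → Prop) (W : Finset α) (ε' η' : ℝ), f ∈ E →
      (f ∩ S).Nonempty → JoinA_W R T b p d c q η f R' W ε' η' := by
    intro f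
    by_cases hfE : f ∈ E
    swap
    · exact ⟨R, ∅, 1, 1, fun h => absurd h hfE⟩
    by_cases hne : (f ∩ S).Nonempty
    swap
    · exact ⟨R, ∅, 1, 1, fun _ h => absurd h hne⟩
    have hex : ∃ x ∈ f, d x ≤ 3 * p := by
      obtain ⟨x, hx⟩ := hne
      rw [Finset.mem_inter] at hx
      exact ⟨x, hx.1, (memS x).1 hx.2⟩
    have hcolf := hcol f hfE hex
    by_cases ha : ∃ x ∈ f, mk (c x) ∧ 3 ≤ d x ∧ d x ≤ 5
    · -- the modes
      obtain ⟨x, hx, hmk, hx3, hx5⟩ := ha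
      obtain ⟨m1, m2⟩ := hM ⟨_, hmk⟩
      have hlev : ∀ y ∈ f, (d x ≤ d y + 1 ∧ d y ≤ d x + 1) ∧ c y = c x := by
        intro y hy
        have h1 := hd f hfE x hx y hy
        have h2 := hd f hfE y hy x hx
        exact ⟨⟨h2, h1⟩, hc f hfE y hy x hx (by omega) (by omega)⟩
      obtain ⟨j, hj, hjl⟩ : ∃ j < 4, ∀ y ∈ f, d y = j + 2 ∨ d y = j + 3 := by
        by_cases h : ∃ y ∈ f, d y + 1 = d x
        · obtain ⟨y, hy, hyx⟩ := h
          refine ⟨d x - 3, by omega, ?_⟩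
          intro z hz
          have h1 := hd f hfE y hy z hz
          have h2 := (hlev z hz).1
          omega
        · refine ⟨d x - 2, by omega, ?_⟩
          intro z hz
          have h2 := (hlev z hz).1
          have h3 : ¬ d z + 1 = d x := fun h4 => h ⟨z, hz, h4⟩
          omega
      obtain ⟨j', hj', hjM⟩ := JoinA_mode m2 f col hcolf d j hj hjl
      have hTb : ∀ y ∈ f, T y = M j' (col y) ∧ b y = β + 6 * βl * ((M j' (col y)).card : ℝ) := by
        intro y hy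
        have h1 : mk (c y) ∧ 2 ≤ d y ∧ d y ≤ 6 := by
          rw [(hlev y hy).2]
          have := (hlev y hy).1
          exact ⟨hmk, by omega, by omega⟩
        rcases hcase y with ⟨_, h2, h3⟩ | ⟨h2, _⟩ | ⟨h2, _⟩ | ⟨h2, _⟩
        · rw [hjM y hy] at h2 h3
          exact ⟨h2, h3⟩
        · exact absurd h1 h2
        · exact absurd h1 h2
        · exact absurd h1 h2
      refine ⟨Rm R (M j'), M j' 0 ∪ M j' 1 ∪ M j' 2, εl, ηl, fun _ _ => ?_⟩
      have hl0 : 0 < l := lt_of_lt_of_le hm0 hl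
      have hWc : ((M j' 0 ∪ M j' 1 ∪ M j' 2).card : ℝ) ≤ 6 * l := by
        have h1 : (M j' 0 ∪ M j' 1 ∪ M j' 2).card ≤
            (M j' 0).card + (M j' 1).card + (M j' 2).card :=
          (Finset.card_union_le _ _).trans (Nat.add_le_add_right (Finset.card_union_le _ _) _)
        have h2 : ((M j' 0 ∪ M j' 1 ∪ M j' 2).card : ℝ) ≤
            (M j' 0).card + (M j' 1).card + (M j' 2).card := by exact_mod_cast h1
        have h3 := (m2.size j' hj' 0).2
        have h4 := (m2.size j' hj' 1).2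
        have h5 := (m2.size j' hj' 2).2
        linarith only [h2, h3, h4, h5]
      refine ⟨hεl, hηl, m2.sp j' hj', ?_, ?_, ?_⟩
      · intro s hs
        obtain ⟨h1, h2⟩ := hTb s hs
        have hsz := (m2.size j' hj' (col s)).1
        have h3 : ((M j' 0 ∪ M j' 1 ∪ M j' 2).card : ℝ) ≤ 6 * ((M j' (col s)).card : ℝ) := by
          linarith only [hWc, hsz]
        have hW0 : (0 : ℝ) ≤ ((M j' 0 ∪ M j' 1 ∪ M j' 2).card : ℝ) := Nat.cast_nonneg _
        have h6 : βl * ((M j' 0 ∪ M j' 1 ∪ M j' 2).card : ℝ) ≤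
            βl * (6 * ((M j' (col s)).card : ℝ)) := mul_le_mul_of_nonneg_left h3 hβl0.le
        refine ⟨?_, ?_, ?_⟩
        · rw [h1]
          have h5 : ∀ i : Fin 3, i = 0 ∨ i = 1 ∨ i = 2 := by decide
          rcases h5 (col s) with h | h | h
          · rw [h]
            exact Finset.subset_union_left.trans Finset.subset_union_left
          · rw [h]
            exact Finset.subset_union_right.trans Finset.subset_union_left
          · rw [h]
            exact Finset.subset_union_right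
        · rw [h2]
          have h5 := mul_le_mul_of_nonneg_right hβl hW0
          linarith only [h5, h6, hβ0]
        · rw [h2]
          have h5 := mul_le_mul_of_nonneg_right hβl2 hW0
          linarith only [h5, h6, hβ0]
      · intro φ hφ hR
        refine JoinA_red R (M j') f (hH.three f hfE) col hcolf φ ?_ hR
        intro y hy
        rw [← (hTb y hy).1]
        exact hφ y hy
      · rintro ⟨z, hz, hz'⟩
        have := (hlev z hz).1
        omega
    by_cases hcr : ∃ x ∈ f, ∃ y ∈ f, d x % 3 = 2 ∧ d y = d x + 1 ∧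
        q (c x) (d x / 3) ≠ q (c x) (d x / 3 + 1)
    · -- the crossing case
      obtain ⟨x, hx, y, hy, hm2, hy1, hneq⟩ := hcr
      have hip : d x / 3 < p := by
        by_contra hcon
        push Not at hcon
        apply hneq
        rw [hqp _ _ hcon, hqp _ _ (le_trans hcon (Nat.le_succ _))]
      have hlev : ∀ z ∈ f, (d z = d x ∨ d z = d x + 1) ∧ c z = c x := by
        intro z hz
        have h1 := hd f hfE x hx z hz
        have h2 := hd f hfE z hz y hy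
        refine ⟨by omega, hc f hfE z hz x hx (by omega) (by omega)⟩
      have hmk8 : mk (c x) → 8 ≤ d x := by
        intro hk
        by_contra hcon
        have h1 : d x = 2 ∨ d x = 5 := by omega
        rcases h1 with h1 | h1
        · apply ha
          refine ⟨y, hy, ?_, by omega, by omega⟩
          rw [(hlev y hy).2]
          exact hk
        · exact ha ⟨x, hx, hk, by omega, by omega⟩
      have hnomk : ∀ z ∈ f, ¬(mk (c z) ∧ 2 ≤ d z ∧ d z ≤ 6) := by
        rintro z hz ⟨h1, h2, h3⟩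
        have h4 := hmk8 (by rw [← (hlev z hz).2]; exact h1)
        have h5 := (hlev z hz).1
        omega
      obtain ⟨l1, l2, l3, l4, l5⟩ := hL _ _ (hLx x (hnomk x hx) hm2) hneq
      set A := LA (q (c x) (d x / 3)) (q (c x) (d x / 3 + 1)) with hA
      set A' := LA' (q (c x) (d x / 3)) (q (c x) (d x / 3 + 1)) with hA'
      have hspec : ∀ z ∈ f, d z ≤ 3 * p := by
        intro z hz
        have := (hlev z hz).1
        omega
      have hWc : ((A ∪ A').card : ℝ) ≤ 2 * (A.card : ℝ) := by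
        have h1 : (A ∪ A').card ≤ A.card + A'.card := Finset.card_union_le _ _
        rw [← l3] at h1
        have h2 : ((A ∪ A').card : ℝ) ≤ ((A.card + A.card : ℕ) : ℝ) := by exact_mod_cast h1
        push_cast at h2
        linarith only [h2]
      have hW0 : (0 : ℝ) ≤ ((A ∪ A').card : ℝ) := Nat.cast_nonneg _
      have hb1 : εl / ηl * ((A ∪ A').card : ℝ) ≤ β + 2 * βl * (A.card : ℝ) := by
        have h1 : εl / ηl * ((A ∪ A').card : ℝ) ≤ βl * ((A ∪ A').card : ℝ) :=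
          mul_le_mul_of_nonneg_right hβl hW0
        have h2 : βl * ((A ∪ A').card : ℝ) ≤ βl * (2 * (A.card : ℝ)) :=
          mul_le_mul_of_nonneg_left hWc hβl0.le
        linarith only [h1, h2, hβ0]
      have hb2 : ηl * ((A ∪ A').card : ℝ) ≤ β + 2 * βl * (A.card : ℝ) := by
        have h1 : ηl * ((A ∪ A').card : ℝ) ≤ βl * ((A ∪ A').card : ℝ) :=
          mul_le_mul_of_nonneg_right hβl2 hW0
        have h2 : βl * ((A ∪ A').card : ℝ) ≤ βl * (2 * (A.card : ℝ)) :=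
          mul_le_mul_of_nonneg_left hWc hβl0.le
        linarith only [h1, h2, hβ0]
      refine ⟨R, A ∪ A', εl, ηl, fun _ _ => ⟨hεl, hηl, l5, ?_, fun _ _ h => h, ?_⟩⟩
      · intro z hz
        obtain ⟨hz1, hz2⟩ := hlev z hz
        have hz4 := hnomk z hz
        rcases hz1 with hz1 | hz1
        · rcases hcase z with ⟨h1, _⟩ | ⟨_, _, h3, h4⟩ | ⟨_, h2, _⟩ | ⟨_, h2, _⟩
          · exact absurd h1 hz4
          · rw [hz2, hz1] at h3 h4
            rw [h3, h4]
            exact ⟨Finset.subset_union_left, hb1, hb2⟩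
          · have := h2.1
            omega
          · exfalso
            apply h2
            rw [hz2, hz1]
            exact ⟨hm2, hneq⟩
        · have e1 : d z / 3 - 1 = d x / 3 := by omega
          rcases hcase z with ⟨h1, _⟩ | ⟨_, h2, _⟩ | ⟨_, _, h3, h4⟩ | ⟨_, _, h2, _⟩
          · exact absurd h1 hz4
          · have := h2.1
            omega
          · rw [hz2, e1] at h3 h4
            rw [h3, h4, ← hA', ← l3]
            exact ⟨Finset.subset_union_right, hb1, hb2⟩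
          · exfalso
            apply h2
            rw [hz2, e1]
            exact ⟨by omega, by omega, hneq⟩
      · rintro ⟨z, hz, hz'⟩
        have := hspec z hz
        omega
    · -- all vertices in one cluster
      obtain ⟨x₀, hx₀, _⟩ := hex
      have hsame : ∀ z ∈ f, q (c z) (d z / 3) = q (c x₀) (d x₀ / 3) := by
        intro z hz
        have h1 := hd f hfE x₀ hx₀ z hz
        have h2 := hd f hfE z hz x₀ hx₀
        by_cases hpos : 0 < d z ∧ 0 < d x₀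
        · have hcz := hc f hfE z hz x₀ hx₀ hpos.1 hpos.2
          by_cases he : d z / 3 = d x₀ / 3
          · rw [hcz, he]
          · have h3 : (d z = d x₀ + 1 ∧ d x₀ % 3 = 2) ∨ (d x₀ = d z + 1 ∧ d z % 3 = 2) := by
              omega
            rcases h3 with ⟨h3, h4⟩ | ⟨h3, h4⟩
            · by_contra hcon
              apply hcr
              refine ⟨x₀, hx₀, z, hz, h4, h3, ?_⟩
              intro h5
              apply hcon
              have h6 : d z / 3 = d x₀ / 3 + 1 := by omega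
              rw [hcz, h6]
              exact h5.symm
            · by_contra hcon
              apply hcr
              refine ⟨z, hz, x₀, hx₀, h4, h3, ?_⟩
              intro h5
              apply hcon
              have h6 : d x₀ / 3 = d z / 3 + 1 := by omega
              rw [h5, hcz, h6]
        · have h3 : d z / 3 = 0 ∧ d x₀ / 3 = 0 := by omega
          rw [h3.1, h3.2, hq0, hq0]
      obtain ⟨g1, g2, g3⟩ := hq (c x₀) (d x₀ / 3)
      refine ⟨R, q (c x₀) (d x₀ / 3), ε, η, fun _ _ => ⟨hε, hη, g3, ?_, fun _ _ h => h, ?_⟩⟩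
      · intro z hz
        rw [g2]
        refine ⟨?_, hβ1.trans (hsize z).2.2.1, hβ2.trans (hsize z).2.2.1⟩
        rw [← hsame z hz]
        exact hTq z fun h => ha ⟨z, hz, h⟩
      · intro _ y hy hyp
        refine ⟨rfl, ?_, rfl⟩
        rw [← hsame y hy]
        exact hqp _ _ (by omega)
  choose R' W ε' η' hP using hW
  have hT : ∀ s ∈ S, ((S.filter fun s' => ¬ Disjoint (T s) (T s')).card : ℝ) + 3 * Δ * b s
      < ((T s).card : ℝ) := by
    intro s _
    obtain ⟨_, h2, h3, h4⟩ := hsize s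
    have hT0 : (0 : ℝ) ≤ ((T s).card : ℝ) := Nat.cast_nonneg _
    have k0 : ((S.filter fun s' => ¬ Disjoint (T s) (T s')).card : ℝ) ≤ (S.card : ℝ) := by
      exact_mod_cast Finset.card_le_card (Finset.filter_subset _ _)
    have k1 : 3 * (Δ : ℝ) * b s ≤ 3 * (Δ : ℝ) * (β + 6 * βl * ((T s).card : ℝ)) :=
      mul_le_mul_of_nonneg_left h4 (by linarith only [hΔ0])
    have k2 : 48 * ((Δ : ℝ) + 1) * βl * ((T s).card : ℝ) ≤ 1 * ((T s).card : ℝ) :=
      mul_le_mul_of_nonneg_right hβl3 hT0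
    have k3 : 0 ≤ βl * ((T s).card : ℝ) := mul_nonneg hβl0.le hT0
    have k4 : 0 ≤ (Δ : ℝ) * (βl * ((T s).card : ℝ)) := mul_nonneg hΔ0 k3
    have k5 : 3 * (Δ : ℝ) * (β + 6 * βl * ((T s).card : ℝ)) =
        3 * Δ * β + 18 * ((Δ : ℝ) * (βl * ((T s).card : ℝ))) := by ring
    have k6 : 48 * ((Δ : ℝ) + 1) * βl * ((T s).card : ℝ) =
        48 * ((Δ : ℝ) * (βl * ((T s).card : ℝ))) + 48 * (βl * ((T s).card : ℝ)) := by ring
    linarith only [k0, k1, k2, k3, k4, k5, k6, hnum, h2]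
  obtain ⟨φ, p1, p2, p3, p4⟩ := greedy_f E Δ hH.three hH.deg ∅ S (Finset.disjoint_empty_left S)
    T (fun _ => a₀) b (fun s => hβ0.trans (hsize s).2.2.1)
    (fun x hx => absurd hx (Finset.notMem_empty x)) R' W ε' η'
    (fun f hfE hne => ⟨(hP f hfE hne).ε0, (hP f hfE hne).η0, (hP f hfE hne).hd,
      fun s hs _ => (hP f hfE hne).hT s hs, fun y _ hy => absurd hy (Finset.notMem_empty y),
      fun y _ hy => absurd hy (Finset.notMem_empty y)⟩)
    (fun x hx => absurd hx (Finset.notMem_empty x)) hT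
  refine ⟨φ, ?_, ?_, ?_, ?_, ?_⟩
  · intro x hx y hy hxy
    exact p3 (Or.inr ((memS x).2 hx)) (Or.inr ((memS y).2 hy)) hxy
  · intro x hx
    exact (hsize x).1 (p2 x ((memS x).2 hx))
  · intro x hx
    have h1 : ¬(mk (c x) ∧ 3 ≤ d x ∧ d x ≤ 5) := by
      rintro ⟨_, _, h⟩
      omega
    have h2 := hTq x h1 (p2 x ((memS x).2 hx.le))
    rw [hqp _ _ (show p ≤ d x / 3 by omega)] at h2
    exact h2
  · intro f hfE hf
    have hne : (f ∩ S).Nonempty := by
      have h1 : f.Nonempty := by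
        rw [← Finset.card_pos, hH.three f hfE]
        norm_num
      obtain ⟨x, hx⟩ := h1
      exact ⟨x, Finset.mem_inter.2 ⟨hx, (memS x).2 (hf x hx)⟩⟩
    refine (hP f hfE hne).red φ (fun y hy => p2 y ((memS y).2 (hf y hy))) ?_
    exact (p4 f hfE hne).2 fun y hy => Or.inr ((memS y).2 (hf y hy))
  · intro f hfE hx y hy y' hy' hdy hdy' hyy
    have hne : (f ∩ S).Nonempty := ⟨y, Finset.mem_inter.2 ⟨hy, (memS y).2 hdy.le⟩⟩
    obtain ⟨e1, e2, e3'⟩ := (hP f hfE hne).top hx y hy hdy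
    have h := (p4 f hfE hne).1 y hy y' hy' (Or.inr ((memS y).2 hdy.le))
      (Or.inr ((memS y').2 hdy'.le)) hyy
    rw [e1, e2, e3', (hq _ _).2.1] at h
    exact h

end Pool.MP7783b9
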