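import Pool.Agent.H.MP_7783b9_co.G.Large

/-!
# Large red cliques and disconnected hypergraphs
-/

set_option autoImplicit false

open Finset

namespace Pool.MP7783b9

/-- two disjoint red cliques -/
theorem LargeD_two {V α : Type*} [DecidableEq V] [DecidableEq α] [Nonempty α] {S : Finset V}
    {E : Finset (Finset V)} {Δ : ℕ} (hH : Hyp S E Δ) {R : Finset α → Prop} {X Y U : Finset α}
    (hXU : X ⊆ U) (hYU : Y ⊆ U) (hX : RedClique R X) (hY : RedClique R Y)
    (hXY : Disjoint X Y) {A : Finset V} (_ : A ⊆ S)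
    (hEA : ∀ f ∈ E, f ⊆ A ∨ Disjoint f A) (h1 : A.card ≤ X.card)
    (h2 : (S \ A).card ≤ Y.card) : HasRed R S E U := by
  classical
  obtain ⟨φ, p1, p2⟩ := Large_inj A X h1
  obtain ⟨ψ, q1, q2⟩ := Large_inj (S \ A) Y h2
  have hq : ∀ v ∈ S, v ∉ A → ψ v ∈ Y := fun v hv hvA =>
    q2 v (Finset.mem_sdiff.2 ⟨hv, hvA⟩)
  have hinj : Set.InjOn (fun v => if v ∈ A then φ v else ψ v) S := by
    intro v hv w hw hvw
    simp only at hvw
    by_cases a1 : v ∈ A
    · by_cases a2 : w ∈ A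
      · rw [if_pos a1, if_pos a2] at hvw
        exact p1 a1 a2 hvw
      · rw [if_pos a1, if_neg a2] at hvw
        exact absurd (hvw ▸ p2 v a1) (Finset.disjoint_right.1 hXY (hq w hw a2))
    · by_cases a2 : w ∈ A
      · rw [if_neg a1, if_pos a2] at hvw
        exact absurd (hvw ▸ hq v hv a1) (Finset.disjoint_left.1 hXY (p2 w a2))
      · rw [if_neg a1, if_neg a2] at hvw
        exact q1 (Finset.mem_sdiff.2 ⟨hv, a1⟩) (Finset.mem_sdiff.2 ⟨hw, a2⟩) hvw
  refine ⟨fun v => if v ∈ A then φ v else ψ v, hinj, ?_, ?_⟩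
  · intro v hv
    simp only
    by_cases a1 : v ∈ A
    · rw [if_pos a1]
      exact hXU (p2 v a1)
    · rw [if_neg a1]
      exact hYU (hq v hv a1)
  · intro f hf
    have hc : (f.image (fun v => if v ∈ A then φ v else ψ v)).card = 3 := by
      rw [Finset.card_image_of_injOn, hH.three f hf]
      intro v hv w hw hvw
      exact hinj (hH.sub f hf hv) (hH.sub f hf hw) hvw
    rcases hEA f hf with hfA | hfA
    · refine hX _ ?_ hc
      intro z hz
      obtain ⟨y, hy, rfl⟩ := Finset.mem_image.1 hz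
      rw [if_pos (hfA hy)]
      exact p2 y (hfA hy)
    · refine hY _ ?_ hc
      intro z hz
      obtain ⟨y, hy, rfl⟩ := Finset.mem_image.1 hz
      rw [if_neg (Finset.disjoint_left.1 hfA hy)]
      exact hq y (hH.sub f hf hy) (Finset.disjoint_left.1 hfA hy)

/-- `A` is a union of components of the hypergraph -/
theorem large_clique_d (Δ : ℕ) :
    ∃ ε₁ : ℝ, 0 < ε₁ ∧ ε₁ ≤ 1 ∧ ∃ n₀ : ℕ, ∀ {V : Type*} {α : Type} [DecidableEq V]
      [DecidableEq α] (S : Finset V) (E : Finset (Finset V)) (_ : Hyp S E Δ)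
      (A : Finset V) (_ : A ⊆ S) (_ : A.Nonempty) (_ : A ≠ S)
      (_ : ∀ f ∈ E, f ⊆ A ∨ Disjoint f A)
      (R : Finset α → Prop) (U : Finset α) (_ : 2 * S.card - 2 ≤ U.card)
      (_ : ¬ BlueFano R U) (C : Finset α) (_ : C ⊆ U) (_ : RedClique R C)
      (_ : (1 - ε₁) * (S.card : ℝ) ≤ (C.card : ℝ)) (_ : n₀ ≤ S.card),
      HasRed R S E U := by
  obtain ⟨r, hr⟩ := blind_red (2 * Δ)
  set K : ℕ := 64 * (Δ + 1) * (2 * Δ + 1) ^ 3 with hK
  have hK1 : 1 ≤ K := by
    rw [hK]
    exact Nat.succ_le_of_lt (by positivity)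
  have hKr : (1 : ℝ) ≤ K := by exact_mod_cast hK1
  have hK0 : (0 : ℝ) < K := by linarith
  have hpow : 1 ≤ (2 * Δ + 1) ^ 3 := Nat.one_le_pow _ _ (by omega)
  -- `K` is large
  have hK2 : (2 * Δ + 1) ^ 3 ≤ K := by
    rw [hK]
    calc (2 * Δ + 1) ^ 3 = 1 * (2 * Δ + 1) ^ 3 := (one_mul _).symm
      _ ≤ 64 * (Δ + 1) * (2 * Δ + 1) ^ 3 := Nat.mul_le_mul_right _ (by omega)
  have hK3 : 64 * (Δ + 1) ≤ K := by
    rw [hK]
    calc 64 * (Δ + 1) = 64 * (Δ + 1) * 1 := (mul_one _).symm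
      _ ≤ 64 * (Δ + 1) * (2 * Δ + 1) ^ 3 := Nat.mul_le_mul_left _ hpow
  refine ⟨1 / K, by positivity, ?_, 4 * (r + 3) + 8 * Δ + 8, ?_⟩
  · rw [div_le_one hK0]
    exact hKr
  intro V α _ _ S E hH A hAS hA0 hAne hEA R U hU hnb C hCU hC hCn hn
  classical
  have hSpos : 0 < S.card := by omega
  obtain ⟨v0, hv0⟩ := Finset.card_pos.1 hSpos
  have hUpos : 0 < U.card := by omega
  obtain ⟨u0, hu0⟩ := Finset.card_pos.1 hUpos
  have hVn : Nonempty V := ⟨v0⟩
  have hαn : Nonempty α := ⟨u0⟩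
  rcases le_or_gt S.card C.card with hbig | hsmall
  · exact Large_copy hH hCU hC hbig
  -- the size of `C`
  have hg : K * (S.card - C.card) ≤ S.card := by
    have h1 : (K : ℝ) * ((S.card : ℝ) - C.card) ≤ S.card := by
      have h2 : (S.card : ℝ) - C.card ≤ 1 / K * S.card := by linarith
      have h3 := mul_le_mul_of_nonneg_left h2 hK0.le
      have h4 : (K : ℝ) * (1 / K * S.card) = S.card := by
        field_simp
      linarith
    have h2 : ((S.card - C.card : ℕ) : ℝ) = (S.card : ℝ) - C.card :=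
      Nat.cast_sub hsmall.le
    rw [← h2] at h1
    exact_mod_cast h1
  have hC2 : S.card ≤ 2 * C.card := by
    have : 2 * (S.card - C.card) ≤ K * (S.card - C.card) :=
      Nat.mul_le_mul_right _ (by omega)
    omega
  have hCpos : 0 < C.card := by omega
  have hCr : (0 : ℝ) < (C.card : ℝ) := by exact_mod_cast hCpos
  -- the vertices of `C` are usable
  have huse : ∀ v ∈ C, Usable R C 1 1 (1 / 8) (2 * Δ) v := by
    intro v hv Φ hΦ
    have h1 : 8 * Φ.card ≤ C.card := by
      have : (8 : ℝ) * Φ.card ≤ C.card := by linarith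
      exact_mod_cast this
    have h2 : 2 * Δ ≤ ((C \ Φ).erase v).card := by
      have h3 := Finset.le_card_sdiff Φ C
      have h4 := Finset.pred_card_le_card_erase (s := C \ Φ) (a := v)
      omega
    obtain ⟨Y, hY, hYc⟩ := Finset.exists_subset_card_eq h2
    have hYC : Y ⊆ C := fun z hz =>
      (Finset.mem_sdiff.1 (Finset.mem_of_mem_erase (hY hz))).1
    refine ⟨Y, Large_nice hC hCpos hYC, hYc, ?_, ?_, ?_⟩
    · rw [Finset.disjoint_left]
      intro z hz
      exact (Finset.mem_sdiff.1 (Finset.mem_of_mem_erase (hY hz))).2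
    · intro h
      exact Finset.ne_of_mem_erase (hY h) rfl
    · intro p hp q hq hpq
      exact Large_red hC hv (hYC hp) (hYC hq) (Finset.ne_of_mem_erase (hY hp)).symm
        (Finset.ne_of_mem_erase (hY hq)).symm hpq
  set D0 : Finset α := U.filter fun v => ¬ Usable R C 1 1 (1 / 8) (2 * Δ) v with hD0
  have hD0red : RedClique R D0 := by
    refine hr R C 1 1 (1 / 8) (by norm_num) ?_ D0 (fun v hv => (Finset.mem_filter.1 hv).2) ?_
    · intro Φ hΦ
      have h1 : 8 * Φ.card ≤ 3 * C.card + 24 := by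
        have : (8 : ℝ) * Φ.card ≤ 3 * C.card + 24 := by linarith
        exact_mod_cast this
      have h2 : r ≤ (C \ Φ).card := by
        have h3 := Finset.le_card_sdiff Φ C
        omega
      obtain ⟨X, hX, hXc⟩ := Finset.exists_subset_card_eq h2
      refine ⟨X, Large_nice hC hCpos fun z hz => (Finset.mem_sdiff.1 (hX hz)).1, hXc, ?_⟩
      rw [Finset.disjoint_left]
      intro z hz
      exact (Finset.mem_sdiff.1 (hX hz)).2
    · rintro ⟨ψ, h1, h2, h3⟩
      refine hnb ⟨ψ, h1, fun i => ?_, h3⟩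
      rcases Finset.mem_union.1 (h2 i) with h | h
      · exact (Finset.mem_filter.1 h).1
      · exact hCU h
  rcases le_or_gt S.card D0.card with hbig | hsmall'
  · exact Large_copy hH (Finset.filter_subset _ _) hD0red hbig
  -- the points outside `C` and `D0` are too few
  rcases Nat.lt_or_ge D0.card (S.card - 1) with hsmall2 | hbig2
  swap
  · have hD0U : D0 ⊆ U := Finset.filter_subset _ _
    have hCD : Disjoint C D0 := by
      rw [Finset.disjoint_left]
      intro z hz hz2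
      exact (Finset.mem_filter.1 hz2).2 (huse z hz)
    have hA1 : A.card < S.card :=
      Finset.card_lt_card (Finset.ssubset_iff_subset_ne.2 ⟨hAS, hAne⟩)
    have hA2 : 0 < A.card := hA0.card_pos
    have hA3 : (S \ A).card + A.card = S.card := Finset.card_sdiff_add_card_eq_card hAS
    rcases Nat.lt_or_ge C.card A.card with h | h
    · exact LargeD_two (X := D0) (Y := C) hH hD0U hCU hD0red hC hCD.symm hAS hEA
        (by omega) (by omega)
    · exact LargeD_two (X := C) (Y := D0) hH hCU hD0U hC hD0red hCD hAS hEA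
        (by omega) (by omega)
  -- the set `G0`
  have hG : S.card - C.card ≤ (U \ (C ∪ D0)).card := by
    have h1 := Finset.le_card_sdiff (C ∪ D0) U
    have h2 := Finset.card_union_le C D0
    omega
  obtain ⟨G, hGsub, hGc⟩ := Finset.exists_subset_card_eq hG
  have hGU : G ⊆ U := fun z hz => (Finset.mem_sdiff.1 (hGsub hz)).1
  have hGC : Disjoint C G := by
    rw [Finset.disjoint_right]
    intro z hz hzC
    exact (Finset.mem_sdiff.1 (hGsub hz)).2 (Finset.mem_union_left _ hzC)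
  have hGuse : ∀ v ∈ G, Usable R C 1 1 (1 / 8) (2 * Δ) v := by
    intro v hv
    by_contra hcon
    exact (Finset.mem_sdiff.1 (hGsub hv)).2
      (Finset.mem_union_right _ (Finset.mem_filter.2 ⟨hGU hv, hcon⟩))
  have hfar : G.card * (2 * Δ + 1) ^ 3 ≤ S.card := by
    rw [hGc]
    calc (S.card - C.card) * (2 * Δ + 1) ^ 3 ≤ (S.card - C.card) * K :=
          Nat.mul_le_mul_left _ hK2
      _ = K * (S.card - C.card) := Nat.mul_comm _ _
      _ ≤ S.card := hg
  obtain ⟨x, hx1, hx2⟩ := exists_far hH G hfar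
  have hsets : (((∅ : Finset α).card : ℕ) : ℝ) + ((2 * Δ : ℕ) : ℝ) * G.card ≤
      1 / 8 * (C.card : ℝ) := by
    have h1 : 64 * (Δ + 1) * (S.card - C.card) ≤ S.card :=
      (Nat.mul_le_mul_right _ hK3).trans hg
    have h2 : 8 * (2 * Δ * G.card) ≤ C.card := by
      rw [hGc]
      have h3 : 32 * (2 * Δ * (S.card - C.card)) ≤ 64 * (Δ + 1) * (S.card - C.card) := by
        nlinarith [Nat.zero_le (S.card - C.card)]
      omega
    have h3 : (8 : ℝ) * (((2 * Δ : ℕ) : ℝ) * G.card) ≤ C.card := by exact_mod_cast h2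
    rw [Finset.card_empty]
    push_cast at h3 ⊢
    linarith
  obtain ⟨Y, hY1, hY2⟩ := exists_sets R C 1 1 (1 / 8) (2 * Δ) G ∅ hGuse hsets
  have hYC : ∀ v ∈ G, Y v ⊆ C := fun v hv => (hY1 v hv).1.sub
  obtain ⟨X, φ, p1, p2, p3, p4, -, p6, -, -, p9⟩ := prescribe2 hH R C 1 1 G x hx1 hx2 Y
    (fun v hv => ⟨(hY1 v hv).1, (hY1 v hv).2.1, hGC.mono_left (hYC v hv), (hY1 v hv).2.2.2⟩) hY2
  have hbi : ∀ z ∈ G.biUnion Y, z ∈ C := by
    intro z hz
    obtain ⟨v, hv, hzv⟩ := Finset.mem_biUnion.1 hz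
    exact hYC v hv hzv
  refine Large_glue hH hCU hGU hC hGC (by omega) p1 p2 ?_ p4 p6 ?_
  · intro y hy
    rcases Finset.mem_union.1 (p3 y hy) with h | h
    · exact Finset.mem_union_left _ h
    · exact Finset.mem_union_right _ (hbi _ h)
  · intro f hf y hy hyX hfX
    exact hbi _ (p9 f hf y hy hyX hfX)

end Pool.MP7783b9
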