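import Pool.Agent.H.MP_7783b9_co.B.Basic

/-!
# A bijection without bad pairs
-/

set_option autoImplicit false

open Finset

namespace Pool.MP7783b9

open Classical in
/-- number of violations of a map -/
noncomputable def SwitchX_viol {V : Type*} {α : Type} (B : Finset V) (adj : V → V → Prop)
    (Bd : α → α → Prop) (Φ : V → Finset α) (φ : V → α) : ℕ :=
  (B.filter (fun b => φ b ∈ Φ b)).card +
    ((B ×ˢ B).filter (fun p => adj p.1 p.2 ∧ Bd (φ p.1) (φ p.2))).card

/-- one switching step lowers the number of violations -/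
theorem SwitchX_step {V : Type*} {α : Type} [DecidableEq V] [DecidableEq α] (B : Finset V)
    (adj : V → V → Prop) (hadj : ∀ a b, adj a b → adj b a) (hirr : ∀ a, ¬ adj a a)
    (Bd : α → α → Prop) (hBd : ∀ u v, Bd u v → Bd v u)
    (Φ : V → Finset α) (φ : V → α) (b c : V) (hb : b ∈ B)
    (hbad : φ b ∈ Φ b ∨ ∃ a ∈ B, adj a b ∧ Bd (φ a) (φ b))
    (hcb : ¬ adj b c) (h1 : φ c ∉ Φ b) (h2 : φ b ∉ Φ c)
    (h3 : ∀ a ∈ B, adj b a → ¬ Bd (φ a) (φ c)) (h4 : ∀ a ∈ B, adj c a → ¬ Bd (φ b) (φ a)) :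
    SwitchX_viol B adj Bd Φ (φ ∘ Equiv.swap b c) < SwitchX_viol B adj Bd Φ φ := by
  classical
  set φ' : V → α := φ ∘ Equiv.swap b c with hφ'
  have eb : φ' b = φ c := by simp [hφ']
  have ec : φ' c = φ b := by simp [hφ']
  have eo : ∀ x, x ≠ b → x ≠ c → φ' x = φ x := by
    intro x hxb hxc
    simp [hφ', Equiv.swap_apply_of_ne_of_ne hxb hxc]
  have k1 : ∀ a ∈ B, adj b a → ¬ Bd (φ' b) (φ' a) := by
    intro a ha hab hB
    have hab' : a ≠ b := by
      rintro rfl
      exact hirr _ hab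
    have hac : a ≠ c := by
      rintro rfl
      exact hcb hab
    rw [eb, eo a hab' hac] at hB
    exact h3 a ha hab (hBd _ _ hB)
  have k2 : ∀ a ∈ B, adj c a → ¬ Bd (φ' c) (φ' a) := by
    intro a ha hab hB
    have hac : a ≠ c := by
      rintro rfl
      exact hirr _ hab
    have hab' : a ≠ b := by
      rintro rfl
      exact hcb (hadj _ _ hab)
    rw [ec, eo a hab' hac] at hB
    exact h4 a ha hab hB
  have s1 : B.filter (fun x => φ' x ∈ Φ x) ⊆ B.filter (fun x => φ x ∈ Φ x) := by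
    intro x hx
    rw [Finset.mem_filter] at hx ⊢
    refine ⟨hx.1, ?_⟩
    have hxb : x ≠ b := by
      rintro rfl
      rw [eb] at hx
      exact h1 hx.2
    have hxc : x ≠ c := by
      rintro rfl
      rw [ec] at hx
      exact h2 hx.2
    rw [← eo x hxb hxc]
    exact hx.2
  have s2 : (B ×ˢ B).filter (fun p => adj p.1 p.2 ∧ Bd (φ' p.1) (φ' p.2)) ⊆
      (B ×ˢ B).filter (fun p => adj p.1 p.2 ∧ Bd (φ p.1) (φ p.2)) := by
    rintro ⟨x, y⟩ hx
    rw [Finset.mem_filter, Finset.mem_product] at hx ⊢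
    obtain ⟨⟨hx1, hy1⟩, hxy, hB⟩ := hx
    simp only at hx1 hy1 hxy hB ⊢
    have hxb : x ≠ b := by
      rintro rfl
      exact k1 y hy1 hxy hB
    have hxc : x ≠ c := by
      rintro rfl
      exact k2 y hy1 hxy hB
    have hyb : y ≠ b := by
      rintro rfl
      exact k1 x hx1 (hadj _ _ hxy) (hBd _ _ hB)
    have hyc : y ≠ c := by
      rintro rfl
      exact k2 x hx1 (hadj _ _ hxy) (hBd _ _ hB)
    refine ⟨⟨hx1, hy1⟩, hxy, ?_⟩
    rw [eo x hxb hxc, eo y hyb hyc] at hB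
    exact hB
  unfold SwitchX_viol
  rcases hbad with hbad | ⟨a, ha, hab, hB⟩
  · have hlt : (B.filter (fun x => φ' x ∈ Φ x)).card < (B.filter (fun x => φ x ∈ Φ x)).card := by
      apply Finset.card_lt_card
      refine Finset.ssubset_iff_of_subset s1 |>.2 ⟨b, ?_, ?_⟩
      · rw [Finset.mem_filter]
        exact ⟨hb, hbad⟩
      · rw [Finset.mem_filter, eb]
        exact fun h => h1 h.2
    have hle := Finset.card_le_card s2
    have e1 : (B.filter (fun x => φ' x ∈ Φ x)).card +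
        ((B ×ˢ B).filter (fun p => adj p.1 p.2 ∧ Bd (φ' p.1) (φ' p.2))).card <
        (B.filter (fun x => φ x ∈ Φ x)).card +
        ((B ×ˢ B).filter (fun p => adj p.1 p.2 ∧ Bd (φ p.1) (φ p.2))).card := by
      omega
    convert e1
  · have hlt : ((B ×ˢ B).filter (fun p => adj p.1 p.2 ∧ Bd (φ' p.1) (φ' p.2))).card <
        ((B ×ˢ B).filter (fun p => adj p.1 p.2 ∧ Bd (φ p.1) (φ p.2))).card := by
      apply Finset.card_lt_card
      refine Finset.ssubset_iff_of_subset s2 |>.2 ⟨(a, b), ?_, ?_⟩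
      · rw [Finset.mem_filter, Finset.mem_product]
        exact ⟨⟨ha, hb⟩, hab, hB⟩
      · rw [Finset.mem_filter]
        rintro ⟨-, h, hB'⟩
        exact k1 a ha (hadj _ _ hab) (hBd _ _ hB')
    have hle := Finset.card_le_card s1
    have e1 : (B.filter (fun x => φ' x ∈ Φ x)).card +
        ((B ×ˢ B).filter (fun p => adj p.1 p.2 ∧ Bd (φ' p.1) (φ' p.2))).card <
        (B.filter (fun x => φ x ∈ Φ x)).card +
        ((B ×ˢ B).filter (fun p => adj p.1 p.2 ∧ Bd (φ p.1) (φ p.2))).card := by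
      omega
    convert e1

/-- a bijection from `B` to `W` which avoids the sets `Φ b` and maps no adjacent pair to a bad
pair -/
theorem switch_x {V : Type*} {α : Type} [DecidableEq V] [DecidableEq α] (B : Finset V)
    (W : Finset α) (hBW : B.card = W.card) (adj : V → V → Prop) (hadj : ∀ a b, adj a b → adj b a)
    (D : ℕ) (hD : ∀ b ∈ B, ∃ Nb : Finset V, Nb.card ≤ D ∧ ∀ a ∈ B, adj b a → a ∈ Nb)
    (hirr : ∀ a, ¬ adj a a)
    (Bd : α → α → Prop) (hBd : ∀ u v, Bd u v → Bd v u) (ψ : ℕ)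
    (hψ : ∀ w ∈ W, ∃ Nw : Finset α, Nw.card ≤ ψ ∧ ∀ v ∈ W, Bd w v → v ∈ Nw)
    (Φ : V → Finset α) (χ χ' : ℕ) (hΦ : ∀ b ∈ B, (Φ b).card ≤ χ)
    (hΦ' : ∀ w ∈ W, ∃ Bw : Finset V, Bw.card ≤ χ' ∧ ∀ b ∈ B, w ∈ Φ b → b ∈ Bw)
    (hnum : χ + χ' + 2 * (D * ψ) + D + 1 < B.card) :
    ∃ φ : V → α, Set.InjOn φ B ∧ B.image φ = W ∧ (∀ b ∈ B, φ b ∉ Φ b) ∧
      ∀ a ∈ B, ∀ b ∈ B, adj a b → ¬ Bd (φ a) (φ b) := by
  classical
  -- an initial bijection
  have hBne : B.Nonempty := Finset.card_pos.1 (by omega)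
  have hWne : W.Nonempty := Finset.card_pos.1 (by omega)
  have hex : ∃ n, ∃ φ : V → α, (Set.InjOn φ B ∧ B.image φ = W) ∧
      SwitchX_viol B adj Bd Φ φ = n := by
    let e : B ≃ W := Finset.equivOfCardEq hBW
    obtain ⟨w0, hw0⟩ := hWne
    let φ : V → α := fun v => if h : v ∈ B then (e ⟨v, h⟩ : α) else w0
    have hφ : ∀ (v : V) (h : v ∈ B), φ v = (e ⟨v, h⟩ : α) := by
      intro v h
      simp [φ, h]
    refine ⟨_, φ, ⟨?_, ?_⟩, rfl⟩
    · intro x hx y hy hxy
      have hx' : x ∈ B := hx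
      have hy' : y ∈ B := hy
      rw [hφ x hx', hφ y hy'] at hxy
      have := e.injective (Subtype.ext hxy)
      exact congrArg Subtype.val this
    · ext w
      rw [Finset.mem_image]
      constructor
      · rintro ⟨v, hv, rfl⟩
        rw [hφ v hv]
        exact (e ⟨v, hv⟩).2
      · intro hw
        refine ⟨(e.symm ⟨w, hw⟩ : V), (e.symm ⟨w, hw⟩).2, ?_⟩
        rw [hφ _ (e.symm ⟨w, hw⟩).2]
        simp
  obtain ⟨φ, ⟨hinj, himg⟩, hv⟩ := Nat.find_spec hex
  have hmin : ∀ φ' : V → α, Set.InjOn φ' B → B.image φ' = W →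
      SwitchX_viol B adj Bd Φ φ ≤ SwitchX_viol B adj Bd Φ φ' := by
    intro φ' h1 h2
    rw [hv]
    exact Nat.find_min' hex ⟨φ', ⟨h1, h2⟩, rfl⟩
  have hW : ∀ x ∈ B, φ x ∈ W := by
    intro x hx
    rw [← himg]
    exact Finset.mem_image_of_mem _ hx
  -- no bad vertex
  have key : ∀ b ∈ B, ¬ (φ b ∈ Φ b ∨ ∃ a ∈ B, adj a b ∧ Bd (φ a) (φ b)) := by
    intro b hb hbad
    choose! Nb hNb using hD
    choose! Nw hNw using hψ
    choose! Bw hBw using hΦ'
    let E1 : Finset V := insert b (Nb b)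
    let E2 : Finset V := B.filter (fun x => φ x ∈ Φ b)
    let E3 : Finset V := ((Nb b).filter (fun a => a ∈ B)).biUnion
      (fun a => B.filter (fun x => φ x ∈ Nw (φ a)))
    let E4 : Finset V := Bw (φ b)
    let E5 : Finset V := (B.filter (fun a => φ a ∈ Nw (φ b))).biUnion Nb
    have cinj : ∀ S : Finset α, (B.filter (fun x => φ x ∈ S)).card ≤ S.card := by
      intro S
      apply Finset.card_le_card_of_injOn φ
      · intro x hx
        exact (Finset.mem_filter.1 hx).2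
      · intro x hx y hy hxy
        exact hinj (Finset.mem_filter.1 hx).1 (Finset.mem_filter.1 hy).1 hxy
    have c1 : E1.card ≤ D + 1 :=
      (Finset.card_insert_le _ _).trans (Nat.add_le_add_right (hNb b hb).1 1)
    have c2 : E2.card ≤ χ := (cinj _).trans (hΦ b hb)
    have c3 : E3.card ≤ D * ψ := by
      have h := Finset.card_biUnion_le_card_mul ((Nb b).filter (fun a => a ∈ B))
        (fun a => B.filter (fun x => φ x ∈ Nw (φ a))) ψ (by
          intro a ha
          exact (cinj _).trans (hNw (φ a) (hW a (Finset.mem_filter.1 ha).2)).1)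
      refine h.trans ?_
      apply Nat.mul_le_mul_right
      exact (Finset.card_filter_le _ _).trans (hNb b hb).1
    have c4 : E4.card ≤ χ' := (hBw (φ b) (hW b hb)).1
    have c5 : E5.card ≤ D * ψ := by
      have h := Finset.card_biUnion_le_card_mul (B.filter (fun a => φ a ∈ Nw (φ b))) Nb D (by
          intro a ha
          exact (hNb a (Finset.mem_filter.1 ha).1).1)
      refine h.trans ?_
      rw [Nat.mul_comm]
      apply Nat.mul_le_mul_left
      exact (cinj _).trans (hNw (φ b) (hW b hb)).1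
    have cE : (E1 ∪ E2 ∪ E3 ∪ E4 ∪ E5).card < B.card := by
      have u1 := Finset.card_union_le (E1 ∪ E2 ∪ E3 ∪ E4) E5
      have u2 := Finset.card_union_le (E1 ∪ E2 ∪ E3) E4
      have u3 := Finset.card_union_le (E1 ∪ E2) E3
      have u4 := Finset.card_union_le E1 E2
      omega
    obtain ⟨c, hc, hcE⟩ := Finset.exists_mem_notMem_of_card_lt_card cE
    simp only [Finset.mem_union, not_or] at hcE
    obtain ⟨⟨⟨⟨n1, n2⟩, n3⟩, n4⟩, n5⟩ := hcE
    have hcb : ¬ adj b c := by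
      intro h
      exact n1 (Finset.mem_insert_of_mem ((hNb b hb).2 c hc h))
    have h1 : φ c ∉ Φ b := by
      intro h
      exact n2 (Finset.mem_filter.2 ⟨hc, h⟩)
    have h2 : φ b ∉ Φ c := by
      intro h
      exact n4 ((hBw (φ b) (hW b hb)).2 c hc h)
    have h3 : ∀ a ∈ B, adj b a → ¬ Bd (φ a) (φ c) := by
      intro a ha hab hB
      refine n3 (Finset.mem_biUnion.2 ⟨a, ?_, ?_⟩)
      · exact Finset.mem_filter.2 ⟨(hNb b hb).2 a ha hab, ha⟩
      · exact Finset.mem_filter.2 ⟨hc, (hNw (φ a) (hW a ha)).2 (φ c) (hW c hc) hB⟩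
    have h4 : ∀ a ∈ B, adj c a → ¬ Bd (φ b) (φ a) := by
      intro a ha hca hB
      refine n5 (Finset.mem_biUnion.2 ⟨a, ?_, ?_⟩)
      · exact Finset.mem_filter.2 ⟨ha, (hNw (φ b) (hW b hb)).2 (φ a) (hW a ha) hB⟩
      · exact (hNb a ha).2 c hc (hadj _ _ hca)
    have hlt := SwitchX_step B adj hadj hirr Bd hBd Φ φ b c hb hbad hcb h1 h2 h3 h4
    -- the new map is again a bijection
    have hsw : ∀ x ∈ B, Equiv.swap b c x ∈ B := by
      intro x hx
      rcases eq_or_ne x b with rfl | hxb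
      · rw [Equiv.swap_apply_left]
        exact hc
      · rcases eq_or_ne x c with rfl | hxc
        · rw [Equiv.swap_apply_right]
          exact hb
        · rw [Equiv.swap_apply_of_ne_of_ne hxb hxc]
          exact hx
    have hinj' : Set.InjOn (φ ∘ Equiv.swap b c) B := by
      intro x hx y hy hxy
      have := hinj (hsw x hx) (hsw y hy) hxy
      exact (Equiv.swap b c).injective this
    have himg' : B.image (φ ∘ Equiv.swap b c) = W := by
      rw [← himg]
      ext w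
      simp only [Finset.mem_image, Function.comp]
      constructor
      · rintro ⟨x, hx, rfl⟩
        exact ⟨_, hsw x hx, rfl⟩
      · rintro ⟨x, hx, rfl⟩
        exact ⟨Equiv.swap b c x, hsw x hx, by rw [Equiv.swap_apply_self]⟩
    have := hmin _ hinj' himg'
    omega
  refine ⟨φ, hinj, himg, ?_, ?_⟩
  · intro b hb h
    exact key b hb (Or.inl h)
  · intro a ha b hb hab hB
    exact key b hb (Or.inr ⟨a, ha, hab, hB⟩)

end Pool.MP7783b9
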