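import Pool.Agent.H.MP_7783b9_co.X.AssemX
import Pool.Agent.H.MP_7783b9_co.X.CutX

/-!
# The upper bound if there is a large linked set of clusters
-/

set_option autoImplicit false

open Finset

namespace Pool.MP7783b9

/-- the density of the sparse unions between consecutive clusters -/
noncomputable def epsL (Δ : ℕ) : ℝ := (1 / (48 * ((Δ : ℝ) + 1))) ^ 2

theorem epsL_pos (Δ : ℕ) : 0 < epsL Δ := by
  unfold epsL
  positivity

theorem epsL_le (Δ : ℕ) : epsL Δ ≤ 1 := by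
  unfold epsL
  have h1 : (1 : ℝ) ≤ 48 * ((Δ : ℝ) + 1) := by
    have : (0 : ℝ) ≤ Δ := Nat.cast_nonneg Δ
    linarith
  have h2 : 1 / (48 * ((Δ : ℝ) + 1)) ≤ 1 := by
    rw [div_le_one (by linarith)]
    exact h1
  exact pow_le_one₀ (by positivity) h2

theorem upper_ab (Δ : ℕ) (K : ℕ → ℕ) (s : ℕ) (δ ρ εc : ℝ) (hδ : 0 < δ) (hδ1 : δ ≤ 1 / 100)
    (hρ : 0 < ρ) (hρ1 : ρ ≤ 1) (hεc : 0 < εc) :
    ∃ ε : ℝ, 0 < ε ∧ ε ≤ εc ∧ ∀ (σ : ℝ) (p : ℕ), 0 < σ → σ ≤ 1 → 2 ≤ p → ∃ n₀ : ℕ,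
      ∀ {V : Type*} {α : Type} [Fintype V] [DecidableEq V] [DecidableEq α]
      (E : Finset (Finset V)) (_ : Hyp Finset.univ E Δ) (_ : Hyperfinite E K)
      (col : V → Fin 3) (Ss : Finset V) (_ : Ss.card ≤ s)
      (_ : ∀ f ∈ E, Disjoint f Ss → ∀ x ∈ f, ∀ y ∈ f, x ≠ y → col x ≠ col y)
      (I : Finset V) (_ : StrongIndep E I) (_ : 100 * I.card ≤ 40 * Fintype.card V)
      (_ : n₀ ≤ Fintype.card V) (R : Finset α → Prop) (U : Finset α) (_ : ¬ BlueFano R U)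
      (_ : 2 * Fintype.card V ≤ U.card + 2)
      (_ : 3 * Fintype.card V ≤ U.card + 3 * I.card + 2)
      (_ : U.card ≤ 3 * Fintype.card V)
      (_ : ∀ D ⊆ U, RedClique R D → (D.card : ℝ) < (1 - 4 * δ) * (Fintype.card V : ℝ))
      -- the clusters
      (N : ℕ) (_ : σ * (U.card : ℝ) ≤ (N : ℝ)) (𝒦 : Finset (Finset α)) (_ : 𝒦.card ≤ p)
      (_ : ∀ C ∈ 𝒦, C ⊆ U ∧ C.card = N ∧ dense R C ε = ∅)
      (_ : ∀ C ∈ 𝒦, ∀ C' ∈ 𝒦, C ≠ C' → Disjoint C C')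
      (_ : (1 / 3 + δ) * (U.card : ℝ) ≤ ((𝒦.biUnion id).card : ℝ))
      (C₀ C₁ : Finset α) (M : ℕ → Fin 3 → Finset α) (mk : Finset α → Prop)
      (q : Finset α → ℕ → Finset α)
      (_ : ∀ C ∈ 𝒦, q C 0 = C₀ ∧ (∀ i, p ≤ i → q C i = C) ∧
        (∀ i, q C i ⊆ U ∧ (q C i).card = N ∧ dense R (q C i) ε = ∅) ∧
        (mk C → q C 1 = C₀ ∧ q C 2 = C₁) ∧
        ∀ i, (mk C → 2 ≤ i) →
          (q C i = q C (i + 1) ∨ Linked R (epsL Δ) (ρ * (N : ℝ)) (q C i) (q C (i + 1))))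
      (_ : (∃ C ∈ 𝒦, mk C) → (∀ j ≤ 4, ∀ c, M j c ⊆ U) ∧
        ∃ l : ℝ, ρ * N ≤ l ∧ ModePath R (epsL Δ) l C₀ C₁ M),
      HasRed R Finset.univ E U := by
  have hΔ0 : (0 : ℝ) ≤ Δ := Nat.cast_nonneg Δ
  obtain ⟨k₁, hk₁⟩ : ∃ k₁ : ℕ, 16 * (2 * (Δ : ℝ) + 1) / δ ≤ k₁ := exists_nat_ge _
  rw [div_le_iff₀ hδ] at hk₁
  have hk₁0 : 0 < k₁ := by
    rcases Nat.eq_zero_or_pos k₁ with h | h
    · rw [h, Nat.cast_zero, zero_mul] at hk₁
      linarith only [hk₁, hΔ0]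
    · exact h
  obtain ⟨r, hass⟩ := assemble_x (K k₁)
  have hr0 : (0 : ℝ) ≤ r := Nat.cast_nonneg r
  obtain ⟨ζ, hζ⟩ : ∃ ζ : ℝ, ζ = δ / 64 := ⟨_, rfl⟩
  have hζ0 : 0 < ζ := by
    rw [hζ]
    linarith only [hδ]
  have hζ1 : ζ ≤ 1 := by
    rw [hζ]
    linarith only [hδ1]
  obtain ⟨βl, hβl⟩ : ∃ βl : ℝ, βl = 1 / (48 * ((Δ : ℝ) + 1)) := ⟨_, rfl⟩
  have hβl0 : 0 < βl := by
    rw [hβl]
    positivity
  have hβl1 : 48 * ((Δ : ℝ) + 1) * βl = 1 := by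
    rw [hβl]
    field_simp
  have hεL : epsL Δ = βl ^ 2 := by
    rw [hβl]
    rfl
  obtain ⟨η, hη⟩ : ∃ η : ℝ, η = ζ * ρ / (64 * ((Δ : ℝ) + 1) * ((r : ℝ) + 1) ^ 2) := ⟨_, rfl⟩
  have hη0 : 0 < η := by
    rw [hη]
    positivity
  have hη1 : 64 * ((Δ : ℝ) + 1) * ((r : ℝ) + 1) ^ 2 * η = ζ * ρ := by
    rw [hη]
    field_simp
  obtain ⟨ε, hε⟩ : ∃ ε : ℝ, ε = min εc (η ^ 2) := ⟨_, rfl⟩
  have hε0 : 0 < ε := by
    rw [hε]
    exact lt_min hεc (pow_pos hη0 2)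
  have hε1 : ε ≤ η ^ 2 := hε ▸ min_le_right _ _
  have hεη : ε / η ≤ η := by
    rw [div_le_iff₀ hη0, ← pow_two]
    exact hε1
  refine ⟨ε, hε0, hε ▸ min_le_left _ _, ?_⟩
  intro σ p hσ hσ1 hp
  obtain ⟨w, hw⟩ : ∃ w : ℝ, w = ζ * ρ * σ := ⟨_, rfl⟩
  have hw0 : 0 < w := by
    rw [hw]
    positivity
  have hw1 : w ≤ ζ := by
    rw [hw]
    calc ζ * ρ * σ ≤ ζ * 1 * 1 := by gcongr
      _ = ζ := by ring
  obtain ⟨P, hP⟩ : ∃ P : ℕ, P = (2 * Δ + 1) ^ (3 * p + 3) := ⟨_, rfl⟩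
  have hP1 : 1 ≤ P := by
    rw [hP]
    exact Nat.one_le_pow _ _ (by omega)
  obtain ⟨A, hA⟩ : ∃ A : ℕ, A = s * (2 * Δ + 1) ^ (3 * p + 3 + 3) := ⟨_, rfl⟩
  obtain ⟨c, hc⟩ : ∃ c : ℝ, c = 64 * ((k₁ : ℝ) + 1) * ((p : ℝ) + 1) * P := ⟨_, rfl⟩
  have hP1r : (1 : ℝ) ≤ P := by exact_mod_cast hP1
  have hc0 : 0 < c := by
    rw [hc]
    have : (0 : ℝ) < P := by linarith only [hP1r]
    positivity
  obtain ⟨k₂, hk₂⟩ : ∃ k₂ : ℕ, c / w ≤ k₂ := exists_nat_ge _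
  rw [div_le_iff₀ hw0] at hk₂
  have hk₂0 : 0 < k₂ := by
    rcases Nat.eq_zero_or_pos k₂ with h | h
    · rw [h, Nat.cast_zero, zero_mul] at hk₂
      linarith only [hk₂, hc0]
    · exact h
  obtain ⟨B, hB⟩ : ∃ B : ℝ, B = c * A + 34 * r + 4 * 2 ^ p + (p * ((K k₂ : ℝ) + A) + 3 * p) +
      4 * 2 ^ r * (K k₁ : ℝ) + 64 := ⟨_, rfl⟩
  obtain ⟨n₃, hn₃⟩ : ∃ n₃ : ℕ, B / w ≤ n₃ := exists_nat_ge _
  rw [div_le_iff₀ hw0] at hn₃
  refine ⟨n₃ + 1, ?_⟩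
  intro V α _ _ _ E hH hhf col Ss hSs hcol I hI hIc hn R U hBF hUl hU3 hUu hD₀ N hN 𝒦 h𝒦p h𝒦 h𝒦d
    h𝒦c C₀ C₁ M mk q hq hM
  classical
  -- sizes
  obtain ⟨n, hnn⟩ : ∃ n : ℕ, n = Fintype.card V := ⟨_, rfl⟩
  rw [← hnn] at hIc hn hUl hU3 hUu hD₀
  have hn0 : (0 : ℝ) ≤ n := Nat.cast_nonneg n
  have hUlr : 2 * (n : ℝ) ≤ U.card + 2 := by exact_mod_cast hUl
  have hU3r : 3 * (n : ℝ) ≤ U.card + 3 * I.card + 2 := by exact_mod_cast hU3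
  have hUur : (U.card : ℝ) ≤ 3 * n := by exact_mod_cast hUu
  have hIr : 100 * (I.card : ℝ) ≤ 40 * n := by exact_mod_cast hIc
  have hBn : B ≤ w * n := by
    have h1 : (n₃ : ℝ) ≤ n := by exact_mod_cast (by omega : n₃ ≤ n)
    calc B ≤ n₃ * w := hn₃
      _ ≤ n * w := mul_le_mul_of_nonneg_right h1 hw0.le
      _ = w * n := mul_comm _ _
  have q1 : (0 : ℝ) ≤ c * A := mul_nonneg hc0.le (Nat.cast_nonneg _)
  have q2 : (0 : ℝ) ≤ 34 * r := by positivity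
  have q3 : (0 : ℝ) ≤ 4 * 2 ^ p := by positivity
  have q4 : (0 : ℝ) ≤ p * ((K k₂ : ℝ) + A) + 3 * p := by positivity
  have q5 : (0 : ℝ) ≤ 4 * 2 ^ r * (K k₁ : ℝ) := by positivity
  have hB1 : c * A ≤ B := by rw [hB]; linarith only [q2, q3, q4, q5]
  have hB2 : 34 * (r : ℝ) + 64 ≤ B := by rw [hB]; linarith only [q1, q3, q4, q5]
  have hB3 : 4 * (2 : ℝ) ^ p + 64 ≤ B := by rw [hB]; linarith only [q1, q2, q4, q5]
  have hB4 : (p * ((K k₂ : ℝ) + A) + 3 * p) + 64 ≤ B := by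
    rw [hB]; linarith only [q1, q2, q3, q5]
  have hB5 : 4 * 2 ^ r * (K k₁ : ℝ) + 64 ≤ B := by rw [hB]; linarith only [q1, q2, q3, q4]
  clear hB q1 q2 q3 q4 q5
  have hwn : w * (n : ℝ) ≤ δ * n / 64 := by
    have h1 := mul_le_mul_of_nonneg_right hw1 hn0
    rw [hζ] at h1
    linarith only [h1]
  have hB6 : (64 : ℝ) ≤ B := by
    have : (0 : ℝ) ≤ r := hr0
    linarith only [hB2, this]
  have hδn : δ * (n : ℝ) ≤ n / 100 := by
    have h1 := mul_le_mul_of_nonneg_right hδ1 hn0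
    linarith only [h1]
  have hn48 : (48 : ℝ) ≤ n := by
    linarith only [hδn, hwn, hBn, hB6]
  have hV : Nonempty V := by
    rw [← Fintype.card_pos_iff, ← hnn]
    omega
  have hUn : (n : ℝ) ≤ U.card := by linarith only [hUlr, hn48]
  have hσN : σ * n ≤ N := (mul_le_mul_of_nonneg_left hUn hσ.le).trans hN
  have hNr0 : (0 : ℝ) < N := lt_of_lt_of_le (mul_pos hσ (by linarith only [hn48])) hσN
  have hρN : w * n ≤ ζ * (ρ * N) := by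
    calc w * n = ζ * ρ * (σ * n) := by rw [hw]; ring
      _ ≤ ζ * ρ * N := mul_le_mul_of_nonneg_left hσN (by positivity)
      _ = ζ * (ρ * N) := by ring
  have hρN1 : ρ * (N : ℝ) ≤ N := mul_le_of_le_one_left hNr0.le hρ1
  have hζρN : ζ * (ρ * N) ≤ ζ * N := mul_le_mul_of_nonneg_left hρN1 hζ0.le
  have hζρN2 : ζ * (ρ * N) ≤ ρ * N := mul_le_of_le_one_left (mul_pos hρ hNr0).le hζ1
  -- the links
  have hch : ∀ C C' : Finset α, ∃ A A' : Finset α, Linked R (epsL Δ) (ρ * (N : ℝ)) C C' → A ⊆ C ∧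
      A' ⊆ C' ∧ A.card = A'.card ∧ ρ * (N : ℝ) ≤ (A.card : ℝ) ∧
      dense R (A ∪ A') (epsL Δ) = ∅ := by
    intro C C'
    by_cases h : Linked R (epsL Δ) (ρ * (N : ℝ)) C C'
    · obtain ⟨A, h1, A', h2, h3, h4, h5⟩ := h
      exact ⟨A, A', fun _ => ⟨h1, h2, h3, h4, h5⟩⟩
    · exact ⟨∅, ∅, fun h' => absurd h' h⟩
  choose LA LA' hLA using hch
  -- the reserve
  obtain ⟨Z, hZU, hZc, hZ⟩ := reserve U 𝒦 ζ hζ0.le hζ1
  have hZ𝒦 : ∀ C ∈ 𝒦, ζ * (N : ℝ) - 2 ^ p ≤ ((Z ∩ C).card : ℝ) := by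
    intro C hC
    have h1 := hZ C hC (h𝒦 C hC).1
    rw [(h𝒦 C hC).2.1] at h1
    have h2 : (2 : ℝ) ^ 𝒦.card ≤ 2 ^ p := pow_le_pow_right₀ (by norm_num) h𝒦p
    linarith only [h1, h2]
  -- the hypergraph
  have hkey : ∀ τ : ℕ, k₂ * τ ≤ n → c * ((τ : ℝ) + A) ≤ 2 * (w * n) := by
    intro τ hτ
    have h1 : (k₂ : ℝ) * τ ≤ n := by exact_mod_cast hτ
    have h2 := mul_le_mul_of_nonneg_right hk₂ (Nat.cast_nonneg (α := ℝ) τ)
    have h3 := mul_le_mul_of_nonneg_left h1 hw0.le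
    have e1 : (k₂ : ℝ) * w * τ = w * (k₂ * τ) := by ring
    rw [e1] at h2
    have e2 : c * ((τ : ℝ) + A) = c * τ + c * A := by ring
    rw [e2]
    linarith only [h2, h3, hB1, hBn]
  have hk₁r : (0 : ℝ) ≤ k₁ := Nat.cast_nonneg k₁
  have hpr : (0 : ℝ) ≤ p := Nat.cast_nonneg p
  have hkey2 : ∀ τ : ℕ, k₂ * τ ≤ n →
      32 * (((k₁ : ℝ) + 1) * (((p : ℝ) + 1) * (((τ : ℝ) + A) * P))) ≤ w * n := by
    intro τ hτ
    have h1 := hkey τ hτ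
    have e1 : c * ((τ : ℝ) + A) =
      2 * (32 * (((k₁ : ℝ) + 1) * (((p : ℝ) + 1) * (((τ : ℝ) + A) * P)))) := by
      rw [hc]
      ring
    rw [e1] at h1
    linarith only [h1]
  obtain ⟨d, c₁, c₂, S₁, hdD, hdE, hc₁E, hc₁, hc₂E, hc₂, hdSs, ⟨τ, hτ, hdc⟩, I', hI'I, hI'c2, hI'⟩ :=
    cut_x E Δ hH K hhf I Ss (3 * p + 3) (by omega) k₁ k₂ hk₁0 hk₂0 A
      (by rw [hA]; exact Nat.mul_le_mul_right _ hSs) (by
        intro τ hτ
        rw [← hnn] at hτ ⊢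
        have h1 := hkey2 τ hτ
        have h2 : (0 : ℝ) ≤ ((τ : ℝ) + A) * P := by positivity
        have h3 : ((τ : ℝ) + A) * P ≤ ((p : ℝ) + 1) * (((τ : ℝ) + A) * P) := by
          have := mul_nonneg hpr h2
          linarith only [this]
        have h4 : (k₁ : ℝ) * (((τ : ℝ) + A) * P) ≤
            ((k₁ : ℝ) + 1) * (((p : ℝ) + 1) * (((τ : ℝ) + A) * P)) :=
          mul_le_mul (by linarith only) h3 h2 (by linarith only [hk₁r])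
        have h5 : (k₁ : ℝ) * (((τ : ℝ) + A) * P) ≤ n := by
          have h6 : 0 ≤ (k₁ : ℝ) * (((τ : ℝ) + A) * P) := mul_nonneg hk₁r h2
          linarith only [h1, h4, h6, hwn, hδn, hn0]
        rw [← hP]
        exact_mod_cast h5)
  rw [← hnn] at hτ hI'c2
  rw [← hP] at hdc
  obtain ⟨sa, hsa⟩ : ∃ sa : ℕ, sa = (Finset.univ.filter fun x => d x < 3 * p + 3).card :=
    ⟨_, rfl⟩
  rw [← hsa] at hdc
  have hsa0 : (0 : ℝ) ≤ sa := Nat.cast_nonneg sa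
  have hsa1 : 32 * (((p : ℝ) + 1) * sa) ≤ w * n := by
    have h1 := hkey2 τ hτ
    have h2 : (sa : ℝ) ≤ ((τ : ℝ) + A) * P := by exact_mod_cast hdc
    have h3 : ((p : ℝ) + 1) * sa ≤ ((p : ℝ) + 1) * (((τ : ℝ) + A) * P) :=
      mul_le_mul_of_nonneg_left h2 (by linarith only [hpr])
    have h4 : (0 : ℝ) ≤ ((p : ℝ) + 1) * (((τ : ℝ) + A) * P) := by positivity
    have h5 := mul_nonneg hk₁r h4
    rw [add_mul, one_mul] at h1
    linarith only [h1, h3, h5]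
  have hsa2 : 32 * (sa : ℝ) ≤ w * n := by
    have h1 := mul_nonneg hpr hsa0
    rw [add_mul, one_mul] at hsa1
    linarith only [hsa1, h1]
  have hsa3 : 32 * ((p : ℝ) * sa) ≤ w * n := by
    rw [add_mul, one_mul] at hsa1
    linarith only [hsa1, hsa0]
  have hI'u : (I'.card : ℝ) ≤ I.card := by exact_mod_cast card_le_card hI'I
  have hI'l : (I.card : ℝ) - δ / 8 * n ≤ (I'.card : ℝ) := by
    have h1 : (k₁ : ℝ) * (I.card : ℝ) ≤
        k₁ * I'.card + 2 * (2 * (Δ : ℝ) + 1) * n := by exact_mod_cast hI'c2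
    have h4 := mul_le_mul_of_nonneg_right hk₁ hn0
    have h5 : (k₁ : ℝ) * ((I.card : ℝ) - δ / 8 * n) ≤ k₁ * I'.card := by
      have e1 : (k₁ : ℝ) * ((I.card : ℝ) - δ / 8 * n) =
        k₁ * I.card - k₁ * δ * n / 8 := by ring
      rw [e1]
      linarith only [h1, h4]
    exact le_of_mul_le_mul_left h5 (by exact_mod_cast hk₁0)
  have hnI : ((Finset.univ.filter fun x => x ∉ I').card : ℝ) = n - I'.card := by
    have h1 := Finset.card_filter_add_card_filter_not (s := (Finset.univ : Finset V))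
      (fun x => x ∈ I')
    rw [Finset.filter_mem_eq_inter, Finset.univ_inter, Finset.card_univ, ← hnn] at h1
    have h2 : (I'.card : ℝ) + ((Finset.univ.filter fun x => x ∉ I').card : ℝ) = n := by
      exact_mod_cast h1
    linarith only [h2]
  -- the region for the base vertices
  have hκN : (𝒦.card : ℝ) * N = ((𝒦.biUnion id).card : ℝ) := by
    have h1 : (𝒦.biUnion id).card = ∑ C ∈ 𝒦, (id C).card :=
      Finset.card_biUnion fun C hC C' hC' hne => h𝒦d C hC C' hC' hne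
    have h2 : ∑ C ∈ 𝒦, (id C).card = 𝒦.card * N := by
      rw [← smul_eq_mul, ← Finset.sum_const]
      exact Finset.sum_congr rfl fun C hC => (h𝒦 C hC).2.1
    rw [h1, h2, Nat.cast_mul]
  have h𝒦U : 𝒦.biUnion id ⊆ U := by
    intro x hx
    obtain ⟨C, hC, hxC⟩ := Finset.mem_biUnion.1 hx
    exact (h𝒦 C hC).1 hxC
  have h𝒦le : ((𝒦.biUnion id).card : ℝ) ≤ U.card := by exact_mod_cast Finset.card_le_card h𝒦U
  have hκN2 : (𝒦.card : ℝ) * N ≤ 3 * n := by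
    rw [hκN]
    linarith only [h𝒦le, hUur]
  have hZc2 : (Z.card : ℝ) ≤ 3 * (δ * n) / 64 := by
    refine hZc.trans ?_
    rw [hζ]
    have h1 := mul_le_mul_of_nonneg_left hUur hδ.le
    linarith only [h1]
  have hXs0 : ⌊(n : ℝ) - I.card + δ / 2 * n⌋₊ ≤ (𝒦.biUnion id \ Z).card := by
    refine Nat.floor_le_of_le ?_
    have h1 : (((𝒦.biUnion id).card : ℝ)) ≤ ((𝒦.biUnion id \ Z).card : ℝ) + Z.card := by
      have h2 := Finset.card_sdiff_add_card (𝒦.biUnion id) Z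
      have h3 := Finset.card_le_card (Finset.subset_union_left (s₁ := 𝒦.biUnion id) (s₂ := Z))
      exact_mod_cast (by omega : (𝒦.biUnion id).card ≤ (𝒦.biUnion id \ Z).card + Z.card)
    have e1 : (1 / 3 + δ) * (U.card : ℝ) = U.card / 3 + δ * U.card := by ring
    rw [e1] at h𝒦c
    rw [hζ] at hZc
    have h2 := mul_le_mul_of_nonneg_left hUlr hδ.le
    linarith only [h1, h𝒦c, hZc, hU3r, h2, hwn, hBn, hB6, hδ, hδ1]
  obtain ⟨Xs, hXs, hXsc⟩ := Finset.exists_subset_card_eq hXs0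
  have hδn0 : 0 ≤ δ * (n : ℝ) := mul_nonneg hδ.le hn0
  have hXsu : (Xs.card : ℝ) ≤ (n : ℝ) - I.card + δ / 2 * n := by
    rw [hXsc]
    refine Nat.floor_le ?_
    linarith only [hIr, hn48, hδn0]
  have hXsl : (n : ℝ) - I.card + δ / 2 * n - 1 < (Xs.card : ℝ) := by
    rw [hXsc]
    exact Nat.sub_one_lt_floor _
  obtain ⟨z, hz⟩ : ∃ z : ℕ, z = ⌈ζ * (N : ℝ)⌉₊ := ⟨_, rfl⟩
  have hζN0 : 0 < ζ * (N : ℝ) := mul_pos hζ0 hNr0
  have hzl : ζ * (N : ℝ) ≤ z := hz ▸ Nat.le_ceil _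
  have hzu : (z : ℝ) < ζ * N + 1 := by
    rw [hz]
    exact Nat.ceil_lt_add_one hζN0.le
  have hκ0 : (0 : ℝ) ≤ 𝒦.card := Nat.cast_nonneg _
  have hκp : (𝒦.card : ℝ) ≤ p := by exact_mod_cast h𝒦p
  have hκz : (𝒦.card : ℝ) * z ≤ 3 * (δ * n) / 64 + p := by
    have h1 := mul_le_mul_of_nonneg_left hzu.le hκ0
    have h2 := mul_le_mul_of_nonneg_left hκN2 hζ0.le
    have e1 : (𝒦.card : ℝ) * (ζ * N + 1) = ζ * (𝒦.card * N) + 𝒦.card := by ring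
    rw [e1] at h1
    have e2 : ζ * (3 * (n : ℝ)) = 3 * (δ * n) / 64 := by rw [hζ]; ring
    rw [e2] at h2
    linarith only [h1, h2, hκp]
  have hκsa : (𝒦.card : ℝ) * sa ≤ p * sa := mul_le_mul_of_nonneg_right hκp hsa0
  obtain ⟨J, hJ⟩ : ∃ J : Finset (Finset α),
      J = 𝒦.filter fun C => 2 * (z + sa) ≤ (C ∩ Xs).card := ⟨_, rfl⟩
  have hJ𝒦 : ∀ C ∈ J, C ∈ 𝒦 := fun C hC => by
    rw [hJ] at hC
    exact (Finset.mem_filter.1 hC).1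
  have hJc : J.card ≤ 𝒦.card := by
    rw [hJ]
    exact Finset.card_le_card (Finset.filter_subset _ _)
  have hsumJ : (Xs.card : ℝ) ≤
      ((∑ C ∈ J, (C ∩ Xs).card : ℕ) : ℝ) + 2 * (𝒦.card * z + 𝒦.card * sa) := by
    have h1 := UpperW_sum 𝒦 Xs (z + sa) (hXs.trans Finset.sdiff_subset)
    rw [← hJ] at h1
    have h2 : (Xs.card : ℝ) ≤
        ((∑ C ∈ J, (C ∩ Xs).card + 𝒦.card * (2 * (z + sa)) : ℕ) : ℝ) := by
      exact_mod_cast h1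
    push_cast at h2 ⊢
    linarith only [h2]
  have hJK : (J.card : ℝ) * ((K k₂ : ℝ) + A) ≤ p * ((K k₂ : ℝ) + A) := by
    refine mul_le_mul_of_nonneg_right ?_ (by positivity)
    exact le_trans (by exact_mod_cast hJc) hκp
  have hJz : (J.card : ℝ) * z ≤ 𝒦.card * z :=
    mul_le_mul_of_nonneg_right (by exact_mod_cast hJc) (Nat.cast_nonneg _)
  have hJsa : (J.card : ℝ) * sa ≤ 𝒦.card * sa :=
    mul_le_mul_of_nonneg_right (by exact_mod_cast hJc) hsa0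
  have hsum : (Finset.univ.filter fun x => x ∉ I').card + J.card * (K k₂ + A) + J.card * z +
      J.card * sa ≤ ∑ C ∈ J, (C ∩ Xs).card := by
    have h1 : ((((Finset.univ.filter fun x => x ∉ I').card + J.card * (K k₂ + A) + J.card * z +
        J.card * sa : ℕ)) : ℝ) ≤ ((∑ C ∈ J, (C ∩ Xs).card : ℕ) : ℝ) := by
      rw [Nat.cast_add, Nat.cast_add, Nat.cast_add, Nat.cast_mul, Nat.cast_mul, Nat.cast_mul,
        Nat.cast_add, hnI]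
      linarith only [hI'l, hXsl, hsumJ, hJK, hJz, hJsa, hκz, hκsa, hsa3, hB4, hB6, hBn, hwn]
    exact_mod_cast h1
  have hJne : J.Nonempty := by
    by_contra hc'
    rw [Finset.not_nonempty_iff_eq_empty] at hc'
    rw [hc', Finset.sum_empty, Finset.card_empty] at hsum
    have h1 : (Finset.univ.filter fun x => x ∉ I').card = 0 := by omega
    rw [h1, Nat.cast_zero] at hnI
    linarith only [hnI, hI'u, hIr, hn48]
  -- the numerical conditions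
  have hβ : 3 * (Δ : ℝ) * (η * N) ≤ 3 / 64 * (ζ * (ρ * N)) := by
    have h1 : 64 * ((Δ : ℝ) * η) ≤ ζ * ρ := by
      rw [← hη1]
      have h2 : (1 : ℝ) ≤ ((r : ℝ) + 1) ^ 2 := one_le_pow₀ (by linarith only [hr0])
      have h3 : (Δ : ℝ) * 1 ≤ ((Δ : ℝ) + 1) * ((r : ℝ) + 1) ^ 2 :=
        mul_le_mul (by linarith only) h2 (by norm_num) (by linarith only [hΔ0])
      have h4 := mul_le_mul_of_nonneg_right h3 hη0.le
      linarith only [h4]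
    have h5 := mul_le_mul_of_nonneg_right h1 hNr0.le
    linarith only [h5]
  have hr1 : ((r : ℝ) + r ^ 2) * (η * N) ≤ 1 / 64 * (ζ * (ρ * N)) := by
    have h1 : 64 * (((r : ℝ) + r ^ 2) * η) ≤ ζ * ρ := by
      rw [← hη1]
      have h3 : 1 * ((r : ℝ) + r ^ 2) ≤ ((Δ : ℝ) + 1) * ((r : ℝ) + 1) ^ 2 :=
        mul_le_mul (by linarith only [hΔ0]) (by nlinarith only [hr0]) (by positivity)
          (by linarith only [hΔ0])
      have h4 := mul_le_mul_of_nonneg_right h3 hη0.le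
      linarith only [h4]
    have h5 := mul_le_mul_of_nonneg_right h1 hNr0.le
    linarith only [h5]
  have hm0 : 0 < ζ * (ρ * (N : ℝ)) := mul_pos hζ0 (mul_pos hρ hNr0)
  obtain ⟨l, hl, hMl⟩ : ∃ l : ℝ, ρ * (N : ℝ) ≤ l ∧ ((∃ C ∈ J, mk C) →
      (∀ j ≤ 4, ∀ i, M j i ⊆ U) ∧ ModePath R (βl ^ 2) l C₀ C₁ M) := by
    by_cases hmk : ∃ C ∈ 𝒦, mk C
    · obtain ⟨h1, l, h2, h3⟩ := hM hmk
      rw [hεL] at h3
      exact ⟨l, h2, fun _ => ⟨h1, h3⟩⟩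
    · refine ⟨ρ * (N : ℝ), le_rfl, fun h => absurd ?_ hmk⟩
      obtain ⟨C, hC, hCm⟩ := h
      exact ⟨C, hJ𝒦 C hC, hCm⟩
  obtain ⟨O, hO⟩ : ∃ O : Finset α, O = U \ (Xs ∪ Z) := ⟨_, rfl⟩
  have hOc : (U.card : ℝ) ≤ O.card + Xs.card + Z.card := by
    have h1 := Finset.card_sdiff_add_card U (Xs ∪ Z)
    have h2 := Finset.card_le_card (Finset.subset_union_left (s₁ := U) (s₂ := Xs ∪ Z))
    have h3 := Finset.card_union_le Xs Z
    rw [← hO] at h1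
    exact_mod_cast (by omega : U.card ≤ O.card + Xs.card + Z.card)
  refine hass E Δ hH R U hBF ((1 - 4 * δ) * (n : ℝ)) hD₀ p hp d c₁ c₂ S₁ hdD hdE hc₁E hc₁
    hc₂E (K k₂ + A) hc₂ col ?_ I'
    (fun f hf => (Finset.card_le_card (Finset.inter_subset_inter_left hI'I)).trans (hI f hf))
    hI' N ε η hε0 hη0 J hJne C₀ C₁ mk q (fun C hC => ?_)
    (fun C hC C' hC' => h𝒦d C (hJ𝒦 C hC) C' (hJ𝒦 C' hC')) LA LA' (βl ^ 2) βl (ρ * N)
    (by positivity) hβl0 hρN1 (fun C hC i hi hne => ?_) M l hl hMl (η * N) βl ?_ le_rfl ?_ le_rfl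
    ?_ sa ?_ ?_ Z (fun C hC => ?_) Xs O ?_ ?_ ?_ ?_ z ?_ ?_ ?_ hsum ?_
  · rintro f hf ⟨x, hxf, hx⟩
    refine hcol f hf ?_
    by_contra hdis
    have := hdSs f hf hdis x hxf
    omega
  · obtain ⟨h1, h2, h3, h4, h5⟩ := hq C (hJ𝒦 C hC)
    exact ⟨h1, h2, h4, h3⟩
  · rw [← hεL]
    rcases (hq C (hJ𝒦 C hC)).2.2.2.2 i hi with h | h
    · exact absurd h hne
    · exact hLA _ _ h
  · exact mul_le_mul_of_nonneg_right hεη hNr0.le
  · rw [pow_two, mul_div_assoc, div_self hβl0.ne', mul_one]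
  · exact hβl1.le
  · exact hsa.ge
  · linarith only [hsa2, hβ, hm0, hρN, hζρN2]
  · have h1 := hZ𝒦 C (hJ𝒦 C hC)
    linarith only [h1, hβ, hsa2, hρN, hζρN, hm0, hB3, hBn]
  · exact Finset.disjoint_left.2 fun x hx => (Finset.mem_sdiff.1 (hXs hx)).2
  · rw [hO]
    exact Finset.sdiff_subset
  · rw [hO]
    exact Finset.disjoint_left.2 fun x hx hx' =>
      (Finset.mem_sdiff.1 hx).2 (Finset.mem_union_left _ hx')
  · rw [hO]
    exact Finset.disjoint_left.2 fun x hx hx' =>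
      (Finset.mem_sdiff.1 hx).2 (Finset.mem_union_right _ hx')
  · linarith only [hβ, hζρN, hzl, hζN0]
  · have h1 : (r : ℝ) * (ε / η) * N ≤ r * (η * N) := by
      rw [mul_assoc]
      exact mul_le_mul_of_nonneg_left (mul_le_mul_of_nonneg_right hεη hNr0.le) hr0
    have h2 : ((r : ℝ) + r ^ 2) * (η * N) = r * (η * N) + r ^ 2 * η * N := by ring
    rw [h2] at hr1
    linarith only [h1, hr1, hB2, hBn, hρN, hζρN, hzl, hζN0]
  · intro C hC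
    rw [hJ] at hC
    have h1 := (Finset.mem_filter.1 hC).2
    omega
  · linarith only [hI'u, hXsu, hZc2, hOc, hUlr, hsa2, hwn, hBn, hB5, hB6, hδn0]

end Pool.MP7783b9
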