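import Pool.Agent.H.MP_7783b9_co.X.LargeD
import Pool.Agent.H.MP_7783b9_co.W.UpperW

/-!
# Hyperfinite 3-graphs with a large strongly independent set: disconnected hypergraphs
-/

set_option autoImplicit false

open Finset

namespace Pool.MP7783b9

/-- `A` is a union of components of the hypergraph; `2 n - 2` points are enough -/
theorem upper_hd (Δ : ℕ) (K : ℕ → ℕ) (δ : ℝ) (hδ : 0 < δ) :
    ∃ n₀ : ℕ, ∀ {V : Type*} {α : Type} [Fintype V] [DecidableEq V] [DecidableEq α]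
      (E : Finset (Finset V)) (_ : Hyp Finset.univ E Δ) (_ : Hyperfinite E K)
      (A : Finset V) (_ : A.Nonempty) (_ : A ≠ Finset.univ)
      (_ : ∀ f ∈ E, f ⊆ A ∨ Disjoint f A)
      (I : Finset V) (_ : StrongIndep E I)
      (_ : (1 / 3 + δ) * (Fintype.card V : ℝ) ≤ (I.card : ℝ))
      (_ : n₀ ≤ Fintype.card V) (R : Finset α → Prop) (U : Finset α)
      (_ : U.card = 2 * Fintype.card V - 2),
      HasRed R Finset.univ E U ∨ BlueFano R U := by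
  obtain ⟨ε₁, hε₁, hε₁1, n₁, hlarge⟩ := large_clique_d Δ
  obtain ⟨δ', hδ'⟩ : ∃ δ' : ℝ, δ' = min δ (min (ε₁ / 2) (1 / 6)) := ⟨_, rfl⟩
  have hδ0 : 0 < δ' := by
    rw [hδ']
    exact lt_min hδ (lt_min (by linarith only [hε₁]) (by norm_num))
  have hδ1 : δ' ≤ δ := hδ' ▸ min_le_left _ _
  have hδ2 : 2 * δ' ≤ ε₁ := by
    have h1 : δ' ≤ ε₁ / 2 := hδ' ▸ (min_le_right _ _).trans (min_le_left _ _)
    linarith only [h1]
  have hδ3 : δ' ≤ 1 / 6 := hδ' ▸ (min_le_right _ _).trans (min_le_right _ _)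
  clear hδ'
  have hΔ0 : (0 : ℝ) ≤ Δ := Nat.cast_nonneg Δ
  obtain ⟨k₁, hk₁⟩ : ∃ k₁ : ℕ, 16 * (2 * (Δ : ℝ) + 1) / δ' ≤ k₁ := exists_nat_ge _
  rw [div_le_iff₀ hδ0] at hk₁
  have hk₁0 : 0 < k₁ := by
    rcases Nat.eq_zero_or_pos k₁ with h | h
    · rw [h, Nat.cast_zero, zero_mul] at hk₁
      linarith only [hk₁, hΔ0]
    · exact h
  obtain ⟨r, hass⟩ := assemble (K k₁)
  have hr0 : (0 : ℝ) ≤ r := Nat.cast_nonneg r
  obtain ⟨ζ, hζ⟩ : ∃ ζ : ℝ, ζ = δ' / 64 := ⟨_, rfl⟩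
  have hζ0 : 0 < ζ := by
    rw [hζ]
    linarith only [hδ0]
  have hζ1 : ζ ≤ 1 := by
    rw [hζ]
    linarith only [hδ3]
  obtain ⟨βl, hβl⟩ : ∃ βl : ℝ, βl = ζ / (64 * ((Δ : ℝ) + 1)) := ⟨_, rfl⟩
  have hβl0 : 0 < βl := by
    rw [hβl]
    positivity
  have hβl1 : 64 * ((Δ : ℝ) + 1) * βl = ζ := by
    rw [hβl]
    field_simp
  obtain ⟨ρ, hρ, hρ1, εc, hεc, hcol⟩ := colour_side (βl ^ 2) (by positivity)
  obtain ⟨η, hη⟩ : ∃ η : ℝ, η = ζ * ρ / (64 * ((Δ : ℝ) + 1) * ((r : ℝ) + 1) ^ 2) := ⟨_, rfl⟩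
  have hη0 : 0 < η := by
    rw [hη]
    positivity
  have hη1 : 64 * ((Δ : ℝ) + 1) * ((r : ℝ) + 1) ^ 2 * η = ζ * ρ := by
    rw [hη]
    field_simp
  obtain ⟨ε, hε⟩ : ∃ ε : ℝ, ε = min εc (η ^ 2) := ⟨_, rfl⟩
  have hε0 : 0 < ε := by
    rw [hε]
    exact lt_min hεc (pow_pos hη0 2)
  have hε1 : ε ≤ η ^ 2 := hε ▸ min_le_right _ _
  have hεη : ε / η ≤ η := by
    rw [div_le_iff₀ hη0, ← pow_two]
    exact hε1
  obtain ⟨σ, hσ, hσ1, p, n₂, hcol⟩ := hcol ε (δ' / 16) hε0 (hε ▸ min_le_left _ _)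
    (by linarith only [hδ0]) (by linarith only [hδ3])
  obtain ⟨w, hw⟩ : ∃ w : ℝ, w = ζ * ρ * σ := ⟨_, rfl⟩
  have hw0 : 0 < w := by
    rw [hw]
    positivity
  have hw1 : w ≤ ζ := by
    rw [hw]
    calc ζ * ρ * σ ≤ ζ * 1 * 1 := by gcongr
      _ = ζ := by ring
  have hwδ : w ≤ δ' := by
    refine hw1.trans ?_
    rw [hζ]
    linarith only [hδ0]
  obtain ⟨k₂, hk₂⟩ : ∃ k₂ : ℕ, 64 * ((k₁ : ℝ) + 1) * (2 * (Δ : ℝ) + 1) ^ (3 * p + 3) / w ≤ k₂ :=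
    exists_nat_ge _
  rw [div_le_iff₀ hw0] at hk₂
  have hk₂0 : 0 < k₂ := by
    rcases Nat.eq_zero_or_pos k₂ with h | h
    · rw [h, Nat.cast_zero, zero_mul] at hk₂
      have : 0 < 64 * ((k₁ : ℝ) + 1) * (2 * (Δ : ℝ) + 1) ^ (3 * p + 3) := by positivity
      linarith only [hk₂, this]
    · exact h
  obtain ⟨A₀, hA⟩ : ∃ A₀ : ℝ, A₀ = 34 * r + 2 + 2 * 2 ^ (3 * (p * (p + 1))) +
      2 * (p * (K k₂ : ℝ) + 3 * p + 1) + (3 + 4 * 2 ^ r * (K k₁ : ℝ)) + 16 := ⟨_, rfl⟩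
  obtain ⟨n₃, hn₃⟩ : ∃ n₃ : ℕ, A₀ / w ≤ n₃ := exists_nat_ge _
  rw [div_le_iff₀ hw0] at hn₃
  refine ⟨n₁ + n₂ + n₃ + 1, ?_⟩
  intro V α _ _ _ E hH hhf A hA0 hAne hEA I hI hIc hn R U hU
  by_cases hBF : BlueFano R U
  · exact Or.inr hBF
  refine Or.inl ?_
  by_contra hno
  -- sizes
  obtain ⟨n, hnn⟩ : ∃ n : ℕ, n = Fintype.card V := ⟨_, rfl⟩
  rw [← hnn] at hIc hn hU
  have hn0 : (0 : ℝ) ≤ n := Nat.cast_nonneg n
  have hUr : (U.card : ℝ) = 2 * n - 2 := by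
    rw [hU, Nat.cast_sub (by omega)]
    push_cast
    ring
  have hAn : A₀ ≤ w * n := by
    have h1 : (n₃ : ℝ) ≤ n := by exact_mod_cast (by omega : n₃ ≤ n)
    calc A₀ ≤ n₃ * w := hn₃
      _ ≤ n * w := mul_le_mul_of_nonneg_right h1 hw0.le
      _ = w * n := mul_comm _ _
  have hδn : w * n ≤ δ' * n := mul_le_mul_of_nonneg_right hwδ hn0
  have hA1 : 34 * (r : ℝ) + 2 ≤ A₀ := by
    rw [hA]
    have : (0 : ℝ) ≤ 2 * 2 ^ (3 * (p * (p + 1))) +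
      2 * (p * (K k₂ : ℝ) + 3 * p + 1) + (3 + 4 * 2 ^ r * (K k₁ : ℝ)) + 16 := by positivity
    linarith only [this]
  have hA2 : 2 * (2 : ℝ) ^ (3 * (p * (p + 1))) ≤ A₀ := by
    rw [hA]
    have : (0 : ℝ) ≤ 34 * r + 2 +
      2 * (p * (K k₂ : ℝ) + 3 * p + 1) + (3 + 4 * 2 ^ r * (K k₁ : ℝ)) + 16 := by positivity
    linarith only [this]
  have hA3 : 2 * (p * (K k₂ : ℝ) + 3 * p + 1) ≤ A₀ := by
    rw [hA]
    have : (0 : ℝ) ≤ 34 * r + 2 + 2 * 2 ^ (3 * (p * (p + 1))) +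
      (3 + 4 * 2 ^ r * (K k₁ : ℝ)) + 16 := by positivity
    linarith only [this]
  have hA4 : 3 + 4 * 2 ^ r * (K k₁ : ℝ) + 16 ≤ A₀ := by
    rw [hA]
    have : (0 : ℝ) ≤ 34 * r + 2 + 2 * 2 ^ (3 * (p * (p + 1))) +
      2 * (p * (K k₂ : ℝ) + 3 * p + 1) := by positivity
    linarith only [this]
  have hA5 : 16 ≤ A₀ := by
    rw [hA]
    have : (0 : ℝ) ≤ 34 * r + 2 + 2 * 2 ^ (3 * (p * (p + 1))) +
      2 * (p * (K k₂ : ℝ) + 3 * p + 1) + (3 + 4 * 2 ^ r * (K k₁ : ℝ)) := by positivity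
    linarith only [this]
  clear hA
  have hn48 : (48 : ℝ) ≤ n := by
    have h1 : δ' * n ≤ 1 / 6 * n := mul_le_mul_of_nonneg_right hδ3 hn0
    linarith only [h1, hδn, hAn, hA5]
  have hV : Nonempty V := by
    rw [← Fintype.card_pos_iff, ← hnn]
    omega
  have hD₀ : ∀ D ⊆ U, RedClique R D → (D.card : ℝ) < (1 - ε₁) * n := by
    intro D hDU hD
    by_contra hc
    rw [not_lt] at hc
    apply hno
    refine hlarge Finset.univ E hH A (Finset.subset_univ A) hA0 hAne hEA R U ?_ hBF D hDU hD ?_ ?_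
    · rw [card_univ, ← hnn, hU]
    · rw [card_univ, ← hnn]
      exact hc
    · rw [card_univ, ← hnn]
      omega
  -- the colouring
  obtain ⟨N, hN, 𝒦, h𝒦p, h𝒦, h𝒦d, h𝒦c, C₀, q, hq⟩ := hcol R U (by omega) hBF
  have hσN : σ * n ≤ N := by
    refine le_trans ?_ hN
    rw [hUr]
    exact mul_le_mul_of_nonneg_left (by linarith only [hn48]) hσ.le
  have hNr0 : (0 : ℝ) < N := lt_of_lt_of_le (mul_pos hσ (by linarith only [hn48])) hσN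
  have hρN : w * n ≤ ζ * (ρ * N) := by
    calc w * n = ζ * ρ * (σ * n) := by rw [hw]; ring
      _ ≤ ζ * ρ * N := mul_le_mul_of_nonneg_left hσN (by positivity)
      _ = ζ * (ρ * N) := by ring
  have hρN1 : ρ * (N : ℝ) ≤ N := mul_le_of_le_one_left hNr0.le hρ1
  have hζρN : ζ * (ρ * N) ≤ ζ * N := mul_le_mul_of_nonneg_left hρN1 hζ0.le
  obtain ⟨LA, LA', Z, hZU, hZc, hZ1, hL, hZ2⟩ := UpperW_col R U p 𝒦 h𝒦p C₀ q N ε (βl ^ 2)
    (ρ * N) hq hρN1 ζ hζ0.le hζ1 (by linarith only [hA2, hAn, hρN])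
  -- the hypergraph
  obtain ⟨S₁, c₁, hS₁, hc₁, hc₁E⟩ := hhf k₁ hk₁0
  obtain ⟨S₂, c₂, hS₂, hc₂, hc₂E⟩ := hhf k₂ hk₂0
  rw [← hnn] at hS₁ hS₂
  have hS₂r : (k₂ : ℝ) * S₂.card ≤ n := by exact_mod_cast hS₂
  have hSp0 : 64 * (((k₁ : ℝ) + 1) * (S₂.card * (2 * (Δ : ℝ) + 1) ^ (3 * p + 3))) ≤ w * n := by
    have h1 := mul_le_mul_of_nonneg_right hk₂ (Nat.cast_nonneg (α := ℝ) S₂.card)
    have h2 := mul_le_mul_of_nonneg_left hS₂r hw0.le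
    calc 64 * (((k₁ : ℝ) + 1) * (S₂.card * (2 * (Δ : ℝ) + 1) ^ (3 * p + 3)))
        = 64 * ((k₁ : ℝ) + 1) * (2 * (Δ : ℝ) + 1) ^ (3 * p + 3) * S₂.card := by ring
      _ ≤ k₂ * w * S₂.card := h1
      _ = w * (k₂ * S₂.card) := by ring
      _ ≤ w * n := h2
  have hP0 : (0 : ℝ) ≤ S₂.card * (2 * (Δ : ℝ) + 1) ^ (3 * p + 3) := by positivity
  have hk₁r : (0 : ℝ) ≤ k₁ := Nat.cast_nonneg k₁
  have hSp1 : (k₁ : ℝ) * (S₂.card * (2 * (Δ : ℝ) + 1) ^ (3 * p + 3)) ≤ n := by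
    have h1 : w * n ≤ 1 * n := mul_le_mul_of_nonneg_right (hw1.trans hζ1) hn0
    have h2 : 0 ≤ (k₁ : ℝ) * (S₂.card * (2 * (Δ : ℝ) + 1) ^ (3 * p + 3)) := mul_nonneg hk₁r hP0
    rw [add_mul, one_mul] at hSp0
    linarith only [hSp0, h1, h2, hP0]
  have hs : ⌈(1 / 3 + δ') * (n : ℝ)⌉₊ ≤ I.card := by
    refine Nat.ceil_le.2 (le_trans ?_ hIc)
    exact mul_le_mul_of_nonneg_right (by linarith only [hδ1]) hn0
  obtain ⟨d, hdD, hdS, hdE, hdc, I', hI'I, hI'c, hI'c2, hI'⟩ := UpperW_hyp E Δ hH I S₁ S₂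
    (3 * p + 3) (by omega) k₁ (by rw [← hnn]; exact hS₁) (by
      rw [← hnn]
      exact_mod_cast hSp1) _ hs
  rw [← hnn] at hI'c2
  have hI'u : (I'.card : ℝ) < (1 / 3 + δ') * n + 1 := by
    have h1 : (I'.card : ℝ) ≤ (⌈(1 / 3 + δ') * (n : ℝ)⌉₊ : ℝ) := by exact_mod_cast hI'c
    have h2 : (⌈(1 / 3 + δ') * (n : ℝ)⌉₊ : ℝ) < (1 / 3 + δ') * n + 1 :=
      Nat.ceil_lt_add_one (mul_nonneg (by linarith only [hδ0]) hn0)
    linarith only [h1, h2]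
  have hI'l : (1 / 3 + 7 * δ' / 8) * n ≤ (I'.card : ℝ) := by
    have h1 : (k₁ : ℝ) * (⌈(1 / 3 + δ') * (n : ℝ)⌉₊ : ℝ) ≤
        k₁ * I'.card + 2 * (2 * (Δ : ℝ) + 1) * n := by exact_mod_cast hI'c2
    have h2 : (1 / 3 + δ') * (n : ℝ) ≤ (⌈(1 / 3 + δ') * (n : ℝ)⌉₊ : ℝ) := Nat.le_ceil _
    have h3 := mul_le_mul_of_nonneg_left h2 hk₁r
    have h4 := mul_le_mul_of_nonneg_right hk₁ hn0
    have h5 : (k₁ : ℝ) * ((1 / 3 + 7 * δ' / 8) * n) ≤ k₁ * I'.card := by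
      have e1 : (k₁ : ℝ) * ((1 / 3 + 7 * δ' / 8) * n) =
        k₁ * ((1 / 3 + δ') * n) - k₁ * δ' * n / 8 := by ring
      rw [e1]
      linarith only [h1, h3, h4]
    exact le_of_mul_le_mul_left h5 (by exact_mod_cast hk₁0)
  have hnI : ((Finset.univ.filter fun x => x ∉ I').card : ℝ) = n - I'.card := by
    have h1 := Finset.card_filter_add_card_filter_not (s := (Finset.univ : Finset V))
      (fun x => x ∈ I')
    rw [Finset.filter_mem_eq_inter, Finset.univ_inter, Finset.card_univ, ← hnn] at h1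
    have h2 : (I'.card : ℝ) + ((Finset.univ.filter fun x => x ∉ I').card : ℝ) = n := by
      exact_mod_cast h1
    linarith only [h2]
  have hSp : 64 * ((Finset.univ.filter fun x => d x < 3 * p + 3).card : ℝ) ≤ ζ * (ρ * N) := by
    have h1 : ((Finset.univ.filter fun x => d x < 3 * p + 3).card : ℝ) ≤
        S₂.card * (2 * (Δ : ℝ) + 1) ^ (3 * p + 3) := by exact_mod_cast hdc
    have h2 : 0 ≤ (k₁ : ℝ) * (S₂.card * (2 * (Δ : ℝ) + 1) ^ (3 * p + 3)) := mul_nonneg hk₁r hP0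
    rw [add_mul, one_mul] at hSp0
    linarith only [hSp0, h1, h2, hρN]
  -- the region for the base vertices
  have hκN : (𝒦.card : ℝ) * N = ((𝒦.biUnion id).card : ℝ) := by
    have h1 : (𝒦.biUnion id).card = ∑ C ∈ 𝒦, (id C).card :=
      Finset.card_biUnion fun C hC C' hC' hne => h𝒦d C hC C' hC' hne
    have h2 : ∑ C ∈ 𝒦, (id C).card = 𝒦.card * N := by
      rw [← smul_eq_mul, ← Finset.sum_const]
      exact Finset.sum_congr rfl fun C hC => (h𝒦 C hC).2.1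
    rw [h1, h2, Nat.cast_mul]
  have h𝒦U : 𝒦.biUnion id ⊆ U := by
    intro x hx
    obtain ⟨C, hC, hxC⟩ := Finset.mem_biUnion.1 hx
    exact (h𝒦 C hC).1 hxC
  have h𝒦le : ((𝒦.biUnion id).card : ℝ) ≤ U.card := by exact_mod_cast Finset.card_le_card h𝒦U
  have hκN2 : (𝒦.card : ℝ) * N ≤ 2 * n := by
    rw [hκN]
    linarith only [h𝒦le, hUr]
  have hZc2 : (Z.card : ℝ) ≤ δ' / 32 * n := by
    refine hZc.trans ?_
    rw [hUr, hζ]
    have : δ' / 64 * (2 * n - 2) = δ' / 32 * n - δ' / 32 := by ring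
    linarith only [this, hδ0]
  have hXs0 : ⌊(2 / 3 - δ' / 4) * (n : ℝ)⌋₊ ≤ (𝒦.biUnion id \ Z).card := by
    refine Nat.floor_le_of_le ?_
    have h1 : (((𝒦.biUnion id).card : ℝ)) ≤ ((𝒦.biUnion id \ Z).card : ℝ) + Z.card := by
      have h2 := Finset.card_sdiff_add_card (𝒦.biUnion id) Z
      have h3 := Finset.card_le_card (Finset.subset_union_left (s₁ := 𝒦.biUnion id) (s₂ := Z))
      exact_mod_cast (by omega : (𝒦.biUnion id).card ≤ (𝒦.biUnion id \ Z).card + Z.card)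
    rw [hUr] at h𝒦c
    have e1 : (1 - δ' / 16) * (2 * (n : ℝ) - 2) = 2 * n - 2 - δ' * n / 8 + δ' / 8 := by ring
    rw [e1] at h𝒦c
    have e2 : (2 / 3 - δ' / 4) * (n : ℝ) = 2 / 3 * n - δ' * n / 4 := by ring
    rw [e2]
    linarith only [h1, h𝒦c, hZc2, hδn, hAn, hA5, hδ0]
  obtain ⟨Xs, hXs, hXsc⟩ := Finset.exists_subset_card_eq hXs0
  have hXsu : (Xs.card : ℝ) ≤ (2 / 3 - δ' / 4) * n := by
    rw [hXsc]
    exact Nat.floor_le (mul_nonneg (by linarith only [hδ3]) hn0)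
  have hXsl : (2 / 3 - δ' / 4) * n - 1 < (Xs.card : ℝ) := by
    rw [hXsc]
    exact Nat.sub_one_lt_floor _
  obtain ⟨z, hz⟩ : ∃ z : ℕ, z = ⌈ζ * (N : ℝ)⌉₊ := ⟨_, rfl⟩
  have hζN0 : 0 < ζ * (N : ℝ) := mul_pos hζ0 hNr0
  have hzl : ζ * (N : ℝ) ≤ z := hz ▸ Nat.le_ceil _
  have hzu : (z : ℝ) < ζ * N + 1 := by
    rw [hz]
    exact Nat.ceil_lt_add_one hζN0.le
  have hκ0 : (0 : ℝ) ≤ 𝒦.card := Nat.cast_nonneg _
  have hκp : (𝒦.card : ℝ) ≤ p := by exact_mod_cast h𝒦p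
  have hκz : (𝒦.card : ℝ) * z ≤ δ' * n / 32 + p := by
    have h1 := mul_le_mul_of_nonneg_left hzu.le hκ0
    have h2 := mul_le_mul_of_nonneg_left hκN2 hζ0.le
    have e1 : (𝒦.card : ℝ) * (ζ * N + 1) = ζ * (𝒦.card * N) + 𝒦.card := by ring
    rw [e1] at h1
    have e2 : ζ * (2 * (n : ℝ)) = δ' * n / 32 := by rw [hζ]; ring
    rw [e2] at h2
    linarith only [h1, h2, hκp]
  obtain ⟨J, hJ⟩ : ∃ J : Finset (Finset α), J = 𝒦.filter fun C => 2 * z ≤ (C ∩ Xs).card :=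
    ⟨_, rfl⟩
  have hJ𝒦 : ∀ C ∈ J, C ∈ 𝒦 := fun C hC => by
    rw [hJ] at hC
    exact (Finset.mem_filter.1 hC).1
  have hJc : J.card ≤ 𝒦.card := by
    rw [hJ]
    exact Finset.card_le_card (Finset.filter_subset _ _)
  have hsumJ : (Xs.card : ℝ) ≤ ((∑ C ∈ J, (C ∩ Xs).card : ℕ) : ℝ) + 2 * (𝒦.card * z) := by
    have h1 := UpperW_sum 𝒦 Xs z (hXs.trans Finset.sdiff_subset)
    rw [← hJ] at h1
    have h2 : (Xs.card : ℝ) ≤ ((∑ C ∈ J, (C ∩ Xs).card + 𝒦.card * (2 * z) : ℕ) : ℝ) := by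
      exact_mod_cast h1
    push_cast at h2 ⊢
    linarith only [h2]
  have hJK : (J.card : ℝ) * (K k₂ : ℝ) ≤ p * (K k₂ : ℝ) := by
    refine mul_le_mul_of_nonneg_right ?_ (Nat.cast_nonneg _)
    exact le_trans (by exact_mod_cast hJc) hκp
  have hJz : (J.card : ℝ) * z ≤ 𝒦.card * z :=
    mul_le_mul_of_nonneg_right (by exact_mod_cast hJc) (Nat.cast_nonneg _)
  have hsum : (Finset.univ.filter fun x => x ∉ I').card + J.card * K k₂ + J.card * z ≤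
      ∑ C ∈ J, (C ∩ Xs).card := by
    have h1 : ((((Finset.univ.filter fun x => x ∉ I').card + J.card * K k₂ + J.card * z : ℕ)) : ℝ)
        ≤ ((∑ C ∈ J, (C ∩ Xs).card : ℕ) : ℝ) := by
      rw [Nat.cast_add, Nat.cast_add, Nat.cast_mul, Nat.cast_mul, hnI]
      have e1 : (1 / 3 + 7 * δ' / 8) * (n : ℝ) = 1 / 3 * n + 7 / 8 * (δ' * n) := by ring
      have e2 : (2 / 3 - δ' / 4) * (n : ℝ) = 2 / 3 * n - 1 / 4 * (δ' * n) := by ring
      rw [e1] at hI'l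
      rw [e2] at hXsl
      linarith only [hI'l, hXsl, hsumJ, hJK, hJz, hκz, hA3, hA5, hAn, hδn]
    exact_mod_cast h1
  have hJne : J.Nonempty := by
    by_contra hc
    rw [Finset.not_nonempty_iff_eq_empty] at hc
    rw [hc, Finset.sum_empty, Finset.card_empty] at hsum
    have h1 : (Finset.univ.filter fun x => x ∉ I').card = 0 := by omega
    rw [h1, Nat.cast_zero] at hnI
    have h2 : δ' * (n : ℝ) ≤ 1 / 6 * n := mul_le_mul_of_nonneg_right hδ3 hn0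
    rw [add_mul] at hI'u
    linarith only [hnI, hI'u, h2, hn48]
  -- the numerical conditions
  have hβ : 3 * (Δ : ℝ) * (η * N) ≤ 3 / 64 * (ζ * (ρ * N)) := by
    have h1 : 64 * ((Δ : ℝ) * η) ≤ ζ * ρ := by
      rw [← hη1]
      have h2 : (1 : ℝ) ≤ ((r : ℝ) + 1) ^ 2 := one_le_pow₀ (by linarith only [hr0])
      have h3 : (Δ : ℝ) * 1 ≤ ((Δ : ℝ) + 1) * ((r : ℝ) + 1) ^ 2 :=
        mul_le_mul (by linarith only) h2 (by norm_num) (by linarith only [hΔ0])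
      have h4 := mul_le_mul_of_nonneg_right h3 hη0.le
      linarith only [h4]
    have h5 := mul_le_mul_of_nonneg_right h1 hNr0.le
    linarith only [h5]
  have hr1 : ((r : ℝ) + r ^ 2) * (η * N) ≤ 1 / 64 * (ζ * (ρ * N)) := by
    have h1 : 64 * (((r : ℝ) + r ^ 2) * η) ≤ ζ * ρ := by
      rw [← hη1]
      have h3 : 1 * ((r : ℝ) + r ^ 2) ≤ ((Δ : ℝ) + 1) * ((r : ℝ) + 1) ^ 2 :=
        mul_le_mul (by linarith only [hΔ0]) (by nlinarith only [hr0]) (by positivity)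
          (by linarith only [hΔ0])
      have h4 := mul_le_mul_of_nonneg_right h3 hη0.le
      linarith only [h4]
    have h5 := mul_le_mul_of_nonneg_right h1 hNr0.le
    linarith only [h5]
  apply hno
  obtain ⟨O, hO⟩ : ∃ O : Finset α, O = U \ (Xs ∪ Z) := ⟨_, rfl⟩
  have hOc : (U.card : ℝ) ≤ O.card + Xs.card + Z.card := by
    have h1 := Finset.card_sdiff_add_card U (Xs ∪ Z)
    have h2 := Finset.card_le_card (Finset.subset_union_left (s₁ := U) (s₂ := Xs ∪ Z))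
    have h3 := Finset.card_union_le Xs Z
    rw [← hO] at h1
    exact_mod_cast (by omega : U.card ≤ O.card + Xs.card + Z.card)
  refine hass E Δ hH R U hBF ((1 - ε₁) * n) hD₀ p d c₁ c₂ S₁ hdD hdE hc₁E hc₁
    (fun f hf x hx y hy h1 h2 => hc₂E f hf x hx y hy (hdS x h1) (hdS y h2)) (K k₂) (fun i => ?_)
    I' (fun f hf => (Finset.card_le_card (Finset.inter_subset_inter_left hI'I)).trans (hI f hf))
    hI' N ε η hε0 hη0 J hJne C₀ q (fun C hC => ?_)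
    (fun C hC C' hC' => h𝒦d C (hJ𝒦 C hC) C' (hJ𝒦 C' hC')) LA LA' (βl ^ 2) βl (ρ * N)
    (by positivity) hβl0 hρN1 (fun C hC => hL C (hJ𝒦 C hC)) Z ζ hζ0
    (fun C hC => hZ1 C (hJ𝒦 C hC)) (fun C hC => hZ2 C (hJ𝒦 C hC)) (η * N) βl ?_ le_rfl ?_ le_rfl
    ?_ ?_ Xs O ?_ ?_ ?_ ?_ z ?_ ?_ ?_ hsum ?_
  · refine le_trans (Finset.card_le_card ?_) (hc₂ i)
    intro x hx
    obtain ⟨-, h1, h2⟩ := Finset.mem_filter.1 hx
    exact Finset.mem_filter.2 ⟨Finset.mem_univ _, hdS x h1, h2⟩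
  · obtain ⟨h1, h2, h3⟩ := hq C (hJ𝒦 C hC)
    exact ⟨h1, h2, fun i => (h3 i).1⟩
  · exact mul_le_mul_of_nonneg_right hεη hNr0.le
  · rw [pow_two, mul_div_assoc, div_self hβl0.ne', mul_one]
  · linarith only [hβl1, hβl0, mul_nonneg hΔ0 hβl0.le]
  · have h1 : 0 < ζ * (ρ * N) := mul_pos hζ0 (mul_pos hρ hNr0)
    have e1 : ζ * (ρ * (N : ℝ)) / 4 = 1 / 4 * (ζ * (ρ * N)) := by ring
    rw [e1]
    linarith only [hSp, hβ, h1]
  · exact Finset.disjoint_left.2 fun x hx => (Finset.mem_sdiff.1 (hXs hx)).2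
  · rw [hO]
    exact Finset.sdiff_subset
  · rw [hO]
    exact Finset.disjoint_left.2 fun x hx hx' =>
      (Finset.mem_sdiff.1 hx).2 (Finset.mem_union_left _ hx')
  · rw [hO]
    exact Finset.disjoint_left.2 fun x hx hx' =>
      (Finset.mem_sdiff.1 hx).2 (Finset.mem_union_right _ hx')
  · linarith only [hβ, hζρN, hzl, hζN0]
  · have h1 : (r : ℝ) * (ε / η) * N ≤ r * (η * N) := by
      rw [mul_assoc]
      exact mul_le_mul_of_nonneg_left (mul_le_mul_of_nonneg_right hεη hNr0.le) hr0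
    have h2 : ((r : ℝ) + r ^ 2) * (η * N) = r * (η * N) + r ^ 2 * η * N := by ring
    rw [h2] at hr1
    linarith only [h1, hr1, hA1, hAn, hρN, hζρN, hzl, hζN0]
  · intro C hC
    rw [hJ] at hC
    exact (Finset.mem_filter.1 hC).2
  · have e1 : (1 / 3 + δ') * (n : ℝ) = 1 / 3 * n + δ' * n := by ring
    have e2 : (2 / 3 - δ' / 4) * (n : ℝ) = 2 / 3 * n - 1 / 4 * (δ' * n) := by ring
    have e3 : 2 * (δ' * n) ≤ ε₁ * n := by
      have := mul_le_mul_of_nonneg_right hδ2 hn0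
      linarith only [this]
    have e4 : (1 - ε₁) * (n : ℝ) = n - ε₁ * n := by ring
    have e5 : δ' / 32 * (n : ℝ) = 1 / 32 * (δ' * n) := by ring
    rw [e1] at hI'u
    rw [e2] at hXsu
    rw [e5] at hZc2
    rw [e4]
    have h0 : 0 ≤ δ' * (n : ℝ) := mul_nonneg hδ0.le hn0
    linarith only [hI'u, hXsu, hZc2, hOc, hUr, e3, hA4, hAn, hδn, h0]

end Pool.MP7783b9
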