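import Pool.Agent.H.MP_7783b9_co.X.Col3
import Pool.Agent.H.MP_7783b9_co.X.UpperAB
import Pool.Agent.H.MP_7783b9_co.X.UpperD
import Pool.Agent.H.MP_7783b9_co.X.DataC
import Pool.Agent.H.MP_7783b9_co.X.EmbC

/-!
# The exact upper bound
-/

set_option autoImplicit false

open Finset

namespace Pool.MP7783b9

theorem UpperX_redMono {V α : Type*} [DecidableEq V] [DecidableEq α] {R : Finset α → Prop}
    {S : Finset V} {E : Finset (Finset V)} {U U' : Finset α} (h : U' ⊆ U)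
    (hr : HasRed R S E U') : HasRed R S E U := by
  obtain ⟨φ, h1, h2, h3⟩ := hr
  exact ⟨φ, h1, fun v hv => h (h2 v hv), h3⟩

/-- an edge with three vertices of different colours contains a vertex of the colour `0` -/
theorem UpperX_col {V : Type*} [DecidableEq V] (f : Finset V) (h3 : f.card = 3) (col : V → Fin 3)
    (h : ∀ x ∈ f, ∀ y ∈ f, x ≠ y → col x ≠ col y) : ∃ x ∈ f, col x = 0 := by
  have h1 : (f.image col).card = 3 := by
    rw [Finset.card_image_of_injOn, h3]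
    intro x hx y hy hxy
    by_contra hne
    exact h x hx y hy hne hxy
  have h2 : f.image col = Finset.univ := by
    apply Finset.eq_univ_of_card
    rw [h1, Fintype.card_fin]
  have h4 : (0 : Fin 3) ∈ f.image col := by rw [h2]; exact Finset.mem_univ _
  obtain ⟨x, hx, hx0⟩ := Finset.mem_image.1 h4
  exact ⟨x, hx, hx0⟩

/-- the case without large red cliques, `I` is not too large: `I` is strongly independent, every
edge outside of a bounded set `Ss` of vertices is coloured with three colours by `col`, `I` is a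
colour class -/
theorem upper_core (Δ : ℕ) (K : ℕ → ℕ) (s : ℕ) (ε₁ : ℝ) (hε₁ : 0 < ε₁) :
    ∃ n₀ : ℕ, ∀ {V : Type*} {α : Type} [Fintype V] [DecidableEq V] [DecidableEq α]
      (E : Finset (Finset V)) (_ : Hyp Finset.univ E Δ) (_ : Hyperfinite E K)
      (col : V → Fin 3) (Ss : Finset V) (_ : Ss.card ≤ s)
      (_ : ∀ f ∈ E, Disjoint f Ss → ∀ x ∈ f, ∀ y ∈ f, x ≠ y → col x ≠ col y)
      (I : Finset V) (_ : StrongIndep E I) (_ : ∀ x, x ∈ I ↔ col x = 0)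
      (_ : 100 * I.card ≤ 40 * Fintype.card V)
      (_ : n₀ ≤ Fintype.card V) (R : Finset α → Prop) (U : Finset α) (_ : ¬ BlueFano R U)
      (_ : 2 * Fintype.card V ≤ U.card + 2)
      (_ : 3 * Fintype.card V ≤ U.card + 3 * I.card + 2)
      (_ : U.card ≤ 3 * Fintype.card V)
      (_ : ∀ D ⊆ U, RedClique R D → (D.card : ℝ) < (1 - ε₁) * (Fintype.card V : ℝ)),
      HasRed R Finset.univ E U := by
  obtain ⟨η₂, hη₂, hcol⟩ := colour3 (epsL Δ) (epsL_pos Δ) (epsL_le Δ)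
  obtain ⟨η, hη⟩ : ∃ η : ℝ, η = min η₂ 1 := ⟨_, rfl⟩
  have hη0 : 0 < η := by
    rw [hη]
    exact lt_min hη₂ one_pos
  have hη1 : η ≤ 1 := hη ▸ min_le_right _ _
  have hη2 : η ≤ η₂ := hη ▸ min_le_left _ _
  obtain ⟨γ, θ, ψ, τ, n₃, hγ, hθ, hψ, hτ, hemb⟩ := emb_c Δ s (η / 2) (by linarith only [hη0])
    (by linarith only [hη1])
  obtain ⟨ε4, δC, hε4, hε41, hδC, hδC1, n₄, hdata⟩ := data_c η hη0 hη1 γ θ ψ τ hγ hθ hψ hτ
  obtain ⟨δ, hδ⟩ : ∃ δ : ℝ, δ = min δC (ε₁ / 4) := ⟨_, rfl⟩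
  have hδ0 : 0 < δ := by
    rw [hδ]
    exact lt_min hδC (by linarith only [hε₁])
  have hδ1 : δ ≤ δC := hδ ▸ min_le_left _ _
  have hδ2 : δ ≤ ε₁ / 4 := hδ ▸ min_le_right _ _
  have hδ3 : δ ≤ 1 / 100 := hδ1.trans hδC1
  obtain ⟨ρ, hρ, hρ1, εc, hεc, hcol⟩ := hcol ε4 δ hε4 hε41 hδ0 hδ3
  obtain ⟨ε, hε, hεεc, hab⟩ := upper_ab Δ K s δ ρ εc hδ0 hδ3 hρ hρ1 hεc
  obtain ⟨σ, hσ, hσ1, p, n₅, hp, hcol⟩ := hcol ε hε hεεc
  obtain ⟨n₆, hab⟩ := hab σ p hσ hσ1 hp
  refine ⟨n₃ + n₄ + n₅ + n₆ + 2, ?_⟩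
  intro V α _ _ _ E hH hK col Ss hSs hrb I hI hIc hI4 hn R U hBF k1 k2 k3 hD
  obtain ⟨n, hnn⟩ : ∃ n : ℕ, n = Fintype.card V := ⟨_, rfl⟩
  have hleI : I.card ≤ Fintype.card V := Finset.card_le_univ I
  rw [← hnn] at hn k1 k2 k3 hI4 hleI hD
  have k4 : n ≤ U.card := by omega
  have hD' : ∀ D ⊆ U, RedClique R D → (D.card : ℝ) < (1 - 4 * δ) * (n : ℝ) := by
    intro D hDU hDR
    have h3 : (0 : ℝ) ≤ n := Nat.cast_nonneg n
    have h4 : (1 - ε₁) * (n : ℝ) ≤ (1 - 4 * δ) * n :=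
      mul_le_mul_of_nonneg_right (by linarith only [hδ2]) h3
    exact (hD D hDU hDR).trans_le h4
  obtain ⟨N, hN, halt⟩ := hcol R U (by omega) hBF
  rcases halt with ⟨𝒦, h𝒦p, h𝒦, h𝒦d, h𝒦c, C₀, C₁, M, mk, q, hq, hM⟩ |
    ⟨W, hWU, hWd, hWc, hWe, hWr⟩
  · exact hab E hH hK col Ss hSs hrb I hI (by rw [← hnn]; exact hI4) (by omega) R U hBF
      (by rw [← hnn]; exact k1) (by rw [← hnn]; exact k2) (by rw [← hnn]; exact k3)
      (by rw [← hnn]; exact hD') N hN 𝒦 h𝒦p h𝒦 h𝒦d h𝒦c C₀ C₁ M mk q hq hM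
  · obtain ⟨T, A, Vm, t1, t2, t3, t4, t5, t6, t7, t8, t9, t10, t11, t12⟩ :=
      hdata R U n (n - I.card) (by omega) (by omega) (by omega) k3 k4 (by omega) W hWU hWd
      (fun i => le_trans (mul_le_mul_of_nonneg_right (by linarith only [hδ1])
        (Nat.cast_nonneg _)) (hWc i)) hWe
      (fun w hw => by
        obtain ⟨i, hi⟩ := hWr w hw
        exact ⟨i, le_trans (mul_le_mul_of_nonneg_right hη2 (by positivity)) hi⟩)
    refine hemb E hH Ss I hSs hI ?_ n hnn (by omega) hI4 R U hBF T A Vm t1 t2 t3 t4 t5 t6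
      (by omega) t8 (by omega) ((Finset.card_le_card t3).trans k3) t10 t11 t12
    intro f hf hfS
    obtain ⟨x, hx, hx0⟩ := UpperX_col f (hH.three f hf) col (hrb f hf hfS)
    exact ⟨x, Finset.mem_inter.2 ⟨hx, (hIc x).2 hx0⟩⟩

/-- a subset of `U` of suitable size -/
theorem UpperX_sub {α : Type*} (U : Finset α) (n a j : ℕ) (ha : a ≤ n) (hj : 1 ≤ j) (hj2 : j ≤ 2)
    (hn : 2 ≤ n) (h1 : 2 * n ≤ U.card + j) (h2 : 3 * n ≤ U.card + 3 * a + 2) :
    ∃ U' ⊆ U, 2 * n ≤ U'.card + j ∧ 3 * n ≤ U'.card + 3 * a + 2 ∧ U'.card ≤ 3 * n ∧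
      2 * n - j ≤ U'.card := by
  obtain ⟨m, hm⟩ : ∃ m : ℕ, m = max (2 * n - j) (3 * n - 3 * a - 2) := ⟨_, rfl⟩
  obtain ⟨U', hU', hU'c⟩ := Finset.exists_subset_card_eq (show m ≤ U.card by omega)
  exact ⟨U', hU', by omega, by omega, by omega, by omega⟩

/-- `I` is strongly independent, every edge outside of a bounded set `Ss` of vertices is coloured
with three colours by `col`, `I` is a colour class -/
theorem upper_x (Δ : ℕ) (K : ℕ → ℕ) (s : ℕ) :
    ∃ n₀ : ℕ, ∀ {V : Type*} {α : Type} [Fintype V] [DecidableEq V] [DecidableEq α]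
      (E : Finset (Finset V)) (_ : Hyp Finset.univ E Δ) (_ : Hyperfinite E K)
      (col : V → Fin 3) (Ss : Finset V) (_ : Ss.card ≤ s)
      (_ : ∀ f ∈ E, Disjoint f Ss → ∀ x ∈ f, ∀ y ∈ f, x ≠ y → col x ≠ col y)
      (I : Finset V) (_ : StrongIndep E I) (_ : ∀ x, x ∈ I ↔ col x = 0)
      (_ : n₀ ≤ Fintype.card V) (R : Finset α → Prop) (U : Finset α)
      (_ : 2 * Fintype.card V ≤ U.card + 1)
      (_ : 3 * Fintype.card V ≤ U.card + 3 * I.card + 2),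
      HasRed R Finset.univ E U ∨ BlueFano R U := by
  obtain ⟨ε₁, hε₁, hε₁1, n₁, hlarge⟩ := large_clique Δ
  obtain ⟨n₂, hupper⟩ := upper_hf Δ K (1 / 20) (by norm_num)
  obtain ⟨n₃, hcore⟩ := upper_core Δ K s ε₁ hε₁
  refine ⟨n₁ + n₂ + n₃ + 2, ?_⟩
  intro V α _ _ _ E hH hK col Ss hSs hrb I hI hIc hn R U hU1 hU2
  by_cases hBF : BlueFano R U
  · exact Or.inr hBF
  refine Or.inl ?_
  obtain ⟨n, hnn⟩ : ∃ n : ℕ, n = Fintype.card V := ⟨_, rfl⟩
  have hleI : I.card ≤ Fintype.card V := Finset.card_le_univ I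
  rw [← hnn] at hn hU1 hU2 hleI
  have hcardU : (Finset.univ : Finset V).card = n := by rw [Finset.card_univ, hnn]
  by_cases hI4 : 40 * n < 100 * I.card
  · -- a large strongly independent set
    obtain ⟨U', hU', hU'c⟩ := Finset.exists_subset_card_eq (show 2 * n - 1 ≤ U.card by omega)
    have h1 : (1 / 3 + 1 / 20) * (Fintype.card V : ℝ) ≤ (I.card : ℝ) := by
      rw [← hnn]
      have h2 : (40 * n : ℝ) < 100 * I.card := by exact_mod_cast hI4
      have h3 : (0 : ℝ) ≤ n := Nat.cast_nonneg n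
      linarith only [h2, h3]
    rcases hupper E hH hK I hI h1 (by omega) R U' (by rw [← hnn]; exact hU'c) with h2 | h2
    · exact UpperX_redMono hU' h2
    · exact absurd (SparseSet_mono hU' h2) hBF
  rw [not_lt] at hI4
  obtain ⟨U', hU', k1, k2, k3, k4⟩ := UpperX_sub U n I.card 1 hleI (by omega) (by omega)
    (by omega) hU1 hU2
  have hBF' : ¬ BlueFano R U' := fun h => hBF (SparseSet_mono hU' h)
  refine UpperX_redMono hU' ?_
  by_cases hD : ∃ D ⊆ U', RedClique R D ∧ (1 - ε₁) * (n : ℝ) ≤ (D.card : ℝ)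
  · obtain ⟨D, hDU, hDR, hDc⟩ := hD
    exact hlarge Finset.univ E hH R U' (by rw [hcardU]; exact k4) hBF' D hDU hDR
      (by rw [hcardU]; exact hDc) (by rw [hcardU]; omega)
  push Not at hD
  exact hcore E hH hK col Ss hSs hrb I hI hIc (by rw [← hnn]; exact hI4) (by omega) R U' hBF'
    (by rw [← hnn]; omega) (by rw [← hnn]; exact k2) (by rw [← hnn]; exact k3)
    (by rw [← hnn]; exact hD)

/-- the same for disconnected hypergraphs, one point less is enough -/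
theorem upper_xd (Δ : ℕ) (K : ℕ → ℕ) (s : ℕ) :
    ∃ n₀ : ℕ, ∀ {V : Type*} {α : Type} [Fintype V] [DecidableEq V] [DecidableEq α]
      (E : Finset (Finset V)) (_ : Hyp Finset.univ E Δ) (_ : Hyperfinite E K)
      (A : Finset V) (_ : A.Nonempty) (_ : A ≠ Finset.univ)
      (_ : ∀ f ∈ E, f ⊆ A ∨ Disjoint f A)
      (col : V → Fin 3) (Ss : Finset V) (_ : Ss.card ≤ s)
      (_ : ∀ f ∈ E, Disjoint f Ss → ∀ x ∈ f, ∀ y ∈ f, x ≠ y → col x ≠ col y)
      (I : Finset V) (_ : StrongIndep E I) (_ : ∀ x, x ∈ I ↔ col x = 0)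
      (_ : n₀ ≤ Fintype.card V) (R : Finset α → Prop) (U : Finset α)
      (_ : 2 * Fintype.card V ≤ U.card + 2)
      (_ : 3 * Fintype.card V ≤ U.card + 3 * I.card + 2),
      HasRed R Finset.univ E U ∨ BlueFano R U := by
  obtain ⟨ε₁, hε₁, hε₁1, n₁, hlarge⟩ := large_clique_d Δ
  obtain ⟨n₂, hupper⟩ := upper_hd Δ K (1 / 20) (by norm_num)
  obtain ⟨n₃, hcore⟩ := upper_core Δ K s ε₁ hε₁
  refine ⟨n₁ + n₂ + n₃ + 2, ?_⟩
  intro V α _ _ _ E hH hK A hA1 hA2 hA3 col Ss hSs hrb I hI hIc hn R U hU1 hU2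
  by_cases hBF : BlueFano R U
  · exact Or.inr hBF
  refine Or.inl ?_
  obtain ⟨n, hnn⟩ : ∃ n : ℕ, n = Fintype.card V := ⟨_, rfl⟩
  have hleI : I.card ≤ Fintype.card V := Finset.card_le_univ I
  rw [← hnn] at hn hU1 hU2 hleI
  have hcardU : (Finset.univ : Finset V).card = n := by rw [Finset.card_univ, hnn]
  by_cases hI4 : 40 * n < 100 * I.card
  · -- a large strongly independent set
    obtain ⟨U', hU', hU'c⟩ := Finset.exists_subset_card_eq (show 2 * n - 2 ≤ U.card by omega)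
    have h1 : (1 / 3 + 1 / 20) * (Fintype.card V : ℝ) ≤ (I.card : ℝ) := by
      rw [← hnn]
      have h2 : (40 * n : ℝ) < 100 * I.card := by exact_mod_cast hI4
      have h3 : (0 : ℝ) ≤ n := Nat.cast_nonneg n
      linarith only [h2, h3]
    rcases hupper E hH hK A hA1 hA2 hA3 I hI h1 (by omega) R U' (by rw [← hnn]; exact hU'c)
      with h2 | h2
    · exact UpperX_redMono hU' h2
    · exact absurd (SparseSet_mono hU' h2) hBF
  rw [not_lt] at hI4
  obtain ⟨U', hU', k1, k2, k3, k4⟩ := UpperX_sub U n I.card 2 hleI (by omega) (by omega)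
    (by omega) hU1 hU2
  have hBF' : ¬ BlueFano R U' := fun h => hBF (SparseSet_mono hU' h)
  refine UpperX_redMono hU' ?_
  by_cases hD : ∃ D ⊆ U', RedClique R D ∧ (1 - ε₁) * (n : ℝ) ≤ (D.card : ℝ)
  · obtain ⟨D, hDU, hDR, hDc⟩ := hD
    exact hlarge Finset.univ E hH A (Finset.subset_univ A) hA1 hA2 hA3 R U'
      (by rw [hcardU]; exact k4) hBF' D hDU hDR (by rw [hcardU]; exact hDc) (by rw [hcardU]; omega)
  push Not at hD
  exact hcore E hH hK col Ss hSs hrb I hI hIc (by rw [← hnn]; exact hI4) (by omega) R U' hBF'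
    (by rw [← hnn]; omega) (by rw [← hnn]; exact k2) (by rw [← hnn]; exact k3)
    (by rw [← hnn]; exact hD)

end Pool.MP7783b9
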